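import Pool.Agent.Lib.MP_0f5a55_nt.TT.D2

open Complex MeasureTheory Set Filter Topology
open scoped Real ComplexConjugate

namespace TT

theorem T27_range {N : ℕ} [NeZero N] (h : ZMod N → ℂ) :
    ∑ i ∈ Finset.range N, h (i : ZMod N) = ∑ x : ZMod N, h x := by
  refine Finset.sum_nbij' (fun i => (i : ZMod N)) ZMod.val ?_ ?_ ?_ ?_ ?_
  · intro i _
    exact Finset.mem_univ _
  · intro x _
    exact Finset.mem_range.2 (ZMod.val_lt x)
  · intro i hi
    exact ZMod.val_cast_of_lt (Finset.mem_range.1 hi)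
  · intro x _
    exact ZMod.natCast_zmod_val x
  · intro i _
    rfl

theorem T27_zero {q1 q2 : ℕ} [NeZero q1] [NeZero q2] {χ1 : DirichletCharacter ℂ q1}
    {χ2 : DirichletCharacter ℂ q2} (h : OO.Ne12 χ1 χ2) :
    ∑ x : ZMod (q1 * q2), χ1 (ZMod.castHom (Nat.dvd_mul_right q1 q2) (ZMod q1) x) *
      conj (χ2 (ZMod.castHom (Nat.dvd_mul_left q2 q1) (ZMod q2) x)) = 0 := by
  obtain ⟨n, hn, hne⟩ := h
  have : NeZero (q1 * q2) := ⟨mul_ne_zero (NeZero.ne q1) (NeZero.ne q2)⟩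
  set c : ℂ := χ1 (n : ZMod q1) * conj (χ2 (n : ZMod q2)) with hc
  have hu1 : IsUnit ((n : ZMod q1)) := (ZMod.isUnit_iff_coprime n q1).2 hn.coprime_mul_right_right
  have hu2 : IsUnit ((n : ZMod q2)) := (ZMod.isUnit_iff_coprime n q2).2 hn.coprime_mul_left_right
  have hu : IsUnit ((n : ZMod (q1 * q2))) := (ZMod.isUnit_iff_coprime n (q1 * q2)).2 hn
  have hc1 : c ≠ 1 := by
    intro h1
    apply hne
    have h2 : χ2 (n : ZMod q2) * conj (χ2 (n : ZMod q2)) = 1 := by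
      rw [Complex.mul_conj, Complex.normSq_eq_norm_sq]
      obtain ⟨u, hu⟩ := hu2
      rw [← hu, DirichletCharacter.unit_norm_eq_one]
      norm_num
    have h3 : conj (χ2 (n : ZMod q2)) ≠ 0 := by
      intro h0
      rw [h0, mul_zero] at h2
      exact zero_ne_one h2
    exact mul_right_cancel₀ h3 (h1.trans h2.symm)
  obtain ⟨u, hu'⟩ := hu
  set S := ∑ x : ZMod (q1 * q2), χ1 (ZMod.castHom (Nat.dvd_mul_right q1 q2) (ZMod q1) x) *
      conj (χ2 (ZMod.castHom (Nat.dvd_mul_left q2 q1) (ZMod q2) x)) with hS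
  have key : S = c * S := by
    rw [hS, Finset.mul_sum]
    rw [← Equiv.sum_comp (Units.mulLeft u)]
    refine Finset.sum_congr rfl fun x _ => ?_
    have e1 : ZMod.castHom (Nat.dvd_mul_right q1 q2) (ZMod q1) (n * x) =
        (n : ZMod q1) * ZMod.castHom (Nat.dvd_mul_right q1 q2) (ZMod q1) x := by
      rw [map_mul, map_natCast]
    have e2 : ZMod.castHom (Nat.dvd_mul_left q2 q1) (ZMod q2) (n * x) =
        (n : ZMod q2) * ZMod.castHom (Nat.dvd_mul_left q2 q1) (ZMod q2) x := by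
      rw [map_mul, map_natCast]
    rw [Units.mulLeft_apply, hu', e1, e2, map_mul χ1, map_mul χ2, map_mul (starRingEnd ℂ), hc]
    ring
  have h4 : (1 - c) * S = 0 := by
    rw [sub_mul, one_mul, ← key, sub_self]
  rcases mul_eq_zero.1 h4 with h5 | h5
  · exact absurd (sub_eq_zero.1 h5).symm hc1
  · exact h5

/-- Row T27. Different characters: bounded partial sums. -/
theorem psum {q1 q2 : ℕ} [NeZero q1] [NeZero q2] {χ1 : DirichletCharacter ℂ q1}
    {χ2 : DirichletCharacter ℂ q2} (h : OO.Ne12 χ1 χ2) : ∃ M : ℝ, ∀ N : ℕ,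
      ‖∑ g ∈ Finset.range N, χ1 ((g + 1 : ℕ) : ZMod q1) * conj (χ2 ((g + 1 : ℕ) : ZMod q2))‖ ≤ M := by
  have : NeZero (q1 * q2) := ⟨mul_ne_zero (NeZero.ne q1) (NeZero.ne q2)⟩
  set G : ℕ → ℂ := fun N => ∑ g ∈ Finset.range N,
    χ1 ((g + 1 : ℕ) : ZMod q1) * conj (χ2 ((g + 1 : ℕ) : ZMod q2)) with hG
  have hper : Function.Periodic G (q1 * q2) := by
    intro M
    have h0 := T27_zero h
    rw [← Equiv.sum_comp (Equiv.addLeft ((M + 1 : ℕ) : ZMod (q1 * q2))), ← T27_range] at h0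
    rw [hG]
    simp only
    rw [Finset.sum_range_add]
    rw [add_eq_left, ← h0]
    refine Finset.sum_congr rfl fun i _ => ?_
    have e3 : (Equiv.addLeft ((M + 1 : ℕ) : ZMod (q1 * q2))) (i : ZMod (q1 * q2)) =
        ((M + i + 1 : ℕ) : ZMod (q1 * q2)) := by
      rw [Equiv.coe_addLeft]
      push_cast
      ring
    rw [e3, map_natCast (ZMod.castHom (Nat.dvd_mul_right q1 q2) (ZMod q1)),
      map_natCast (ZMod.castHom (Nat.dvd_mul_left q2 q1) (ZMod q2))]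
  refine ⟨q1 * q2, fun N => ?_⟩
  change ‖G N‖ ≤ _
  rw [← hper.map_mod_nat]
  rw [hG]
  refine (norm_sum_le _ _).trans ?_
  have h1 : ∀ g ∈ Finset.range (N % (q1 * q2)),
      ‖χ1 ((g + 1 : ℕ) : ZMod q1) * conj (χ2 ((g + 1 : ℕ) : ZMod q2))‖ ≤ 1 := by
    intro g _
    rw [norm_mul, RCLike.norm_conj]
    exact mul_le_one₀ (DirichletCharacter.norm_le_one _ _) (norm_nonneg _)
      (DirichletCharacter.norm_le_one _ _)
  refine (Finset.sum_le_sum h1).trans ?_
  rw [Finset.sum_const, Finset.card_range, nsmul_eq_mul, mul_one]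
  have h2 : N % (q1 * q2) ≤ q1 * q2 :=
    (Nat.mod_lt _ (Nat.pos_of_ne_zero (NeZero.ne (q1 * q2)))).le
  exact_mod_cast h2

end TT
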