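import Pool.Agent.Lib.MP_0f5a55_nt.TT.T00

open Complex MeasureTheory Set Filter Topology
open scoped Real ComplexConjugate

namespace TT

theorem T04_norm {q : ℕ} {f : ℕ → ℂ} (hf : ∀ n, ‖f n‖ ≤ 1) (p : ℕ) (z : ℂ) (n : ℕ) :
    ‖f (n + 1) * ((n : ℂ) + 1) ^ p * exp (-(π * ((n : ℂ) + 1) ^ 2 * z / q))‖ ≤
      ((n : ℝ) + 1) ^ p * Real.exp (-(π * ((n : ℝ) + 1) ^ 2 * z.re / q)) := by
  rw [norm_mul, norm_mul, norm_pow, Complex.norm_exp]
  have h1 : ‖(n : ℂ) + 1‖ = (n : ℝ) + 1 := by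
    have : ((n : ℂ) + 1) = (((n : ℝ) + 1 : ℝ) : ℂ) := by push_cast; ring
    rw [this, Complex.norm_real, Real.norm_of_nonneg (by positivity)]
  have h2 : (-(π * ((n : ℂ) + 1) ^ 2 * z / q)).re = -(π * ((n : ℝ) + 1) ^ 2 * z.re / q) := by
    have : (-(π * ((n : ℂ) + 1) ^ 2 * z / q)) = ((-(π * ((n : ℝ) + 1) ^ 2 / q) : ℝ) : ℂ) * z := by
      push_cast; ring
    rw [this, re_ofReal_mul]
    ring
  rw [h1, h2]
  have h3 : ‖f (n + 1)‖ * ((n : ℝ) + 1) ^ p ≤ ((n : ℝ) + 1) ^ p :=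
    mul_le_of_le_one_left (by positivity) (hf _)
  exact mul_le_mul_of_nonneg_right h3 (Real.exp_pos _).le

theorem T04_term {p : ℕ} {d : ℝ} (hd : 0 < d) (n : ℕ) :
    ((n : ℝ) + 1) ^ p * Real.exp (-(d ^ 2 * ((n : ℝ) + 1) ^ 2)) ≤
      (p.factorial * Real.exp 1) * (d⁻¹) ^ p * Real.exp (-(d * ((n : ℝ) + 1))) := by
  set t : ℝ := d * ((n : ℝ) + 1) with ht
  have ht0 : 0 ≤ t := by positivity
  have h1 : t ^ p ≤ p.factorial * Real.exp t := by
    have := Real.pow_div_factorial_le_exp t ht0 p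
    rw [div_le_iff₀ (by positivity)] at this
    linarith
  have h2 : ((n : ℝ) + 1) ^ p = (d⁻¹) ^ p * t ^ p := by
    rw [ht, mul_pow, ← mul_assoc, ← mul_pow, inv_mul_cancel₀ hd.ne', one_pow, one_mul]
  have h3 : Real.exp t * Real.exp (-(t ^ 2)) ≤ Real.exp 1 * Real.exp (-t) := by
    rw [← Real.exp_add, ← Real.exp_add]
    refine Real.exp_le_exp.2 ?_
    nlinarith [sq_nonneg (t - 1)]
  have h4 : d ^ 2 * ((n : ℝ) + 1) ^ 2 = t ^ 2 := by rw [ht]; ring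
  rw [h4, h2]
  have hd' : 0 ≤ (d⁻¹) ^ p := by positivity
  calc (d⁻¹) ^ p * t ^ p * Real.exp (-(t ^ 2))
      ≤ (d⁻¹) ^ p * (p.factorial * Real.exp t) * Real.exp (-(t ^ 2)) := by gcongr
    _ = (d⁻¹) ^ p * p.factorial * (Real.exp t * Real.exp (-(t ^ 2))) := by ring
    _ ≤ (d⁻¹) ^ p * p.factorial * (Real.exp 1 * Real.exp (-t)) := by gcongr
    _ = _ := by ring

theorem T04_geom {d : ℝ} (hd : 0 < d) :
    Summable (fun n : ℕ => Real.exp (-(d * ((n : ℝ) + 1)))) ∧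
      ∑' n : ℕ, Real.exp (-(d * ((n : ℝ) + 1))) ≤ d⁻¹ := by
  have hr0 : 0 ≤ Real.exp (-d) := (Real.exp_pos _).le
  have hr1 : Real.exp (-d) < 1 := by
    rw [Real.exp_lt_one_iff]; linarith
  have he : ∀ n : ℕ, Real.exp (-(d * ((n : ℝ) + 1))) = Real.exp (-d) * Real.exp (-d) ^ n := by
    intro n
    rw [← Real.exp_nat_mul, ← Real.exp_add]
    congr 1
    ring
  have hs : HasSum (fun n : ℕ => Real.exp (-(d * ((n : ℝ) + 1)))) (Real.exp (-d) * (1 - Real.exp (-d))⁻¹) := by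
    simp_rw [he]
    exact (hasSum_geometric_of_lt_one hr0 hr1).mul_left _
  refine ⟨hs.summable, ?_⟩
  rw [hs.tsum_eq]
  have h1 : 0 < 1 - Real.exp (-d) := by linarith
  rw [← div_eq_mul_inv, div_le_iff₀ h1, inv_mul_eq_div, le_div_iff₀ hd]
  have h2 : d + 1 ≤ Real.exp d := Real.add_one_le_exp d
  have h3 : Real.exp (-d) * Real.exp d = 1 := by rw [← Real.exp_add]; simp
  nlinarith [mul_le_mul_of_nonneg_left h2 hr0]

/-- domination by the series with parameter d, d ^ 2 * q at most π Re z -/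
theorem T04_dom {q : ℕ} (hq : 0 < q) {f : ℕ → ℂ} (hf : ∀ n, ‖f n‖ ≤ 1) (p : ℕ) {z : ℂ} {d : ℝ} (hd : 0 < d)
    (hz : d ^ 2 ≤ π * z.re / q) (n : ℕ) :
    ‖f (n + 1) * ((n : ℂ) + 1) ^ p * exp (-(π * ((n : ℂ) + 1) ^ 2 * z / q))‖ ≤
      (p.factorial * Real.exp 1) * (d⁻¹) ^ p * Real.exp (-(d * ((n : ℝ) + 1))) := by
  refine (T04_norm hf p z n).trans (le_trans ?_ (T04_term hd n))
  refine mul_le_mul_of_nonneg_left (Real.exp_le_exp.2 (neg_le_neg ?_)) (by positivity)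
  have : π * ((n : ℝ) + 1) ^ 2 * z.re / q = (π * z.re / q) * ((n : ℝ) + 1) ^ 2 := by ring
  rw [this]
  exact mul_le_mul_of_nonneg_right hz (by positivity)

theorem T04_domsum (p : ℕ) {d : ℝ} (hd : 0 < d) :
    Summable (fun n : ℕ => (p.factorial * Real.exp 1) * (d⁻¹) ^ p * Real.exp (-(d * ((n : ℝ) + 1)))) :=
  (T04_geom hd).1.mul_left _

/-- Row T04. Basic facts on the theta series. -/
theorem th_summable {q : ℕ} (hq : 0 < q) {f : ℕ → ℂ} (hf : ∀ n, ‖f n‖ ≤ 1) (p : ℕ) {z : ℂ} (hz : 0 < z.re) :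
    Summable (fun n : ℕ => ‖f (n + 1) * ((n : ℂ) + 1) ^ p * exp (-(π * ((n : ℂ) + 1) ^ 2 * z / q))‖) := by
  have hq' : (0 : ℝ) < q := by exact_mod_cast hq
  have hx : 0 < π * z.re / q := by positivity
  have hd : 0 < Real.sqrt (π * z.re / q) := Real.sqrt_pos.2 hx
  refine Summable.of_nonneg_of_le (fun n => norm_nonneg _)
    (fun n => T04_dom hq hf p hd (le_of_eq (Real.sq_sqrt hx.le)) n) (T04_domsum p hd)

theorem T04_bound {q : ℕ} (hq : 0 < q) {f : ℕ → ℂ} (hf : ∀ n, ‖f n‖ ≤ 1) (p : ℕ) {z : ℂ} {d : ℝ} (hd : 0 < d)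
    (hz : d ^ 2 ≤ π * z.re / q) : ‖th q f p z‖ ≤ (p.factorial * Real.exp 1) * (d⁻¹) ^ (p + 1) := by
  unfold th
  refine (tsum_of_norm_bounded (T04_domsum p hd).hasSum (fun n => T04_dom hq hf p hd hz n)).trans ?_
  rw [tsum_mul_left, pow_succ, ← mul_assoc]
  refine mul_le_mul_of_nonneg_left (T04_geom hd).2 (by positivity)

theorem T04_contOn {q : ℕ} (hq : 0 < q) {f : ℕ → ℂ} (hf : ∀ n, ‖f n‖ ≤ 1) (p : ℕ) {d : ℝ} (hd : 0 < d) :
    ContinuousOn (th q f p) {z : ℂ | d ^ 2 ≤ π * z.re / q} := by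
  refine continuousOn_tsum (fun n => ?_) (T04_domsum p hd) (fun n z hz => T04_dom hq hf p hd hz n)
  refine Continuous.continuousOn ?_
  fun_prop

theorem T04_contAt {q : ℕ} (hq : 0 < q) {f : ℕ → ℂ} (hf : ∀ n, ‖f n‖ ≤ 1) (p : ℕ) {z : ℂ} (hz : 0 < z.re) :
    ContinuousAt (th q f p) z := by
  have hq' : (0 : ℝ) < q := by exact_mod_cast hq
  have hx : 0 < π * (z.re / 2) / q := by positivity
  have hd : 0 < Real.sqrt (π * (z.re / 2) / q) := Real.sqrt_pos.2 hx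
  refine (T04_contOn hq hf p hd).continuousAt ?_
  have h1 : {w : ℂ | z.re / 2 < w.re} ∈ 𝓝 z :=
    (isOpen_lt continuous_const Complex.continuous_re).mem_nhds (by
      show z.re / 2 < z.re
      linarith)
  refine Filter.mem_of_superset h1 (fun w hw => ?_)
  show Real.sqrt (π * (z.re / 2) / q) ^ 2 ≤ π * w.re / q
  rw [Real.sq_sqrt hx.le]
  have hw' : z.re / 2 ≤ w.re := le_of_lt hw
  gcongr

theorem rho_cont {q : ℕ} (hq : 0 < q) {f : ℕ → ℂ} (hf : ∀ n, ‖f n‖ ≤ 1) (p : ℕ) {ε : ℝ} (h0 : 0 < ε)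
    (h1 : ε ≤ 1 / 2) : Continuous (rho q f p ε) := by
  rw [continuous_iff_continuousAt]
  intro u
  unfold rho
  have hs := sin_pos' h0 h1
  have hz : 0 < (zp ε (Real.exp (2 * u))).re := by
    rw [zp_re]
    exact mul_pos (Real.exp_pos _) hs
  have hc : Continuous (fun u : ℝ => zp ε (Real.exp (2 * u))) := by
    unfold zp
    fun_prop
  have h2 : ContinuousAt (fun u : ℝ => th q f p (zp ε (Real.exp (2 * u)))) u :=
    ContinuousAt.comp (f := fun u : ℝ => zp ε (Real.exp (2 * u))) (T04_contAt hq hf p hz) hc.continuousAt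
  refine ContinuousAt.mul ?_ h2
  refine Continuous.continuousAt ?_
  fun_prop

theorem rho_triv {q : ℕ} (hq : 0 < q) (p : ℕ) : ∃ C : ℝ, 0 ≤ C ∧ ∀ f : ℕ → ℂ, (∀ n, ‖f n‖ ≤ 1) →
    ∀ ε : ℝ, 0 < ε → ε ≤ 1 / 2 → ∀ u : ℝ,
      ‖rho q f p ε u‖ ≤ C * ε ^ (-((1 + p : ℝ) / 2)) * Real.exp (-(u / 2)) := by
  have hq' : (0 : ℝ) < q := by exact_mod_cast hq
  refine ⟨(p.factorial * Real.exp 1) * (q : ℝ) ^ ((1 + p : ℝ) / 2), by positivity, ?_⟩
  intro f hf ε h0 h1 u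
  have hs := sin_ge h0 h1
  set d : ℝ := Real.sqrt (ε / q) * Real.exp u with hd
  have hd0 : 0 < d := by
    have : 0 < Real.sqrt (ε / q) := Real.sqrt_pos.2 (by positivity)
    positivity
  have hz : d ^ 2 ≤ π * (zp ε (Real.exp (2 * u))).re / q := by
    rw [zp_re, hd, mul_pow, Real.sq_sqrt (by positivity), ← Real.exp_nat_mul]
    have h2 : 2 * ε ≤ π * Real.sin ε := by
      have h3 := mul_le_mul_of_nonneg_left hs Real.pi_pos.le
      have h4 : π * (2 / π * ε) = 2 * ε := by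
        field_simp
      linarith
    have h5 : π * (Real.exp (2 * u) * Real.sin ε) / q = (π * Real.sin ε) / q * Real.exp (2 * u) := by ring
    rw [h5]
    push_cast
    have h6 : ε / q ≤ π * Real.sin ε / q := by
      gcongr
      linarith
    exact mul_le_mul_of_nonneg_right h6 (Real.exp_pos _).le
  have hb := T04_bound hq hf p hd0 hz
  unfold rho
  rw [norm_mul, Complex.norm_real, Real.norm_of_nonneg (Real.exp_pos _).le]
  have e1 : (d⁻¹) ^ (p + 1) = (q : ℝ) ^ ((1 + p : ℝ) / 2) * ε ^ (-((1 + p : ℝ) / 2)) *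
      Real.exp (-((1 + p) * u)) := by
    rw [hd, mul_inv, mul_pow, ← Real.exp_neg, ← Real.exp_nat_mul]
    have e2 : (Real.sqrt (ε / q))⁻¹ ^ (p + 1) = (q : ℝ) ^ ((1 + p : ℝ) / 2) * ε ^ (-((1 + p : ℝ) / 2)) := by
      rw [Real.sqrt_eq_rpow, ← Real.rpow_neg (by positivity), ← Real.rpow_natCast, ← Real.rpow_mul (by positivity)]
      have e3 : -(1 / 2 : ℝ) * ((p + 1 : ℕ) : ℝ) = -((1 + p : ℝ) / 2) := by
        push_cast; ring
      rw [e3, Real.div_rpow h0.le hq'.le, Real.rpow_neg hq'.le, div_inv_eq_mul, mul_comm]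
    rw [e2]
    congr 2
    push_cast
    ring
  calc Real.exp ((1 / 2 + p) * u) * ‖th q f p (zp ε (Real.exp (2 * u)))‖
      ≤ Real.exp ((1 / 2 + p) * u) * ((p.factorial * Real.exp 1) * (d⁻¹) ^ (p + 1)) := by gcongr
    _ = (p.factorial * Real.exp 1) * (q : ℝ) ^ ((1 + p : ℝ) / 2) * ε ^ (-((1 + p : ℝ) / 2)) *
        (Real.exp ((1 / 2 + p) * u) * Real.exp (-((1 + p) * u))) := by rw [e1]; ring
    _ = _ := by
      rw [← Real.exp_add]
      congr 2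
      ring

theorem rho_dec {q : ℕ} (hq : 0 < q) {f : ℕ → ℂ} (hf : ∀ n, ‖f n‖ ≤ 1) (p : ℕ) {ε : ℝ} (h0 : 0 < ε)
    (h1 : ε ≤ 1 / 2) : Dec (rho q f p ε) := by
  obtain ⟨C, _, hC⟩ := rho_triv hq p
  exact ⟨rho_cont hq hf p h0 h1, _, fun u _ => hC f hf ε h0 h1 u⟩

end TT
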