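import Pool.Agent.Lib.MP_0f5a55_nt.TT.T15

open Complex MeasureTheory Set Filter Topology
open scoped Real ComplexConjugate ENNReal

namespace TT

theorem T16_int {f h : ℝ → ℂ} (hf : Dec f) (hh : Dec h) {v : ℝ} (hv : -1 ≤ v) :
    Integrable (fun u : ℝ => ‖f u‖ * ‖h (u + v)‖ * tau u) := by
  obtain ⟨cf, Cf, hCf⟩ := hf
  obtain ⟨ch, Ch, hCh⟩ := hh
  have hg : Integrable (fun u : ℝ => (Ioi (-1 : ℝ)).indicator
      (fun u => Real.exp (-u) * (|Cf| * |Ch| * Real.exp (-(v / 2)))) u) := by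
    rw [integrable_indicator_iff measurableSet_Ioi]
    exact (integrableOn_exp_neg_Ioi _).mul_const _
  refine hg.mono' ?_ (Eventually.of_forall fun u => ?_)
  · exact ((cf.norm.mul (ch.comp (continuous_id.add continuous_const)).norm).mul
      tau_cont).aestronglyMeasurable
  · rw [Real.norm_of_nonneg (mul_nonneg (mul_nonneg (norm_nonneg _) (norm_nonneg _)) (tau_nonneg _))]
    rcases le_or_gt u (-1) with hu | hu
    · rw [tau_zero hu, mul_zero]
      refine indicator_nonneg (fun x _ => ?_) u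
      positivity
    · rw [indicator_of_mem (mem_Ioi.2 hu)]
      have a1 : ‖f u‖ ≤ |Cf| * Real.exp (-(u / 2)) :=
        (hCf u (by linarith)).trans (mul_le_mul_of_nonneg_right (le_abs_self _) (Real.exp_pos _).le)
      have a2 : ‖h (u + v)‖ ≤ |Ch| * Real.exp (-((u + v) / 2)) :=
        (hCh (u + v) (by linarith)).trans
          (mul_le_mul_of_nonneg_right (le_abs_self _) (Real.exp_pos _).le)
      have a3 : ‖f u‖ * ‖h (u + v)‖ ≤
          (|Cf| * Real.exp (-(u / 2))) * (|Ch| * Real.exp (-((u + v) / 2))) :=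
        mul_le_mul a1 a2 (norm_nonneg _) (by positivity)
      have a4 : Real.exp (-(u / 2)) * Real.exp (-((u + v) / 2)) =
          Real.exp (-u) * Real.exp (-(v / 2)) := by
        rw [← Real.exp_add, ← Real.exp_add]
        congr 1
        ring
      calc ‖f u‖ * ‖h (u + v)‖ * tau u ≤ ‖f u‖ * ‖h (u + v)‖ * 1 :=
            mul_le_mul_of_nonneg_left (tau_le_one _) (by positivity)
        _ = ‖f u‖ * ‖h (u + v)‖ := mul_one _
        _ ≤ _ := a3
        _ = |Cf| * |Ch| * (Real.exp (-(u / 2)) * Real.exp (-((u + v) / 2))) := by ring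
        _ = Real.exp (-u) * (|Cf| * |Ch| * Real.exp (-(v / 2))) := by rw [a4]; ring

theorem T16_sum {f h : ℝ → ℂ} (hf : Dec f) (hh : Dec h) {W : ℝ → ℝ} (hW : Adm W) {v : ℝ}
    (hv : -1 ≤ v) :
    HasSum (fun k : ℕ => ∫ u : ℝ, f u * conj (h (u + v)) * ((phi (u - k) * W (u + v) : ℝ) : ℂ))
      (∫ u : ℝ, f u * conj (h (u + v)) * ((tau u * W (u + v) : ℝ) : ℂ)) := by
  have hc : Continuous fun u : ℝ => h (u + v) := hh.1.comp (continuous_id.add continuous_const)
  have hw : Continuous fun u : ℝ => W (u + v) := hW.cont.comp (continuous_id.add continuous_const)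
  refine hasSum_integral_of_dominated_convergence
    (fun (k : ℕ) (u : ℝ) => ‖f u‖ * ‖h (u + v)‖ * phi (u - k)) (fun k => ?_)
    (fun k => Eventually.of_forall fun u => ?_) (Eventually.of_forall fun u => ?_) ?_
    (Eventually.of_forall fun u => ?_)
  · refine Continuous.aestronglyMeasurable ?_
    refine (hf.1.mul (Complex.continuous_conj.comp hc)).mul
      (Complex.continuous_ofReal.comp ((phi_cont.comp (continuous_id.sub continuous_const)).mul hw))
  · rw [norm_mul, norm_mul, RCLike.norm_conj, Complex.norm_real,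
      Real.norm_of_nonneg (mul_nonneg (phi_nonneg _) (hW.nonneg _))]
    refine mul_le_mul_of_nonneg_left ?_ (by positivity)
    exact mul_le_of_le_one_right (phi_nonneg _) (hW.le_one _)
  · exact ((phi_hasSum u).mul_left _).summable
  · have : (fun u : ℝ => ∑' k : ℕ, ‖f u‖ * ‖h (u + v)‖ * phi (u - k)) =
        fun u => ‖f u‖ * ‖h (u + v)‖ * tau u := by
      funext u
      exact ((phi_hasSum u).mul_left _).tsum_eq
    rw [this]
    exact T16_int hf hh hv
  · refine HasSum.mul_left _ ?_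
    exact_mod_cast (Complex.hasSum_ofReal.2 ((phi_hasSum u).mul_right (W (u + v))))

theorem T16_inner {f g h : ℝ → ℂ} (hf : Dec f) (hh : Dec h) {W : ℝ → ℝ} (hW : Adm W) (v : ℝ) :
    ‖∫ u : ℝ, f u * g v * conj (h (u + v)) * ((tau u * tau v * W (u + v) : ℝ) : ℂ)‖ₑ ≤
      (Ioi (-1 : ℝ)).indicator (fun v => ∑' k : ℕ, ‖g v‖ₑ *
        ‖∫ u : ℝ, f u * conj (h (u + v)) * ((phi (u - k) * W (u + v) : ℝ) : ℂ)‖ₑ) v := by
  rcases le_or_gt v (-1) with hv | hv
  · have : (fun u : ℝ => f u * g v * conj (h (u + v)) * ((tau u * tau v * W (u + v) : ℝ) : ℂ)) =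
        fun _ => 0 := by
      funext u
      rw [tau_zero hv]
      simp
    rw [this, integral_zero, enorm_zero]
    exact zero_le
  · rw [indicator_of_mem (mem_Ioi.2 hv)]
    have h1 := T16_sum hf hh hW hv.le
    have h2 : (∫ u : ℝ, f u * g v * conj (h (u + v)) * ((tau u * tau v * W (u + v) : ℝ) : ℂ)) =
        (g v * (tau v : ℂ)) *
          ∫ u : ℝ, f u * conj (h (u + v)) * ((tau u * W (u + v) : ℝ) : ℂ) := by
      rw [← integral_const_mul]
      refine integral_congr_ae (Eventually.of_forall fun u => ?_)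
      simp only
      push_cast
      ring
    rw [h2, ← h1.tsum_eq, enorm_mul, ENNReal.tsum_mul_left]
    refine mul_le_mul' ?_ ?_
    · rw [enorm_mul]
      refine mul_le_of_le_one_right zero_le ?_
      rw [← ofReal_norm, Complex.norm_real, Real.norm_of_nonneg (tau_nonneg _)]
      exact ENNReal.ofReal_le_one.2 (tau_le_one _)
    · exact enorm_tsum_le_tsum_enorm

/-- Row T16. The trilinear form of three theta functions. -/
theorem te_bound {qa qc : ℕ} (ha : 0 < qa) (hc : 0 < qc) {fa fc : ℕ → ℂ}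
    (ma : ∀ m n : ℕ, fa (m * n) = fa m * fa n) (mc : ∀ m n : ℕ, fc (m * n) = fc m * fc n)
    (ba : ∀ n, ‖fa n‖ ≤ 1) (bc : ∀ n, ‖fc n‖ ≤ 1) {M : ℝ}
    (hM : ∀ N : ℕ, ‖∑ g ∈ Finset.range N, fa (g + 1) * conj (fc (g + 1))‖ ≤ M) (pa pc : ℕ)
    {qb : ℕ} [NeZero qb] (χ : DirichletCharacter ℂ qb) (pb : ℕ) (hpar : χ (-1) = (-1) ^ pb)
    (hq : 1 < qb ∨ 0 < pb) :
    ∃ C : ℝ, 0 ≤ C ∧ ∀ W : ℝ → ℝ, Adm W → ∀ ε : ℝ, 0 < ε → ε ≤ 1 / 2 →
      ‖Jf (rho qa fa pa ε) (rho qb (fun n => χ n) pb ε) (rho qc fc pc ε) W‖ ≤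
        C * ε ^ (-(1 / 4 + (pb : ℝ) / 2 + max (((pa + pc : ℕ) : ℝ) / 2) 2)) := by
  obtain ⟨C, hC0, hC⟩ := box ha hc ma mc ba bc hM pa pc χ pb hpar hq
  have s1 : Summable (fun k : ℕ => Real.exp (-(k / 2 : ℝ))) := by
    have := Real.summable_exp_nat_mul_iff.2 (show (-(1 / 2) : ℝ) < 0 by norm_num)
    refine this.congr fun k => ?_
    congr 1
    ring
  have s2 : Summable (fun k : ℕ => Real.exp (-(k / 4 : ℝ))) := by
    have := Real.summable_exp_nat_mul_iff.2 (show (-(1 / 4) : ℝ) < 0 by norm_num)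
    refine this.congr fun k => ?_
    congr 1
    ring
  set S1 : ℝ := ∑' k : ℕ, Real.exp (-(k / 2 : ℝ)) with hS1
  set S2 : ℝ := ∑' k : ℕ, Real.exp (-(k / 4 : ℝ)) with hS2
  have p1 : 0 ≤ S1 := tsum_nonneg fun k => (Real.exp_pos _).le
  have p2 : 0 ≤ S2 := tsum_nonneg fun k => (Real.exp_pos _).le
  refine ⟨C * (S1 * S2), by positivity, fun W hW ε h0 h1 => ?_⟩
  set E : ℝ := ε ^ (-(1 / 4 + (pb : ℝ) / 2 + max (((pa + pc : ℕ) : ℝ) / 2) 2)) with hE
  have pE : 0 ≤ E := Real.rpow_nonneg h0.le _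
  have hf : Dec (rho qa fa pa ε) := rho_dec ha ba pa h0 h1
  have hh : Dec (rho qc fc pc ε) := rho_dec hc bc pc h0 h1
  have cb : Continuous (rho qb (fun n => χ n) pb ε) :=
    rho_cont (Nat.pos_of_ne_zero (NeZero.ne qb)) (fun n => χ.norm_le_one _) pb h0 h1
  have key : ‖Jf (rho qa fa pa ε) (rho qb (fun n => χ n) pb ε) (rho qc fc pc ε) W‖ₑ ≤
      ENNReal.ofReal (C * (S1 * S2) * E) := by
    calc ‖Jf (rho qa fa pa ε) (rho qb (fun n => χ n) pb ε) (rho qc fc pc ε) W‖ₑ
        ≤ ∫⁻ v : ℝ, ‖∫ u : ℝ, rho qa fa pa ε u * rho qb (fun n => χ n) pb ε v *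
            conj (rho qc fc pc ε (u + v)) * ((tau u * tau v * W (u + v) : ℝ) : ℂ)‖ₑ :=
          enorm_integral_le_lintegral_enorm _
      _ ≤ ∫⁻ v : ℝ, (Ioi (-1 : ℝ)).indicator (fun v => ∑' k : ℕ,
            ‖rho qb (fun n => χ n) pb ε v‖ₑ * ‖Gk qa qc fa fc pa pc W ε k v‖ₑ) v :=
          lintegral_mono fun v => T16_inner hf hh hW v
      _ = ∫⁻ v in Ioi (-1 : ℝ), ∑' k : ℕ,
            ‖rho qb (fun n => χ n) pb ε v‖ₑ * ‖Gk qa qc fa fc pa pc W ε k v‖ₑ :=
          lintegral_indicator measurableSet_Ioi _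
      _ = ∑' k : ℕ, ∫⁻ v in Ioi (-1 : ℝ),
            ‖rho qb (fun n => χ n) pb ε v‖ₑ * ‖Gk qa qc fa fc pa pc W ε k v‖ₑ := by
          refine lintegral_tsum fun k => ?_
          exact (cb.enorm.measurable.mul
            (Gk_meas ha hc ba bc pa pc hW h0 h1 k).measurable.enorm).aemeasurable
      _ ≤ ∑' k : ℕ, ∑' l : ℕ, ∫⁻ v in Icc ((l : ℝ) - 1) l,
            ‖rho qb (fun n => χ n) pb ε v‖ₑ * ‖Gk qa qc fa fc pa pc W ε k v‖ₑ := by
          refine ENNReal.tsum_le_tsum fun k => ?_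
          refine (lintegral_mono_set ?_).trans (lintegral_iUnion_le _ _)
          intro v hv
          rw [mem_Ioi] at hv
          refine mem_iUnion.2 ⟨⌈v⌉₊, ?_, Nat.le_ceil v⟩
          rcases le_or_gt v 0 with h | h
          · rw [Nat.ceil_eq_zero.2 h]
            push_cast
            linarith
          · have := Nat.ceil_lt_add_one h.le
            linarith
      _ ≤ ∑' k : ℕ, ∑' l : ℕ, ENNReal.ofReal (C * E *
            (Real.exp (-(k / 2 : ℝ)) * Real.exp (-(l / 4 : ℝ)))) := by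
          refine ENNReal.tsum_le_tsum fun k => ENNReal.tsum_le_tsum fun l => ?_
          obtain ⟨hi, hb⟩ := hC W hW ε h0 h1 k l
          have e : ∀ v : ℝ, ‖rho qb (fun n => χ n) pb ε v‖ₑ * ‖Gk qa qc fa fc pa pc W ε k v‖ₑ =
              ENNReal.ofReal (‖rho qb (fun n => χ n) pb ε v‖ * ‖Gk qa qc fa fc pa pc W ε k v‖) := by
            intro v
            rw [ENNReal.ofReal_mul (norm_nonneg _), ofReal_norm, ofReal_norm]
          simp only [e]
          rw [← ofReal_integral_eq_lintegral_ofReal hi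
            (Eventually.of_forall fun v => mul_nonneg (norm_nonneg _) (norm_nonneg _))]
          exact ENNReal.ofReal_le_ofReal hb
      _ = ENNReal.ofReal (C * (S1 * S2) * E) := by
          have e1 : ∀ k : ℕ, ∑' l : ℕ, ENNReal.ofReal (C * E *
              (Real.exp (-(k / 2 : ℝ)) * Real.exp (-(l / 4 : ℝ)))) =
              ENNReal.ofReal (C * E * S2 * Real.exp (-(k / 2 : ℝ))) := by
            intro k
            rw [← ENNReal.ofReal_tsum_of_nonneg (fun l => by positivity)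
              ((s2.mul_left _).mul_left _), tsum_mul_left, tsum_mul_left, ← hS2]
            congr 1
            ring
          simp only [e1]
          rw [← ENNReal.ofReal_tsum_of_nonneg (fun k => by positivity) (s1.mul_left _),
            tsum_mul_left, ← hS1]
          congr 1
          ring
  rw [← ofReal_norm] at key
  exact (ENNReal.ofReal_le_ofReal_iff (by positivity)).1 key

end TT
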