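import Pool.Agent.Lib.MP_0f5a55_nt.TT.T00

open Complex MeasureTheory Set Filter Topology
open scoped Real ComplexConjugate

namespace TT

/-- the integrand of Jf as a function on the plane -/
noncomputable def T17_P (f g h : ℝ → ℂ) (W : ℝ → ℝ) (x : ℝ × ℝ) : ℂ :=
  f x.2 * g x.1 * conj (h (x.2 + x.1)) * ((tau x.2 * tau x.1 * W (x.2 + x.1) : ℝ) : ℂ)

/-- the dominating exponential -/
noncomputable def T17_e (u : ℝ) : ℝ := (Ici (-1 : ℝ)).indicator (fun u => Real.exp (-u)) u

theorem T17_e_int : Integrable T17_e := by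
  unfold T17_e
  refine (integrable_indicator_iff measurableSet_Ici).2 ?_
  rw [integrableOn_Ici_iff_integrableOn_Ioi]
  exact integrableOn_exp_neg_Ioi (-1)

theorem T17_int {f g h : ℝ → ℂ} (hf : Dec f) (hg : Dec g) (hh : Dec h) {W : ℝ → ℝ} (hW : Adm W) :
    Integrable (T17_P f g h W) (volume.prod volume) := by
  obtain ⟨cf, A, hA⟩ := hf
  obtain ⟨cg, B, hB⟩ := hg
  obtain ⟨ch, C, hC⟩ := hh
  have hb : Integrable (fun x : ℝ × ℝ => |A| * |B| * |C| * (T17_e x.1 * T17_e x.2))
      (volume.prod volume) := (T17_e_int.mul_prod T17_e_int).const_mul _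
  refine hb.mono' ?_ (Eventually.of_forall ?_)
  · refine Continuous.aestronglyMeasurable ?_
    unfold T17_P
    refine (((cf.comp continuous_snd).mul (cg.comp continuous_fst)).mul
      (continuous_conj.comp (ch.comp (continuous_snd.add continuous_fst)))).mul
      (continuous_ofReal.comp ?_)
    exact ((tau_cont.comp continuous_snd).mul (tau_cont.comp continuous_fst)).mul
      (hW.cont.comp (continuous_snd.add continuous_fst))
  · rintro ⟨v, u⟩
    simp only [T17_P]
    have hpos : 0 ≤ |A| * |B| * |C| * (T17_e v * T17_e u) := by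
      have h1 : ∀ t, 0 ≤ T17_e t := fun t => indicator_nonneg (fun s _ => (Real.exp_pos _).le) t
      have := h1 v
      have := h1 u
      positivity
    by_cases hu : u ≤ -1
    · rw [tau_zero hu]
      simpa using hpos
    by_cases hv : v ≤ -1
    · rw [tau_zero hv]
      simpa using hpos
    push Not at hu hv
    have e1 : T17_e v = Real.exp (-v) := indicator_of_mem (mem_Ici.2 hv.le) _
    have e2 : T17_e u = Real.exp (-u) := indicator_of_mem (mem_Ici.2 hu.le) _
    rw [e1, e2]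
    have h1 : ‖f u‖ ≤ |A| * Real.exp (-(u / 2)) :=
      (hA u (by linarith)).trans (mul_le_mul_of_nonneg_right (le_abs_self A) (Real.exp_pos _).le)
    have h2 : ‖g v‖ ≤ |B| * Real.exp (-(v / 2)) :=
      (hB v (by linarith)).trans (mul_le_mul_of_nonneg_right (le_abs_self B) (Real.exp_pos _).le)
    have h3 : ‖h (u + v)‖ ≤ |C| * Real.exp (-((u + v) / 2)) :=
      (hC (u + v) (by linarith)).trans
        (mul_le_mul_of_nonneg_right (le_abs_self C) (Real.exp_pos _).le)
    have h4 : ‖((tau u * tau v * W (u + v) : ℝ) : ℂ)‖ ≤ 1 := by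
      rw [Complex.norm_real, Real.norm_eq_abs, abs_of_nonneg
        (mul_nonneg (mul_nonneg (tau_nonneg u) (tau_nonneg v)) (hW.nonneg _))]
      exact mul_le_one₀ (mul_le_one₀ (tau_le_one u) (tau_nonneg v) (tau_le_one v)) (hW.nonneg _)
        (hW.le_one _)
    rw [norm_mul, norm_mul, norm_mul, RCLike.norm_conj]
    have h5 : Real.exp (-(u / 2)) * Real.exp (-(v / 2)) * Real.exp (-((u + v) / 2)) =
        Real.exp (-v) * Real.exp (-u) := by
      rw [← Real.exp_add, ← Real.exp_add, ← Real.exp_add]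
      congr 1
      ring
    calc ‖f u‖ * ‖g v‖ * ‖h (u + v)‖ * ‖((tau u * tau v * W (u + v) : ℝ) : ℂ)‖
        ≤ (|A| * Real.exp (-(u / 2))) * (|B| * Real.exp (-(v / 2))) *
            (|C| * Real.exp (-((u + v) / 2))) * 1 := by gcongr
      _ = |A| * |B| * |C| * (Real.exp (-(u / 2)) * Real.exp (-(v / 2)) *
            Real.exp (-((u + v) / 2))) := by ring
      _ = |A| * |B| * |C| * (Real.exp (-v) * Real.exp (-u)) := by rw [h5]

theorem T17_Jf {f g h : ℝ → ℂ} {W : ℝ → ℝ} (hi : Integrable (T17_P f g h W) (volume.prod volume)) :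
    Jf f g h W = ∫ x : ℝ × ℝ, T17_P f g h W x ∂(volume.prod volume) := by
  rw [integral_prod _ hi]
  rfl

theorem T17_sum (s1 s2 s3 : Finset ℕ) (F G H : ℕ → ℝ → ℂ) (a b c : ℕ → ℂ) (W : ℝ → ℝ) :
    T17_P (fun u => ∑ i ∈ s1, a i * F i u) (fun u => ∑ j ∈ s2, b j * G j u)
      (fun u => ∑ k ∈ s3, c k * H k u) W =
      fun x => ∑ i ∈ s1, ∑ j ∈ s2, ∑ k ∈ s3, a i * b j * conj (c k) * T17_P (F i) (G j) (H k) W x := by
  funext x
  simp only [T17_P, map_sum, map_mul]
  rw [Finset.sum_mul_sum, Finset.sum_mul, Finset.sum_mul]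
  refine Finset.sum_congr rfl (fun i _ => ?_)
  rw [Finset.sum_mul, Finset.sum_mul]
  refine Finset.sum_congr rfl (fun j _ => ?_)
  rw [Finset.mul_sum, Finset.sum_mul]
  refine Finset.sum_congr rfl (fun k _ => ?_)
  ring

/-- Row T17. Trilinearity. -/
theorem Jf_sum {s1 s2 s3 : Finset ℕ} {F G H : ℕ → ℝ → ℂ} (hF : ∀ i ∈ s1, Dec (F i))
    (hG : ∀ i ∈ s2, Dec (G i)) (hH : ∀ i ∈ s3, Dec (H i)) (a b c : ℕ → ℂ) {W : ℝ → ℝ} (hW : Adm W) :
    Jf (fun u => ∑ i ∈ s1, a i * F i u) (fun u => ∑ j ∈ s2, b j * G j u)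
      (fun u => ∑ k ∈ s3, c k * H k u) W =
      ∑ i ∈ s1, ∑ j ∈ s2, ∑ k ∈ s3, a i * b j * conj (c k) * Jf (F i) (G j) (H k) W := by
  have hI : ∀ i ∈ s1, ∀ j ∈ s2, ∀ k ∈ s3, Integrable
      (fun x => a i * b j * conj (c k) * T17_P (F i) (G j) (H k) W x) (volume.prod volume) :=
    fun i hi j hj k hk => (T17_int (hF i hi) (hG j hj) (hH k hk) hW).const_mul _
  have hI2 : ∀ i ∈ s1, ∀ j ∈ s2, Integrable
      (fun x => ∑ k ∈ s3, a i * b j * conj (c k) * T17_P (F i) (G j) (H k) W x)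
      (volume.prod volume) := fun i hi j hj => integrable_finsetSum _ (hI i hi j hj)
  have hI3 : ∀ i ∈ s1, Integrable
      (fun x => ∑ j ∈ s2, ∑ k ∈ s3, a i * b j * conj (c k) * T17_P (F i) (G j) (H k) W x)
      (volume.prod volume) := fun i hi => integrable_finsetSum _ (hI2 i hi)
  have hI4 := integrable_finsetSum _ hI3
  rw [T17_Jf, T17_sum, integral_finsetSum _ hI3]
  · refine Finset.sum_congr rfl (fun i hi => ?_)
    rw [integral_finsetSum _ (hI2 i hi)]
    refine Finset.sum_congr rfl (fun j hj => ?_)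
    rw [integral_finsetSum _ (hI i hi j hj)]
    refine Finset.sum_congr rfl (fun k hk => ?_)
    rw [integral_const_mul, T17_Jf (T17_int (hF i hi) (hG j hj) (hH k hk) hW)]
  · rw [T17_sum]
    exact hI4

end TT
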