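import Pool.Agent.Lib.MP_0f5a55_nt.TT.D2
import Pool.Agent.Lib.MP_0f5a55_nt.OM.K020
import Pool.Agent.Lib.MP_0f5a55_nt.OM.K026

open Complex MeasureTheory Set Filter Topology
open scoped Real ComplexConjugate

namespace TT

theorem T18_ne (t : ℝ) : (1 / 2 : ℂ) + t * I ≠ 1 := by
  intro h
  have := congrArg Complex.re h
  norm_num at this

/-- Row T18. All primitive characters, also modulus 1. -/
theorem uu_all {q : ℕ} [NeZero q] {χ : DirichletCharacter ℂ q} (hχ : χ.IsPrimitive) :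
    (∀ t : ℝ, ‖LX.uu χ t‖ = 1) ∧ Continuous (LX.uu χ) ∧
      (∀ t : ℝ, (LX.uu χ t * LX.Lf χ (1 / 2 + t * I)).im = 0) := by
  have hq0 : 0 < q := Nat.pos_of_ne_zero (NeZero.ne q)
  rcases Nat.lt_or_ge 1 q with hq | hq
  · exact LX.uu_facts hχ hq
  · obtain rfl : q = 1 := by omega
    have hev : χ.Even := by
      unfold DirichletCharacter.Even
      rw [Subsingleton.elim (-1 : ZMod 1) 1, map_one]
    have huu : LX.uu χ = LZ.uu := by
      funext t
      unfold LX.uu LZ.uu LX.cc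
      rw [DirichletCharacter.rootNumber_modOne, Complex.one_cpow, hev.gammaFactor_def]
      simp
    have hL : ∀ s : ℂ, LX.Lf χ s = riemannZeta s := by
      intro s
      unfold LX.Lf
      rw [DirichletCharacter.LFunction_modOne_eq]
    rw [huu]
    simp only [hL]
    exact LZ.uu_facts

theorem T18_Lcont {q : ℕ} [NeZero q] (χ : DirichletCharacter ℂ q) :
    Continuous (fun t : ℝ => LX.Lf χ (1 / 2 + t * I)) := by
  rw [continuous_iff_continuousAt]
  intro t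
  have h1 : DifferentiableAt ℂ (LX.Lf χ) (1 / 2 + t * I) := by
    have := DirichletCharacter.differentiableAt_LFunction χ (1 / 2 + t * I) (Or.inl (T18_ne t))
    exact this
  have h2 : Continuous (fun t : ℝ => (1 / 2 : ℂ) + t * I) := by fun_prop
  exact ContinuousAt.comp (g := LX.Lf χ) (f := fun t : ℝ => (1 / 2 : ℂ) + t * I) h1.continuousAt
    h2.continuousAt

theorem rR_cont {q : ℕ} [NeZero q] {χ : DirichletCharacter ℂ q} (hχ : χ.IsPrimitive) (ε : ℝ) :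
    Continuous (rR χ ε) := by
  obtain ⟨-, h2, -⟩ := uu_all hχ
  unfold rR
  refine Continuous.mul (Continuous.mul (by fun_prop) (LX.Z03_gcont χ).norm) ?_
  exact Complex.continuous_re.comp (h2.mul (T18_Lcont χ))

theorem T18_gam {q : ℕ} [NeZero q] (χ : DirichletCharacter ℂ q) : ∃ C : ℝ, 0 < C ∧
    ∀ t : ℝ, ‖χ.gammaFactor (1 / 2 + t * I)‖ ≤ C * (1 + |t|) ^ 3 * Real.exp (-(π * |t| / 4)) := by
  obtain ⟨C, hC, hb⟩ := LZ.Gamma_strip
  have key : ∀ x t : ℝ, 1 / 4 ≤ x → x ≤ 3 → ‖Gammaℝ (((2 * x : ℝ) : ℂ) + t * I)‖ ≤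
      C * (1 + |t|) ^ 3 * Real.exp (-(π * |t| / 4)) := by
    intro x t hx1 hx2
    rw [Gammaℝ_def, norm_mul]
    have e1 : (((2 * x : ℝ) : ℂ) + t * I) / 2 = (x : ℂ) + ((t / 2 : ℝ) : ℂ) * I := by
      push_cast; ring
    have e2 : -(((2 * x : ℝ) : ℂ) + t * I) / 2 = -((x : ℂ) + ((t / 2 : ℝ) : ℂ) * I) := by
      rw [neg_div, e1]
    rw [e1, e2, Complex.norm_cpow_eq_rpow_re_of_pos Real.pi_pos]
    have e3 : (-((x : ℂ) + ((t / 2 : ℝ) : ℂ) * I)).re = -x := by simp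
    rw [e3]
    have h1 : π ^ (-x) ≤ 1 := by
      rw [Real.rpow_neg Real.pi_pos.le]
      apply inv_le_one_of_one_le₀
      exact Real.one_le_rpow (by linarith [Real.pi_gt_three]) (by linarith)
    have h2 := hb x (t / 2) hx1 hx2
    have h3 : |t / 2| = |t| / 2 := by rw [abs_div, abs_of_pos (by norm_num : (0 : ℝ) < 2)]
    rw [h3] at h2
    have h4 : (1 + |t| / 2) ^ 3 ≤ (1 + |t|) ^ 3 := by
      have := abs_nonneg t
      gcongr
      linarith
    have h5 : Real.exp (-(π / 2 * (|t| / 2))) = Real.exp (-(π * |t| / 4)) := by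
      congr 1; ring
    have h6 : 0 ≤ π ^ (-x) := Real.rpow_nonneg Real.pi_pos.le _
    calc π ^ (-x) * ‖Gamma ((x : ℂ) + ((t / 2 : ℝ) : ℂ) * I)‖
        ≤ 1 * (C * (1 + |t| / 2) ^ 3 * Real.exp (-(π / 2 * (|t| / 2)))) :=
          mul_le_mul h1 h2 (norm_nonneg _) zero_le_one
      _ = C * (1 + |t| / 2) ^ 3 * Real.exp (-(π * |t| / 4)) := by rw [one_mul, h5]
      _ ≤ _ := by gcongr
  refine ⟨C, hC, fun t => ?_⟩
  rcases χ.even_or_odd with h | h
  · rw [h.gammaFactor_def]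
    have := key (1 / 4) t le_rfl (by norm_num)
    have e : ((2 * (1 / 4) : ℝ) : ℂ) + t * I = 1 / 2 + t * I := by push_cast; ring
    rwa [e] at this
  · rw [h.gammaFactor_def]
    have := key (3 / 4) t (by norm_num) (by norm_num)
    have e : ((2 * (3 / 4) : ℝ) : ℂ) + t * I = 1 / 2 + t * I + 1 := by push_cast; ring
    rwa [e] at this

theorem T18_L {q : ℕ} [NeZero q] (χ : DirichletCharacter ℂ q) : ∃ C : ℝ, 0 < C ∧
    ∀ t : ℝ, ‖LX.Lf χ (1 / 2 + t * I)‖ ≤ C * (1 + |t|) := by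
  obtain ⟨C, hC, hb⟩ := LP.per_pol (fun j => χ j)
  refine ⟨C, hC, fun t => ?_⟩
  have hre : ((1 / 2 : ℂ) + t * I).re = 1 / 2 := by simp
  have him : ((1 / 2 : ℂ) + t * I).im = t := by simp
  have hn : 1 / 4 ≤ ‖((1 / 2 : ℂ) + t * I) - 1‖ := by
    have h := Complex.abs_re_le_norm (((1 / 2 : ℂ) + t * I) - 1)
    have h2 : (((1 / 2 : ℂ) + t * I) - 1).re = -(1 / 2) := by
      simp
      norm_num
    rw [h2, abs_neg, abs_of_pos (by norm_num : (0 : ℝ) < 1 / 2)] at h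
    linarith
  have := hb (1 / 2 + t * I) (by rw [hre]; norm_num) hn
  rw [him] at this
  exact this

theorem rR_le {q : ℕ} [NeZero q] {χ : DirichletCharacter ℂ q} (hχ : χ.IsPrimitive) : ∃ C : ℝ, 0 ≤ C ∧
    ∀ ε : ℝ, 0 < ε → ε ≤ 1 / 2 → ∀ t : ℝ, |rR χ ε t| ≤ C * (1 + |t|) ^ 4 * Real.exp (-(ε * |t| / 2)) ∧
      (t ≤ 0 → |rR χ ε t| ≤ C * (1 + |t|) ^ 4 * Real.exp (-|t|)) := by
  obtain ⟨C1, hC1, hg⟩ := T18_gam χ
  obtain ⟨C2, hC2, hL⟩ := T18_L χ
  obtain ⟨hu, -, -⟩ := uu_all hχ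
  refine ⟨C1 * C2, by positivity, ?_⟩
  intro ε hε hε1 t
  have hpi := Real.pi_gt_three
  have ht := abs_nonneg t
  have main : |rR χ ε t| ≤ C1 * C2 * (1 + |t|) ^ 4 * Real.exp ((π / 2 - ε) * t / 2 - π * |t| / 4) := by
    unfold rR
    rw [abs_mul, abs_mul, Real.abs_exp, abs_norm]
    have h1 : |(LX.uu χ t * LX.Lf χ (1 / 2 + t * I)).re| ≤ C2 * (1 + |t|) := by
      refine (Complex.abs_re_le_norm _).trans ?_
      rw [norm_mul, hu t, one_mul]
      exact hL t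
    calc Real.exp ((π / 2 - ε) * t / 2) * ‖χ.gammaFactor (1 / 2 + t * I)‖ *
          |(LX.uu χ t * LX.Lf χ (1 / 2 + t * I)).re|
        ≤ Real.exp ((π / 2 - ε) * t / 2) * (C1 * (1 + |t|) ^ 3 * Real.exp (-(π * |t| / 4))) *
          (C2 * (1 + |t|)) := by
          have := hg t
          gcongr
      _ = C1 * C2 * (1 + |t|) ^ 4 * (Real.exp ((π / 2 - ε) * t / 2) * Real.exp (-(π * |t| / 4))) := by
          ring
      _ = _ := by rw [← Real.exp_add]; rfl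
  have hneg : t ≤ 0 → (π / 2 - ε) * t / 2 - π * |t| / 4 ≤ -|t| := by
    intro h
    rw [abs_of_nonpos h]
    nlinarith
  refine ⟨?_, ?_⟩
  · refine main.trans ?_
    have h1 : (π / 2 - ε) * t / 2 - π * |t| / 4 ≤ -(ε * |t| / 2) := by
      rcases le_total 0 t with h | h
      · rw [abs_of_nonneg h]
        nlinarith
      · refine (hneg h).trans ?_
        nlinarith
    gcongr
  · intro h
    refine main.trans ?_
    have h1 := hneg h
    gcongr

theorem rR_int {q : ℕ} [NeZero q] {χ : DirichletCharacter ℂ q} (hχ : χ.IsPrimitive) {ε : ℝ} (h0 : 0 < ε)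
    (h1 : ε ≤ 1 / 2) (i : ℕ) : Integrable (fun t : ℝ => (t ^ 2 + 1 / 4) ^ i * rR χ ε t) := by
  obtain ⟨C, hC, hb⟩ := rR_le hχ
  have hd := (OO.T_dec (2 * i + 4) (ε / 2) (by positivity)).2.1
  refine (hd.const_mul C).mono' ?_ (Filter.Eventually.of_forall fun t => ?_)
  · exact (Continuous.mul (by fun_prop) (rR_cont hχ ε)).aestronglyMeasurable
  · have h2 := (hb ε h0 h1 t).1
    have ht := abs_nonneg t
    have h3 : t ^ 2 + 1 / 4 ≤ (1 + |t|) ^ 2 := by
      have := sq_abs t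
      nlinarith
    have h4 : (0 : ℝ) ≤ t ^ 2 + 1 / 4 := by positivity
    rw [Real.norm_eq_abs, abs_mul, abs_of_nonneg (pow_nonneg h4 i)]
    have h5 : (t ^ 2 + 1 / 4) ^ i ≤ (1 + |t|) ^ (2 * i) := by
      rw [pow_mul]
      exact pow_le_pow_left₀ h4 h3 i
    have h6 : -(ε * |t| / 2) = -(ε / 2 * |t|) := by ring
    rw [h6] at h2
    calc (t ^ 2 + 1 / 4) ^ i * |rR χ ε t|
        ≤ (1 + |t|) ^ (2 * i) * (C * (1 + |t|) ^ 4 * Real.exp (-(ε / 2 * |t|))) :=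
          mul_le_mul h5 h2 (abs_nonneg _) (by positivity)
      _ = C * ((1 + |t|) ^ (2 * i + 4) * Real.exp (-(ε / 2 * |t|))) := by
          rw [pow_add]; ring

end TT
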