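import Pool.Agent.Lib.MP_0f5a55_nt.TT.D2
import Pool.Agent.Lib.MP_0f5a55_nt.TT.T18
import Pool.Agent.Lib.MP_0f5a55_nt.OM.K010
import Pool.Agent.Lib.MP_0f5a55_nt.OM.K025

open Complex MeasureTheory Set Filter Topology
open scoped Real ComplexConjugate

namespace TT

/-- the substitution y = 2 v in the Mellin integral of the exponential -/
theorem T19_mellin {c : ℝ} (hc : 0 < c) {V : ℂ} (hV : 0 < V.re) :
    Integrable (fun y : ℝ => Gamma (c + ((y / 2 : ℝ) : ℂ) * I) * V ^ (-(c + ((y / 2 : ℝ) : ℂ) * I : ℂ))) ∧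
    ∫ y : ℝ, Gamma (c + ((y / 2 : ℝ) : ℂ) * I) * V ^ (-(c + ((y / 2 : ℝ) : ℂ) * I : ℂ)) =
      4 * π * exp (-V) := by
  obtain ⟨h1, h2⟩ := LZX.exp_mellin hc hV
  refine ⟨h1.comp_div (by norm_num : (2 : ℝ) ≠ 0), ?_⟩
  have h3 := Measure.integral_comp_div (fun y : ℝ => Gamma (c + y * I) * V ^ (-(c + y * I : ℂ))) 2
  have hpi : (π : ℂ) ≠ 0 := by exact_mod_cast Real.pi_ne_zero
  refine h3.trans ?_
  rw [← h2, Complex.real_smul, abs_of_pos (by norm_num : (0 : ℝ) < 2)]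
  generalize (∫ y : ℝ, Gamma (c + y * I) * V ^ (-(c + y * I : ℂ))) = J
  push_cast
  field_simp
  ring

theorem T19_hasSum {q : ℕ} [NeZero q] (χ : DirichletCharacter ℂ q) {s : ℂ} (hs : 1 < s.re) :
    HasSum (fun n : ℕ => χ ((n + 1 : ℕ) : ZMod q) * ((n + 1 : ℕ) : ℂ) ^ (-s)) (LX.Lf χ s) := by
  have h1 := (DirichletCharacter.LSeriesSummable_of_one_lt_re χ hs).LSeriesHasSum
  have h2 : LX.Lf χ s = LSeries (fun n : ℕ => χ (n : ZMod q)) s := by
    unfold LX.Lf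
    exact DirichletCharacter.LFunction_eq_LSeries χ hs
  rw [h2]
  unfold LSeriesHasSum at h1
  have h3 := (hasSum_nat_add_iff' 1).mpr h1
  rw [Finset.sum_range_one, LSeries.term_zero, sub_zero] at h3
  refine h3.congr_fun ?_
  intro n
  rw [LSeries.term_of_ne_zero (Nat.succ_ne_zero n), Complex.cpow_neg, div_eq_mul_inv]

theorem T19_norm_term {q : ℕ} [NeZero q] (χ : DirichletCharacter ℂ q) {s : ℂ} (hs : s.re = 2) (n : ℕ) :
    ‖χ ((n + 1 : ℕ) : ZMod q) * ((n + 1 : ℕ) : ℂ) ^ (-s)‖ ≤ 1 / ((n : ℝ) + 1) ^ 2 := by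
  rw [norm_mul, Complex.norm_natCast_cpow_of_pos (Nat.succ_pos n), neg_re, hs]
  have h1 : ‖χ ((n + 1 : ℕ) : ZMod q)‖ ≤ 1 := χ.norm_le_one _
  have h2 : ((n + 1 : ℕ) : ℝ) ^ (-2 : ℝ) = 1 / ((n : ℝ) + 1) ^ 2 := by
    rw [Real.rpow_neg (by positivity), one_div]
    norm_num
  rw [h2]
  have h3 : 0 ≤ 1 / ((n : ℝ) + 1) ^ 2 := by positivity
  nlinarith only [h1, h3]

theorem T19_summ : Summable (fun n : ℕ => 1 / ((n : ℝ) + 1) ^ 2) := by
  have h := (summable_nat_add_iff 1).mpr (Real.summable_one_div_nat_pow.mpr (by norm_num : 1 < 2))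
  refine h.congr fun n => ?_
  push_cast
  rfl

theorem T19_Lf_cont {q : ℕ} [NeZero q] (χ : DirichletCharacter ℂ q) :
    Continuous (fun y : ℝ => LX.Lf χ (2 + y * I)) := by
  have hc : Continuous (fun y : ℝ => (2 : ℂ) + y * I) := by fun_prop
  have hne : ∀ y : ℝ, (2 : ℂ) + y * I ≠ 1 := by
    intro y h
    have := congrArg Complex.re h
    simp at this
  rw [continuous_iff_continuousAt]
  intro y
  unfold LX.Lf
  have h1 : ContinuousAt (DirichletCharacter.LFunction χ) ((2 : ℂ) + y * I) :=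
    (DirichletCharacter.differentiableAt_LFunction χ _ (Or.inl (hne y))).continuousAt
  exact ContinuousAt.comp (f := fun y : ℝ => (2 : ℂ) + y * I) h1 hc.continuousAt

theorem T19_Lf_bdd {q : ℕ} [NeZero q] (χ : DirichletCharacter ℂ q) (y : ℝ) :
    ‖LX.Lf χ (2 + y * I)‖ ≤ ∑' n : ℕ, 1 / ((n : ℝ) + 1) ^ 2 := by
  have hre : ((2 : ℂ) + y * I).re = 2 := by simp
  have h := T19_hasSum χ (s := 2 + y * I) (by rw [hre]; norm_num)
  rw [← h.tsum_eq]
  exact tsum_of_norm_bounded T19_summ.hasSum fun n => T19_norm_term χ hre n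

theorem T19_mulcpow {r : ℝ} (hr : 0 < r) {V : ℂ} (hV : V ≠ 0) (s : ℂ) :
    ((r : ℂ) * V) ^ s = exp (s * Real.log r) * V ^ s := by
  have hr' : (r : ℂ) ≠ 0 := ofReal_ne_zero.mpr hr.ne'
  rw [cpow_def_of_ne_zero (mul_ne_zero hr' hV), cpow_def_of_ne_zero hV,
    log_ofReal_mul hr hV, ← exp_add]
  congr 1
  ring

/-- one term of the series -/
theorem T19_term (κ j : ℕ) {W : ℂ} (hW0 : W ≠ 0) (s : ℂ) (n : ℕ) :
    ((n + 1 : ℕ) : ℂ) ^ (-s) * (Gamma ((s + κ) / 2 + j) * W ^ (-((s + κ) / 2))) =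
      ((n : ℂ) + 1) ^ (κ + 2 * j) * W ^ j *
        (Gamma ((s + κ) / 2 + j) * (((((n : ℝ) + 1) ^ 2 : ℝ) : ℂ) * W) ^ (-((s + κ) / 2 + j))) := by
  have hn : (0 : ℝ) < (n : ℝ) + 1 := by positivity
  have hnc : ((n : ℂ) + 1) ≠ 0 := by exact_mod_cast hn.ne'
  have hn2 : (0 : ℝ) < ((n : ℝ) + 1) ^ 2 := by positivity
  rw [T19_mulcpow hn2 hW0, Real.log_pow]
  have e1 : ((n + 1 : ℕ) : ℂ) ^ (-s) = exp (-s * Real.log ((n : ℝ) + 1)) := by
    have h0 : ((n + 1 : ℕ) : ℂ) = (((n : ℝ) + 1 : ℝ) : ℂ) := by push_cast; rfl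
    rw [h0, cpow_def_of_ne_zero (by exact_mod_cast hn.ne'), ← ofReal_log hn.le]
    congr 1
    ring
  have e2 : ((n : ℂ) + 1) ^ (κ + 2 * j) = exp (((κ : ℂ) + 2 * j) * Real.log ((n : ℝ) + 1)) := by
    have h0 : ((n : ℂ) + 1) = exp (Real.log ((n : ℝ) + 1) : ℝ) := by
      rw [← ofReal_exp, Real.exp_log hn]
      push_cast
      rfl
    rw [h0, ← exp_nat_mul]
    congr 1
    push_cast
    ring
  have e3 : W ^ (-((s + κ) / 2 + j)) = W ^ (-((s + κ) / 2)) * (W ^ j)⁻¹ := by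
    rw [neg_add, cpow_add _ _ hW0, cpow_neg W (j : ℂ), cpow_natCast]
  have hWj : W ^ j ≠ 0 := pow_ne_zero _ hW0
  rw [e1, e2, e3]
  have e4 : exp (-s * Real.log ((n : ℝ) + 1)) = exp (((κ : ℂ) + 2 * j) * Real.log ((n : ℝ) + 1)) *
      exp (-((s + κ) / 2 + j) * ((((2 : ℕ) : ℝ) * Real.log ((n : ℝ) + 1) : ℝ) : ℂ)) := by
    rw [← exp_add]
    congr 1
    push_cast
    ring
  rw [e4]
  field_simp

theorem T19_series {q : ℕ} [NeZero q] (χ : DirichletCharacter ℂ q) (κ j : ℕ) {W : ℂ} (hW : 0 < W.re) :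
    Integrable (fun y : ℝ => LX.Lf χ (2 + y * I) *
      (Gamma ((2 + y * I + κ) / 2 + j) * W ^ (-((2 + y * I + κ) / 2)))) ∧
    ∫ y : ℝ, LX.Lf χ (2 + y * I) * (Gamma ((2 + y * I + κ) / 2 + j) * W ^ (-((2 + y * I + κ) / 2))) =
      4 * π * (W ^ j * ∑' n : ℕ, χ ((n + 1 : ℕ) : ZMod q) * ((n : ℂ) + 1) ^ (κ + 2 * j) *
        exp (-(((n : ℂ) + 1) ^ 2 * W))) := by
  have hW0 : W ≠ 0 := by rintro rfl; simp at hW
  have hc : (0 : ℝ) < 1 + κ / 2 + j := by positivity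
  have hcv : ∀ y : ℝ, ((2 : ℂ) + y * I + κ) / 2 + j = ((1 + κ / 2 + j : ℝ) : ℂ) + ((y / 2 : ℝ) : ℂ) * I := by
    intro y
    push_cast
    ring
  set G : ℝ → ℂ := fun y => Gamma ((2 + y * I + κ) / 2 + j) * W ^ (-((2 + y * I + κ) / 2)) with hG
  set M : ℂ → ℝ → ℂ := fun V y => Gamma ((2 + y * I + κ) / 2 + j) * V ^ (-((2 + y * I + κ) / 2 + j)) with hM
  have hMi : ∀ V : ℂ, 0 < V.re → Integrable (M V) ∧ ∫ y, M V y = 4 * π * exp (-V) := by
    intro V hV
    have h := T19_mellin hc hV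
    have e : M V = fun y : ℝ => Gamma (((1 + κ / 2 + j : ℝ) : ℂ) + ((y / 2 : ℝ) : ℂ) * I) *
        V ^ (-(((1 + κ / 2 + j : ℝ) : ℂ) + ((y / 2 : ℝ) : ℂ) * I : ℂ)) := by
      funext y
      simp only [hM]
      rw [hcv]
    rw [e]
    exact h
  have hGM : G = fun y => W ^ j * M W y := by
    funext y
    simp only [hG, hM]
    have e3 : W ^ (-((2 + y * I + κ) / 2 + j)) = W ^ (-((2 + y * I + κ) / 2)) * (W ^ j)⁻¹ := by
      rw [neg_add, cpow_add _ _ hW0, cpow_neg W (j : ℂ), cpow_natCast]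
    have hWj : W ^ j ≠ 0 := pow_ne_zero _ hW0
    rw [e3]
    field_simp
  have hGi : Integrable G := by
    rw [hGM]
    exact (hMi W hW).1.const_mul _
  have hre : ∀ y : ℝ, ((2 : ℂ) + y * I).re = 2 := fun y => by simp
  set F : ℕ → ℝ → ℂ := fun n y => χ ((n + 1 : ℕ) : ZMod q) * ((n + 1 : ℕ) : ℂ) ^ (-(2 + y * I : ℂ)) * G y with hF
  have hVre : ∀ n : ℕ, 0 < (((((n : ℝ) + 1) ^ 2 : ℝ) : ℂ) * W).re := by
    intro n
    rw [re_ofReal_mul]
    positivity
  have hF2 : ∀ n : ℕ, F n = fun y => χ ((n + 1 : ℕ) : ZMod q) * (((n : ℂ) + 1) ^ (κ + 2 * j) * W ^ j) *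
      M (((((n : ℝ) + 1) ^ 2 : ℝ) : ℂ) * W) y := by
    intro n
    funext y
    simp only [hF, hG, hM]
    rw [mul_assoc, T19_term κ j hW0 (2 + y * I) n]
    ring
  have hFi : ∀ n, Integrable (F n) := by
    intro n
    rw [hF2 n]
    exact (hMi _ (hVre n)).1.const_mul _
  have hFv : ∀ n, ∫ y, F n y = 4 * π * (W ^ j * (χ ((n + 1 : ℕ) : ZMod q) * ((n : ℂ) + 1) ^ (κ + 2 * j) *
      exp (-(((n : ℂ) + 1) ^ 2 * W)))) := by
    intro n
    rw [hF2 n, integral_const_mul, (hMi _ (hVre n)).2]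
    push_cast
    ring
  have hFn : ∀ n, (∫ y, ‖F n y‖) ≤ 1 / ((n : ℝ) + 1) ^ 2 * ∫ y, ‖G y‖ := by
    intro n
    rw [← integral_const_mul]
    refine integral_mono (hFi n).norm (hGi.norm.const_mul _) fun y => ?_
    simp only [hF]
    rw [norm_mul]
    exact mul_le_mul_of_nonneg_right (T19_norm_term χ (hre y) n) (norm_nonneg _)
  have hsF : Summable (fun n => ∫ y, ‖F n y‖) :=
    Summable.of_nonneg_of_le (fun n => integral_nonneg fun y => norm_nonneg _) hFn (T19_summ.mul_right _)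
  have hmain := hasSum_integral_of_summable_integral_norm hFi hsF
  have hpt : ∀ y : ℝ, ∑' n, F n y = LX.Lf χ (2 + y * I) * G y := by
    intro y
    exact ((T19_hasSum χ (s := 2 + y * I) (by rw [hre]; norm_num)).mul_right (G y)).tsum_eq
  refine ⟨?_, ?_⟩
  · exact hGi.bdd_mul (T19_Lf_cont χ).aestronglyMeasurable (Eventually.of_forall fun y => T19_Lf_bdd χ y)
  · have h1 : ∫ y : ℝ, LX.Lf χ (2 + y * I) * G y = ∫ y : ℝ, ∑' n, F n y := by
      congr 1
      funext y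
      exact (hpt y).symm
    rw [h1, ← hmain.tsum_eq]
    simp_rw [hFv]
    rw [tsum_mul_left, tsum_mul_left]

theorem T19_ent {q : ℕ} [NeZero q] (χ : DirichletCharacter ℂ q) :
    ∃ E : ℂ → ℂ, Differentiable ℂ E ∧ (∀ s : ℂ, s ≠ 1 → E s = (s - 1) * LX.Lf χ s) ∧ (χ ≠ 1 → E 1 = 0) ∧
      ∃ C : ℝ, 0 < C ∧ ∀ s : ℂ, 1 / 2 ≤ s.re → s.re ≤ 2 → ‖E s‖ ≤ C * (1 + |s.im|) ^ 2 := by
  have hE : ∃ E : ℂ → ℂ, Differentiable ℂ E ∧ (∀ s : ℂ, s ≠ 1 → E s = (s - 1) * LX.Lf χ s) ∧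
      (χ ≠ 1 → E 1 = 0) := by
    by_cases h1 : χ = 1
    · refine ⟨fun s => DirichletCharacter.LFunctionTrivChar₁ q s,
        DirichletCharacter.differentiable_LFunctionTrivChar₁ q, ?_, fun h => absurd h1 h⟩
      intro s hs
      have e1 : DirichletCharacter.LFunctionTrivChar₁ q s = (s - 1) * DirichletCharacter.LFunctionTrivChar q s :=
        Function.update_of_ne hs _ _
      show DirichletCharacter.LFunctionTrivChar₁ q s = (s - 1) * DirichletCharacter.LFunction χ s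
      rw [e1, h1]
    · refine ⟨fun s => (s - 1) * DirichletCharacter.LFunction χ s,
        (differentiable_id.sub_const 1).mul (DirichletCharacter.differentiable_LFunction h1), fun s _ => rfl,
        fun _ => ?_⟩
      simp
  obtain ⟨E, hEd, hEs, hE1⟩ := hE
  refine ⟨E, hEd, hEs, hE1, ?_⟩
  obtain ⟨C1, hC1, hb1⟩ := LP.per_pol (fun j => χ j)
  obtain ⟨M, hM⟩ := (isCompact_closedBall (1 : ℂ) (1 / 4)).exists_bound_of_continuousOn hEd.continuous.continuousOn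
  refine ⟨C1 + |M| + 1, by positivity, ?_⟩
  intro s hs hs2
  have hp : 1 ≤ 1 + |s.im| := by
    have := abs_nonneg s.im
    linarith
  have hp3 : 1 ≤ (1 + |s.im|) ^ 2 := one_le_pow₀ hp
  rcases le_total (‖s - 1‖) (1 / 4) with h | h
  · have h1 : ‖E s‖ ≤ M := hM s (by rw [Metric.mem_closedBall, dist_eq_norm]; exact h)
    calc ‖E s‖ ≤ M := h1
      _ ≤ |M| := le_abs_self M
      _ ≤ (C1 + |M| + 1) * 1 := by linarith
      _ ≤ (C1 + |M| + 1) * (1 + |s.im|) ^ 2 := by gcongr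
  · have hs1 : s ≠ 1 := by
      rintro rfl
      norm_num at h
    rw [hEs s hs1, norm_mul]
    have h2 : ‖s - 1‖ ≤ 1 + |s.im| := by
      refine (Complex.norm_le_abs_re_add_abs_im (s - 1)).trans ?_
      have e1 : |(s - 1).re| ≤ 1 := by
        rw [sub_re, one_re, abs_le]
        constructor <;> linarith
      have e2 : (s - 1).im = s.im := by simp
      rw [e2]
      linarith
    have h3 : ‖LX.Lf χ s‖ ≤ C1 * (1 + |s.im|) := hb1 s (by linarith) h
    calc ‖s - 1‖ * ‖LX.Lf χ s‖ ≤ (1 + |s.im|) * (C1 * (1 + |s.im|)) :=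
          mul_le_mul h2 h3 (norm_nonneg _) (by positivity)
      _ = C1 * (1 + |s.im|) ^ 2 := by ring
      _ ≤ (C1 + |M| + 1) * (1 + |s.im|) ^ 2 := by
          apply mul_le_mul_of_nonneg_right _ (by positivity)
          have := abs_nonneg M
          linarith

/-- the smooth factor -/
noncomputable def T19_G (κ q : ℕ) (ε u : ℝ) (s : ℂ) : ℂ :=
  exp ((s - 1 / 2) * (((Real.log q / 2 - u : ℝ) : ℂ) - ((π / 2 - ε : ℝ) : ℂ) / 2 * I)) *
    (exp (-((s + κ) / 2 * Real.log π)) * Gamma ((s + κ) / 2))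

theorem T19_Gammaℝ (z : ℂ) : Gammaℝ z = exp (-(z / 2 * Real.log π)) * Gamma (z / 2) := by
  rw [Gammaℝ_def, cpow_def_of_ne_zero (by exact_mod_cast Real.pi_ne_zero), ← ofReal_log Real.pi_pos.le]
  congr 2
  ring

theorem T19_gam {q : ℕ} [NeZero q] {χ : DirichletCharacter ℂ q} {κ : ℕ} (hκ : Par χ κ) (s : ℂ) :
    χ.gammaFactor s = Gammaℝ (s + κ) := by
  rcases hκ with ⟨h, rfl⟩ | ⟨h, rfl⟩
  · rw [DirichletCharacter.Even.gammaFactor_def h]; simp
  · rw [DirichletCharacter.Odd.gammaFactor_def h]; simp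

theorem T19_rR {q : ℕ} [NeZero q] {χ : DirichletCharacter ℂ q} (hχ : χ.IsPrimitive) {κ : ℕ}
    (hκ : Par χ κ) (ε u t : ℝ) :
    ((rR χ ε t : ℝ) : ℂ) * exp (-(t * u * I)) =
      LX.cc χ * (LX.Lf χ (1 / 2 + t * I) * T19_G κ q ε u (1 / 2 + t * I)) := by
  have h1 : (((LX.uu χ t * LX.Lf χ (1 / 2 + t * I)).re : ℝ) : ℂ) = LX.uu χ t * LX.Lf χ (1 / 2 + t * I) :=
    Complex.ext (by simp) (by simpa using ((uu_all hχ).2.2 t).symm)
  have h2 : ((‖χ.gammaFactor (1 / 2 + t * I)‖ : ℝ) : ℂ) * LX.uu χ t =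
      LX.cc χ * exp ((t / 2 * Real.log q : ℝ) * I) * χ.gammaFactor (1 / 2 + t * I) := by
    have h0 : ∀ g c : ℂ, ((‖g‖ : ℝ) : ℂ) * (c * (g / (‖g‖ : ℂ))) = c * g := by
      intro g c
      by_cases h0 : g = 0
      · rw [h0]; simp
      · have : ((‖g‖ : ℝ) : ℂ) ≠ 0 := by
          exact_mod_cast norm_ne_zero_iff.mpr h0
        field_simp
    exact h0 _ _
  unfold rR
  rw [ofReal_mul, ofReal_mul, h1]
  have h3 : ((Real.exp ((π / 2 - ε) * t / 2) : ℝ) : ℂ) * ((‖χ.gammaFactor (1 / 2 + t * I)‖ : ℝ) : ℂ) *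
      (LX.uu χ t * LX.Lf χ (1 / 2 + t * I)) * exp (-(t * u * I)) =
      ((Real.exp ((π / 2 - ε) * t / 2) : ℝ) : ℂ) * (((‖χ.gammaFactor (1 / 2 + t * I)‖ : ℝ) : ℂ) *
      LX.uu χ t) * LX.Lf χ (1 / 2 + t * I) * exp (-(t * u * I)) := by ring
  rw [h3, h2, T19_gam hκ, T19_Gammaℝ]
  unfold T19_G
  have h4 : exp (((1 / 2 + t * I : ℂ) - 1 / 2) *
      (((Real.log q / 2 - u : ℝ) : ℂ) - ((π / 2 - ε : ℝ) : ℂ) / 2 * I)) =
      ((Real.exp ((π / 2 - ε) * t / 2) : ℝ) : ℂ) * exp ((t / 2 * Real.log q : ℝ) * I) *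
        exp (-(t * u * I)) := by
    rw [ofReal_exp, ← exp_add, ← exp_add]
    congr 1
    push_cast
    have hI : I * I = -1 := I_mul_I
    linear_combination (-(t * ((π : ℂ) / 2 - ε) / 2)) * hI
  rw [h4]
  ring

theorem T19_G_bd (κ q : ℕ) [NeZero q] {ε : ℝ} (h0 : 0 < ε) (h1 : ε ≤ 1 / 2) (u : ℝ) : ∃ C : ℝ, 0 < C ∧
    ∀ s : ℂ, 1 / 2 ≤ s.re → s.re ≤ 2 → ‖T19_G κ q ε u s‖ ≤ C * Real.exp (-(ε / 4 * |s.im|)) := by
  have hpi := Real.pi_gt_three
  obtain ⟨C, hC⟩ := LZX.Gamma_decay (θ := π / 2 - ε / 2) (a := 1 / 4) (b := (2 + κ) / 2)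
    (by linarith only [hpi, h1]) (by linarith only [h0]) (by norm_num)
  set B : ℝ := |Real.log q / 2 - u| with hB
  refine ⟨Real.exp (2 * B) * (|C| + 1), by positivity, fun s hs hs2 => ?_⟩
  have hre : (((s + κ) / 2 : ℂ)).re = (s.re + κ) / 2 := by
    simp
  have him : (((s + κ) / 2 : ℂ)).im = s.im / 2 := by
    simp
  have hκ0 : (0 : ℝ) ≤ κ := Nat.cast_nonneg κ
  have hg := hC ((s + κ) / 2) (by rw [hre]; linarith only [hs, hκ0]) (by rw [hre]; linarith only [hs2])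
  rw [him] at hg
  have hg' : ‖Gamma ((s + κ) / 2)‖ ≤ (|C| + 1) * Real.exp (-((π / 2 - ε / 2) * |s.im / 2|)) := by
    refine hg.trans (mul_le_mul_of_nonneg_right ?_ (Real.exp_pos _).le)
    linarith only [le_abs_self C]
  unfold T19_G
  rw [norm_mul, norm_mul, Complex.norm_exp, Complex.norm_exp]
  have e1 : ((s - 1 / 2) * (((Real.log q / 2 - u : ℝ) : ℂ) - ((π / 2 - ε : ℝ) : ℂ) / 2 * I)).re =
      (s.re - 1 / 2) * (Real.log q / 2 - u) + s.im * ((π / 2 - ε) / 2) := by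
    have a1 : ∀ r v : ℝ, ((r : ℂ) - (v : ℂ) / 2 * I) = ⟨r, -(v / 2)⟩ := by
      intro r v
      apply Complex.ext <;> simp
    rw [a1, Complex.mul_re]
    simp
  have e2 : (-((s + κ) / 2 * Real.log π) : ℂ).re = -((s.re + κ) / 2 * Real.log π) := by
    rw [neg_re, re_mul_ofReal, hre]
  have b1 : (s.re - 1 / 2) * (Real.log q / 2 - u) ≤ 2 * B := by
    have c1 : Real.log q / 2 - u ≤ B := le_abs_self _
    have c2 : 0 ≤ B := abs_nonneg _
    nlinarith only [c1, c2, hs, hs2]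
  have b2 : -((s.re + κ) / 2 * Real.log π) ≤ 0 := by
    have : 0 < Real.log π := Real.log_pos (by linarith only [hpi])
    have h5 : 0 ≤ (s.re + κ) / 2 := by linarith only [hs, hκ0]
    nlinarith only [this, h5]
  rw [e1, e2]
  have b3 : Real.exp ((s.re - 1 / 2) * (Real.log q / 2 - u) + s.im * ((π / 2 - ε) / 2)) ≤
      Real.exp (2 * B) * Real.exp (s.im * ((π / 2 - ε) / 2)) := by
    rw [← Real.exp_add]
    exact Real.exp_le_exp.mpr (by linarith only [b1])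
  have b4 : Real.exp (-((s.re + κ) / 2 * Real.log π)) ≤ 1 := by
    rw [Real.exp_le_one_iff]; exact b2
  have b5 : Real.exp (s.im * ((π / 2 - ε) / 2)) * Real.exp (-((π / 2 - ε / 2) * |s.im / 2|)) ≤
      Real.exp (-(ε / 4 * |s.im|)) := by
    rw [← Real.exp_add]
    apply Real.exp_le_exp.mpr
    have c1 : |s.im / 2| = |s.im| / 2 := by
      rw [abs_div, abs_of_pos (by norm_num : (0 : ℝ) < 2)]
    rw [c1]
    have c2 : s.im ≤ |s.im| := le_abs_self _
    have c3 : 0 ≤ (π / 2 - ε) / 2 := by linarith only [hpi, h1]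
    nlinarith only [c2, c3, mul_le_mul_of_nonneg_right c2 c3]
  calc Real.exp ((s.re - 1 / 2) * (Real.log q / 2 - u) + s.im * ((π / 2 - ε) / 2)) *
        (Real.exp (-((s.re + κ) / 2 * Real.log π)) * ‖Gamma ((s + κ) / 2)‖)
      ≤ (Real.exp (2 * B) * Real.exp (s.im * ((π / 2 - ε) / 2))) *
        (1 * ((|C| + 1) * Real.exp (-((π / 2 - ε / 2) * |s.im / 2|)))) := by
        gcongr
    _ = Real.exp (2 * B) * (|C| + 1) * (Real.exp (s.im * ((π / 2 - ε) / 2)) *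
        Real.exp (-((π / 2 - ε / 2) * |s.im / 2|))) := by ring
    _ ≤ _ := mul_le_mul_of_nonneg_left b5 (by positivity)

theorem T19_G_diff (κ q : ℕ) (ε u : ℝ) (s : ℂ) (hs : 0 < s.re) : DifferentiableAt ℂ (T19_G κ q ε u) s := by
  unfold T19_G
  have h1 : DifferentiableAt ℂ (fun s : ℂ => Gamma ((s + κ) / 2)) s := by
    have h2 : DifferentiableAt ℂ Gamma ((s + κ) / 2) := by
      apply differentiableAt_Gamma
      intro m h
      have h3 := congrArg Complex.re h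
      have h4 : (0 : ℝ) ≤ m := Nat.cast_nonneg m
      have h5 : (0 : ℝ) ≤ κ := Nat.cast_nonneg κ
      simp at h3
      linarith only [hs, h3, h4, h5]
    exact h2.comp s (by fun_prop)
  have h2 : DifferentiableAt ℂ (fun s : ℂ => exp ((s - 1 / 2) *
      (((Real.log q / 2 - u : ℝ) : ℂ) - ((π / 2 - ε : ℝ) : ℂ) / 2 * I))) s := by fun_prop
  have h3 : DifferentiableAt ℂ (fun s : ℂ => exp (-((s + κ) / 2 * Real.log π))) s := by fun_prop
  exact h2.mul (h3.mul h1)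

/-- coefficients of (s(1-s))^i Gamma(w) as a combination of Gamma(w+j) -/
noncomputable def T19_co (κ i j : ℕ) : ℂ :=
  if i = 0 then (if j = 0 then 1 else 0) else
    if j = 0 then -(κ * (κ + 1)) else if j = 1 then 6 + 4 * κ else if j = 2 then -4 else 0

theorem T19_poly (κ i : ℕ) (hi : i = 0 ∨ i = 1) (s : ℂ) (hs : 0 < s.re) :
    (s * (1 - s)) ^ i * Gamma ((s + κ) / 2) =
      ∑ j ∈ Finset.range (2 * i + 1), T19_co κ i j * Gamma ((s + κ) / 2 + j) := by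
  rcases hi with rfl | rfl
  · simp [T19_co]
  · have hκ0 : (0 : ℝ) ≤ κ := Nat.cast_nonneg κ
    have hre : (((s + κ) / 2 : ℂ)).re = (s.re + κ) / 2 := by simp
    have hw : (s + κ) / 2 ≠ 0 := by
      intro h
      have := congrArg Complex.re h
      rw [hre] at this
      simp at this
      linarith only [this, hs, hκ0]
    have hw1 : (s + κ) / 2 + 1 ≠ 0 := by
      intro h
      have := congrArg Complex.re h
      rw [add_re, hre] at this
      simp at this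
      linarith only [this, hs, hκ0]
    have g1 : Gamma ((s + κ) / 2 + 1) = (s + κ) / 2 * Gamma ((s + κ) / 2) := Gamma_add_one _ hw
    have g2 : Gamma ((s + κ) / 2 + 2) = ((s + κ) / 2 + 1) * ((s + κ) / 2 * Gamma ((s + κ) / 2)) := by
      rw [show (s + κ) / 2 + 2 = ((s + κ) / 2 + 1) + 1 by ring, Gamma_add_one _ hw1, g1]
    rw [Finset.sum_range_succ, Finset.sum_range_succ, Finset.sum_range_one]
    simp only [T19_co, mul_one, one_ne_zero, if_false, if_true, Nat.cast_zero, add_zero, Nat.cast_one, Nat.cast_ofNat,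
      OfNat.ofNat_ne_zero, OfNat.ofNat_ne_one, pow_one]
    rw [g1, g2]
    ring

theorem T19_W {ε : ℝ} (h0 : 0 < ε) (h1 : ε ≤ 1 / 2) (q : ℕ) [NeZero q] (u : ℝ) :
    0 < ((π : ℂ) * zp ε (Real.exp (2 * u)) / q).re ∧
    ∀ z : ℂ, ((π : ℂ) * zp ε (Real.exp (2 * u)) / q) ^ z =
      exp (z * (((Real.log π + 2 * u - Real.log q : ℝ) : ℂ) + ((π / 2 - ε : ℝ) : ℂ) * I)) := by
  have hpi := Real.pi_gt_three
  have hq : (0 : ℝ) < q := by exact_mod_cast Nat.pos_of_ne_zero (NeZero.ne q)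
  have hr : 0 < π * Real.exp (2 * u) / q := by positivity
  have e : (π : ℂ) * zp ε (Real.exp (2 * u)) / q =
      ((π * Real.exp (2 * u) / q : ℝ) : ℂ) * exp (((π / 2 - ε : ℝ) : ℂ) * I) := by
    unfold zp
    push_cast
    ring
  rw [e]
  constructor
  · rw [re_ofReal_mul, exp_ofReal_mul_I_re]
    have : 0 < Real.cos (π / 2 - ε) :=
      Real.cos_pos_of_mem_Ioo ⟨by linarith only [hpi, h1], by linarith only [h0]⟩
    positivity
  · intro z
    rw [T19_mulcpow hr (exp_ne_zero _), cpow_def_of_ne_zero (exp_ne_zero _), log_exp, ← exp_add]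
    · rw [Real.log_div (by positivity) hq.ne', Real.log_mul Real.pi_pos.ne' (Real.exp_pos _).ne', Real.log_exp]
      congr 1
      push_cast
      ring
    · simp
      linarith only [hpi, h1]
    · simp
      linarith only [hpi, h0]

/-- Row T19. Mellin inversion: the Fourier transform is a sum of theta functions. -/
theorem rR_trans {q : ℕ} [NeZero q] {χ : DirichletCharacter ℂ q} (hχ : χ.IsPrimitive) {κ : ℕ}
    (hκ : Par χ κ) (i : ℕ) (hi : (i = 0 ∧ 1 < q) ∨ i = 1) :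
    ∃ (A : ℝ → ℕ → ℂ) (C : ℝ), 0 ≤ C ∧ (∀ ε j, ‖A ε j‖ ≤ C) ∧ ∀ ε : ℝ, 0 < ε → ε ≤ 1 / 2 → ∀ u : ℝ,
      (2 * (π : ℂ))⁻¹ * ∫ t : ℝ, (((t ^ 2 + 1 / 4) ^ i * rR χ ε t : ℝ) : ℂ) * exp (-(t * u * I)) =
        ∑ j ∈ Finset.range (2 * i + 1), A ε j * rho q (fun n => χ n) (κ + 2 * j) ε u := by
  have hi' : i = 0 ∨ i = 1 := by tauto
  have hq : (0 : ℝ) < q := by exact_mod_cast Nat.pos_of_ne_zero (NeZero.ne q)
  set c0 : ℝ := κ / 2 + 1 / 4 with hc0
  set B : ℕ → ℂ := fun j => 2 * LX.cc χ * exp (-(c0 * Real.log q)) * ((π : ℂ) / q) ^ j * T19_co κ i j with hB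
  refine ⟨fun ε j => B j * exp ((((c0 + j) * (π / 2 - ε) : ℝ) : ℂ) * I), ∑ j ∈ Finset.range 3, ‖B j‖,
    Finset.sum_nonneg fun j _ => norm_nonneg _, ?_, ?_⟩
  · intro ε j
    rw [norm_mul, Complex.norm_exp_ofReal_mul_I, mul_one]
    by_cases hj : j < 3
    · exact Finset.single_le_sum (f := fun j => ‖B j‖) (fun j _ => norm_nonneg _) (Finset.mem_range.mpr hj)
    · have : T19_co κ i j = 0 := by
        unfold T19_co
        have a0 : j ≠ 0 := by omega
        have a1 : j ≠ 1 := by omega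
        have a2 : j ≠ 2 := by omega
        simp [a0, a1, a2]
      simp only [hB, this, mul_zero, norm_zero]
      exact Finset.sum_nonneg fun j _ => norm_nonneg _
  · intro ε h0 h1 u
    obtain ⟨hWre, hWp⟩ := T19_W h0 h1 q u
    set W : ℂ := (π : ℂ) * zp ε (Real.exp (2 * u)) / q with hW
    obtain ⟨E, hEd, hEs, hE1, C1, hC1, hEb⟩ := T19_ent χ
    obtain ⟨C2, hC2, hGb⟩ := T19_G_bd κ q h0 h1 u
    set N : ℂ → ℂ := fun s => (s * (1 - s)) ^ i * E s * T19_G κ q ε u s with hN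
    have hNd : ∀ s : ℂ, 1 / 2 ≤ s.re → s.re ≤ 2 → DifferentiableAt ℂ N s := by
      intro s hs1 _
      have d1 : DifferentiableAt ℂ (fun s : ℂ => (s * (1 - s)) ^ i) s := by fun_prop
      exact (d1.mul (hEd s)).mul (T19_G_diff κ q ε u s (by linarith only [hs1]))
    have hNb : ∀ s : ℂ, 1 / 2 ≤ s.re → s.re ≤ 2 →
        ‖N s‖ ≤ (2 * C1 * C2) * (1 + |s.im|) ^ 8 * Real.exp (-(ε / 4 * |s.im|)) := by
      intro s hs1 hs2
      have b1 := hEb s hs1 hs2
      have b2 := hGb s hs1 hs2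
      have hP0 := abs_nonneg s.im
      have hP : (1 : ℝ) ≤ 1 + |s.im| := by linarith only [hP0]
      have b3 : ‖s‖ ≤ 2 * (1 + |s.im|) := by
        refine (Complex.norm_le_abs_re_add_abs_im s).trans ?_
        rw [abs_of_nonneg (by linarith only [hs1])]
        linarith only [hs2, hP0]
      have b4 : ‖1 - s‖ ≤ 1 + |s.im| := by
        refine (Complex.norm_le_abs_re_add_abs_im (1 - s)).trans ?_
        have e1 : |(1 - s).re| ≤ 1 := by
          rw [sub_re, one_re, abs_le]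
          constructor <;> linarith only [hs1, hs2]
        have e2 : |(1 - s).im| = |s.im| := by simp
        rw [e2]
        linarith only [e1]
      have b5 : ‖(s * (1 - s)) ^ i‖ ≤ 2 * (1 + |s.im|) ^ 2 := by
        rcases hi' with h | h
        · rw [h, pow_zero, norm_one]
          nlinarith only [hP]
        · rw [h, pow_one, norm_mul]
          calc ‖s‖ * ‖1 - s‖ ≤ (2 * (1 + |s.im|)) * (1 + |s.im|) :=
                mul_le_mul b3 b4 (norm_nonneg _) (by positivity)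
            _ = 2 * (1 + |s.im|) ^ 2 := by ring
      have b6 : (1 + |s.im|) ^ 4 ≤ (1 + |s.im|) ^ 8 := pow_le_pow_right₀ hP (by norm_num)
      calc ‖N s‖ = ‖(s * (1 - s)) ^ i‖ * ‖E s‖ * ‖T19_G κ q ε u s‖ := by simp only [hN, norm_mul]
        _ ≤ (2 * (1 + |s.im|) ^ 2) * (C1 * (1 + |s.im|) ^ 2) * (C2 * Real.exp (-(ε / 4 * |s.im|))) := by
            gcongr
        _ = (2 * C1 * C2) * (1 + |s.im|) ^ 4 * Real.exp (-(ε / 4 * |s.im|)) := by ring
        _ ≤ _ := by gcongr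
    have hN1 : N 1 = 0 := by
      rcases hi with ⟨h, hq1⟩ | h
      · simp only [hN]
        rw [hE1 (LX.ne_one hχ hq1)]
        ring
      · simp only [hN, h]
        ring
    have hNM : ∀ s : ℂ, s ≠ 1 → N s / (s - 1) = (s * (1 - s)) ^ i * (LX.Lf χ s * T19_G κ q ε u s) := by
      intro s hs
      have hs' : s - 1 ≠ 0 := sub_ne_zero.mpr hs
      simp only [hN]
      rw [hEs s hs, div_eq_iff hs']
      ring
    obtain ⟨-, -, hsh⟩ := OO.T_shift (N := N) (a := 1 / 2) (b := 2) (by norm_num) (by norm_num) hNd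
      (by linarith only [h0] : (0 : ℝ) < ε / 4) hNb
    have e1 : (((1 / 2 : ℝ)) : ℂ) = 1 / 2 := by push_cast; ring
    have e2 : (((2 : ℝ)) : ℂ) = 2 := by push_cast; ring
    rw [e1, e2, hN1, mul_zero, add_zero] at hsh
    have i1 : ∀ y : ℝ, N (2 + y * I) / (2 + y * I - 1) =
        exp (c0 * (((2 * u - Real.log q : ℝ) : ℂ) + ((π / 2 - ε : ℝ) : ℂ) * I)) *
          ∑ j ∈ Finset.range (2 * i + 1), T19_co κ i j *
            (LX.Lf χ (2 + y * I) * (Gamma ((2 + y * I + κ) / 2 + j) * W ^ (-((2 + y * I + κ) / 2)))) := by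
      intro y
      have hne : (2 : ℂ) + y * I ≠ 1 := by
        intro h
        have := congrArg Complex.re h
        norm_num at this
      have hre : ((2 : ℂ) + y * I).re = 2 := by simp
      rw [hNM _ hne]
      have a1 := T19_poly κ i hi' (2 + y * I) (by rw [hre]; norm_num)
      have a2 : T19_G κ q ε u (2 + y * I) =
          exp (c0 * (((2 * u - Real.log q : ℝ) : ℂ) + ((π / 2 - ε : ℝ) : ℂ) * I)) *
            (W ^ (-((2 + y * I + κ) / 2)) * Gamma ((2 + y * I + κ) / 2)) := by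
        rw [hWp, ← mul_assoc, ← exp_add]
        unfold T19_G
        rw [← mul_assoc, ← exp_add]
        congr 2
        rw [hc0]
        push_cast
        ring
      rw [a2]
      have a3 : (((2 : ℂ) + y * I) * (1 - (2 + y * I))) ^ i * (LX.Lf χ (2 + y * I) *
          (exp (c0 * (((2 * u - Real.log q : ℝ) : ℂ) + ((π / 2 - ε : ℝ) : ℂ) * I)) *
            (W ^ (-((2 + y * I + κ) / 2)) * Gamma ((2 + y * I + κ) / 2)))) =
          exp (c0 * (((2 * u - Real.log q : ℝ) : ℂ) + ((π / 2 - ε : ℝ) : ℂ) * I)) *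
          (LX.Lf χ (2 + y * I) * W ^ (-((2 + y * I + κ) / 2)) *
            ((((2 : ℂ) + y * I) * (1 - (2 + y * I))) ^ i * Gamma ((2 + y * I + κ) / 2))) := by ring
      rw [a3, a1, Finset.mul_sum]
      congr 1
      refine Finset.sum_congr rfl fun j _ => ?_
      ring
    have i2 : ∀ t : ℝ, N (1 / 2 + t * I) / (1 / 2 + t * I - 1) =
        (((t ^ 2 + 1 / 4) ^ i : ℝ) : ℂ) * (LX.Lf χ (1 / 2 + t * I) * T19_G κ q ε u (1 / 2 + t * I)) := by
      intro t
      have hne : (1 / 2 : ℂ) + t * I ≠ 1 := by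
        intro h
        have := congrArg Complex.re h
        norm_num at this
      rw [hNM _ hne]
      congr 1
      have : ((1 / 2 : ℂ) + t * I) * (1 - (1 / 2 + t * I)) = ((t ^ 2 + 1 / 4 : ℝ) : ℂ) := by
        push_cast
        linear_combination (-(t : ℂ) ^ 2) * I_mul_I
      rw [this]
      push_cast
      rfl
    have hL : ∫ t : ℝ, (((t ^ 2 + 1 / 4) ^ i * rR χ ε t : ℝ) : ℂ) * exp (-(t * u * I)) =
        LX.cc χ * ∫ t : ℝ, N (1 / 2 + t * I) / (1 / 2 + t * I - 1) := by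
      rw [← integral_const_mul]
      refine integral_congr_ae (Eventually.of_forall fun t => ?_)
      simp only
      rw [i2, ofReal_mul, mul_assoc, T19_rR hχ hκ]
      ring
    rw [hL, ← hsh]
    simp_rw [i1]
    rw [integral_const_mul, integral_finsetSum]
    · rw [Finset.mul_sum, Finset.mul_sum, Finset.mul_sum]
      refine Finset.sum_congr rfl fun j _ => ?_
      rw [integral_const_mul, (T19_series χ κ j hWre).2]
      have hpi : (π : ℂ) ≠ 0 := by exact_mod_cast Real.pi_ne_zero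
      unfold rho th
      have t1 : ∀ n : ℕ, χ ((n + 1 : ℕ) : ZMod q) * ((n : ℂ) + 1) ^ (κ + 2 * j) * exp (-(((n : ℂ) + 1) ^ 2 * W)) =
          χ ((n + 1 : ℕ) : ZMod q) * ((n : ℂ) + 1) ^ (κ + 2 * j) *
            exp (-(π * ((n : ℂ) + 1) ^ 2 * zp ε (Real.exp (2 * u)) / q)) := by
        intro n
        congr 2
        rw [hW]
        ring
      rw [tsum_congr t1]
      generalize (∑' n : ℕ, χ ((n + 1 : ℕ) : ZMod q) * ((n : ℂ) + 1) ^ (κ + 2 * j) *
            exp (-(π * ((n : ℂ) + 1) ^ 2 * zp ε (Real.exp (2 * u)) / q))) = S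
      have t2 : exp (c0 * (((2 * u - Real.log q : ℝ) : ℂ) + ((π / 2 - ε : ℝ) : ℂ) * I)) * W ^ j =
          exp (-(c0 * Real.log q)) * ((π : ℂ) / q) ^ j * exp ((((c0 + j) * (π / 2 - ε) : ℝ) : ℂ) * I) *
            ((Real.exp ((1 / 2 + ((κ + 2 * j : ℕ) : ℝ)) * u) : ℝ) : ℂ) := by
        have w1 : W = ((π : ℂ) / q) * exp (2 * u + ((π / 2 - ε : ℝ) : ℂ) * I) := by
          rw [hW]
          unfold zp
          rw [exp_add]
          push_cast
          ring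
        rw [w1, mul_pow, ← exp_nat_mul, ofReal_exp]
        have w2 : exp (c0 * (((2 * u - Real.log q : ℝ) : ℂ) + ((π / 2 - ε : ℝ) : ℂ) * I)) *
            exp (j * (2 * u + ((π / 2 - ε : ℝ) : ℂ) * I)) =
            exp (-(c0 * Real.log q)) * exp ((((c0 + j) * (π / 2 - ε) : ℝ) : ℂ) * I) *
              exp (((1 / 2 + ((κ + 2 * j : ℕ) : ℝ)) * u : ℝ) : ℂ) := by
          rw [← exp_add, ← exp_add, ← exp_add]
          congr 1
          rw [hc0]
          push_cast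
          ring
        linear_combination ((π : ℂ) / q) ^ j * w2
      simp only [hB]
      have t3 : (2 * (π : ℂ))⁻¹ * (4 * π) = 2 := by
        field_simp
        norm_num
      linear_combination (LX.cc χ * T19_co κ i j * S * ((2 * (π : ℂ))⁻¹ * (4 * π))) * t2 +
        (LX.cc χ * T19_co κ i j * S * (exp (-(c0 * Real.log q)) * ((π : ℂ) / q) ^ j *
          exp ((((c0 + j) * (π / 2 - ε) : ℝ) : ℂ) * I) *
            ((Real.exp ((1 / 2 + ((κ + 2 * j : ℕ) : ℝ)) * u) : ℝ) : ℂ))) * t3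
    · intro j _
      exact (T19_series χ κ j hWre).1.const_mul _

end TT
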