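import Pool.Agent.Lib.MP_0f5a55_nt.TT.T04
import Pool.Agent.Lib.MP_0f5a55_nt.TT.T19

open Complex MeasureTheory Set Filter Topology
open scoped Real ComplexConjugate

namespace TT

theorem T20_abs : Integrable (fun u : ℝ => Real.exp (-(1 / 2 * |u|))) := by
  have h1 : IntegrableOn (fun u : ℝ => Real.exp (-(1 / 2 * |u|))) (Ioi 0) := by
    refine (integrableOn_exp_mul_Ioi (a := -(1 / 2 : ℝ)) (by norm_num) 0).congr_fun
      (fun u hu => ?_) measurableSet_Ioi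
    change Real.exp (-(1 / 2) * u) = Real.exp (-(1 / 2 * |u|))
    rw [abs_of_pos hu, neg_mul]
  have h2 : IntegrableOn (fun u : ℝ => Real.exp (-(1 / 2 * |u|))) (Iic 0) := by
    refine (integrableOn_exp_mul_Iic (a := (1 / 2 : ℝ)) (by norm_num) 0).congr_fun
      (fun u hu => ?_) measurableSet_Iic
    change Real.exp (1 / 2 * u) = Real.exp (-(1 / 2 * |u|))
    rw [abs_of_nonpos hu, mul_neg, neg_neg]
  rw [← integrableOn_univ, ← Iic_union_Ioi (a := (0 : ℝ))]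
  exact h2.union h1

theorem T20_conj (g : ℝ → ℝ) (u : ℝ) :
    (2 * (π : ℂ))⁻¹ * ∫ t : ℝ, ((g t : ℝ) : ℂ) * exp (-(t * (-u : ℝ) * I)) =
      conj ((2 * (π : ℂ))⁻¹ * ∫ t : ℝ, ((g t : ℝ) : ℂ) * exp (-(t * u * I))) := by
  rw [map_mul, ← integral_conj]
  congr 1
  · rw [map_inv₀, map_mul, conj_ofReal]
    congr 2
    exact (map_ofNat (starRingEnd ℂ) 2).symm
  · refine integral_congr_ae (Eventually.of_forall fun t => ?_)
    change _ = conj (((g t : ℝ) : ℂ) * exp (-(t * u * I)))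
    rw [map_mul, conj_ofReal, ← exp_conj, map_neg, map_mul, map_mul, conj_ofReal, conj_ofReal, conj_I]
    push_cast
    congr 2
    ring

/-- Row T20. Integrability of the transform. -/
theorem trans_int {q : ℕ} [NeZero q] {χ : DirichletCharacter ℂ q} (hχ : χ.IsPrimitive) {κ : ℕ}
    (hκ : Par χ κ) (i : ℕ) (hi : (i = 0 ∧ 1 < q) ∨ i = 1) {ε : ℝ} (h0 : 0 < ε) (h1 : ε ≤ 1 / 2) :
    Integrable (fun u : ℝ => (2 * (π : ℂ))⁻¹ *
      ∫ t : ℝ, (((t ^ 2 + 1 / 4) ^ i * rR χ ε t : ℝ) : ℂ) * exp (-(t * u * I))) := by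
  obtain ⟨A, C, hC, hA, h⟩ := rR_trans hχ hκ i hi
  have hq : 0 < q := NeZero.pos q
  have hf : ∀ n : ℕ, ‖χ (n : ZMod q)‖ ≤ 1 := fun n => χ.norm_le_one _
  set f : ℝ → ℂ := fun u : ℝ => (2 * (π : ℂ))⁻¹ *
      ∫ t : ℝ, (((t ^ 2 + 1 / 4) ^ i * rR χ ε t : ℝ) : ℂ) * exp (-(t * u * I)) with hfdef
  have hfe : f = fun u => ∑ j ∈ Finset.range (2 * i + 1),
      A ε j * rho q (fun n => χ n) (κ + 2 * j) ε u := by
    funext u
    exact h ε h0 h1 u
  have hcont : Continuous f := by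
    rw [hfe]
    refine continuous_finset_sum _ fun j _ => ?_
    exact continuous_const.mul (rho_cont hq hf _ h0 h1)
  obtain ⟨D, hD⟩ : ∃ D : ℝ, ∀ u : ℝ, 0 ≤ u → ‖f u‖ ≤ D * Real.exp (-(u / 2)) := by
    choose D hD0 hD using fun p : ℕ => rho_triv hq p
    refine ⟨∑ j ∈ Finset.range (2 * i + 1), C * (D (κ + 2 * j) *
      ε ^ (-((1 + ((κ + 2 * j : ℕ) : ℝ)) / 2))), fun u _ => ?_⟩
    rw [hfe, Finset.sum_mul]
    refine (norm_sum_le _ _).trans (Finset.sum_le_sum fun j _ => ?_)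
    rw [norm_mul, mul_assoc]
    exact mul_le_mul (hA ε j) (hD _ _ hf ε h0 h1 u) (norm_nonneg _) hC
  have hneg : ∀ u : ℝ, f (-u) = conj (f u) := by
    intro u
    exact T20_conj (fun t => (t ^ 2 + 1 / 4) ^ i * rR χ ε t) u
  have hb : ∀ u : ℝ, ‖f u‖ ≤ D * Real.exp (-(1 / 2 * |u|)) := by
    intro u
    rcases le_total 0 u with hu | hu
    · rw [abs_of_nonneg hu]
      have := hD u hu
      rwa [show -(1 / 2 * u) = -(u / 2) by ring]
    · rw [abs_of_nonpos hu]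
      have h2 := hD (-u) (by linarith)
      rw [hneg, RCLike.norm_conj] at h2
      rwa [show -(1 / 2 * -u) = -(-u / 2) by ring]
  have hint : Integrable (fun u : ℝ => D * Real.exp (-(1 / 2 * |u|))) :=
    T20_abs.const_mul D
  exact hint.mono' hcont.aestronglyMeasurable (Eventually.of_forall hb)

end TT
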