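import Pool.Agent.Lib.MP_0f5a55_nt.TT.T01
import Pool.Agent.Lib.MP_0f5a55_nt.TT.T04
import Pool.Agent.Lib.MP_0f5a55_nt.TT.T16
import Pool.Agent.Lib.MP_0f5a55_nt.TT.T17
import Pool.Agent.Lib.MP_0f5a55_nt.TT.T18
import Pool.Agent.Lib.MP_0f5a55_nt.TT.T19
import Pool.Agent.Lib.MP_0f5a55_nt.TT.T20
import Pool.Agent.Lib.MP_0f5a55_nt.TT.T27

open Complex MeasureTheory Set Filter Topology
open scoped Real ComplexConjugate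

namespace TT

theorem T21_par {q : ℕ} [NeZero q] {χ : DirichletCharacter ℂ q} {κ : ℕ} (hκ : Par χ κ) (j : ℕ) :
    χ (-1) = (-1) ^ (κ + 2 * j) := by
  rcases hκ with ⟨h, rfl⟩ | ⟨h, rfl⟩
  · rw [h, zero_add, pow_mul]
    norm_num
  · rw [h, pow_add, pow_mul]
    norm_num

theorem T21_one {qa qb qc : ℕ} [NeZero qa] [NeZero qb] [NeZero qc] (χa : DirichletCharacter ℂ qa)
    (χb : DirichletCharacter ℂ qb) (χc : DirichletCharacter ℂ qc) {M : ℝ}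
    (hM : ∀ N : ℕ, ‖∑ g ∈ Finset.range N, χa ((g + 1 : ℕ) : ZMod qa) *
      conj (χc ((g + 1 : ℕ) : ZMod qc))‖ ≤ M) {κb : ℕ} (κa κc : ℕ) (hb : Par χb κb) (gb : 1 < qb)
    (sa sb sc : ℕ) {A B D : ℝ → ℕ → ℂ} {CA CB CD : ℝ} (hA : ∀ ε j, ‖A ε j‖ ≤ CA)
    (hB : ∀ ε j, ‖B ε j‖ ≤ CB) (hD : ∀ ε j, ‖D ε j‖ ≤ CD) (E : ℝ)
    (hE : ∀ j1 < sa, ∀ j2 < sb, ∀ j3 < sc, 1 / 4 + ((κb + 2 * j2 : ℕ) : ℝ) / 2 +
      max (((κa + 2 * j1 + (κc + 2 * j3) : ℕ) : ℝ) / 2) 2 ≤ E) :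
    ∃ C : ℝ, 0 ≤ C ∧ ∀ W : ℝ → ℝ, Adm W → ∀ ε : ℝ, 0 < ε → ε ≤ 1 / 2 →
      ‖Jf (fun u => ∑ j ∈ Finset.range sa, A ε j * rho qa (fun n => χa n) (κa + 2 * j) ε u)
        (fun u => ∑ j ∈ Finset.range sb, B ε j * rho qb (fun n => χb n) (κb + 2 * j) ε u)
        (fun u => ∑ j ∈ Finset.range sc, D ε j * rho qc (fun n => χc n) (κc + 2 * j) ε u) W‖ ≤
        C * ε ^ (-E) := by
  have hqa : 0 < qa := Nat.pos_of_ne_zero (NeZero.ne qa)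
  have hqb : 0 < qb := Nat.pos_of_ne_zero (NeZero.ne qb)
  have hqc : 0 < qc := Nat.pos_of_ne_zero (NeZero.ne qc)
  have hCA : 0 ≤ CA := (norm_nonneg _).trans (hA 0 0)
  have hCB : 0 ≤ CB := (norm_nonneg _).trans (hB 0 0)
  have hCD : 0 ≤ CD := (norm_nonneg _).trans (hD 0 0)
  have ba : ∀ n : ℕ, ‖χa (n : ZMod qa)‖ ≤ 1 := fun n => χa.norm_le_one _
  have bb : ∀ n : ℕ, ‖χb (n : ZMod qb)‖ ≤ 1 := fun n => χb.norm_le_one _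
  have bc : ∀ n : ℕ, ‖χc (n : ZMod qc)‖ ≤ 1 := fun n => χc.norm_le_one _
  have te := fun j1 j2 j3 : ℕ => te_bound (fa := fun n => χa n) (fc := fun n => χc n) hqa hqc
    (fun m n => by simp only [Nat.cast_mul, map_mul]) (fun m n => by simp only [Nat.cast_mul, map_mul])
    ba bc hM (κa + 2 * j1) (κc + 2 * j3) χb (κb + 2 * j2) (T21_par hb j2) (Or.inl gb)
  choose C hC0 hC using te
  refine ⟨∑ j1 ∈ Finset.range sa, ∑ j2 ∈ Finset.range sb, ∑ j3 ∈ Finset.range sc,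
    CA * CB * CD * C j1 j2 j3, ?_, ?_⟩
  · refine Finset.sum_nonneg fun j1 _ => Finset.sum_nonneg fun j2 _ => Finset.sum_nonneg fun j3 _ => ?_
    have := hC0 j1 j2 j3
    positivity
  · intro W hW ε h0 h1
    rw [Jf_sum (F := fun j => rho qa (fun n => χa n) (κa + 2 * j) ε)
      (G := fun j => rho qb (fun n => χb n) (κb + 2 * j) ε)
      (H := fun j => rho qc (fun n => χc n) (κc + 2 * j) ε)
      (fun j _ => rho_dec hqa ba _ h0 h1) (fun j _ => rho_dec hqb bb _ h0 h1)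
      (fun j _ => rho_dec hqc bc _ h0 h1) (A ε) (B ε) (D ε) hW]
    rw [Finset.sum_mul]
    refine (norm_sum_le _ _).trans (Finset.sum_le_sum fun j1 hj1 => ?_)
    rw [Finset.sum_mul]
    refine (norm_sum_le _ _).trans (Finset.sum_le_sum fun j2 hj2 => ?_)
    rw [Finset.sum_mul]
    refine (norm_sum_le _ _).trans (Finset.sum_le_sum fun j3 hj3 => ?_)
    rw [norm_mul, norm_mul, norm_mul, RCLike.norm_conj]
    have e1 := hC j1 j2 j3 W hW ε h0 h1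
    have e2 := hE j1 (Finset.mem_range.mp hj1) j2 (Finset.mem_range.mp hj2) j3 (Finset.mem_range.mp hj3)
    have e3 : ε ^ (-(1 / 4 + ((κb + 2 * j2 : ℕ) : ℝ) / 2 +
        max (((κa + 2 * j1 + (κc + 2 * j3) : ℕ) : ℝ) / 2) 2)) ≤ ε ^ (-E) :=
      Real.rpow_le_rpow_of_exponent_ge h0 (by linarith) (by linarith)
    have e4 := e1.trans (mul_le_mul_of_nonneg_left e3 (hC0 j1 j2 j3))
    calc ‖A ε j1‖ * ‖B ε j2‖ * ‖D ε j3‖ * ‖Jf (rho qa (fun n => χa n) (κa + 2 * j1) ε)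
          (rho qb (fun n => χb n) (κb + 2 * j2) ε) (rho qc (fun n => χc n) (κc + 2 * j3) ε) W‖
        ≤ CA * CB * CD * (C j1 j2 j3 * ε ^ (-E)) := by
          refine mul_le_mul ?_ e4 (norm_nonneg _) (by positivity)
          exact mul_le_mul (mul_le_mul (hA ε j1) (hB ε j2) (norm_nonneg _) hCA) (hD ε j3)
            (norm_nonneg _) (by positivity)
      _ = CA * CB * CD * C j1 j2 j3 * ε ^ (-E) := by ring

/-- Row T21. Upper bound. -/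
theorem UB {q1 q2 q3 : ℕ} [NeZero q1] [NeZero q2] [NeZero q3] {χ1 : DirichletCharacter ℂ q1}
    {χ2 : DirichletCharacter ℂ q2} {χ3 : DirichletCharacter ℂ q3} (h1 : χ1.IsPrimitive)
    (h2 : χ2.IsPrimitive) (h3 : χ3.IsPrimitive) (n12 : OO.Ne12 χ1 χ2) (n13 : OO.Ne12 χ1 χ3)
    (g2 : 1 < q2) (g3 : 1 < q3) {κ1 κ2 κ3 : ℕ} (k1 : Par χ1 κ1) (k2 : Par χ2 κ2) (k3 : Par χ3 κ3) :
    ∃ C : ℝ, 0 ≤ C ∧ ∀ ε : ℝ, 0 < ε → ε ≤ 1 / 2 →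
      |∫ t : ℝ, (t ^ 2 + 1 / 4) ^ 2 * (rR χ1 ε t * rR χ2 ε t * rR χ3 ε t)| ≤
        C * ε ^ (-(17 / 4 + ((κ1 + κ2 + κ3 : ℕ) : ℝ) / 2)) := by
  obtain ⟨A1, C1, -, hA1, hf1⟩ := rR_trans h1 k1 1 (Or.inr rfl)
  obtain ⟨A2, C2, -, hA2, hf2⟩ := rR_trans h2 k2 1 (Or.inr rfl)
  obtain ⟨A3, C3, -, hA3, hf3⟩ := rR_trans h3 k3 0 (Or.inl ⟨rfl, g3⟩)
  obtain ⟨M13, hM13⟩ := psum n13
  obtain ⟨M12, hM12⟩ := psum n12
  have n21 : OO.Ne12 χ2 χ1 := by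
    obtain ⟨n, hn, hne⟩ := n12
    exact ⟨n, by rwa [mul_comm], fun h => hne h.symm⟩
  obtain ⟨M21, hM21⟩ := psum n21
  set E : ℝ := 17 / 4 + ((κ1 + κ2 + κ3 : ℕ) : ℝ) / 2 with hEdef
  have hcast : ((κ1 + κ2 + κ3 : ℕ) : ℝ) = (κ1 : ℝ) + κ2 + κ3 := by push_cast; ring
  have p1 : (0 : ℝ) ≤ κ1 := Nat.cast_nonneg _
  have p2 : (0 : ℝ) ≤ κ2 := Nat.cast_nonneg _
  have p3 : (0 : ℝ) ≤ κ3 := Nat.cast_nonneg _
  obtain ⟨D1, hD1, b1⟩ := T21_one χ1 χ2 χ3 hM13 κ1 κ3 k2 g2 (2 * 1 + 1) (2 * 1 + 1) (2 * 0 + 1)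
    hA1 hA2 hA3 E (by
      intro j1 hj1 j2 hj2 j3 hj3
      have a1 : (j1 : ℝ) ≤ 2 := by exact_mod_cast (by omega : j1 ≤ 2)
      have a2 : (j2 : ℝ) ≤ 2 := by exact_mod_cast (by omega : j2 ≤ 2)
      have a3 : (j3 : ℝ) = 0 := by exact_mod_cast (by omega : j3 = 0)
      push_cast
      rw [hEdef, hcast, a3]
      have : max (((κ1 : ℝ) + 2 * j1 + (κ3 + 2 * 0)) / 2) 2 ≤ ((κ1 : ℝ) + κ3) / 2 + 2 :=
        max_le (by linarith) (by linarith)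
      linarith)
  obtain ⟨D2, hD2, b2⟩ := T21_one χ1 χ3 χ2 hM12 κ1 κ2 k3 g3 (2 * 1 + 1) (2 * 0 + 1) (2 * 1 + 1)
    hA1 hA3 hA2 E (by
      intro j1 hj1 j2 hj2 j3 hj3
      have a1 : (j1 : ℝ) ≤ 2 := by exact_mod_cast (by omega : j1 ≤ 2)
      have a3 : (j3 : ℝ) ≤ 2 := by exact_mod_cast (by omega : j3 ≤ 2)
      have a2 : (j2 : ℝ) = 0 := by exact_mod_cast (by omega : j2 = 0)
      push_cast
      rw [hEdef, hcast, a2]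
      have : max (((κ1 : ℝ) + 2 * j1 + (κ2 + 2 * j3)) / 2) 2 ≤ ((κ1 : ℝ) + κ2) / 2 + 4 :=
        max_le (by linarith) (by linarith)
      linarith)
  obtain ⟨D3, hD3, b3⟩ := T21_one χ2 χ3 χ1 hM21 κ2 κ1 k3 g3 (2 * 1 + 1) (2 * 0 + 1) (2 * 1 + 1)
    hA2 hA3 hA1 E (by
      intro j1 hj1 j2 hj2 j3 hj3
      have a1 : (j1 : ℝ) ≤ 2 := by exact_mod_cast (by omega : j1 ≤ 2)
      have a3 : (j3 : ℝ) ≤ 2 := by exact_mod_cast (by omega : j3 ≤ 2)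
      have a2 : (j2 : ℝ) = 0 := by exact_mod_cast (by omega : j2 = 0)
      push_cast
      rw [hEdef, hcast, a2]
      have : max (((κ2 : ℝ) + 2 * j1 + (κ1 + 2 * j3)) / 2) 2 ≤ ((κ2 : ℝ) + κ1) / 2 + 4 :=
        max_le (by linarith) (by linarith)
      linarith)
  refine ⟨4 * π * (D1 + D2 + D3), by have := Real.pi_pos; positivity, ?_⟩
  intro ε h0 hε
  have cw : ∀ i : ℕ, Continuous (fun t : ℝ => (t ^ 2 + 1 / 4) ^ i) := fun i => by fun_prop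
  have hpat := pattern
    (r1 := fun t => (t ^ 2 + 1 / 4) ^ 1 * rR χ1 ε t)
    (r2 := fun t => (t ^ 2 + 1 / 4) ^ 1 * rR χ2 ε t)
    (r3 := fun t => (t ^ 2 + 1 / 4) ^ 0 * rR χ3 ε t)
    (f1 := fun u => (2 * (π : ℂ))⁻¹ * ∫ t : ℝ, (((t ^ 2 + 1 / 4) ^ 1 * rR χ1 ε t : ℝ) : ℂ) * exp (-(t * u * I)))
    (f2 := fun u => (2 * (π : ℂ))⁻¹ * ∫ t : ℝ, (((t ^ 2 + 1 / 4) ^ 1 * rR χ2 ε t : ℝ) : ℂ) * exp (-(t * u * I)))
    (f3 := fun u => (2 * (π : ℂ))⁻¹ * ∫ t : ℝ, (((t ^ 2 + 1 / 4) ^ 0 * rR χ3 ε t : ℝ) : ℂ) * exp (-(t * u * I)))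
    ((cw 1).mul (rR_cont h1 ε)) ((cw 1).mul (rR_cont h2 ε)) ((cw 0).mul (rR_cont h3 ε))
    (rR_int h1 h0 hε 1) (rR_int h2 h0 hε 1) (rR_int h3 h0 hε 0)
    (fun u => rfl) (fun u => rfl) (fun u => rfl)
    (trans_int h1 k1 1 (Or.inr rfl) h0 hε) (trans_int h2 k2 1 (Or.inr rfl) h0 hε)
    (trans_int h3 k3 0 (Or.inl ⟨rfl, g3⟩) h0 hε)
  have e0 : ∫ t : ℝ, (t ^ 2 + 1 / 4) ^ 2 * (rR χ1 ε t * rR χ2 ε t * rR χ3 ε t) =
      ∫ t : ℝ, ((t ^ 2 + 1 / 4) ^ 1 * rR χ1 ε t) * ((t ^ 2 + 1 / 4) ^ 1 * rR χ2 ε t) *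
        ((t ^ 2 + 1 / 4) ^ 0 * rR χ3 ε t) := by
    refine integral_congr_ae (Filter.Eventually.of_forall fun t => ?_)
    simp only
    ring
  rw [e0, hpat]
  have F1 := funext (hf1 ε h0 hε)
  have F2 := funext (hf2 ε h0 hε)
  have F3 := funext (hf3 ε h0 hε)
  rw [F1, F2, F3]
  have w1 : Adm (fun _ => (1 : ℝ)) := Or.inl rfl
  have w2 : Adm tau := Or.inr rfl
  have c1 := b1 _ w1 ε h0 hε
  have c2 := b2 _ w2 ε h0 hε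
  have c3 := b3 _ w2 ε h0 hε
  rw [abs_mul, abs_of_pos (by have := Real.pi_pos; positivity : (0 : ℝ) < 4 * π), mul_assoc (4 * π)]
  refine mul_le_mul_of_nonneg_left ?_ (by have := Real.pi_pos; positivity)
  refine (Complex.abs_re_le_norm _).trans ?_
  refine (norm_add_le _ _).trans ?_
  have c12 := norm_add_le
    (Jf (fun u => ∑ j ∈ Finset.range (2 * 1 + 1), A1 ε j * rho q1 (fun n => χ1 n) (κ1 + 2 * j) ε u)
      (fun u => ∑ j ∈ Finset.range (2 * 1 + 1), A2 ε j * rho q2 (fun n => χ2 n) (κ2 + 2 * j) ε u)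
      (fun u => ∑ j ∈ Finset.range (2 * 0 + 1), A3 ε j * rho q3 (fun n => χ3 n) (κ3 + 2 * j) ε u)
      (fun _ => (1 : ℝ)))
    (Jf (fun u => ∑ j ∈ Finset.range (2 * 1 + 1), A1 ε j * rho q1 (fun n => χ1 n) (κ1 + 2 * j) ε u)
      (fun u => ∑ j ∈ Finset.range (2 * 0 + 1), A3 ε j * rho q3 (fun n => χ3 n) (κ3 + 2 * j) ε u)
      (fun u => ∑ j ∈ Finset.range (2 * 1 + 1), A2 ε j * rho q2 (fun n => χ2 n) (κ2 + 2 * j) ε u)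
      tau)
  linarith

end TT
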