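import Pool.Agent.Lib.MP_0f5a55_nt.TT.D

open Complex MeasureTheory Set Filter Topology
open scoped Real ComplexConjugate

namespace TT

/-- the coefficient at a real frequency: a(n)/sqrt n if lam = n is a natural number, else 0 -/
noncomputable def al (a : ℕ → ℂ) (lam : ℝ) : ℂ :=
  if ((⌊lam⌋₊ : ℕ) : ℝ) = lam then a ⌊lam⌋₊ * ((√lam : ℝ) : ℂ)⁻¹ else 0

theorem T22_int (k : ℕ) {x : ℝ} (hx : 0 < x) :
    IntegrableOn (fun t : ℝ => t ^ k * Real.exp (-(x * t))) (Ioi 0) := by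
  have h := integrableOn_rpow_mul_exp_neg_mul_rpow (s := (k : ℝ)) (p := 1) (b := x)
    (by have : (0 : ℝ) ≤ k := Nat.cast_nonneg k
        linarith) one_pos hx
  refine h.congr_fun (fun t _ => ?_) measurableSet_Ioi
  simp only [Real.rpow_natCast, Real.rpow_one, neg_mul]

theorem T22_val (k : ℕ) {x : ℝ} (hx : 0 < x) :
    ∫ t in Ioi (0 : ℝ), t ^ k * Real.exp (-(x * t)) = (x⁻¹) ^ (k + 1) * k.factorial := by
  have h := Real.integral_rpow_mul_exp_neg_mul_Ioi (a := (k : ℝ) + 1) (r := x) (by positivity) hx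
  rw [Real.Gamma_nat_eq_factorial, one_div] at h
  have h2 : (x⁻¹) ^ ((k : ℝ) + 1) = (x⁻¹) ^ (k + 1) := by
    rw [← Real.rpow_natCast]
    push_cast
    rfl
  rw [h2] at h
  rw [← h]
  refine setIntegral_congr_fun measurableSet_Ioi fun t _ => ?_
  change _ = t ^ ((k : ℝ) + 1 - 1) * Real.exp (-(x * t))
  rw [add_sub_cancel_right, Real.rpow_natCast]

theorem T22_norm {t : ℝ} (ht : 1 ≤ t) : ‖(t : ℂ) - 3 / 2 * I‖ ≤ 5 / 2 * t := by
  calc ‖(t : ℂ) - 3 / 2 * I‖ ≤ ‖(t : ℂ)‖ + ‖(3 / 2 * I : ℂ)‖ := norm_sub_le _ _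
    _ = t + 3 / 2 := by
      rw [norm_real, Real.norm_of_nonneg (by linarith), norm_mul, norm_I, mul_one]
      norm_num
    _ ≤ 5 / 2 * t := by linarith

/-- the integrand -/
noncomputable def T22_f (k : ℕ) (z : ℂ) (t : ℝ) : ℂ := ((t : ℂ) - 3 / 2 * I) ^ k * exp (-(z * t))

theorem T22_f_norm (k : ℕ) (z : ℂ) {t : ℝ} (ht : 1 ≤ t) :
    ‖T22_f k z t‖ ≤ (5 / 2) ^ k * (t ^ k * Real.exp (-(z.re * t))) := by
  unfold T22_f
  rw [norm_mul, norm_pow, norm_exp]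
  have h1 : (-(z * (t : ℂ))).re = -(z.re * t) := by
    rw [neg_re, mul_re, ofReal_re, ofReal_im, mul_zero, sub_zero]
  rw [h1, ← mul_assoc, ← mul_pow]
  exact mul_le_mul_of_nonneg_right (pow_le_pow_left₀ (norm_nonneg _) (T22_norm ht) _)
    (Real.exp_nonneg _)

theorem T22_f_cont (k : ℕ) (z : ℂ) : Continuous (T22_f k z) := by
  unfold T22_f
  fun_prop

theorem T22_f_int (k : ℕ) {z : ℂ} (hz : 0 < z.re) : IntegrableOn (T22_f k z) (Ioi 1) := by
  have h1 : IntegrableOn (fun t : ℝ => (5 / 2) ^ k * (t ^ k * Real.exp (-(z.re * t)))) (Ioi 1) :=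
    ((T22_int k hz).mono_set (Ioi_subset_Ioi zero_le_one)).const_mul _
  refine Integrable.mono' h1 (T22_f_cont k z).aestronglyMeasurable ?_
  refine (ae_restrict_iff' measurableSet_Ioi).mpr (Eventually.of_forall fun t ht => ?_)
  exact T22_f_norm k z (le_of_lt ht)

theorem T22_f_tendsto (k : ℕ) {z : ℂ} (hz : 0 < z.re) : Tendsto (T22_f k z) atTop (𝓝 0) := by
  rw [tendsto_zero_iff_norm_tendsto_zero]
  have h1 := (tendsto_rpow_mul_exp_neg_mul_atTop_nhds_zero (k : ℝ) z.re hz).const_mul ((5 / 2 : ℝ) ^ k)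
  rw [mul_zero] at h1
  refine squeeze_zero' (Eventually.of_forall fun t => norm_nonneg _) ?_ h1
  filter_upwards [eventually_ge_atTop 1] with t ht
  have := T22_f_norm k z ht
  rwa [Real.rpow_natCast, neg_mul]

theorem T22_f_deriv (k : ℕ) (z : ℂ) (t : ℝ) :
    HasDerivAt (T22_f k z) (k * T22_f (k - 1) z t - z * T22_f k z t) t := by
  unfold T22_f
  have h1 : HasDerivAt (fun t : ℝ => (t : ℂ) - 3 / 2 * I) 1 t :=
    (ofRealCLM.hasDerivAt (x := t)).sub_const _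
  have h2 : HasDerivAt (fun t : ℝ => -(z * (t : ℂ))) (-(z * 1)) t :=
    ((ofRealCLM.hasDerivAt (x := t)).const_mul z).neg
  have h3 := (h1.pow k).mul h2.cexp
  refine h3.congr_deriv ?_
  have h4 : ((fun t : ℝ => (t : ℂ) - 3 / 2 * I) ^ k) t = ((t : ℂ) - 3 / 2 * I) ^ k := rfl
  rw [h4]
  ring

theorem T22_rec (k : ℕ) {z : ℂ} (hz : 0 < z.re) :
    z * ∫ t in Ioi (1 : ℝ), T22_f k z t =
      (k : ℂ) * (∫ t in Ioi (1 : ℝ), T22_f (k - 1) z t) + T22_f k z 1 := by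
  have h1 := integral_Ioi_of_hasDerivAt_of_tendsto' (a := (1 : ℝ)) (f := T22_f k z) (m := 0)
    (f' := fun t => k * T22_f (k - 1) z t - z * T22_f k z t)
    (fun t _ => T22_f_deriv k z t)
    (((T22_f_int (k - 1) hz).const_mul _).sub ((T22_f_int k hz).const_mul _)) (T22_f_tendsto k hz)
  rw [integral_sub ((T22_f_int (k - 1) hz).const_mul _) ((T22_f_int k hz).const_mul _),
    integral_const_mul, integral_const_mul] at h1
  linear_combination (-1 : ℂ) * h1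

theorem T22_one_norm (k : ℕ) {z : ℂ} (hz : 0 < z.re) : ‖T22_f k z 1‖ ≤ (5 / 2) ^ k := by
  have h := T22_f_norm k z (le_refl (1 : ℝ))
  rw [one_pow, one_mul, mul_one] at h
  refine h.trans ?_
  have h2 : Real.exp (-z.re) ≤ 1 := Real.exp_le_one_iff.mpr (by linarith)
  have h3 : (0 : ℝ) ≤ (5 / 2) ^ k := by positivity
  nlinarith

theorem T22_re (T θ : ℝ) : (((T⁻¹ : ℝ) : ℂ) - θ * I).re = T⁻¹ := by
  rw [sub_re, ofReal_re, re_ofReal_mul, I_re, mul_zero, sub_zero]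

/-- nonzero frequency: bounded -/
theorem T22_bdd (k : ℕ) {θ : ℝ} (hθ : θ ≠ 0) : ∃ B : ℝ, ∀ T : ℝ, 0 < T →
    ‖∫ t in Ioi (1 : ℝ), T22_f k (((T⁻¹ : ℝ) : ℂ) - θ * I) t‖ ≤ B := by
  induction k with
  | zero =>
    refine ⟨|θ|⁻¹, fun T hT => ?_⟩
    have hz : 0 < (((T⁻¹ : ℝ) : ℂ) - θ * I).re := by
      rw [T22_re]
      positivity
    have h := T22_rec 0 hz
    rw [Nat.cast_zero, zero_mul, zero_add] at h
    have h2 := congrArg norm h
    rw [norm_mul] at h2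
    have h3 := T22_one_norm 0 hz
    rw [pow_zero] at h3
    have h4 : |θ| ≤ ‖((T⁻¹ : ℝ) : ℂ) - θ * I‖ := by
      have := abs_im_le_norm (((T⁻¹ : ℝ) : ℂ) - θ * I)
      rwa [sub_im, ofReal_im, im_ofReal_mul, I_im, mul_one, zero_sub, abs_neg] at this
    have h5 : 0 < |θ| := abs_pos.mpr hθ
    rw [← one_div |θ|, le_div_iff₀ h5]
    calc _ ≤ ‖∫ t in Ioi (1 : ℝ), T22_f 0 (((T⁻¹ : ℝ) : ℂ) - θ * I) t‖ *
          ‖((T⁻¹ : ℝ) : ℂ) - θ * I‖ := mul_le_mul_of_nonneg_left h4 (norm_nonneg _)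
      _ ≤ 1 := by
        rw [mul_comm, h2]
        exact h3
  | succ k ih =>
    obtain ⟨B, hB⟩ := ih
    refine ⟨|θ|⁻¹ * ((k + 1) * B + (5 / 2) ^ (k + 1)), fun T hT => ?_⟩
    have hz : 0 < (((T⁻¹ : ℝ) : ℂ) - θ * I).re := by
      rw [T22_re]
      positivity
    have h := T22_rec (k + 1) hz
    rw [Nat.add_sub_cancel] at h
    have h2 := congrArg norm h
    rw [norm_mul] at h2
    have h3 := T22_one_norm (k + 1) hz
    have h4 : |θ| ≤ ‖((T⁻¹ : ℝ) : ℂ) - θ * I‖ := by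
      have := abs_im_le_norm (((T⁻¹ : ℝ) : ℂ) - θ * I)
      rwa [sub_im, ofReal_im, im_ofReal_mul, I_im, mul_one, zero_sub, abs_neg] at this
    have h5 : 0 < |θ| := abs_pos.mpr hθ
    rw [inv_mul_eq_div, le_div_iff₀ h5]
    calc _ ≤ ‖∫ t in Ioi (1 : ℝ), T22_f (k + 1) (((T⁻¹ : ℝ) : ℂ) - θ * I) t‖ *
          ‖((T⁻¹ : ℝ) : ℂ) - θ * I‖ := mul_le_mul_of_nonneg_left h4 (norm_nonneg _)
      _ ≤ _ := by
        rw [mul_comm, h2]
        refine (norm_add_le _ _).trans (add_le_add ?_ h3)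
        rw [norm_mul]
        have h6 : ‖((k + 1 : ℕ) : ℂ)‖ = (k : ℝ) + 1 := by
          rw [Complex.norm_natCast]
          push_cast
          rfl
        rw [h6]
        exact mul_le_mul_of_nonneg_left (hB T hT) (by positivity)

/-- frequency zero -/
theorem T22_lim (k : ℕ) : Tendsto (fun T : ℝ => (((T ^ (k + 1))⁻¹ : ℝ) : ℂ) *
    ∫ t in Ioi (1 : ℝ), T22_f k (((T⁻¹ : ℝ) : ℂ) - (0 : ℝ) * I) t) atTop (𝓝 (k.factorial : ℂ)) := by
  have hinv : Tendsto (fun T : ℝ => ((T⁻¹ : ℝ) : ℂ)) atTop (𝓝 0) := by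
    have := (continuous_ofReal.tendsto 0).comp tendsto_inv_atTop_zero
    rwa [ofReal_zero] at this
  induction k with
  | zero =>
    have h1 : Tendsto (fun T : ℝ => exp (-((T⁻¹ : ℝ) : ℂ))) atTop (𝓝 1) := by
      have := (continuous_exp.tendsto 0).comp (hinv.neg.trans (by rw [neg_zero]))
      rw [exp_zero] at this
      exact this
    rw [Nat.factorial_zero, Nat.cast_one]
    refine h1.congr' ?_
    filter_upwards [eventually_gt_atTop 0] with T hT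
    have hz : 0 < (((T⁻¹ : ℝ) : ℂ) - (0 : ℝ) * I).re := by
      rw [T22_re]
      positivity
    have h := T22_rec 0 hz
    rw [Nat.cast_zero, zero_mul, zero_add] at h
    have h2 : T22_f 0 (((T⁻¹ : ℝ) : ℂ) - (0 : ℝ) * I) 1 = exp (-((T⁻¹ : ℝ) : ℂ)) := by
      simp [T22_f]
    rw [h2] at h
    rw [← h, pow_one]
    simp
  | succ k ih =>
    have h1 : Tendsto (fun T : ℝ => ((k : ℂ) + 1) * ((((T ^ (k + 1))⁻¹ : ℝ) : ℂ) *
        ∫ t in Ioi (1 : ℝ), T22_f k (((T⁻¹ : ℝ) : ℂ) - (0 : ℝ) * I) t) +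
        ((T⁻¹ : ℝ) : ℂ) ^ (k + 1) * T22_f (k + 1) (((T⁻¹ : ℝ) : ℂ) - (0 : ℝ) * I) 1) atTop
        (𝓝 (((k : ℂ) + 1) * (k.factorial : ℂ) + 0)) := by
      refine (ih.const_mul _).add ?_
      rw [tendsto_zero_iff_norm_tendsto_zero]
      have h2 : Tendsto (fun T : ℝ => (T⁻¹) ^ (k + 1) * (5 / 2 : ℝ) ^ (k + 1)) atTop (𝓝 0) := by
        have := ((tendsto_inv_atTop_zero (𝕜 := ℝ)).pow (k + 1)).mul_const ((5 / 2 : ℝ) ^ (k + 1))
        rw [zero_pow (Nat.succ_ne_zero k), zero_mul] at this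
        exact this
      refine squeeze_zero' (Eventually.of_forall fun t => norm_nonneg _) ?_ h2
      filter_upwards [eventually_gt_atTop 0] with T hT
      have hz : 0 < (((T⁻¹ : ℝ) : ℂ) - (0 : ℝ) * I).re := by
        rw [T22_re]
        positivity
      rw [norm_mul, norm_pow, norm_real, Real.norm_of_nonneg (by positivity)]
      exact mul_le_mul_of_nonneg_left (T22_one_norm (k + 1) hz) (by positivity)
    have h3 : (((k + 1).factorial : ℕ) : ℂ) = ((k : ℂ) + 1) * (k.factorial : ℂ) + 0 := by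
      rw [Nat.factorial_succ]
      push_cast
      ring
    rw [h3]
    refine h1.congr' ?_
    filter_upwards [eventually_gt_atTop 0] with T hT
    have hz : 0 < (((T⁻¹ : ℝ) : ℂ) - (0 : ℝ) * I).re := by
      rw [T22_re]
      positivity
    have h := T22_rec (k + 1) hz
    rw [Nat.add_sub_cancel] at h
    have hT' : (T : ℂ) ≠ 0 := ofReal_ne_zero.mpr hT.ne'
    have h4 : ∫ t in Ioi (1 : ℝ), T22_f (k + 1) (((T⁻¹ : ℝ) : ℂ) - (0 : ℝ) * I) t =
        (T : ℂ) * (((k + 1 : ℕ) : ℂ) * (∫ t in Ioi (1 : ℝ), T22_f k (((T⁻¹ : ℝ) : ℂ) - (0 : ℝ) * I) t) +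
          T22_f (k + 1) (((T⁻¹ : ℝ) : ℂ) - (0 : ℝ) * I) 1) := by
      rw [← h, ← mul_assoc]
      have : (T : ℂ) * (((T⁻¹ : ℝ) : ℂ) - (0 : ℝ) * I) = 1 := by
        push_cast
        field_simp
        ring
      rw [this, one_mul]
    rw [h4]
    generalize (∫ t in Ioi (1 : ℝ), T22_f k (((T⁻¹ : ℝ) : ℂ) - (0 : ℝ) * I) t) = J
    generalize T22_f (k + 1) (((T⁻¹ : ℝ) : ℂ) - (0 : ℝ) * I) 1 = F1
    push_cast
    rw [inv_pow, pow_succ (T : ℂ) (k + 1)]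
    have h5 : (T : ℂ) ^ (k + 1) ≠ 0 := pow_ne_zero _ hT'
    generalize (T : ℂ) ^ (k + 1) = P at h5 ⊢
    field_simp

theorem T22_J_norm (N : ℕ) {T : ℝ} (hT : 0 < T) (θ : ℝ) :
    ‖∫ t in Ioi (1 : ℝ), T22_f N (((T⁻¹ : ℝ) : ℂ) - θ * I) t‖ ≤
      (5 / 2) ^ N * (T ^ (N + 1) * N.factorial) := by
  have hT' : 0 < T⁻¹ := inv_pos.mpr hT
  have h0 : IntegrableOn (fun t : ℝ => (5 / 2 : ℝ) ^ N * (t ^ N * Real.exp (-(T⁻¹ * t)))) (Ioi 0) :=
    (T22_int N hT').const_mul _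
  calc _ ≤ ∫ t in Ioi (1 : ℝ), (5 / 2 : ℝ) ^ N * (t ^ N * Real.exp (-(T⁻¹ * t))) := by
        refine norm_integral_le_of_norm_le (h0.mono_set (Ioi_subset_Ioi zero_le_one)) ?_
        refine (ae_restrict_iff' measurableSet_Ioi).mpr (Eventually.of_forall fun t ht => ?_)
        have := T22_f_norm N (((T⁻¹ : ℝ) : ℂ) - θ * I) (le_of_lt ht)
        rwa [T22_re] at this
    _ ≤ ∫ t in Ioi (0 : ℝ), (5 / 2 : ℝ) ^ N * (t ^ N * Real.exp (-(T⁻¹ * t))) := by
        refine setIntegral_mono_set h0 ?_ (Ioi_subset_Ioi zero_le_one).eventuallyLE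
        refine (ae_restrict_iff' measurableSet_Ioi).mpr (Eventually.of_forall fun t ht => ?_)
        have : (0 : ℝ) < t := ht
        change (0 : ℝ) ≤ (5 / 2 : ℝ) ^ N * (t ^ N * Real.exp (-(T⁻¹ * t)))
        positivity
    _ = _ := by
        rw [integral_const_mul, T22_val N hT', inv_inv]

/-- the frequencies -/
noncomputable def T22_th (lam : ℝ) (n : ℕ) : ℝ := Real.log lam - Real.log ((n : ℝ) + 1)

/-- the coefficients -/
noncomputable def T22_c (a : ℕ → ℂ) (lam : ℝ) (n : ℕ) : ℂ :=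
  a (n + 1) * (((((n : ℝ) + 1) ^ 2)⁻¹ * lam ^ (3 / 2 : ℝ) : ℝ) : ℂ)

theorem T22_term (a : ℕ → ℂ) (N : ℕ) {lam : ℝ} (hlam : 0 < lam) {T : ℝ} (hT : 0 < T) (n : ℕ) (t : ℝ) :
    (-I * ((2 + t * I) - 1 / 2)) ^ N * exp (I * ((2 + t * I) - 1 / 2) / T) *
      (a (n + 1) * ((n : ℂ) + 1) ^ (-(2 + t * I))) * (lam : ℂ) ^ ((2 + t * I) - 1 / 2) =
    T22_c a lam n * (exp (3 / 2 * I / T) * T22_f N (((T⁻¹ : ℝ) : ℂ) - (T22_th lam n : ℝ) * I) t) := by
  have hn : (0 : ℝ) < (n : ℝ) + 1 := by positivity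
  have h1 : -I * ((2 + t * I) - 1 / 2) = (t : ℂ) - 3 / 2 * I := by
    linear_combination (-t : ℂ) * I_sq
  have h2 : ((n : ℂ) + 1) ^ (-(2 + t * I)) =
      ((((n : ℝ) + 1) ^ 2)⁻¹ : ℝ) * exp (-(Real.log ((n : ℝ) + 1) * (t * I))) := by
    have h3 : ((n : ℂ) + 1) = (((n : ℝ) + 1 : ℝ) : ℂ) := by push_cast; rfl
    have h4 : (((n : ℝ) + 1 : ℝ) : ℂ) ≠ 0 := ofReal_ne_zero.mpr hn.ne'
    rw [h3, neg_add, cpow_add _ _ h4, cpow_neg, cpow_def_of_ne_zero h4, cpow_def_of_ne_zero h4,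
      ← ofReal_log hn.le]
    congr 1
    · rw [← ofReal_inj.mpr rfl, ofReal_inv, ofReal_pow]
      congr 1
      rw [mul_comm, ← Nat.cast_ofNat (R := ℂ), exp_nat_mul, ← ofReal_exp, Real.exp_log hn]
    · congr 1
      ring
  have h5 : (lam : ℂ) ^ ((2 + t * I) - 1 / 2) =
      ((lam ^ (3 / 2 : ℝ) : ℝ) : ℂ) * exp (Real.log lam * (t * I)) := by
    have h4 : (lam : ℂ) ≠ 0 := ofReal_ne_zero.mpr hlam.ne'
    have h6 : (2 + t * I) - 1 / 2 = ((3 / 2 : ℝ) : ℂ) + t * I := by push_cast; ring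
    rw [h6, cpow_add _ _ h4, ← ofReal_cpow hlam.le, cpow_def_of_ne_zero h4, ← ofReal_log hlam.le]
  have h7 : exp (I * ((2 + t * I) - 1 / 2) / T) = exp (3 / 2 * I / T) * exp (-(T⁻¹ * t : ℝ)) := by
    rw [← exp_add]
    congr 1
    have hT' : (T : ℂ) ≠ 0 := ofReal_ne_zero.mpr hT.ne'
    push_cast
    field_simp
    linear_combination (2 * t : ℂ) * I_sq
  have h8 : exp (-((((T⁻¹ : ℝ) : ℂ) - (T22_th lam n : ℝ) * I) * t)) = exp (-(T⁻¹ * t : ℝ)) *
      (exp (Real.log lam * (t * I)) * exp (-(Real.log ((n : ℝ) + 1) * (t * I)))) := by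
    rw [← exp_add, ← exp_add]
    congr 1
    unfold T22_th
    push_cast
    ring
  rw [h1, h2, h5, h7]
  unfold T22_f T22_c
  rw [h8]
  push_cast
  ring

theorem T22_right {F : ℂ → ℂ} {a : ℕ → ℂ}
    (ha : Summable (fun n : ℕ => ‖a (n + 1)‖ * (((n : ℝ) + 1) ^ 2)⁻¹))
    (hF2 : ∀ t : ℝ, F (2 + t * I) = ∑' n : ℕ, a (n + 1) * ((n : ℂ) + 1) ^ (-(2 + t * I)))
    (N : ℕ) {lam : ℝ} (hlam : 0 < lam) {T : ℝ} (hT : 0 < T) :
    ∫ t in Ioi (1 : ℝ), (-I * ((2 + t * I) - 1 / 2)) ^ N * exp (I * ((2 + t * I) - 1 / 2) / T) *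
      F (2 + t * I) * (lam : ℂ) ^ ((2 + t * I) - 1 / 2) =
    ∑' n : ℕ, T22_c a lam n * (exp (3 / 2 * I / T) *
      ∫ t in Ioi (1 : ℝ), T22_f N (((T⁻¹ : ℝ) : ℂ) - (T22_th lam n : ℝ) * I) t) := by
  have hz : ∀ n, 0 < (((T⁻¹ : ℝ) : ℂ) - (T22_th lam n : ℝ) * I).re := by
    intro n
    rw [T22_re]
    positivity
  have hc : Summable fun n => ‖T22_c a lam n‖ := by
    have h1 := ha.mul_right (lam ^ (3 / 2 : ℝ))
    refine h1.congr fun n => ?_
    unfold T22_c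
    rw [norm_mul, norm_real, Real.norm_of_nonneg (by positivity), mul_assoc]
  have hE : ‖exp (3 / 2 * I / T)‖ = 1 := by
    rw [show (3 / 2 * I / T : ℂ) = ((3 / 2 / T : ℝ) : ℂ) * I by push_cast; ring]
    exact norm_exp_ofReal_mul_I _
  have h1 : ∀ n : ℕ, T22_c a lam n * (exp (3 / 2 * I / T) *
      ∫ t in Ioi (1 : ℝ), T22_f N (((T⁻¹ : ℝ) : ℂ) - (T22_th lam n : ℝ) * I) t) =
      ∫ t in Ioi (1 : ℝ), T22_c a lam n * (exp (3 / 2 * I / T) *
        T22_f N (((T⁻¹ : ℝ) : ℂ) - (T22_th lam n : ℝ) * I) t) := by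
    intro n
    rw [integral_const_mul, integral_const_mul]
  rw [tsum_congr h1, integral_tsum_of_summable_integral_norm]
  · refine setIntegral_congr_fun measurableSet_Ioi fun t _ => ?_
    change (-I * ((2 + t * I) - 1 / 2)) ^ N * exp (I * ((2 + t * I) - 1 / 2) / T) *
      F (2 + t * I) * (lam : ℂ) ^ ((2 + t * I) - 1 / 2) = _
    rw [hF2 t, ← tsum_mul_left, ← tsum_mul_right]
    exact tsum_congr fun n => T22_term a N hlam hT n t
  · intro n
    exact ((T22_f_int N (hz n)).const_mul _).const_mul _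
  · have h2 : ∀ n : ℕ, ∫ t in Ioi (1 : ℝ), ‖T22_c a lam n * (exp (3 / 2 * I / T) *
        T22_f N (((T⁻¹ : ℝ) : ℂ) - (T22_th lam n : ℝ) * I) t)‖ =
        ‖T22_c a lam n‖ * ∫ t in Ioi (1 : ℝ), ‖T22_f N (((T⁻¹ : ℝ) : ℂ) - (0 : ℝ) * I) t‖ := by
      intro n
      rw [← integral_const_mul]
      refine setIntegral_congr_fun measurableSet_Ioi fun t _ => ?_
      change ‖T22_c a lam n * (exp (3 / 2 * I / T) *
        T22_f N (((T⁻¹ : ℝ) : ℂ) - (T22_th lam n : ℝ) * I) t)‖ =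
        ‖T22_c a lam n‖ * ‖T22_f N (((T⁻¹ : ℝ) : ℂ) - (0 : ℝ) * I) t‖
      rw [norm_mul, norm_mul, hE, one_mul]
      unfold T22_f
      rw [norm_mul, norm_mul, norm_exp, norm_exp]
      congr 3
      rw [neg_re, neg_re, mul_re, mul_re, T22_re, T22_re, ofReal_im, mul_zero, mul_zero]
    simp only [h2]
    exact hc.mul_right _

theorem T22_log_eq {lam : ℝ} (hlam : 0 < lam) (n : ℕ) : T22_th lam n = 0 ↔ lam = (n : ℝ) + 1 := by
  unfold T22_th
  rw [sub_eq_zero]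
  constructor
  · intro h
    exact Real.log_injOn_pos (mem_Ioi.mpr hlam) (mem_Ioi.mpr (by positivity)) h
  · intro h
    rw [h]

theorem T22_al (a : ℕ → ℂ) (N : ℕ) {lam : ℝ} (hlam : 0 < lam) :
    ∑' n : ℕ, T22_c a lam n * (if T22_th lam n = 0 then (N.factorial : ℂ) else 0) =
      (N.factorial : ℂ) * al a lam := by
  unfold al
  by_cases h : ((⌊lam⌋₊ : ℕ) : ℝ) = lam
  · rw [if_pos h]
    obtain ⟨m, hm⟩ : ∃ m, ⌊lam⌋₊ = m + 1 := by
      refine Nat.exists_eq_succ_of_ne_zero fun h0 => ?_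
      rw [h0, Nat.cast_zero] at h
      exact hlam.ne h
    have hm2 : lam = (m : ℝ) + 1 := by
      rw [← h, hm]
      push_cast
      rfl
    rw [tsum_eq_single m]
    · rw [if_pos ((T22_log_eq hlam m).mpr hm2), hm]
      unfold T22_c
      have h3 : ((((m : ℝ) + 1) ^ 2)⁻¹ * lam ^ (3 / 2 : ℝ) : ℝ) = (√lam)⁻¹ := by
        rw [← hm2, show (3 / 2 : ℝ) = 1 + 1 / 2 by norm_num, Real.rpow_add hlam, Real.rpow_one,
          ← Real.sqrt_eq_rpow]
        have h4 : √lam * √lam = lam := Real.mul_self_sqrt hlam.le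
        have h5 : √lam ≠ 0 := (Real.sqrt_pos.mpr hlam).ne'
        field_simp
        rw [pow_two, h4]
      rw [h3]
      push_cast
      ring
    · intro n hn
      rw [if_neg, mul_zero]
      rw [T22_log_eq hlam n, hm2]
      intro h6
      apply hn
      have : (m : ℝ) = n := by linarith
      exact_mod_cast this.symm
  · rw [if_neg h, mul_zero]
    have : ∀ n : ℕ, T22_c a lam n * (if T22_th lam n = 0 then (N.factorial : ℂ) else 0) = 0 := by
      intro n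
      rw [if_neg, mul_zero]
      rw [T22_log_eq hlam n]
      intro h1
      apply h
      rw [h1]
      have h2 : ⌊(n : ℝ) + 1⌋₊ = n + 1 := by
        have := Nat.floor_natCast (R := ℝ) (n + 1)
        push_cast at this
        exact this
      rw [h2]
      push_cast
      rfl
    simp only [this, tsum_zero]

theorem T22_right_lim {a : ℕ → ℂ}
    (ha : Summable (fun n : ℕ => ‖a (n + 1)‖ * (((n : ℝ) + 1) ^ 2)⁻¹))
    (N : ℕ) {lam : ℝ} (hlam : 0 < lam) :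
    Tendsto (fun T : ℝ => (((T ^ (N + 1))⁻¹ : ℝ) : ℂ) * ∑' n : ℕ, T22_c a lam n *
      (exp (3 / 2 * I / T) *
      ∫ t in Ioi (1 : ℝ), T22_f N (((T⁻¹ : ℝ) : ℂ) - (T22_th lam n : ℝ) * I) t)) atTop
      (𝓝 ((N.factorial : ℂ) * al a lam)) := by
  rw [← T22_al a N hlam]
  have hE : ∀ T : ℝ, ‖exp (3 / 2 * I / T)‖ = 1 := by
    intro T
    rw [show (3 / 2 * I / T : ℂ) = ((3 / 2 / T : ℝ) : ℂ) * I by push_cast; ring]
    exact norm_exp_ofReal_mul_I _
  have hE2 : Tendsto (fun T : ℝ => exp (3 / 2 * I / T)) atTop (𝓝 1) := by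
    have hinv : Tendsto (fun T : ℝ => 3 / 2 * I * ((T⁻¹ : ℝ) : ℂ)) atTop (𝓝 (3 / 2 * I * 0)) := by
      refine Tendsto.const_mul _ ?_
      have := (continuous_ofReal.tendsto 0).comp tendsto_inv_atTop_zero
      rwa [ofReal_zero] at this
    rw [mul_zero] at hinv
    have := (continuous_exp.tendsto 0).comp hinv
    rw [exp_zero] at this
    refine this.congr fun T => ?_
    change exp (3 / 2 * I * ((T⁻¹ : ℝ) : ℂ)) = _
    rw [ofReal_inv]
    rfl
  have hc : Summable fun n => ‖T22_c a lam n‖ * ((5 / 2) ^ N * N.factorial) := by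
    have h1 := (ha.mul_right (lam ^ (3 / 2 : ℝ))).mul_right ((5 / 2 : ℝ) ^ N * N.factorial)
    refine h1.congr fun n => ?_
    unfold T22_c
    rw [norm_mul, norm_real, Real.norm_of_nonneg (by positivity), mul_assoc (‖a (n + 1)‖)]
  have h := tendsto_tsum_of_dominated_convergence (𝓕 := (atTop : Filter ℝ))
    (f := fun (T : ℝ) (n : ℕ) => T22_c a lam n * (exp (3 / 2 * I / T) *
      ((((T ^ (N + 1))⁻¹ : ℝ) : ℂ) *
        ∫ t in Ioi (1 : ℝ), T22_f N (((T⁻¹ : ℝ) : ℂ) - (T22_th lam n : ℝ) * I) t)))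
    (g := fun n => T22_c a lam n * (if T22_th lam n = 0 then (N.factorial : ℂ) else 0)) hc ?_ ?_
  · refine h.congr fun T => ?_
    rw [← tsum_mul_left]
    refine tsum_congr fun n => ?_
    ring
  · intro n
    refine Tendsto.const_mul _ ?_
    rw [show (if T22_th lam n = 0 then (N.factorial : ℂ) else 0) =
      1 * (if T22_th lam n = 0 then (N.factorial : ℂ) else 0) by rw [one_mul]]
    refine hE2.mul ?_
    split_ifs with h0
    · rw [h0]
      exact T22_lim N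
    · obtain ⟨B, hB⟩ := T22_bdd N h0
      rw [tendsto_zero_iff_norm_tendsto_zero]
      have h2 : Tendsto (fun T : ℝ => (T⁻¹) ^ (N + 1) * B) atTop (𝓝 0) := by
        have := ((tendsto_inv_atTop_zero (𝕜 := ℝ)).pow (N + 1)).mul_const B
        rw [zero_pow (Nat.succ_ne_zero N), zero_mul] at this
        exact this
      refine squeeze_zero' (Eventually.of_forall fun t => norm_nonneg _) ?_ h2
      filter_upwards [eventually_gt_atTop 0] with T hT
      rw [norm_mul, norm_real, Real.norm_of_nonneg (by positivity), inv_pow]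
      exact mul_le_mul_of_nonneg_left (hB T hT) (by positivity)
  · filter_upwards [eventually_gt_atTop 0] with T hT n
    rw [norm_mul, norm_mul, hE, one_mul, norm_mul, norm_real, Real.norm_of_nonneg (by positivity)]
    refine mul_le_mul_of_nonneg_left ?_ (norm_nonneg _)
    have h1 := T22_J_norm N hT (T22_th lam n)
    rw [inv_mul_le_iff₀ (by positivity)]
    calc _ ≤ _ := h1
      _ = _ := by ring

/-- the integrand in the strip -/
noncomputable def T22_G (F : ℂ → ℂ) (N : ℕ) (lam T : ℝ) (s : ℂ) : ℂ :=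
  (-I * (s - 1 / 2)) ^ N * exp (I * (s - 1 / 2) / T) * F s * (lam : ℂ) ^ (s - 1 / 2)

theorem T22_G_diff {F : ℂ → ℂ} (hF : ∀ s : ℂ, 0 < s.im → DifferentiableAt ℂ F s) (N : ℕ) {lam : ℝ}
    (hlam : 0 < lam) (T : ℝ) {s : ℂ} (hs : 0 < s.im) : DifferentiableAt ℂ (T22_G F N lam T) s := by
  unfold T22_G
  have h1 : DifferentiableAt ℂ (fun s : ℂ => s - 1 / 2) s := differentiableAt_id.sub_const _
  refine DifferentiableAt.mul (DifferentiableAt.mul (DifferentiableAt.mul ?_ ?_) (hF s hs)) ?_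
  · exact (h1.const_mul _).pow N
  · exact ((h1.const_mul I).div_const _).cexp
  · exact h1.const_cpow (Or.inl (ofReal_ne_zero.mpr hlam.ne'))

theorem T22_G_norm {F : ℂ → ℂ} {C : ℝ}
    (hpol : ∀ s : ℂ, 1 / 2 ≤ s.re → s.re ≤ 2 → 1 ≤ s.im → ‖F s‖ ≤ C * (1 + s.im) ^ 3)
    (N : ℕ) {lam : ℝ} (hlam : 0 < lam) {T : ℝ} (hT : 0 < T) {x y : ℝ} (h1 : 1 / 2 ≤ x) (h2 : x ≤ 2)
    (hy : 1 ≤ y) : ‖T22_G F N lam T (x + y * I)‖ ≤
      (5 / 2) ^ N * (8 * C) * (max 1 lam) ^ (3 / 2 : ℝ) * (y ^ (N + 3) * Real.exp (-(T⁻¹ * y))) := by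
  have hC : 0 ≤ C := by
    have h := (norm_nonneg _).trans (hpol (1 / 2 + I) (by simp) (by simp; norm_num) (by simp))
    have h3 : ((1 / 2 : ℂ) + I).im = 1 := by simp
    rw [h3] at h
    linarith
  have e1 : (x + y * I : ℂ).re = x := by simp
  have e2 : (x + y * I : ℂ).im = y := by simp
  unfold T22_G
  rw [norm_mul, norm_mul, norm_mul, norm_pow]
  have a1 : ‖-I * ((x + y * I : ℂ) - 1 / 2)‖ ≤ 5 / 2 * y := by
    rw [norm_mul, norm_neg, norm_I, one_mul]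
    calc ‖(x + y * I : ℂ) - 1 / 2‖ = ‖((x - 1 / 2 : ℝ) : ℂ) + ((y : ℝ) : ℂ) * I‖ := by
          congr 1
          push_cast
          ring
      _ ≤ ‖((x - 1 / 2 : ℝ) : ℂ)‖ + ‖((y : ℝ) : ℂ) * I‖ := norm_add_le _ _
      _ = (x - 1 / 2) + y := by
          rw [norm_mul, norm_I, mul_one, norm_real, norm_real, Real.norm_of_nonneg (by linarith),
            Real.norm_of_nonneg (by linarith)]
      _ ≤ 5 / 2 * y := by linarith
  have a2 : ‖exp (I * ((x + y * I : ℂ) - 1 / 2) / T)‖ = Real.exp (-(T⁻¹ * y)) := by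
    rw [norm_exp]
    congr 1
    have h3 : I * ((x + y * I : ℂ) - 1 / 2) / T = ((-(T⁻¹ * y) : ℝ) : ℂ) + ((T⁻¹ * (x - 1 / 2) : ℝ) : ℂ) * I := by
      have hT' : (T : ℂ) ≠ 0 := ofReal_ne_zero.mpr hT.ne'
      push_cast
      field_simp
      linear_combination (2 * y : ℂ) * I_sq
    rw [h3, add_re, ofReal_re, re_ofReal_mul, I_re, mul_zero, add_zero]
  have a3 : ‖F (x + y * I)‖ ≤ 8 * C * y ^ 3 := by
    have h3 := hpol (x + y * I) (by rw [e1]; exact h1) (by rw [e1]; exact h2) (by rw [e2]; exact hy)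
    rw [e2] at h3
    refine h3.trans ?_
    have h4 : (1 + y) ^ 3 ≤ (2 * y) ^ 3 := pow_le_pow_left₀ (by linarith) (by linarith) 3
    calc C * (1 + y) ^ 3 ≤ C * (2 * y) ^ 3 := mul_le_mul_of_nonneg_left h4 hC
      _ = _ := by ring
  have a4 : ‖(lam : ℂ) ^ ((x + y * I : ℂ) - 1 / 2)‖ ≤ (max 1 lam) ^ (3 / 2 : ℝ) := by
    rw [norm_cpow_eq_rpow_re_of_pos hlam]
    have h3 : ((x + y * I : ℂ) - 1 / 2).re = x - 1 / 2 := by
      rw [sub_re, e1]
      norm_num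
    rw [h3]
    calc lam ^ (x - 1 / 2) ≤ (max 1 lam) ^ (x - 1 / 2) :=
          Real.rpow_le_rpow hlam.le (le_max_right _ _) (by linarith)
      _ ≤ (max 1 lam) ^ (3 / 2 : ℝ) :=
          Real.rpow_le_rpow_of_exponent_le (le_max_left _ _) (by linarith)
  rw [a2]
  calc _ ≤ (5 / 2 * y) ^ N * Real.exp (-(T⁻¹ * y)) * (8 * C * y ^ 3) * (max 1 lam) ^ (3 / 2 : ℝ) := by
        gcongr
    _ = _ := by ring

theorem T22_shift {F : ℂ → ℂ} (hF : ∀ s : ℂ, 0 < s.im → DifferentiableAt ℂ F s) {C : ℝ}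
    (hpol : ∀ s : ℂ, 1 / 2 ≤ s.re → s.re ≤ 2 → 1 ≤ s.im → ‖F s‖ ≤ C * (1 + s.im) ^ 3)
    (N : ℕ) {lam : ℝ} (hlam : 0 < lam) {T : ℝ} (hT : 0 < T) :
    ∫ t in Ioi (1 : ℝ), T22_G F N lam T (1 / 2 + t * I) =
      -I * (∫ x in (1 / 2 : ℝ)..2, T22_G F N lam T (x + I)) +
        ∫ t in Ioi (1 : ℝ), T22_G F N lam T (2 + t * I) := by
  have hT' : 0 < T⁻¹ := inv_pos.mpr hT
  obtain ⟨K, hK⟩ : ∃ K : ℝ, K = (5 / 2) ^ N * (8 * C) * (max 1 lam) ^ (3 / 2 : ℝ) := ⟨_, rfl⟩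
  have hb : ∀ x y : ℝ, 1 / 2 ≤ x → x ≤ 2 → 1 ≤ y → ‖T22_G F N lam T (x + y * I)‖ ≤
      K * (y ^ (N + 3) * Real.exp (-(T⁻¹ * y))) := by
    intro x y h1 h2 h3
    rw [hK]
    exact T22_G_norm hpol N hlam hT h1 h2 h3
  have hint : ∀ x : ℝ, 1 / 2 ≤ x → x ≤ 2 →
      IntegrableOn (fun y : ℝ => T22_G F N lam T (x + y * I)) (Ioi 1) := by
    intro x h1 h2
    have h3 : IntegrableOn (fun y : ℝ => K * (y ^ (N + 3) * Real.exp (-(T⁻¹ * y)))) (Ioi 1) :=
      ((T22_int (N + 3) hT').mono_set (Ioi_subset_Ioi zero_le_one)).const_mul _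
    refine Integrable.mono' h3 ?_ ?_
    · refine ContinuousOn.aestronglyMeasurable ?_ measurableSet_Ioi
      intro y hy
      have hy' : (1 : ℝ) < y := hy
      have h4 : DifferentiableAt ℂ (T22_G F N lam T) (x + y * I) :=
        T22_G_diff hF N hlam T (by simp; linarith)
      have h5 : ContinuousAt (fun y : ℝ => (x + y * I : ℂ)) y := by fun_prop
      exact (ContinuousAt.comp (f := fun y : ℝ => (x + y * I : ℂ)) h4.continuousAt h5).continuousWithinAt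
    · refine (ae_restrict_iff' measurableSet_Ioi).mpr (Eventually.of_forall fun y hy => ?_)
      exact hb x y h1 h2 (le_of_lt hy)
  have hleft := intervalIntegral_tendsto_integral_Ioi 1 (hint (1 / 2) le_rfl (by norm_num)) tendsto_id
  have hright := intervalIntegral_tendsto_integral_Ioi 1 (hint 2 (by norm_num) le_rfl) tendsto_id
  have htop : Tendsto (fun R : ℝ => ∫ x in (1 / 2 : ℝ)..2, T22_G F N lam T (x + R * I)) atTop (𝓝 0) := by
    rw [tendsto_zero_iff_norm_tendsto_zero]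
    have h3 := ((tendsto_rpow_mul_exp_neg_mul_atTop_nhds_zero ((N + 3 : ℕ) : ℝ) T⁻¹ hT').const_mul
      K).mul_const |(2 : ℝ) - 1 / 2|
    rw [mul_zero, zero_mul] at h3
    refine squeeze_zero' (Eventually.of_forall fun t => norm_nonneg _) ?_ h3
    filter_upwards [eventually_ge_atTop 1] with R hR
    refine intervalIntegral.norm_integral_le_of_norm_le_const fun x hx => ?_
    rw [uIoc_of_le (by norm_num)] at hx
    have := hb x R hx.1.le hx.2 hR
    rwa [Real.rpow_natCast, neg_mul]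
  have hrect : ∀ R : ℝ, 1 ≤ R → (∫ y in (1 : ℝ)..R, T22_G F N lam T ((1 / 2 : ℝ) + y * I)) =
      -I * (∫ x in (1 / 2 : ℝ)..2, T22_G F N lam T (x + I)) +
        I * (∫ x in (1 / 2 : ℝ)..2, T22_G F N lam T (x + R * I)) +
          ∫ y in (1 : ℝ)..R, T22_G F N lam T ((2 : ℝ) + y * I) := by
    intro R hR
    have h := integral_boundary_rect_eq_zero_of_differentiableOn (T22_G F N lam T)
      (((1 / 2 : ℝ) : ℂ) + (1 : ℝ) * I) (((2 : ℝ) : ℂ) + (R : ℝ) * I) (by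
      intro s hs
      refine (T22_G_diff hF N hlam T ?_).differentiableWithinAt
      rw [mem_reProdIm] at hs
      have h1 := hs.2
      have e1 : (((1 / 2 : ℝ) : ℂ) + (1 : ℝ) * I).im = 1 := by simp
      have e2 : (((2 : ℝ) : ℂ) + (R : ℝ) * I).im = R := by simp
      rw [e1, e2, uIcc_of_le hR] at h1
      linarith [h1.1])
    have e1 : (((1 / 2 : ℝ) : ℂ) + (1 : ℝ) * I).im = 1 := by simp
    have e2 : (((2 : ℝ) : ℂ) + (R : ℝ) * I).im = R := by simp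
    have e3 : (((1 / 2 : ℝ) : ℂ) + (1 : ℝ) * I).re = 1 / 2 := by simp
    have e4 : (((2 : ℝ) : ℂ) + (R : ℝ) * I).re = 2 := by simp
    rw [e1, e2, e3, e4, smul_eq_mul, smul_eq_mul] at h
    have h5 : ∫ x in (1 / 2 : ℝ)..2, T22_G F N lam T (x + ((1 : ℝ) : ℂ) * I) =
        ∫ x in (1 / 2 : ℝ)..2, T22_G F N lam T (x + I) := by
      refine intervalIntegral.integral_congr fun x _ => ?_
      change T22_G F N lam T (x + ((1 : ℝ) : ℂ) * I) = T22_G F N lam T (x + I)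
      rw [ofReal_one, one_mul]
    rw [h5] at h
    generalize (∫ x in (1 / 2 : ℝ)..2, T22_G F N lam T (x + I)) = b0 at h ⊢
    generalize (∫ x in (1 / 2 : ℝ)..2, T22_G F N lam T (x + R * I)) = b1 at h ⊢
    generalize (∫ y in (1 : ℝ)..R, T22_G F N lam T ((2 : ℝ) + y * I)) = b2 at h ⊢
    generalize (∫ y in (1 : ℝ)..R, T22_G F N lam T ((1 / 2 : ℝ) + y * I)) = b3 at h ⊢
    linear_combination I * h + (b3 - b2) * I_sq
  have hlim : Tendsto (fun R : ℝ => ∫ y in (1 : ℝ)..R, T22_G F N lam T ((1 / 2 : ℝ) + y * I)) atTop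
      (𝓝 (-I * (∫ x in (1 / 2 : ℝ)..2, T22_G F N lam T (x + I)) + I * 0 +
        ∫ t in Ioi (1 : ℝ), T22_G F N lam T ((2 : ℝ) + t * I))) := by
    have h6 := ((htop.const_mul I).const_add
      (-I * (∫ x in (1 / 2 : ℝ)..2, T22_G F N lam T (x + I)))).add hright
    refine h6.congr' ?_
    filter_upwards [eventually_ge_atTop 1] with R hR
    exact (hrect R hR).symm
  have h7 := tendsto_nhds_unique hleft hlim
  rw [mul_zero, add_zero] at h7
  have e5 : ∀ t : ℝ, (1 / 2 + t * I : ℂ) = ((1 / 2 : ℝ) : ℂ) + t * I := by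
    intro t
    push_cast
    rfl
  have e6 : ∀ t : ℝ, (2 + t * I : ℂ) = ((2 : ℝ) : ℂ) + t * I := by
    intro t
    push_cast
    rfl
  simp only [e5, e6]
  exact h7

/-- Row T22. Mean values with a frequency, by a shift to Re s = 2. -/
theorem freq_mean {F : ℂ → ℂ} {a : ℕ → ℂ} (hF : ∀ s : ℂ, 0 < s.im → DifferentiableAt ℂ F s) {C : ℝ}
    (hpol : ∀ s : ℂ, 1 / 2 ≤ s.re → s.re ≤ 2 → 1 ≤ s.im → ‖F s‖ ≤ C * (1 + s.im) ^ 3)
    (ha : Summable (fun n : ℕ => ‖a (n + 1)‖ * (((n : ℝ) + 1) ^ 2)⁻¹))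
    (hF2 : ∀ t : ℝ, F (2 + t * I) = ∑' n : ℕ, a (n + 1) * ((n : ℂ) + 1) ^ (-(2 + t * I)))
    (N : ℕ) {lam : ℝ} (hlam : 0 < lam) :
    Tendsto (fun T : ℝ => (((T ^ (N + 1))⁻¹ : ℝ) : ℂ) * ∫ t in Ioi (1 : ℝ),
      ((t ^ N * Real.exp (-(t / T)) : ℝ) : ℂ) * F (1 / 2 + t * I) * (lam : ℂ) ^ (t * I)) atTop
      (𝓝 ((N.factorial : ℂ) * al a lam)) := by
  have h1 := T22_right_lim ha N hlam
  obtain ⟨K, hK⟩ : ∃ K : ℝ, K = (5 / 2) ^ N * (8 * C) * (max 1 lam) ^ (3 / 2 : ℝ) := ⟨_, rfl⟩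
  have hK0 : 0 ≤ K := by
    have := (norm_nonneg _).trans (T22_G_norm hpol N hlam one_pos (x := 1) (y := 1) (by norm_num)
      (by norm_num) le_rfl)
    rw [← hK] at this
    have h2 : (0 : ℝ) < 1 ^ (N + 3) * Real.exp (-(1⁻¹ * 1)) := by positivity
    by_contra hcon
    push Not at hcon
    nlinarith
  have h2 : Tendsto (fun T : ℝ => (((T ^ (N + 1))⁻¹ : ℝ) : ℂ) *
      (-I * (∫ x in (1 / 2 : ℝ)..2, T22_G F N lam T (x + I)))) atTop (𝓝 0) := by
    rw [tendsto_zero_iff_norm_tendsto_zero]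
    have h3 : Tendsto (fun T : ℝ => (T⁻¹) ^ (N + 1) * (K * |(2 : ℝ) - 1 / 2|)) atTop (𝓝 0) := by
      have := ((tendsto_inv_atTop_zero (𝕜 := ℝ)).pow (N + 1)).mul_const (K * |(2 : ℝ) - 1 / 2|)
      rw [zero_pow (Nat.succ_ne_zero N), zero_mul] at this
      exact this
    refine squeeze_zero' (Eventually.of_forall fun t => norm_nonneg _) ?_ h3
    filter_upwards [eventually_gt_atTop 0] with T hT
    rw [norm_mul, norm_mul, norm_neg, norm_I, one_mul, norm_real, Real.norm_of_nonneg (by positivity),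
      inv_pow]
    refine mul_le_mul_of_nonneg_left ?_ (by positivity)
    refine intervalIntegral.norm_integral_le_of_norm_le_const fun x hx => ?_
    rw [uIoc_of_le (by norm_num)] at hx
    have h4 := T22_G_norm hpol N hlam hT (x := x) (y := 1) hx.1.le hx.2 le_rfl
    rw [← hK, ofReal_one, one_mul, one_pow, one_mul, mul_one] at h4
    refine h4.trans ?_
    have h5 : Real.exp (-T⁻¹) ≤ 1 := Real.exp_le_one_iff.mpr (by
      have := inv_pos.mpr hT
      linarith)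
    nlinarith
  have h3 := h2.add h1
  rw [zero_add] at h3
  refine h3.congr' ?_
  filter_upwards [eventually_gt_atTop 0] with T hT
  rw [← mul_add, ← T22_right ha hF2 N hlam hT]
  congr 1
  have h4 := T22_shift hF hpol N hlam hT
  have h5 : ∫ t in Ioi (1 : ℝ), T22_G F N lam T (1 / 2 + t * I) = ∫ t in Ioi (1 : ℝ),
      ((t ^ N * Real.exp (-(t / T)) : ℝ) : ℂ) * F (1 / 2 + t * I) * (lam : ℂ) ^ (t * I) := by
    refine setIntegral_congr_fun measurableSet_Ioi fun t _ => ?_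
    change (-I * ((1 / 2 + t * I) - 1 / 2)) ^ N * exp (I * ((1 / 2 + t * I) - 1 / 2) / T) *
      F (1 / 2 + t * I) * (lam : ℂ) ^ ((1 / 2 + t * I : ℂ) - 1 / 2) =
      ((t ^ N * Real.exp (-(t / T)) : ℝ) : ℂ) * F (1 / 2 + t * I) * (lam : ℂ) ^ (t * I)
    have e1 : (1 / 2 + t * I : ℂ) - 1 / 2 = t * I := by ring
    have e2 : -I * (t * I) = (t : ℂ) := by linear_combination (-t : ℂ) * I_sq
    have e3 : I * (t * I) / T = ((-(t / T) : ℝ) : ℂ) := by
      push_cast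
      linear_combination (t / T : ℂ) * I_sq
    rw [e1, e2, e3]
    push_cast
    rfl
  rw [← h5, h4]
  rfl

end TT
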