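import Pool.Agent.Lib.MP_0f5a55_nt.TT.T22

open Complex MeasureTheory Set Filter Topology
open scoped Real ComplexConjugate

namespace TT

theorem T23_conv {ι : Type*} [Fintype ι] (c : ι → ℂ) (lam : ι → ℝ) (hl : ∀ i, 0 < lam i) :
    ∃ (s : Finset ℕ) (c' : ℕ → ℂ) (lam' : ℕ → ℝ), (∀ i, 0 < lam' i) ∧
      ∀ f : ℝ → ℂ, ∑ i ∈ s, c' i * f (lam' i) = ∑ i, c i * f (lam i) := by
  classical
  let e := Fintype.equivFin ι
  refine ⟨Finset.range (Fintype.card ι), fun n => if h : n < Fintype.card ι then c (e.symm ⟨n, h⟩) else 0,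
    fun n => if h : n < Fintype.card ι then lam (e.symm ⟨n, h⟩) else 1, fun n => ?_, fun f => ?_⟩
  · by_cases h : n < Fintype.card ι
    · simp only [h, dif_pos]
      exact hl _
    · simp only [h, dif_neg, not_false_eq_true]
      exact one_pos
  · rw [Finset.sum_range]
    have : ∀ i : Fin (Fintype.card ι), ((if h : (i : ℕ) < Fintype.card ι then c (e.symm ⟨i, h⟩) else 0) *
        f (if h : (i : ℕ) < Fintype.card ι then lam (e.symm ⟨i, h⟩) else 1)) =
        c (e.symm i) * f (lam (e.symm i)) := by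
      intro i
      rw [dif_pos i.2, dif_pos i.2]
    rw [Finset.sum_congr rfl (fun i _ => this i)]
    exact Equiv.sum_comp e.symm (fun i => c i * f (lam i))

theorem T23_ratio {a : ℕ → ℂ} {m n : ℕ} (_ : 0 < m) (hn : 0 < n) (h : Nat.Coprime m n) :
    al a ((m : ℝ) / n) = if n = 1 then a m * ((√(m : ℝ) : ℝ) : ℂ)⁻¹ else 0 := by
  by_cases h1 : n = 1
  · subst h1
    unfold al
    rw [Nat.cast_one, div_one, Nat.floor_natCast, if_pos rfl, if_pos rfl]
  · rw [if_neg h1]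
    unfold al
    rw [if_neg]
    intro h2
    have hn' : (n : ℝ) ≠ 0 := by exact_mod_cast hn.ne'
    rw [eq_div_iff hn'] at h2
    have h3 : ⌊(m : ℝ) / n⌋₊ * n = m := by exact_mod_cast h2
    have h4 : n ∣ m := ⟨_, by rw [mul_comm]; exact h3.symm⟩
    exact h1 (Nat.Coprime.eq_one_of_dvd h.symm h4)

theorem T23_mul {a : ℕ → ℂ}
    (hm : ∀ m n : ℕ, 0 < m → 0 < n → Nat.Coprime m n → a (m * n) = a m * a n) {m n m' n' : ℕ}
    (h1 : 0 < m) (h2 : 0 < n) (h1' : 0 < m') (h2' : 0 < n') (c1 : Nat.Coprime m n)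
    (c2 : Nat.Coprime m' n') (c3 : Nat.Coprime (m * n) (m' * n')) :
    al a ((m : ℝ) / n * ((m' : ℝ) / n')) = al a ((m : ℝ) / n) * al a ((m' : ℝ) / n') := by
  have e1 : (m : ℝ) / n * ((m' : ℝ) / n') = ((m * m' : ℕ) : ℝ) / ((n * n' : ℕ) : ℝ) := by
    push_cast
    rw [div_mul_div_comm]
  have cmm : Nat.Coprime m m' := (c3.coprime_dvd_left (Dvd.intro _ rfl)).coprime_dvd_right (Dvd.intro _ rfl)
  have cmn : Nat.Coprime m n' := (c3.coprime_dvd_left (Dvd.intro _ rfl)).coprime_dvd_right (Dvd.intro_left _ rfl)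
  have cnm : Nat.Coprime n m' := (c3.coprime_dvd_left (Dvd.intro_left _ rfl)).coprime_dvd_right (Dvd.intro _ rfl)
  have c4 : Nat.Coprime (m * m') (n * n') :=
    Nat.Coprime.mul_left (Nat.Coprime.mul_right c1 cmn) (Nat.Coprime.mul_right cnm.symm c2)
  rw [e1, T23_ratio (Nat.mul_pos h1 h1') (Nat.mul_pos h2 h2') c4, T23_ratio h1 h2 c1,
    T23_ratio h1' h2' c2]
  by_cases hn : n = 1
  · by_cases hn' : n' = 1
    · rw [if_pos (by rw [hn, hn']), if_pos hn, if_pos hn', hm m m' h1 h1' cmm]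
      push_cast
      rw [Real.sqrt_mul (Nat.cast_nonneg m)]
      push_cast
      rw [mul_inv]
      ring
    · rw [if_neg, if_neg hn', mul_zero]
      intro h
      exact hn' (Nat.eq_one_of_mul_eq_one_left h)
  · rw [if_neg, if_neg hn, zero_mul]
    intro h
    exact hn (Nat.eq_one_of_mul_eq_one_right h)

noncomputable def T23_fr (p : ℕ) (e : Fin 5) : ℝ := (p : ℝ) ^ ((e : ℕ) - 2 : ℤ)

noncomputable def T23_cf (p : ℕ) (e : Fin 5) : ℂ :=
  ![((9 / 8 / p : ℝ) : ℂ), ((-(3 / 2 / √p) : ℝ) : ℂ), ((1 - 9 / (4 * p) : ℝ) : ℂ), ((3 / 2 / √p : ℝ) : ℂ),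
    ((9 / 8 / p : ℝ) : ℂ)] e

theorem T23_fr_pos {p : ℕ} (hp : 0 < p) (e : Fin 5) : 0 < T23_fr p e :=
  zpow_pos (by exact_mod_cast hp) _

theorem T23_fr_ratio {p : ℕ} (hp : p.Prime) (e : Fin 5) : ∃ m n : ℕ, 0 < m ∧ 0 < n ∧
    Nat.Coprime m n ∧ (∀ q : ℕ, q.Prime → q ∣ m * n → q = p) ∧ T23_fr p e = (m : ℝ) / n := by
  have hp0 : (p : ℝ) ≠ 0 := by exact_mod_cast hp.ne_zero
  have key : ∀ k : ℕ, ∀ q : ℕ, q.Prime → q ∣ p ^ k → q = p := fun k q hq h =>
    (Nat.prime_dvd_prime_iff_eq hq hp).1 (hq.dvd_of_dvd_pow h)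
  fin_cases e
  · refine ⟨1, p ^ 2, one_pos, pow_pos hp.pos _, Nat.coprime_one_left _, ?_, ?_⟩
    · intro q hq h
      rw [one_mul] at h
      exact key 2 q hq h
    · unfold T23_fr
      rw [show (((⟨0, by norm_num⟩ : Fin 5) : ℕ) - 2 : ℤ) = -((2 : ℕ) : ℤ) by norm_num, zpow_neg, zpow_natCast]
      push_cast
      rw [one_div]
  · refine ⟨1, p, one_pos, hp.pos, Nat.coprime_one_left _, ?_, ?_⟩
    · intro q hq h
      rw [one_mul] at h
      exact (Nat.prime_dvd_prime_iff_eq hq hp).1 h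
    · unfold T23_fr
      rw [show (((⟨1, by norm_num⟩ : Fin 5) : ℕ) - 2 : ℤ) = -((1 : ℕ) : ℤ) by norm_num, zpow_neg, zpow_natCast,
        pow_one]
      push_cast
      rw [one_div]
  · refine ⟨1, 1, one_pos, one_pos, Nat.coprime_one_left _, ?_, ?_⟩
    · intro q hq h
      rw [one_mul, Nat.dvd_one] at h
      exact absurd h hq.one_lt.ne'
    · unfold T23_fr
      rw [show (((⟨2, by norm_num⟩ : Fin 5) : ℕ) - 2 : ℤ) = 0 by norm_num, zpow_zero]
      push_cast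
      rw [div_one]
  · refine ⟨p, 1, hp.pos, one_pos, Nat.coprime_one_right _, ?_, ?_⟩
    · intro q hq h
      rw [mul_one] at h
      exact (Nat.prime_dvd_prime_iff_eq hq hp).1 h
    · unfold T23_fr
      rw [show (((⟨3, by norm_num⟩ : Fin 5) : ℕ) - 2 : ℤ) = ((1 : ℕ) : ℤ) by norm_num, zpow_natCast, pow_one]
      push_cast
      rw [div_one]
  · refine ⟨p ^ 2, 1, pow_pos hp.pos _, one_pos, Nat.coprime_one_right _, ?_, ?_⟩
    · intro q hq h
      rw [mul_one] at h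
      exact key 2 q hq h
    · unfold T23_fr
      rw [show (((⟨4, by norm_num⟩ : Fin 5) : ℕ) - 2 : ℤ) = ((2 : ℕ) : ℤ) by norm_num, zpow_natCast]
      push_cast
      rw [div_one]

theorem T23_prod {a : ℕ → ℂ} (h1 : a 1 = 1)
    (hm : ∀ m n : ℕ, 0 < m → 0 < n → Nat.Coprime m n → a (m * n) = a m * a n) {ι : Type*} [DecidableEq ι]
    (g : ι → ℕ) (hg : Function.Injective g) (hp : ∀ i, (g i).Prime) (e : ι → Fin 5) (T : Finset ι) :
    (∃ m n : ℕ, 0 < m ∧ 0 < n ∧ Nat.Coprime m n ∧ (∀ q : ℕ, q.Prime → q ∣ m * n → ∃ i ∈ T, q = g i) ∧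
      ∏ i ∈ T, T23_fr (g i) (e i) = (m : ℝ) / n) ∧
    al a (∏ i ∈ T, T23_fr (g i) (e i)) = ∏ i ∈ T, al a (T23_fr (g i) (e i)) := by
  induction T using Finset.induction_on with
  | empty =>
    refine ⟨⟨1, 1, one_pos, one_pos, Nat.coprime_one_left _, fun q hq h => ?_, by simp⟩, ?_⟩
    · rw [one_mul, Nat.dvd_one] at h
      exact absurd h hq.one_lt.ne'
    · simp only [Finset.prod_empty]
      have := T23_ratio (a := a) one_pos one_pos (Nat.coprime_one_left 1)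
      rw [Nat.cast_one, div_one, if_pos rfl, Real.sqrt_one, h1] at this
      rw [this]
      simp
  | insert i T hi ih =>
    obtain ⟨⟨m, n, hm0, hn0, hc, hq, he⟩, ih2⟩ := ih
    obtain ⟨m', n', hm0', hn0', hc', hq', he'⟩ := T23_fr_ratio (hp i) (e i)
    have c3 : Nat.Coprime (m' * n') (m * n) := by
      refine Nat.coprime_of_dvd (fun q hqp h1' h2' => ?_)
      have e1 := hq' q hqp h1'
      obtain ⟨j, hj, e2⟩ := hq q hqp h2'
      have : i = j := hg (e1.symm.trans e2)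
      exact hi (this ▸ hj)
    have hmul := T23_mul hm hm0' hn0' hm0 hn0 hc' hc c3
    rw [Finset.prod_insert hi, Finset.prod_insert hi, he, he', hmul, ← ih2, he]
    refine ⟨⟨m' * m, n' * n, Nat.mul_pos hm0' hm0, Nat.mul_pos hn0' hn0, ?_, ?_, ?_⟩, rfl⟩
    · have cmm : Nat.Coprime m' n := (c3.coprime_dvd_left (Dvd.intro _ rfl)).coprime_dvd_right (Dvd.intro_left _ rfl)
      have cnm : Nat.Coprime n' m := (c3.coprime_dvd_left (Dvd.intro_left _ rfl)).coprime_dvd_right (Dvd.intro _ rfl)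
      exact Nat.Coprime.mul_left (Nat.Coprime.mul_right hc' cmm) (Nat.Coprime.mul_right cnm.symm hc)
    · intro q hqp hd
      rw [show m' * m * (n' * n) = (m' * n') * (m * n) by ring] at hd
      rcases (Nat.Prime.dvd_mul hqp).1 hd with h | h
      · exact ⟨i, Finset.mem_insert_self _ _, hq' q hqp h⟩
      · obtain ⟨j, hj, hj2⟩ := hq q hqp h
        exact ⟨j, Finset.mem_insert_of_mem hj, hj2⟩
    · push_cast
      rw [div_mul_div_comm]

theorem T23_v (p : ℕ) (hp : 0 < p) (t : ℝ) :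
    ‖∑ e : Fin 5, T23_cf p e * ((T23_fr p e : ℝ) : ℂ) ^ (t * I)‖ ≤ Real.exp (81 / 4 * ((p : ℝ) ^ 2)⁻¹) := by
  have hpR : (0 : ℝ) < p := by exact_mod_cast hp
  set th : ℝ := t * Real.log p with hth
  have hfr : ∀ e : Fin 5, ((T23_fr p e : ℝ) : ℂ) ^ (t * I) = exp ((((e : ℕ) : ℝ) - 2 : ℝ) * (th : ℂ) * I) := by
    intro e
    have h0 := T23_fr_pos hp e
    rw [Complex.cpow_def_of_ne_zero (by exact_mod_cast h0.ne'), ← Complex.ofReal_log h0.le]
    unfold T23_fr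
    rw [Real.log_zpow, hth]
    congr 1
    push_cast
    ring
  have hs : ∀ x : ℝ, exp ((x : ℂ) * I) = (Real.cos x : ℂ) + (Real.sin x : ℂ) * I := by
    intro x
    rw [exp_mul_I, ofReal_cos, ofReal_sin]
  have hval : ∑ e : Fin 5, T23_cf p e * ((T23_fr p e : ℝ) : ℂ) ^ (t * I) =
      ((1 - 9 / (2 * p) * Real.sin th ^ 2 : ℝ) : ℂ) + ((3 / √p * Real.sin th : ℝ) : ℂ) * I := by
    simp only [hfr, Fin.sum_univ_five]
    have e0 : exp ((((((0 : Fin 5) : ℕ) : ℝ) - 2 : ℝ) : ℂ) * (th : ℂ) * I) =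
        (Real.cos (2 * th) : ℂ) - (Real.sin (2 * th) : ℂ) * I := by
      have := hs (-(2 * th))
      rw [Real.cos_neg, Real.sin_neg] at this
      rw [show ((((((0 : Fin 5) : ℕ) : ℝ) - 2 : ℝ) : ℂ) * (th : ℂ) * I) = ((-(2 * th) : ℝ) : ℂ) * I by
        push_cast; simp, this]
      push_cast
      ring
    have e1 : exp ((((((1 : Fin 5) : ℕ) : ℝ) - 2 : ℝ) : ℂ) * (th : ℂ) * I) =
        (Real.cos th : ℂ) - (Real.sin th : ℂ) * I := by
      have := hs (-th)
      rw [Real.cos_neg, Real.sin_neg] at this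
      rw [show ((((((1 : Fin 5) : ℕ) : ℝ) - 2 : ℝ) : ℂ) * (th : ℂ) * I) = ((-th : ℝ) : ℂ) * I by
        push_cast; norm_num, this]
      push_cast
      ring
    have e2 : exp ((((((2 : Fin 5) : ℕ) : ℝ) - 2 : ℝ) : ℂ) * (th : ℂ) * I) = 1 := by
      rw [show ((((((2 : Fin 5) : ℕ) : ℝ) - 2 : ℝ) : ℂ) * (th : ℂ) * I) = 0 by
        push_cast; norm_num, exp_zero]
    have e3 : exp ((((((3 : Fin 5) : ℕ) : ℝ) - 2 : ℝ) : ℂ) * (th : ℂ) * I) =
        (Real.cos th : ℂ) + (Real.sin th : ℂ) * I := by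
      rw [← hs th]
      congr 1
      push_cast
      norm_num
    have e4 : exp ((((((4 : Fin 5) : ℕ) : ℝ) - 2 : ℝ) : ℂ) * (th : ℂ) * I) =
        (Real.cos (2 * th) : ℂ) + (Real.sin (2 * th) : ℂ) * I := by
      rw [← hs (2 * th)]
      congr 1
      push_cast
      norm_num
    rw [e0, e1, e2, e3, e4]
    have c2 : (Real.cos (2 * th) : ℂ) = ((1 - 2 * Real.sin th ^ 2 : ℝ) : ℂ) := by
      rw [Real.cos_two_mul, Real.sin_sq]
      congr 1
      ring
    rw [c2]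
    simp only [T23_cf, Matrix.cons_val]
    push_cast
    have hpC : (p : ℂ) ≠ 0 := by exact_mod_cast hp.ne'
    field_simp
    ring
  rw [hval]
  have hn : ‖((1 - 9 / (2 * p) * Real.sin th ^ 2 : ℝ) : ℂ) + ((3 / √p * Real.sin th : ℝ) : ℂ) * I‖ ^ 2 =
      1 + 81 / 4 * ((p : ℝ) ^ 2)⁻¹ * (Real.sin th) ^ 4 := by
    rw [← Complex.normSq_eq_norm_sq, Complex.normSq_add_mul_I, mul_pow, div_pow, Real.sq_sqrt hpR.le]
    field_simp
    ring
  have hsin : Real.sin th ^ 4 ≤ 1 := by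
    have := Real.sin_sq_le_one th
    nlinarith [sq_nonneg (Real.sin th)]
  have hp2 : 0 ≤ 81 / 4 * ((p : ℝ) ^ 2)⁻¹ := by positivity
  have h1 : ‖((1 - 9 / (2 * p) * Real.sin th ^ 2 : ℝ) : ℂ) + ((3 / √p * Real.sin th : ℝ) : ℂ) * I‖ ^ 2 ≤
      1 + 81 / 4 * ((p : ℝ) ^ 2)⁻¹ := by
    rw [hn]
    nlinarith
  set N := ‖((1 - 9 / (2 * p) * Real.sin th ^ 2 : ℝ) : ℂ) + ((3 / √p * Real.sin th : ℝ) : ℂ) * I‖ with hN
  have h2 : 1 + 81 / 4 * ((p : ℝ) ^ 2)⁻¹ ≤ Real.exp (81 / 4 * ((p : ℝ) ^ 2)⁻¹) := by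
    rw [add_comm]
    exact Real.add_one_le_exp _
  have h3 : N ≤ 1 + 81 / 4 * ((p : ℝ) ^ 2)⁻¹ := by
    nlinarith [sq_nonneg (N - 1), norm_nonneg (((1 - 9 / (2 * p) * Real.sin th ^ 2 : ℝ) : ℂ) +
      ((3 / √p * Real.sin th : ℝ) : ℂ) * I)]
  exact h3.trans h2

theorem T23_mean {Q : ℕ} {a : ℕ → ℂ} (h1 : a 1 = 1)
    (hp : ∀ p : ℕ, p.Prime → p ≡ 1 [MOD Q] → a p = 3 ∧ a (p ^ 2) = 6) {p : ℕ} (hpp : p.Prime)
    (hpQ : p ≡ 1 [MOD Q]) :
    ∑ e : Fin 5, T23_cf p e * al a (T23_fr p e) = ((1 + 9 / (4 * p) + 27 / (4 * p ^ 2) : ℝ) : ℂ) := by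
  have hpR : (0 : ℝ) < p := by exact_mod_cast hpp.pos
  have hp0 : (p : ℝ) ≠ 0 := hpR.ne'
  have r0 : T23_fr p 0 = ((1 : ℕ) : ℝ) / ((p ^ 2 : ℕ) : ℝ) := by
    unfold T23_fr
    rw [show ((((0 : Fin 5) : ℕ) : ℤ) - 2 : ℤ) = -((2 : ℕ) : ℤ) by norm_num, zpow_neg, zpow_natCast]
    push_cast
    rw [one_div]
  have r1 : T23_fr p 1 = ((1 : ℕ) : ℝ) / (p : ℝ) := by
    unfold T23_fr
    rw [show ((((1 : Fin 5) : ℕ) : ℤ) - 2 : ℤ) = -((1 : ℕ) : ℤ) by norm_num, zpow_neg, zpow_natCast, pow_one]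
    push_cast
    rw [one_div]
  have r2 : T23_fr p 2 = ((1 : ℕ) : ℝ) / ((1 : ℕ) : ℝ) := by
    unfold T23_fr
    rw [show ((((2 : Fin 5) : ℕ) : ℤ) - 2 : ℤ) = 0 by norm_num, zpow_zero]
    simp
  have r3 : T23_fr p 3 = (p : ℝ) / ((1 : ℕ) : ℝ) := by
    unfold T23_fr
    rw [show ((((3 : Fin 5) : ℕ) : ℤ) - 2 : ℤ) = ((1 : ℕ) : ℤ) by norm_num, zpow_natCast, pow_one]
    simp
  have r4 : T23_fr p 4 = ((p ^ 2 : ℕ) : ℝ) / ((1 : ℕ) : ℝ) := by
    unfold T23_fr
    rw [show ((((4 : Fin 5) : ℕ) : ℤ) - 2 : ℤ) = ((2 : ℕ) : ℤ) by norm_num, zpow_natCast]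
    simp
  have a0 : al a (T23_fr p 0) = 0 := by
    rw [r0, T23_ratio one_pos (pow_pos hpp.pos 2) (Nat.coprime_one_left _), if_neg]
    intro h
    have := hpp.one_lt
    nlinarith
  have a1 : al a (T23_fr p 1) = 0 := by
    rw [r1, T23_ratio one_pos hpp.pos (Nat.coprime_one_left _), if_neg hpp.one_lt.ne']
  have a2 : al a (T23_fr p 2) = 1 := by
    rw [r2, T23_ratio one_pos one_pos (Nat.coprime_one_left _), if_pos rfl, h1]
    simp
  have a3 : al a (T23_fr p 3) = 3 * ((√(p : ℝ) : ℝ) : ℂ)⁻¹ := by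
    rw [r3, T23_ratio hpp.pos one_pos (Nat.coprime_one_right _), if_pos rfl, (hp p hpp hpQ).1]
  have a4 : al a (T23_fr p 4) = 6 * (p : ℂ)⁻¹ := by
    rw [r4, T23_ratio (pow_pos hpp.pos 2) one_pos (Nat.coprime_one_right _), if_pos rfl, (hp p hpp hpQ).2]
    push_cast
    rw [Real.sqrt_sq hpR.le]
    push_cast
    rfl
  rw [Fin.sum_univ_five, a0, a1, a2, a3, a4]
  simp only [T23_cf, Matrix.cons_val]
  have hpC : (p : ℂ) ≠ 0 := by exact_mod_cast hpp.ne_zero
  have hsq : ((√(p : ℝ) : ℝ) : ℂ) * ((√(p : ℝ) : ℝ) : ℂ) = (p : ℂ) := by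
    rw [← ofReal_mul, Real.mul_self_sqrt hpR.le]
    simp
  have hsq0 : ((√(p : ℝ) : ℝ) : ℂ) ≠ 0 := by
    intro h
    rw [h, mul_zero] at hsq
    exact hpC hsq.symm
  push_cast
  have e5 : (3 / 2 / ((√(p : ℝ) : ℝ) : ℂ)) * (3 * ((√(p : ℝ) : ℝ) : ℂ)⁻¹) = 9 / 2 / (p : ℂ) := by
    rw [← hsq]
    field_simp
    ring
  rw [e5]
  field_simp
  ring

open ArithmeticFunction vonMangoldt in
theorem T23_div {Q : ℕ} (hQ : 0 < Q) :
    ¬ Summable (fun n : ℕ => if n.Prime ∧ n ≡ 1 [MOD Q] then ((n : ℝ))⁻¹ else 0) := by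
  intro hg
  have : NeZero Q := ⟨hQ.ne'⟩
  set g : ℕ → ℝ := fun n : ℕ => if n.Prime ∧ n ≡ 1 [MOD Q] then ((n : ℝ))⁻¹ else 0 with hgdef
  have g0 : ∀ n, 0 ≤ g n := fun n => by
    simp only [hgdef]
    split_ifs
    · positivity
    · exact le_refl _
  obtain ⟨C, hC⟩ := LSeries_residueClass_lower_bound (q := Q) (a := 1) isUnit_one
  have hφ : (0 : ℝ) < (Q.totient : ℝ)⁻¹ := by
    have := Nat.totient_pos.2 hQ
    positivity
  obtain ⟨N, hN⟩ : ∃ N : ℕ, ∑' k, g (k + N) ≤ (Q.totient : ℝ)⁻¹ / 2 := by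
    have := (tendsto_sum_nat_add g).eventually (ge_mem_nhds (half_pos hφ))
    exact this.exists
  have s1 := summable_residueClass_non_primes_div (1 : ZMod Q)
  let F1 : ℕ → ℝ := fun n => (if n.Prime then 0 else residueClass (1 : ZMod Q) n) / n
  let F2 : ℕ → ℝ := fun n => if n < N then Real.log n else 0
  let F3 : ℕ → ℝ := fun n => if n < N then 0 else g n
  have s2 : Summable F2 := summable_of_ne_finset_zero (s := Finset.range N) (fun n hn => by
    simp only [F2]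
    rw [if_neg (by simpa using hn)])
  have s3 : Summable F3 := Summable.of_nonneg_of_le (fun n => by
    simp only [F3]
    split_ifs
    · exact le_refl _
    · exact g0 n) (fun n => by
    simp only [F3]
    split_ifs
    · exact g0 n
    · exact le_refl _) hg
  have t3 : ∑' n, F3 n ≤ (Q.totient : ℝ)⁻¹ / 2 := by
    rw [← s3.sum_add_tsum_nat_add N]
    have z : ∑ i ∈ Finset.range N, F3 i = 0 := Finset.sum_eq_zero (fun i hi => by
      simp only [F3]
      rw [if_pos (Finset.mem_range.1 hi)])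
    have z2 : ∀ k, F3 (k + N) = g (k + N) := fun k => by
      simp only [F3]
      rw [if_neg (by omega)]
    rw [z, zero_add, tsum_congr z2]
    exact hN
  have main : ∀ x : ℝ, 1 < x → x ≤ 2 → (Q.totient : ℝ)⁻¹ / 2 ≤ (C + ∑' n, F1 n + ∑' n, F2 n) * (x - 1) := by
    intro x h1 h2
    have hx : 0 < x - 1 := by linarith
    have hle : ∑' n, residueClass (1 : ZMod Q) n / (n : ℝ) ^ x ≤
        ∑' n, (F1 n + F2 n + (x - 1)⁻¹ * F3 n) := by
      have hpt : ∀ n : ℕ, residueClass (1 : ZMod Q) n / (n : ℝ) ^ x ≤ F1 n + F2 n + (x - 1)⁻¹ * F3 n := by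
        intro n
        have hR := residueClass_nonneg (1 : ZMod Q) n
        rcases n.eq_zero_or_pos with rfl | hn
        · have : 0 ≤ (x - 1)⁻¹ * F3 0 := by
            refine mul_nonneg (inv_nonneg.2 hx.le) ?_
            simp only [F3]
            split_ifs
            · exact le_refl _
            · exact g0 0
          simp only [F1, F2]
          simp
          exact this
        have hn1 : (1 : ℝ) ≤ n := by exact_mod_cast hn
        have hnx : (n : ℝ) ≤ (n : ℝ) ^ x := by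
          conv_lhs => rw [← Real.rpow_one n]
          exact Real.rpow_le_rpow_of_exponent_le hn1 h1.le
        have F20 : 0 ≤ F2 n := by
          simp only [F2]
          split_ifs
          · exact Real.log_nonneg hn1
          · exact le_refl _
        have F30 : 0 ≤ (x - 1)⁻¹ * F3 n := by
          refine mul_nonneg (inv_nonneg.2 hx.le) ?_
          simp only [F3]
          split_ifs
          · exact le_refl _
          · exact g0 n
        by_cases hpr : n.Prime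
        · have F1z : F1 n = 0 := by simp only [F1]; rw [if_pos hpr, zero_div]
          by_cases hm : (n : ZMod Q) = 1
          · have hrc : residueClass (1 : ZMod Q) n = Real.log n := by
              simp only [residueClass]
              rw [Set.indicator_of_mem (by simpa using hm), vonMangoldt_apply_prime hpr]
            rw [F1z, zero_add, hrc]
            by_cases hnN : n < N
            · have : F2 n = Real.log n := by simp only [F2]; rw [if_pos hnN]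
              rw [this]
              have : Real.log n / (n : ℝ) ^ x ≤ Real.log n := div_le_self (Real.log_nonneg hn1) (hn1.trans hnx)
              linarith
            · have hF3 : F3 n = ((n : ℝ))⁻¹ := by
                simp only [F3]
                rw [if_neg hnN, hgdef]
                simp only
                rw [if_pos ⟨hpr, (ZMod.natCast_eq_natCast_iff _ _ _).1 (by simpa using hm)⟩]
              rw [hF3]
              have hlog : Real.log n ≤ (x - 1)⁻¹ * (n : ℝ) ^ (x - 1) := by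
                have h5 := Real.add_one_le_exp ((x - 1) * Real.log n)
                have h6 : Real.exp ((x - 1) * Real.log n) = (n : ℝ) ^ (x - 1) := by
                  rw [Real.rpow_def_of_pos (by linarith), mul_comm]
                rw [h6] at h5
                have h7 : (x - 1) * Real.log n ≤ (n : ℝ) ^ (x - 1) := by linarith
                calc Real.log n = (x - 1)⁻¹ * ((x - 1) * Real.log n) := by field_simp
                  _ ≤ _ := mul_le_mul_of_nonneg_left h7 (inv_nonneg.2 hx.le)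
              have hsplit : (n : ℝ) ^ x = (n : ℝ) ^ (x - 1) * n := by
                rw [Real.rpow_sub_one (by linarith : (n : ℝ) ≠ 0), div_mul_cancel₀]
                linarith
              have hpos : 0 < (n : ℝ) ^ (x - 1) := Real.rpow_pos_of_pos (by linarith) _
              have : Real.log n / (n : ℝ) ^ x ≤ (x - 1)⁻¹ * ((n : ℝ))⁻¹ := by
                rw [hsplit, div_le_iff₀ (mul_pos hpos (by linarith))]
                calc Real.log n ≤ (x - 1)⁻¹ * (n : ℝ) ^ (x - 1) := hlog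
                  _ = (x - 1)⁻¹ * ((n : ℝ))⁻¹ * ((n : ℝ) ^ (x - 1) * n) := by
                    field_simp
              linarith
          · have : residueClass (1 : ZMod Q) n = 0 := by
              simp only [residueClass]
              rw [Set.indicator_of_notMem (by simpa using hm)]
            rw [this, zero_div, F1z]
            linarith
        · have : residueClass (1 : ZMod Q) n / (n : ℝ) ^ x ≤ F1 n := by
            simp only [F1]
            rw [if_neg hpr]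
            exact div_le_div_of_nonneg_left hR (by linarith) hnx
          linarith
      refine Summable.tsum_le_tsum hpt ?_ ((s1.add s2).add (s3.mul_left _))
      refine Summable.of_nonneg_of_le (fun n => div_nonneg (residueClass_nonneg _ n) (by positivity)) hpt
        ((s1.add s2).add (s3.mul_left _))
    have hsum : ∑' n, (F1 n + F2 n + (x - 1)⁻¹ * F3 n) = ∑' n, F1 n + ∑' n, F2 n + (x - 1)⁻¹ * ∑' n, F3 n := by
      have s1' : Summable F1 := s1
      rw [(s1'.add s2).tsum_add (s3.mul_left _), s1'.tsum_add s2, tsum_mul_left]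
    have hl := hC (x := x) ⟨h1, h2⟩
    rw [hsum] at hle
    have h8 : (x - 1)⁻¹ * ∑' n, F3 n ≤ (x - 1)⁻¹ * ((Q.totient : ℝ)⁻¹ / 2) :=
      mul_le_mul_of_nonneg_left t3 (inv_nonneg.2 hx.le)
    have h9 : (Q.totient : ℝ)⁻¹ / (x - 1) ≤ C + ∑' n, F1 n + ∑' n, F2 n + (x - 1)⁻¹ * ((Q.totient : ℝ)⁻¹ / 2) := by
      linarith
    rw [div_le_iff₀ hx] at h9
    have h10 : (x - 1)⁻¹ * ((Q.totient : ℝ)⁻¹ / 2) * (x - 1) = (Q.totient : ℝ)⁻¹ / 2 := by field_simp
    nlinarith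
  set D := C + ∑' n, F1 n + ∑' n, F2 n with hD
  have hD2 := main 2 (by norm_num) (le_refl 2)
  have hDpos : 0 < D := by nlinarith
  have hx : 0 < (Q.totient : ℝ)⁻¹ / (4 * D) := by positivity
  have h3 := main (min 2 (1 + (Q.totient : ℝ)⁻¹ / (4 * D))) (lt_min (by norm_num) (by linarith)) (min_le_left _ _)
  have h4 : min 2 (1 + (Q.totient : ℝ)⁻¹ / (4 * D)) - 1 ≤ (Q.totient : ℝ)⁻¹ / (4 * D) := by
    have := min_le_right (2 : ℝ) (1 + (Q.totient : ℝ)⁻¹ / (4 * D))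
    linarith
  have h5 : D * (min 2 (1 + (Q.totient : ℝ)⁻¹ / (4 * D)) - 1) ≤ D * ((Q.totient : ℝ)⁻¹ / (4 * D)) :=
    mul_le_mul_of_nonneg_left h4 hDpos.le
  have h6 : D * ((Q.totient : ℝ)⁻¹ / (4 * D)) = (Q.totient : ℝ)⁻¹ / 4 := by field_simp
  linarith

theorem T23_cpow_prod {ι : Type*} (s : Finset ι) (f : ι → ℝ) (hf : ∀ i, 0 < f i) (z : ℂ) :
    (((∏ i ∈ s, f i : ℝ)) : ℂ) ^ z = ∏ i ∈ s, ((f i : ℝ) : ℂ) ^ z := by
  classical
  induction s using Finset.induction_on with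
  | empty => simp
  | insert i s hi ih =>
    rw [Finset.prod_insert hi, Finset.prod_insert hi, ← ih, ofReal_mul,
      Complex.mul_cpow_ofReal_nonneg (hf i).le (Finset.prod_nonneg (fun j _ => (hf j).le))]

/-- Row T23. Bounded test polynomials with large mean. -/
theorem test_poly {Q : ℕ} (hQ : 0 < Q) {a : ℕ → ℂ} (h1 : a 1 = 1)
    (hm : ∀ m n : ℕ, 0 < m → 0 < n → Nat.Coprime m n → a (m * n) = a m * a n)
    (hp : ∀ p : ℕ, p.Prime → p ≡ 1 [MOD Q] → a p = 3 ∧ a (p ^ 2) = 6) :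
    ∃ C : ℝ, 0 < C ∧ ∀ A : ℝ, ∃ (s : Finset ℕ) (c : ℕ → ℂ) (lam : ℕ → ℝ), (∀ i, 0 < lam i) ∧
      (∀ t : ℝ, ‖∑ i ∈ s, c i * (lam i : ℂ) ^ (t * I)‖ ≤ C) ∧
      A ≤ ‖∑ i ∈ s, c i * al a (lam i)‖ := by
  classical
  have hz : Summable (fun n : ℕ => ((n : ℝ) ^ 2)⁻¹) := Real.summable_nat_pow_inv.2 (by norm_num)
  refine ⟨Real.exp (81 / 4 * ∑' n : ℕ, ((n : ℝ) ^ 2)⁻¹), Real.exp_pos _, fun A => ?_⟩
  obtain ⟨N, hN⟩ : ∃ N : ℕ, A ≤ ∑ n ∈ Finset.range N, (if n.Prime ∧ n ≡ 1 [MOD Q] then ((n : ℝ))⁻¹ else 0) := by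
    have h0 : ∀ n : ℕ, 0 ≤ (if n.Prime ∧ n ≡ 1 [MOD Q] then ((n : ℝ))⁻¹ else 0) := fun n => by
      split_ifs
      · positivity
      · exact le_refl _
    have := (not_summable_iff_tendsto_nat_atTop_of_nonneg h0).1 (T23_div hQ)
    exact (this.eventually_ge_atTop A).exists
  set S : Finset ℕ := (Finset.range N).filter (fun n => n.Prime ∧ n ≡ 1 [MOD Q]) with hS
  have hSp : ∀ i : S, (i : ℕ).Prime := fun i => (Finset.mem_filter.1 i.2).2.1
  have hSq : ∀ i : S, (i : ℕ) ≡ 1 [MOD Q] := fun i => (Finset.mem_filter.1 i.2).2.2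
  rw [← Finset.sum_filter] at hN
  let c : (S → Fin 5) → ℂ := fun e => ∏ i : S, T23_cf i (e i)
  let lam : (S → Fin 5) → ℝ := fun e => ∏ i : S, T23_fr i (e i)
  have hlam : ∀ e, 0 < lam e := fun e => Finset.prod_pos (fun i _ => T23_fr_pos (hSp i).pos _)
  obtain ⟨s, c', lam', hl', hconv⟩ := T23_conv c lam hlam
  refine ⟨s, c', lam', hl', fun t => ?_, ?_⟩
  · rw [hconv (fun x => ((x : ℝ) : ℂ) ^ (t * I))]
    have e1 : ∑ e : S → Fin 5, c e * ((lam e : ℝ) : ℂ) ^ (t * I) =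
        ∏ i : S, ∑ j : Fin 5, T23_cf i j * ((T23_fr i j : ℝ) : ℂ) ^ (t * I) := by
      rw [Finset.prod_univ_sum, Fintype.piFinset_univ]
      refine Finset.sum_congr rfl (fun e _ => ?_)
      simp only [c, lam]
      rw [T23_cpow_prod _ _ (fun i => T23_fr_pos (hSp i).pos _), ← Finset.prod_mul_distrib]
    rw [e1, norm_prod]
    calc ∏ i : S, ‖∑ j : Fin 5, T23_cf i j * ((T23_fr i j : ℝ) : ℂ) ^ (t * I)‖
        ≤ ∏ i : S, Real.exp (81 / 4 * (((i : ℕ) : ℝ) ^ 2)⁻¹) :=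
          Finset.prod_le_prod (fun i _ => norm_nonneg _) (fun i _ => T23_v _ (hSp i).pos t)
      _ = Real.exp (81 / 4 * ∑ i : S, (((i : ℕ) : ℝ) ^ 2)⁻¹) := by
          rw [← Real.exp_sum, Finset.mul_sum]
      _ ≤ _ := by
          refine Real.exp_le_exp.2 (mul_le_mul_of_nonneg_left ?_ (by norm_num))
          rw [Finset.sum_coe_sort S (fun n : ℕ => ((n : ℝ) ^ 2)⁻¹)]
          exact hz.sum_le_tsum _ (fun i _ => by positivity)
  · rw [hconv (al a)]
    have e1 : ∑ e : S → Fin 5, c e * al a (lam e) =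
        ∏ i : S, ∑ j : Fin 5, T23_cf i j * al a (T23_fr i j) := by
      rw [Finset.prod_univ_sum, Fintype.piFinset_univ]
      refine Finset.sum_congr rfl (fun e _ => ?_)
      simp only [c, lam]
      rw [(T23_prod h1 hm (fun i : S => (i : ℕ)) Subtype.val_injective hSp e Finset.univ).2,
        ← Finset.prod_mul_distrib]
    rw [e1, norm_prod]
    have e2 : ∀ i : S, ‖∑ j : Fin 5, T23_cf i j * al a (T23_fr i j)‖ =
        1 + (9 / (4 * ((i : ℕ) : ℝ)) + 27 / (4 * ((i : ℕ) : ℝ) ^ 2)) := by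
      intro i
      rw [T23_mean h1 hp (hSp i) (hSq i), Complex.norm_real, Real.norm_of_nonneg (by positivity)]
      ring
    rw [Finset.prod_congr rfl (fun i _ => e2 i)]
    have hge : ∀ T : Finset S, 1 + ∑ i ∈ T, (((i : ℕ) : ℝ))⁻¹ ≤
        ∏ i ∈ T, (1 + (9 / (4 * ((i : ℕ) : ℝ)) + 27 / (4 * ((i : ℕ) : ℝ) ^ 2))) := by
      intro T
      induction T using Finset.induction_on with
      | empty => simp
      | insert i T hi ih =>
        rw [Finset.sum_insert hi, Finset.prod_insert hi]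
        have hi0 : (0 : ℝ) < ((i : ℕ) : ℝ) := by exact_mod_cast (hSp i).pos
        have x1 : (((i : ℕ) : ℝ))⁻¹ ≤ 9 / (4 * ((i : ℕ) : ℝ)) + 27 / (4 * ((i : ℕ) : ℝ) ^ 2) := by
          have y1 : 0 ≤ 27 / (4 * ((i : ℕ) : ℝ) ^ 2) := by positivity
          have y2 : (((i : ℕ) : ℝ))⁻¹ ≤ 9 / (4 * ((i : ℕ) : ℝ)) := by
            rw [inv_eq_one_div, div_le_div_iff₀ hi0 (by positivity)]
            linarith
          linarith
        have x2 : 0 ≤ ∑ i ∈ T, (((i : ℕ) : ℝ))⁻¹ := Finset.sum_nonneg (fun j _ => by positivity)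
        have x3 : 0 < (((i : ℕ) : ℝ))⁻¹ := by positivity
        have x4 : (1 + (((i : ℕ) : ℝ))⁻¹) * (1 + ∑ i ∈ T, (((i : ℕ) : ℝ))⁻¹) ≤
            (1 + (9 / (4 * ((i : ℕ) : ℝ)) + 27 / (4 * ((i : ℕ) : ℝ) ^ 2))) *
              ∏ i ∈ T, (1 + (9 / (4 * ((i : ℕ) : ℝ)) + 27 / (4 * ((i : ℕ) : ℝ) ^ 2))) :=
          mul_le_mul (by linarith) ih (by linarith) (by positivity)
        nlinarith [mul_nonneg x3.le x2]
    have hfin := hge Finset.univ
    rw [Finset.sum_coe_sort S (fun n : ℕ => ((n : ℝ))⁻¹)] at hfin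
    linarith

end TT
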