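import Pool.Agent.Lib.MP_0f5a55_nt.TT.D2

open Complex MeasureTheory Set Filter Topology
open scoped Real ComplexConjugate

namespace TT

section T24_aux

open scoped Nat

/-- a logarithm of `GammaSeq` -/
noncomputable def T24_LG (n : ℕ) (s : ℂ) : ℂ :=
  s * Real.log n + Real.log (n !) - ∑ j ∈ Finset.range (n + 1), log (s + j)

theorem T24_add_nat_re {s : ℂ} (hs : 0 < s.re) (j : ℕ) : 0 < (s + j).re := by
  simp only [add_re, natCast_re]; positivity

theorem T24_add_nat_ne {s : ℂ} (hs : 0 < s.re) (j : ℕ) : s + j ≠ 0 := by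
  intro h
  have := T24_add_nat_re hs j
  rw [h] at this
  simp at this

theorem T24_exp_LG {n : ℕ} (hn : 1 ≤ n) {s : ℂ} (hs : 0 < s.re) : exp (T24_LG n s) = GammaSeq s n := by
  unfold T24_LG GammaSeq
  have hn0 : (n : ℂ) ≠ 0 := by exact_mod_cast (by omega : n ≠ 0)
  rw [exp_sub, exp_add, exp_sum]
  congr 1
  · congr 1
    · rw [cpow_def_of_ne_zero hn0, ← Complex.natCast_log, mul_comm]
    · rw [← Complex.ofReal_exp, Real.exp_log (by positivity)]
      simp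
  · exact Finset.prod_congr rfl fun j _ => exp_log (T24_add_nat_ne hs j)

theorem T24_hasDerivAt_LG (n : ℕ) {s : ℂ} (hs : 0 < s.re) :
    HasDerivAt (T24_LG n) (Real.log n - ∑ j ∈ Finset.range (n + 1), (s + j)⁻¹) s := by
  unfold T24_LG
  have h1 : HasDerivAt (fun s : ℂ => s * (Real.log n : ℂ) + (Real.log (n !) : ℂ)) (Real.log n : ℂ) s := by
    simpa using ((hasDerivAt_id s).mul_const (Real.log n : ℂ)).add_const (Real.log (n !) : ℂ)
  refine h1.sub ?_
  refine HasDerivAt.fun_sum fun j _ => ?_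
  have h2 : HasDerivAt (fun s : ℂ => s + (j : ℂ)) 1 s := (hasDerivAt_id s).add_const _
  have h3 := h2.clog (Or.inl (T24_add_nat_re hs j))
  simpa [one_div] using h3

/-- `log (zw) = log z + log w` when both have positive real part -/
theorem T24_log_mul_pos {z w : ℂ} (hz : 0 < z.re) (hw : 0 < w.re) : log (z * w) = log z + log w := by
  have hz0 : z ≠ 0 := by rintro rfl; simp at hz
  have hw0 : w ≠ 0 := by rintro rfl; simp at hw
  have a1 := abs_lt.1 (abs_arg_lt_pi_div_two_iff.2 (Or.inl hz))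
  have a2 := abs_lt.1 (abs_arg_lt_pi_div_two_iff.2 (Or.inl hw))
  exact log_mul hz0 hw0 ⟨by linarith [a1.1, a2.1], by linarith [a1.2, a2.2]⟩

theorem T24_log_one_add_sub_le {z : ℂ} (hz : ‖z‖ ≤ 3/4) : ‖log (1 + z) - z‖ ≤ 2 * ‖z‖ ^ 2 := by
  have h := norm_log_one_add_sub_self_le (z := z) (by linarith)
  refine h.trans ?_
  have h1 : (1 - ‖z‖)⁻¹ ≤ 4 := by
    rw [inv_le_comm₀ (by linarith) (by norm_num)]; linarith
  have h2 : 0 ≤ ‖z‖ ^ 2 := by positivity
  calc ‖z‖ ^ 2 * (1 - ‖z‖)⁻¹ / 2 ≤ ‖z‖ ^ 2 * 4 / 2 := by gcongr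
    _ = 2 * ‖z‖ ^ 2 := by ring

theorem T24_sum_inv_bound {s : ℂ} (hs : 0 < s.re) (him : 2 ≤ |s.im|) (N : ℕ) :
    ‖(∑ j ∈ Finset.range N, (s + j)⁻¹) - (log (s + N) - log s)‖ ≤
      4 * (1 / (|s.im| - 1) - 1 / (|s.im| - 1 + N)) := by
  set τ := |s.im| with hτ
  induction N with
  | zero => simp
  | succ N ih =>
    have hre := T24_add_nat_re hs N
    have hne := T24_add_nat_ne hs N
    have hN : (0:ℝ) ≤ N := Nat.cast_nonneg N
    have hnorm : τ ≤ ‖s + N‖ := by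
      have := abs_im_le_norm (s + N)
      simpa [hτ] using this
    have hnsq : (N:ℝ) ^ 2 + τ ^ 2 ≤ ‖s + N‖ ^ 2 := by
      have h1 : ‖s + N‖ ^ 2 = (s.re + N) ^ 2 + s.im ^ 2 := by
        rw [Complex.sq_norm, normSq_apply]; simp; ring
      rw [h1, hτ, sq_abs]
      nlinarith
    have hinv : ‖(s + N)⁻¹‖ ≤ 1/2 := by
      rw [norm_inv, inv_le_comm₀ (by linarith) (by norm_num)]; linarith
    have hstep : log (s + (N + 1 : ℕ)) = log (s + N) + log (1 + (s + N)⁻¹) := by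
      rw [← T24_log_mul_pos hre]
      · congr 1
        rw [mul_add, mul_one, mul_inv_cancel₀ hne]; push_cast; ring
      · rw [add_re, one_re]
        have := (abs_le.1 ((abs_re_le_norm (s + N)⁻¹).trans hinv)).1
        linarith
    have h2 : ‖log (1 + (s + N)⁻¹) - (s + N)⁻¹‖ ≤
        4 * (1 / (τ - 1 + N) - 1 / (τ - 1 + (N + 1 : ℕ))) := by
      refine (T24_log_one_add_sub_le (hinv.trans (by norm_num))).trans ?_
      rw [norm_inv, inv_pow]
      have e1 : 1 / (τ - 1 + N) - 1 / (τ - 1 + (N + 1 : ℕ)) = 1 / ((τ - 1 + N) * (τ + N)) := by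
        have : τ - 1 + N ≠ 0 := by linarith
        have : τ + N ≠ 0 := by linarith
        push_cast
        rw [show τ - 1 + ((N:ℝ) + 1) = τ + N by ring]
        field_simp
        ring
      rw [e1]
      have e2 : (‖s + N‖ ^ 2)⁻¹ ≤ 2 * (1 / ((τ - 1 + N) * (τ + N))) := by
        rw [inv_eq_one_div, mul_one_div, div_le_div_iff₀ (by nlinarith) (by nlinarith)]
        nlinarith [sq_nonneg ((N:ℝ) - τ)]
      linarith
    have e3 : (∑ j ∈ Finset.range (N + 1), (s + j)⁻¹) - (log (s + (N + 1 : ℕ)) - log s) =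
        ((∑ j ∈ Finset.range N, (s + j)⁻¹) - (log (s + N) - log s)) -
          (log (1 + (s + N)⁻¹) - (s + N)⁻¹) := by
      rw [Finset.sum_range_succ, hstep]; ring
    rw [e3]
    refine (norm_sub_le _ _).trans ?_
    linarith

theorem T24_sum_inv_bound' {s : ℂ} (hs : 0 < s.re) (him : 2 ≤ |s.im|) (N : ℕ) :
    ‖(∑ j ∈ Finset.range N, (s + j)⁻¹) - (log (s + N) - log s)‖ ≤ 8 / |s.im| := by
  refine (T24_sum_inv_bound hs him N).trans ?_
  have hN : (0:ℝ) ≤ N := Nat.cast_nonneg N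
  have h1 : 0 ≤ 1 / (|s.im| - 1 + N) := by
    apply div_nonneg zero_le_one; linarith
  have h2 : 1 / (|s.im| - 1) ≤ 2 / |s.im| := by
    rw [div_le_div_iff₀ (by linarith) (by linarith)]; linarith
  have h3 : 8 / |s.im| = 4 * (2 / |s.im|) := by ring
  rw [h3]; linarith

end T24_aux

theorem T24_log_close {s : ℂ} {a : ℝ} (ha : 0 < a) (h1 : a ≤ ‖s‖) (h2 : ‖s‖ ≤ 2 * a) :
    ‖log s - Real.log a‖ ≤ 5 := by
  refine (Complex.norm_le_abs_re_add_abs_im _).trans ?_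
  have e1 : (log s - (Real.log a : ℂ)).re = Real.log ‖s‖ - Real.log a := by
    rw [sub_re, log_re, ofReal_re]
  have e2 : (log s - (Real.log a : ℂ)).im = arg s := by
    rw [sub_im, log_im, ofReal_im, sub_zero]
  rw [e1, e2]
  have hs : 0 < ‖s‖ := lt_of_lt_of_le ha h1
  have h3 : Real.log a ≤ Real.log ‖s‖ := Real.log_le_log ha h1
  have h4 : Real.log ‖s‖ ≤ Real.log 2 + Real.log a := by
    rw [← Real.log_mul two_ne_zero ha.ne']
    exact Real.log_le_log hs h2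
  have h5 : Real.log 2 ≤ 1 := by
    have := Real.log_two_lt_d9
    linarith
  have h6 := Complex.abs_arg_le_pi s
  have h7 := Real.pi_le_four
  rw [abs_of_nonneg (by linarith)]
  linarith

theorem T24_seq {y : ℝ} (hy : 2 ≤ y) {n : ℕ} (hn : y + 2 ≤ n) :
    ‖(T24_LG n (((3 / 4 : ℝ) : ℂ) + y * I) - ((3 / 4 : ℝ) : ℂ) * Real.log y) -
      (T24_LG n (((1 / 4 : ℝ) : ℂ) + y * I) - ((1 / 4 : ℝ) : ℂ) * Real.log y)‖ ≤ 7 := by
  have hy0 : (0 : ℝ) < y := by linarith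
  have hn0 : (0 : ℝ) < n := by linarith
  have key : ∀ x ∈ Set.Icc (1 / 4 : ℝ) (3 / 4), HasDerivWithinAt
      (fun x : ℝ => T24_LG n ((x : ℂ) + y * I) - (x : ℂ) * Real.log y)
      ((Real.log n : ℂ) - ∑ j ∈ Finset.range (n + 1), (((x : ℂ) + y * I) + j)⁻¹ - Real.log y)
      (Set.Icc (1 / 4 : ℝ) (3 / 4)) x := by
    intro x hx
    have hre : 0 < ((x : ℂ) + y * I).re := by
      simp
      linarith [hx.1]
    have h1 := T24_hasDerivAt_LG n hre
    have h2 : HasDerivAt (fun z : ℂ => z + y * I) 1 (x : ℂ) := (hasDerivAt_id _).add_const _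
    have h3 := h1.comp (x : ℂ) h2
    have h4 : HasDerivAt (fun z : ℂ => z * (Real.log y : ℂ)) (1 * (Real.log y : ℂ)) (x : ℂ) :=
      (hasDerivAt_id _).mul_const _
    have h5 := (h3.sub h4).comp_ofReal
    rw [mul_one, one_mul] at h5
    exact h5.hasDerivWithinAt
  have bound : ∀ x ∈ Set.Icc (1 / 4 : ℝ) (3 / 4),
      ‖(Real.log n : ℂ) - ∑ j ∈ Finset.range (n + 1), (((x : ℂ) + y * I) + j)⁻¹ - Real.log y‖
        ≤ 14 := by
    intro x hx
    set s : ℂ := (x : ℂ) + y * I with hs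
    have hre : s.re = x := by simp [hs]
    have him : s.im = y := by simp [hs]
    have hre0 : 0 < s.re := by rw [hre]; linarith [hx.1]
    have habs : |s.im| = y := by rw [him, abs_of_pos hy0]
    have h1 := T24_sum_inv_bound' hre0 (by rw [habs]; exact hy) (n + 1)
    rw [habs] at h1
    have h1' : 8 / y ≤ 4 := by
      rw [div_le_iff₀ hy0]
      linarith
    have h2 : ‖log s - Real.log y‖ ≤ 5 := by
      refine T24_log_close hy0 ?_ ?_
      · have := abs_im_le_norm s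
        rwa [habs] at this
      · have := Complex.norm_le_abs_re_add_abs_im s
        rw [hre, habs, abs_of_nonneg (by linarith [hx.1])] at this
        linarith [hx.2]
    have h3 : ‖log (s + (n + 1 : ℕ)) - Real.log n‖ ≤ 5 := by
      have hre' : (s + (n + 1 : ℕ)).re = x + (n + 1) := by
        rw [add_re, hre]
        simp
      have him' : (s + (n + 1 : ℕ)).im = y := by
        rw [add_im, him]
        simp
      refine T24_log_close hn0 ?_ ?_
      · have := abs_re_le_norm (s + (n + 1 : ℕ))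
        rw [hre', abs_of_nonneg (by linarith [hx.1])] at this
        linarith [hx.1]
      · have := Complex.norm_le_abs_re_add_abs_im (s + (n + 1 : ℕ))
        rw [hre', him', abs_of_nonneg (by linarith [hx.1]), abs_of_pos hy0] at this
        linarith [hx.2]
    have e : (Real.log n : ℂ) - ∑ j ∈ Finset.range (n + 1), (s + j)⁻¹ - Real.log y =
        (log s - Real.log y) - (log (s + (n + 1 : ℕ)) - Real.log n) -
          ((∑ j ∈ Finset.range (n + 1), (s + j)⁻¹) - (log (s + (n + 1 : ℕ)) - log s)) := by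
      ring
    rw [e]
    refine (norm_sub_le _ _).trans ?_
    refine (add_le_add (norm_sub_le _ _) le_rfl).trans ?_
    linarith
  have h := (convex_Icc (1 / 4 : ℝ) (3 / 4)).norm_image_sub_le_of_norm_hasDerivWithin_le key bound
    (x := 1 / 4) (y := 3 / 4) (by norm_num) (by norm_num)
  refine h.trans ?_
  norm_num

theorem T24_seq_re {y : ℝ} (hy : 2 ≤ y) {n : ℕ} (hn : y + 2 ≤ n) :
    |(T24_LG n (((3 / 4 : ℝ) : ℂ) + y * I)).re - (T24_LG n (((1 / 4 : ℝ) : ℂ) + y * I)).re -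
      1 / 2 * Real.log y| ≤ 7 := by
  refine le_trans (le_of_eq ?_) ((abs_re_le_norm _).trans (T24_seq hy hn))
  congr 1
  rw [sub_re, sub_re, sub_re, ← ofReal_mul, ← ofReal_mul, ofReal_re, ofReal_re]
  ring

theorem T24_norm_seq {n : ℕ} (hn : 1 ≤ n) {s : ℂ} (hs : 0 < s.re) :
    ‖GammaSeq s n‖ = Real.exp (T24_LG n s).re := by
  rw [← T24_exp_LG hn hs, norm_exp]

theorem T24_tendsto (s : ℂ) : Tendsto (fun n => ‖GammaSeq s n‖) atTop (𝓝 ‖Gamma s‖) :=
  (GammaSeq_tendsto_Gamma s).norm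

theorem T24_ratio {y : ℝ} (hy : 2 ≤ y) :
    ‖Gamma (((3 / 4 : ℝ) : ℂ) + y * I)‖ ≤
      Real.exp 7 * y ^ (1 / 2 : ℝ) * ‖Gamma (((1 / 4 : ℝ) : ℂ) + y * I)‖ ∧
    y ^ (1 / 2 : ℝ) * ‖Gamma (((1 / 4 : ℝ) : ℂ) + y * I)‖ ≤
      Real.exp 7 * ‖Gamma (((3 / 4 : ℝ) : ℂ) + y * I)‖ := by
  have hy0 : (0 : ℝ) < y := by linarith
  have hp : y ^ (1 / 2 : ℝ) = Real.exp (1 / 2 * Real.log y) := by
    rw [Real.rpow_def_of_pos hy0, mul_comm]
  have h34 : 0 < (((3 / 4 : ℝ) : ℂ) + y * I).re := by simp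
  have h14 : 0 < (((1 / 4 : ℝ) : ℂ) + y * I).re := by simp
  obtain ⟨N, hN⟩ := exists_nat_ge (y + 2)
  constructor
  · refine le_of_tendsto_of_tendsto (T24_tendsto _) ((T24_tendsto _).const_mul _) ?_
    filter_upwards [eventually_ge_atTop (N + 1)] with n hn
    have hn1 : 1 ≤ n := by omega
    have hn2 : y + 2 ≤ n := by
      have : (N : ℝ) ≤ n := by exact_mod_cast (by omega : N ≤ n)
      linarith
    rw [T24_norm_seq hn1 h34, T24_norm_seq hn1 h14, hp, ← Real.exp_add, ← Real.exp_add]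
    apply Real.exp_le_exp.mpr
    have := (abs_le.mp (T24_seq_re hy hn2)).2
    linarith
  · refine le_of_tendsto_of_tendsto ((T24_tendsto _).const_mul _) ((T24_tendsto _).const_mul _) ?_
    filter_upwards [eventually_ge_atTop (N + 1)] with n hn
    have hn1 : 1 ≤ n := by omega
    have hn2 : y + 2 ≤ n := by
      have : (N : ℝ) ≤ n := by exact_mod_cast (by omega : N ≤ n)
      linarith
    rw [T24_norm_seq hn1 h34, T24_norm_seq hn1 h14, hp, ← Real.exp_add, ← Real.exp_add]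
    apply Real.exp_le_exp.mpr
    have := (abs_le.mp (T24_seq_re hy hn2)).1
    linarith

theorem T24_sin (w : ℂ) : ‖sin w‖ ≤ Real.exp |w.im| := by
  unfold Complex.sin
  rw [norm_div, norm_mul, norm_I, mul_one]
  have h1 : ‖cexp (-w * I)‖ ≤ Real.exp |w.im| := by
    rw [norm_exp]
    apply Real.exp_le_exp.mpr
    have : (-w * I).re = w.im := by simp
    rw [this]
    exact le_abs_self _
  have h2 : ‖cexp (w * I)‖ ≤ Real.exp |w.im| := by
    rw [norm_exp]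
    apply Real.exp_le_exp.mpr
    have : (w * I).re = -w.im := by simp
    rw [this]
    exact neg_le_abs _
  have h3 : ‖(2 : ℂ)‖ = 2 := by simp
  rw [h3, div_le_iff₀ (by norm_num)]
  refine (norm_sub_le _ _).trans ?_
  linarith

theorem T24_prod (y : ℝ) (hy : 0 < y) : π * Real.exp (-(π * y)) ≤
    ‖Gamma (((1 / 4 : ℝ) : ℂ) + y * I)‖ * ‖Gamma (((3 / 4 : ℝ) : ℂ) + y * I)‖ := by
  have h := Complex.Gamma_mul_Gamma_one_sub (((1 / 4 : ℝ) : ℂ) + y * I)
  have e1 : (1 : ℂ) - (((1 / 4 : ℝ) : ℂ) + y * I) = conj (((3 / 4 : ℝ) : ℂ) + y * I) := by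
    rw [map_add, map_mul, conj_I, conj_ofReal, conj_ofReal]
    push_cast
    ring
  rw [e1, Gamma_conj] at h
  have h2 := congrArg norm h
  rw [norm_mul, norm_conj, norm_div, Complex.norm_real, Real.norm_eq_abs,
    abs_of_pos Real.pi_pos] at h2
  rw [h2]
  have h3 := T24_sin ((π : ℂ) * (((1 / 4 : ℝ) : ℂ) + y * I))
  have h4 : ((π : ℂ) * (((1 / 4 : ℝ) : ℂ) + y * I)).im = π * y := by
    simp
  rw [h4, abs_of_pos (by positivity)] at h3
  have h5 : 0 < ‖sin ((π : ℂ) * (((1 / 4 : ℝ) : ℂ) + y * I))‖ := by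
    rcases (norm_nonneg (sin ((π : ℂ) * (((1 / 4 : ℝ) : ℂ) + y * I)))).lt_or_eq with h6 | h6
    · exact h6
    · exfalso
      rw [← h6, div_zero] at h2
      have g1 : Gamma (((1 / 4 : ℝ) : ℂ) + y * I) ≠ 0 := by
        apply Complex.Gamma_ne_zero_of_re_pos
        simp
      have g2 : Gamma (((3 / 4 : ℝ) : ℂ) + y * I) ≠ 0 := by
        apply Complex.Gamma_ne_zero_of_re_pos
        simp
      have := mul_pos (norm_pos_iff.mpr g1) (norm_pos_iff.mpr g2)
      linarith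
  rw [le_div_iff₀ h5, Real.exp_neg, mul_assoc]
  have h6 : (Real.exp (π * y))⁻¹ * ‖sin ((π : ℂ) * (((1 / 4 : ℝ) : ℂ) + y * I))‖ ≤ 1 := by
    rw [inv_mul_le_iff₀ (Real.exp_pos _), mul_one]
    exact h3
  have := mul_le_mul_of_nonneg_left h6 Real.pi_pos.le
  linarith

/-- lower bounds for `y ≥ 2` -/
theorem T24_low {y : ℝ} (hy : 2 ≤ y) :
    Real.exp (-4) * (y ^ (-(1 / 4) : ℝ) * Real.exp (-(π / 2 * y))) ≤
      ‖Gamma (((1 / 4 : ℝ) : ℂ) + y * I)‖ ∧
    Real.exp (-4) * (y ^ (1 / 4 : ℝ) * Real.exp (-(π / 2 * y))) ≤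
      ‖Gamma (((3 / 4 : ℝ) : ℂ) + y * I)‖ := by
  have hy0 : (0 : ℝ) < y := by linarith
  obtain ⟨h1, h2⟩ := T24_ratio hy
  have h3 := T24_prod y hy0
  set A := ‖Gamma (((1 / 4 : ℝ) : ℂ) + y * I)‖ with hA
  set B := ‖Gamma (((3 / 4 : ℝ) : ℂ) + y * I)‖ with hB
  have hA0 : 0 ≤ A := norm_nonneg _
  have hB0 : 0 ≤ B := norm_nonneg _
  have hpi : (1 : ℝ) ≤ π := by linarith [Real.pi_gt_three]
  have hp : 0 < y ^ (1 / 2 : ℝ) := by positivity
  have h3' : Real.exp (-(π * y)) ≤ A * B := by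
    refine le_trans ?_ h3
    have := mul_le_mul_of_nonneg_right hpi (Real.exp_pos (-(π * y))).le
    linarith
  have e8 : Real.exp (-4) ^ 2 * Real.exp 7 ≤ 1 := by
    rw [← Real.exp_nat_mul, ← Real.exp_add, ← Real.exp_zero]
    apply Real.exp_le_exp.mpr
    norm_num
  have eE : Real.exp (-(π / 2 * y)) ^ 2 = Real.exp (-(π * y)) := by
    rw [← Real.exp_nat_mul]
    congr 1
    push_cast
    ring
  constructor
  · refine (pow_le_pow_iff_left₀ (by positivity) hA0 (n := 2) (by norm_num)).mp ?_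
    have e1 : (y ^ (-(1 / 4) : ℝ)) ^ 2 * y ^ (1 / 2 : ℝ) = 1 := by
      rw [← Real.rpow_natCast, ← Real.rpow_mul hy0.le, ← Real.rpow_add hy0]
      norm_num
    have h4 : Real.exp (-(π * y)) ≤ Real.exp 7 * y ^ (1 / 2 : ℝ) * A ^ 2 := by
      refine h3'.trans ?_
      have := mul_le_mul_of_nonneg_left h1 hA0
      nlinarith
    have h5 : 0 < Real.exp 7 * y ^ (1 / 2 : ℝ) := by positivity
    rw [← mul_le_mul_iff_right₀ h5]
    refine le_trans ?_ h4
    rw [mul_pow, mul_pow, eE]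
    calc Real.exp 7 * y ^ (1 / 2 : ℝ) * (Real.exp (-4) ^ 2 * ((y ^ (-(1 / 4) : ℝ)) ^ 2 *
          Real.exp (-(π * y)))) = (Real.exp (-4) ^ 2 * Real.exp 7) *
            (((y ^ (-(1 / 4) : ℝ)) ^ 2 * y ^ (1 / 2 : ℝ)) * Real.exp (-(π * y))) := by ring
      _ ≤ 1 * (1 * Real.exp (-(π * y))) := by
          rw [e1]
          exact mul_le_mul_of_nonneg_right e8 (by positivity)
      _ = _ := by ring
  · refine (pow_le_pow_iff_left₀ (by positivity) hB0 (n := 2) (by norm_num)).mp ?_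
    have e1 : (y ^ (1 / 4 : ℝ)) ^ 2 = y ^ (1 / 2 : ℝ) := by
      rw [← Real.rpow_natCast, ← Real.rpow_mul hy0.le]
      norm_num
    have h4 : y ^ (1 / 2 : ℝ) * Real.exp (-(π * y)) ≤ Real.exp 7 * B ^ 2 := by
      have h5 := mul_le_mul_of_nonneg_left h3' hp.le
      have h6 := mul_le_mul_of_nonneg_left h2 hB0
      nlinarith
    rw [← mul_le_mul_iff_right₀ (Real.exp_pos 7)]
    refine le_trans ?_ h4
    rw [mul_pow, mul_pow, eE, e1]
    calc Real.exp 7 * (Real.exp (-4) ^ 2 * (y ^ (1 / 2 : ℝ) * Real.exp (-(π * y)))) =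
          (Real.exp (-4) ^ 2 * Real.exp 7) * (y ^ (1 / 2 : ℝ) * Real.exp (-(π * y))) := by ring
      _ ≤ 1 * (y ^ (1 / 2 : ℝ) * Real.exp (-(π * y))) :=
          mul_le_mul_of_nonneg_right e8 (by positivity)
      _ = _ := by ring

/-- lower bound on a compact interval -/
theorem T24_cpt (f : ℝ → ℂ) (hf : ContinuousOn f (Set.Icc 1 4)) (h0 : ∀ t, 1 ≤ t → f t ≠ 0)
    (a : ℝ) {c1 : ℝ} (hc1 : 0 < c1)
    (h : ∀ t, 4 ≤ t → c1 * (t ^ a * Real.exp (-(π / 4 * t))) ≤ ‖f t‖) :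
    ∃ c : ℝ, 0 < c ∧ ∀ t : ℝ, 1 ≤ t → c * (t ^ a * Real.exp (-(π / 4 * t))) ≤ ‖f t‖ := by
  have hg : ContinuousOn (fun t : ℝ => ‖f t‖ / (t ^ a * Real.exp (-(π / 4 * t))))
      (Set.Icc 1 4) := by
    refine hf.norm.div ?_ ?_
    · refine ContinuousOn.mul ?_ (by fun_prop)
      intro t ht
      exact (Real.continuousAt_rpow_const t a (Or.inl (by linarith [ht.1]))).continuousWithinAt
    · intro t ht
      have : (0 : ℝ) < t := by linarith [ht.1]
      positivity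
  obtain ⟨t0, ht0, hmin⟩ := isCompact_Icc.exists_isMinOn (Set.nonempty_Icc.mpr (by norm_num)) hg
  have ht0' : (0 : ℝ) < t0 := by linarith [ht0.1]
  have hc2 : 0 < ‖f t0‖ / (t0 ^ a * Real.exp (-(π / 4 * t0))) :=
    div_pos (norm_pos_iff.mpr (h0 t0 ht0.1)) (by positivity)
  refine ⟨min c1 (‖f t0‖ / (t0 ^ a * Real.exp (-(π / 4 * t0)))), lt_min hc1 hc2, fun t ht => ?_⟩
  have ht' : (0 : ℝ) < t := by linarith
  have hpos : 0 < t ^ a * Real.exp (-(π / 4 * t)) := by positivity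
  rcases le_total 4 t with h4 | h4
  · exact (mul_le_mul_of_nonneg_right (min_le_left _ _) hpos.le).trans (h t h4)
  · refine (mul_le_mul_of_nonneg_right (min_le_right _ _) hpos.le).trans ?_
    have := hmin (show t ∈ Set.Icc (1 : ℝ) 4 from ⟨ht, h4⟩)
    exact (le_div_iff₀ hpos).mp this

theorem T24_GammaR_norm (s : ℂ) : ‖Gammaℝ s‖ = π ^ (-s.re / 2) * ‖Gamma (s / 2)‖ := by
  rw [Gammaℝ_def, norm_mul, norm_cpow_eq_rpow_re_of_pos Real.pi_pos]
  congr 2
  simp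

theorem T24_contAt {s : ℂ} (hs : 0 < s.re) : ContinuousAt Gammaℝ s := by
  have h1 : ContinuousAt (fun s => (Gammaℝ s)⁻¹) s := differentiable_Gammaℝ_inv.continuous.continuousAt
  have h2 := h1.inv₀ (inv_ne_zero (Gammaℝ_ne_zero_of_re_pos hs))
  refine h2.congr (Eventually.of_forall fun z => ?_)
  simp

theorem T24_even : ∃ c : ℝ, 0 < c ∧ ∀ t : ℝ, 1 ≤ t →
    c * (t ^ (-(1 / 4) : ℝ) * Real.exp (-(π / 4 * t))) ≤ ‖Gammaℝ (1 / 2 + t * I)‖ := by
  refine T24_cpt (fun t => Gammaℝ (1 / 2 + t * I)) ?_ ?_ _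
    (c1 := π ^ (-(1 / 4) : ℝ) * (Real.exp (-4) * (1 / 2) ^ (-(1 / 4) : ℝ))) (by positivity) ?_
  · intro t _
    refine ContinuousAt.continuousWithinAt ?_
    refine ContinuousAt.comp (f := fun t : ℝ => (1 / 2 + t * I : ℂ)) (g := Gammaℝ) ?_ (by fun_prop)
    exact T24_contAt (by simp)
  · intro t _
    exact Gammaℝ_ne_zero_of_re_pos (by simp)
  · intro t ht
    have h := (T24_low (y := t / 2) (by linarith)).1
    rw [T24_GammaR_norm]
    have e1 : ((1 : ℂ) / 2 + t * I) / 2 = ((1 / 4 : ℝ) : ℂ) + ((t / 2 : ℝ) : ℂ) * I := by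
      push_cast
      ring
    have e2 : -((1 : ℂ) / 2 + t * I).re / 2 = (-(1 / 4) : ℝ) := by
      simp
      norm_num
    rw [e1, e2, mul_assoc]
    refine mul_le_mul_of_nonneg_left ?_ (by positivity)
    refine le_trans (le_of_eq ?_) h
    have e3 : (t / 2) ^ (-(1 / 4) : ℝ) = (1 / 2) ^ (-(1 / 4) : ℝ) * t ^ (-(1 / 4) : ℝ) := by
      rw [← Real.mul_rpow (by norm_num) (by linarith)]
      congr 1
      ring
    rw [e3, show π / 2 * (t / 2) = π / 4 * t by ring]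
    ring

theorem T24_odd : ∃ c : ℝ, 0 < c ∧ ∀ t : ℝ, 1 ≤ t →
    c * (t ^ (1 / 4 : ℝ) * Real.exp (-(π / 4 * t))) ≤ ‖Gammaℝ (1 / 2 + t * I + 1)‖ := by
  refine T24_cpt (fun t => Gammaℝ (1 / 2 + t * I + 1)) ?_ ?_ _
    (c1 := π ^ (-(3 / 4) : ℝ) * (Real.exp (-4) * (1 / 2) ^ (1 / 4 : ℝ))) (by positivity) ?_
  · intro t _
    refine ContinuousAt.continuousWithinAt ?_
    refine ContinuousAt.comp (f := fun t : ℝ => (1 / 2 + t * I + 1 : ℂ)) (g := Gammaℝ) ?_
      (by fun_prop)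
    exact T24_contAt (by simp; norm_num)
  · intro t _
    exact Gammaℝ_ne_zero_of_re_pos (by simp; norm_num)
  · intro t ht
    have h := (T24_low (y := t / 2) (by linarith)).2
    rw [T24_GammaR_norm]
    have e1 : ((1 : ℂ) / 2 + t * I + 1) / 2 = ((3 / 4 : ℝ) : ℂ) + ((t / 2 : ℝ) : ℂ) * I := by
      push_cast
      ring
    have e2 : -((1 : ℂ) / 2 + t * I + 1).re / 2 = (-(3 / 4) : ℝ) := by
      simp
      norm_num
    rw [e1, e2, mul_assoc]
    refine mul_le_mul_of_nonneg_left ?_ (by positivity)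
    refine le_trans (le_of_eq ?_) h
    have e3 : (t / 2) ^ (1 / 4 : ℝ) = (1 / 2) ^ (1 / 4 : ℝ) * t ^ (1 / 4 : ℝ) := by
      rw [← Real.mul_rpow (by norm_num) (by linarith)]
      congr 1
      ring
    rw [e3, show π / 2 * (t / 2) = π / 4 * t by ring]
    ring

/-- Row T24. Lower bound for the gamma factor. -/
theorem gamma_lower {q : ℕ} [NeZero q] {χ : DirichletCharacter ℂ q} {κ : ℕ} (hκ : Par χ κ) :
    ∃ c : ℝ, 0 < c ∧ ∀ t : ℝ, 1 ≤ t →
      c * (t ^ ((κ : ℝ) / 2 - 1 / 4) * Real.exp (-(π / 4 * t))) ≤ ‖χ.gammaFactor (1 / 2 + t * I)‖ := by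
  rcases hκ with ⟨hχ, rfl⟩ | ⟨hχ, rfl⟩
  · obtain ⟨c, hc, h⟩ := T24_even
    refine ⟨c, hc, fun t ht => ?_⟩
    rw [hχ.gammaFactor_def, show (((0 : ℕ) : ℝ) / 2 - 1 / 4) = -(1 / 4) by norm_num]
    exact h t ht
  · obtain ⟨c, hc, h⟩ := T24_odd
    refine ⟨c, hc, fun t ht => ?_⟩
    rw [hχ.gammaFactor_def, show (((1 : ℕ) : ℝ) / 2 - 1 / 4) = 1 / 4 by norm_num]
    exact h t ht

end TT
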