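import Pool.Agent.Lib.MP_0f5a55_nt.TT.T18
import Pool.Agent.Lib.MP_0f5a55_nt.TT.T22
import Pool.Agent.Lib.MP_0f5a55_nt.TT.T23
import Pool.Agent.Lib.MP_0f5a55_nt.TT.T24
import Mathlib.NumberTheory.LSeries.Convolution

open Complex MeasureTheory Set Filter Topology
open scoped Real ComplexConjugate

namespace TT


/-- a character as an arithmetic function -/
noncomputable def T25_ch {q : ℕ} (χ : DirichletCharacter ℂ q) : ArithmeticFunction ℂ :=
  ⟨fun n => if n = 0 then 0 else χ (n : ZMod q), by simp⟩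

theorem T25_ch_apply {q : ℕ} (χ : DirichletCharacter ℂ q) {n : ℕ} (hn : n ≠ 0) :
    T25_ch χ n = χ (n : ZMod q) := by
  show (if n = 0 then 0 else χ (n : ZMod q)) = _
  rw [if_neg hn]

theorem T25_mult {q : ℕ} (χ : DirichletCharacter ℂ q) : (T25_ch χ).IsMultiplicative := by
  refine ArithmeticFunction.IsMultiplicative.iff_ne_zero.2 ⟨?_, ?_⟩
  · rw [T25_ch_apply χ one_ne_zero]
    simp
  · intro m n hm hn _
    rw [T25_ch_apply χ (mul_ne_zero hm hn), T25_ch_apply χ hm, T25_ch_apply χ hn]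
    push_cast
    rw [map_mul]

theorem T25_congr {q : ℕ} (χ : DirichletCharacter ℂ q) :
    ∀ n : ℕ, n ≠ 0 → T25_ch χ n = (fun n : ℕ => χ (n : ZMod q)) n := fun n hn => T25_ch_apply χ hn

theorem T25_ser {q : ℕ} [NeZero q] (χ : DirichletCharacter ℂ q) {s : ℂ} (hs : 1 < s.re) :
    LSeriesSummable (fun n => T25_ch χ n) s ∧
      LSeries (fun n => T25_ch χ n) s = DirichletCharacter.LFunction χ s := by
  constructor
  · refine (LSeriesSummable_congr s (fun {n} hn => T25_congr χ n hn)).2 ?_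
    exact ZMod.LSeriesSummable_of_one_lt_re χ hs
  · rw [LSeries_congr (fun {n} hn => T25_congr χ n hn) s]
    exact (DirichletCharacter.LFunction_eq_LSeries χ hs).symm

theorem T25_prod {q1 q2 q3 : ℕ} [NeZero q1] [NeZero q2] [NeZero q3] (χ1 : DirichletCharacter ℂ q1)
    (χ2 : DirichletCharacter ℂ q2) (χ3 : DirichletCharacter ℂ q3) {s : ℂ} (hs : 1 < s.re) :
    LSeriesSummable (fun n => (T25_ch χ1 * T25_ch χ2 * T25_ch χ3) n) s ∧
      LSeries (fun n => (T25_ch χ1 * T25_ch χ2 * T25_ch χ3) n) s =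
        DirichletCharacter.LFunction χ1 s * DirichletCharacter.LFunction χ2 s *
          DirichletCharacter.LFunction χ3 s := by
  obtain ⟨a1, b1⟩ := T25_ser χ1 hs
  obtain ⟨a2, b2⟩ := T25_ser χ2 hs
  obtain ⟨a3, b3⟩ := T25_ser χ3 hs
  have h12 := ArithmeticFunction.LSeriesSummable_mul a1 a2
  refine ⟨ArithmeticFunction.LSeriesSummable_mul h12 a3, ?_⟩
  rw [ArithmeticFunction.LSeries_mul' h12 a3, ArithmeticFunction.LSeries_mul' a1 a2, b1, b2, b3]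

theorem T25_hasSum {a : ℕ → ℂ} {s L : ℂ} (h : LSeriesSummable a s) (hL : LSeries a s = L) :
    HasSum (fun n : ℕ => a (n + 1) * ((n : ℂ) + 1) ^ (-s)) L := by
  have h1 : HasSum (LSeries.term a s) L := by
    rw [← hL]
    exact h.hasSum
  have h2 := (hasSum_nat_add_iff' (f := LSeries.term a s) 1).2 h1
  rw [Finset.sum_range_one, LSeries.term_zero, sub_zero] at h2
  refine h2.congr_fun ?_
  intro n
  rw [LSeries.term_of_ne_zero (Nat.succ_ne_zero n), Complex.cpow_neg, div_eq_mul_inv]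
  push_cast
  rfl

theorem T25_norm {a : ℕ → ℂ} (h : LSeriesSummable a 2) :
    Summable (fun n : ℕ => ‖a (n + 1)‖ * (((n : ℝ) + 1) ^ 2)⁻¹) := by
  have h2 := (T25_hasSum h rfl).summable.norm
  refine h2.congr (fun n => ?_)
  rw [norm_mul]
  congr 1
  rw [Complex.norm_cpow_of_ne_zero (by exact_mod_cast Nat.succ_ne_zero n)]
  rw [show ((n : ℂ) + 1) = (((n : ℝ) + 1 : ℝ) : ℂ) by push_cast; rfl]
  have h0 : (0 : ℝ) < (n : ℝ) + 1 := by positivity
  rw [Complex.norm_real, Real.norm_of_nonneg h0.le, Complex.arg_ofReal_of_nonneg h0.le]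
  simp only [Complex.neg_re, Complex.re_ofNat, Complex.neg_im, Complex.im_ofNat, neg_zero, mul_zero, zero_mul,
    Real.exp_zero, div_one]
  rw [Real.rpow_neg h0.le]
  norm_num

/-- values of a Dirichlet convolution at prime powers -/
theorem T25_pow (f g : ArithmeticFunction ℂ) {p : ℕ} (hp : p.Prime) (k : ℕ) :
    (f * g) (p ^ k) = ∑ i ∈ Finset.range (k + 1), f (p ^ i) * g (p ^ (k - i)) := by
  rw [ArithmeticFunction.mul_apply, Nat.sum_divisorsAntidiagonal (f := fun a b => f a * g b),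
    Nat.sum_divisors_prime_pow hp]
  refine Finset.sum_congr rfl (fun i hi => ?_)
  rw [Finset.mem_range, Nat.lt_succ_iff] at hi
  rw [Nat.pow_div hi hp.pos]

theorem T25_val {q1 q2 q3 : ℕ} (χ1 : DirichletCharacter ℂ q1)
    (χ2 : DirichletCharacter ℂ q2) (χ3 : DirichletCharacter ℂ q3) {p : ℕ} (hp : p.Prime)
    (h : p ≡ 1 [MOD q1 * q2 * q3]) :
    (T25_ch χ1 * T25_ch χ2 * T25_ch χ3) p = 3 ∧ (T25_ch χ1 * T25_ch χ2 * T25_ch χ3) (p ^ 2) = 6 := by
  have key : ∀ {q : ℕ} (χ : DirichletCharacter ℂ q), q ∣ q1 * q2 * q3 → ∀ k, T25_ch χ (p ^ k) = 1 := by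
    intro q χ hq k
    rw [T25_ch_apply χ (pow_ne_zero _ hp.ne_zero)]
    have h1 : ((p : ℕ) : ZMod q) = ((1 : ℕ) : ZMod q) := (ZMod.natCast_eq_natCast_iff _ _ _).2 (h.of_dvd hq)
    push_cast
    rw [h1]
    simp
  have k1 := key χ1 (Dvd.dvd.mul_right (Dvd.intro _ rfl) _)
  have k2 := key χ2 (Dvd.dvd.mul_right (Dvd.intro_left _ rfl) _)
  have k3 := key χ3 (Dvd.intro_left _ rfl)
  have e12 : ∀ k, (T25_ch χ1 * T25_ch χ2) (p ^ k) = (k + 1 : ℕ) := by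
    intro k
    rw [T25_pow _ _ hp]
    simp [k1, k2]
  constructor
  · have := T25_pow (T25_ch χ1 * T25_ch χ2) (T25_ch χ3) hp 1
    rw [pow_one] at this
    rw [this]
    simp only [e12, k3]
    norm_num [Finset.sum_range_succ]
  · rw [T25_pow _ _ hp]
    simp only [e12, k3]
    norm_num [Finset.sum_range_succ]


theorem T25_int {E : Type*} [NormedAddCommGroup E] [SecondCountableTopology E] {g : ℝ → E} (hg : ContinuousOn g (Ici 1)) {K b : ℝ}
    (hb : 0 < b) (n : ℕ) (h : ∀ t : ℝ, 1 ≤ t → ‖g t‖ ≤ K * (1 + t) ^ n * Real.exp (-(b * t))) :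
    IntegrableOn g (Ioi 1) := by
  have hK : 0 ≤ K := by
    have h1 := (norm_nonneg _).trans (h 1 le_rfl)
    have h2 : 0 < (1 + (1 : ℝ)) ^ n * Real.exp (-(b * 1)) := by positivity
    rw [mul_assoc] at h1
    exact nonneg_of_mul_nonneg_left h1 h2
  have hm : Integrable (fun t : ℝ => K * (n.factorial * (2 / b) ^ n * Real.exp (b / 2)) *
      Real.exp ((-(b / 2)) * t)) (volume.restrict (Ioi 1)) :=
    (integrableOn_exp_mul_Ioi (by linarith) 1).const_mul _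
  refine hm.mono' ((hg.mono Ioi_subset_Ici_self).aestronglyMeasurable measurableSet_Ioi) ?_
  refine (ae_restrict_iff' measurableSet_Ioi).2 (Eventually.of_forall fun t ht => ?_)
  have ht' : 1 ≤ t := le_of_lt ht
  refine (h t ht').trans ?_
  have h1 := Real.pow_div_factorial_le_exp (x := b / 2 * (1 + t)) (by positivity) n
  have h2 : (1 + t) ^ n ≤ n.factorial * (2 / b) ^ n * Real.exp (b / 2 * (1 + t)) := by
    have hf : (0 : ℝ) < n.factorial := by positivity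
    rw [div_le_iff₀ hf, mul_pow] at h1
    have h3 : (1 + t) ^ n = (2 / b) ^ n * ((b / 2) ^ n * (1 + t) ^ n) := by
      rw [← mul_assoc, ← mul_pow]
      rw [show 2 / b * (b / 2) = 1 by field_simp, one_pow, one_mul]
    rw [h3]
    calc (2 / b) ^ n * ((b / 2) ^ n * (1 + t) ^ n) ≤ (2 / b) ^ n * (Real.exp (b / 2 * (1 + t)) * n.factorial) :=
          mul_le_mul_of_nonneg_left h1 (by positivity)
      _ = _ := by ring
  calc K * (1 + t) ^ n * Real.exp (-(b * t)) ≤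
      K * (n.factorial * (2 / b) ^ n * Real.exp (b / 2 * (1 + t))) * Real.exp (-(b * t)) := by gcongr
    _ = K * (n.factorial * (2 / b) ^ n) * (Real.exp (b / 2 * (1 + t)) * Real.exp (-(b * t))) := by ring
    _ = K * (n.factorial * (2 / b) ^ n) * (Real.exp (b / 2) * Real.exp ((-(b / 2)) * t)) := by
        rw [← Real.exp_add, ← Real.exp_add]
        congr 2
        ring
    _ = _ := by ring

theorem T25_rpow {x a : ℝ} (hx : 0 < x) (ha0 : 0 ≤ a) (ha : a ≤ 2) : x ^ a ≤ 2 * Real.exp x := by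
  have h1 := Real.quadratic_le_exp_of_nonneg hx.le
  have h2 : x ^ a ≤ 1 + x ^ 2 := by
    rcases le_total x 1 with h | h
    · have := Real.rpow_le_one hx.le h ha0
      nlinarith [sq_nonneg x]
    · have := Real.rpow_le_rpow_of_exponent_le h ha
      rw [Real.rpow_two] at this
      linarith
  linarith

/-- comparison of weights -/
theorem T25_wt {t T β : ℝ} (ht : 1 ≤ t) (hT : 0 < T) (h1 : 3 ≤ β) (h2 : β ≤ 5) :
    1 / 2 * (2 * T) ^ (β - 5) * (t ^ 5 * Real.exp (-(t / T))) ≤ t ^ β * Real.exp (-(t / (2 * T))) := by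
  have ht0 : 0 < t := by linarith
  have hx : 0 < t / (2 * T) := by positivity
  have h3 := T25_rpow hx (show 0 ≤ 5 - β by linarith) (by linarith)
  rw [Real.div_rpow ht0.le (by positivity), div_le_iff₀ (by positivity)] at h3
  have e1 : t ^ 5 = t ^ β * t ^ (5 - β) := by
    rw [← Real.rpow_add ht0, show β + (5 - β) = (5 : ℕ) by push_cast; ring, Real.rpow_natCast]
  have e2 : (2 * T) ^ (β - 5) * (2 * T) ^ (5 - β) = 1 := by
    rw [← Real.rpow_add (by positivity), show β - 5 + (5 - β) = 0 by ring, Real.rpow_zero]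
  have e3 : Real.exp (t / (2 * T)) * Real.exp (-(t / T)) = Real.exp (-(t / (2 * T))) := by
    rw [← Real.exp_add]
    congr 1
    field_simp
    ring
  calc 1 / 2 * (2 * T) ^ (β - 5) * (t ^ 5 * Real.exp (-(t / T)))
      = 1 / 2 * (2 * T) ^ (β - 5) * (t ^ β * t ^ (5 - β) * Real.exp (-(t / T))) := by rw [e1]
    _ ≤ 1 / 2 * (2 * T) ^ (β - 5) * (t ^ β * (2 * Real.exp (t / (2 * T)) * (2 * T) ^ (5 - β)) *
          Real.exp (-(t / T))) := by gcongr
    _ = ((2 * T) ^ (β - 5) * (2 * T) ^ (5 - β)) * t ^ β * (Real.exp (t / (2 * T)) * Real.exp (-(t / T))) := by ring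
    _ = _ := by rw [e2, e3, one_mul]

/-- the product of the three L-functions -/
theorem T25_F {q1 q2 q3 : ℕ} [NeZero q1] [NeZero q2] [NeZero q3] (χ1 : DirichletCharacter ℂ q1)
    (χ2 : DirichletCharacter ℂ q2) (χ3 : DirichletCharacter ℂ q3) :
    (∀ s : ℂ, 0 < s.im → DifferentiableAt ℂ (fun s => LX.Lf χ1 s * LX.Lf χ2 s * LX.Lf χ3 s) s) ∧
    ∃ C : ℝ, 0 < C ∧ ∀ s : ℂ, 1 / 2 ≤ s.re → 1 ≤ s.im →
      ‖LX.Lf χ1 s * LX.Lf χ2 s * LX.Lf χ3 s‖ ≤ C * (1 + s.im) ^ 3 := by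
  constructor
  · intro s hs
    have hne : s ≠ 1 := by
      rintro rfl
      simp at hs
    have d : ∀ {q : ℕ} [NeZero q] (χ : DirichletCharacter ℂ q), DifferentiableAt ℂ (LX.Lf χ) s :=
      fun {q} _ χ => DirichletCharacter.differentiableAt_LFunction χ s (Or.inl hne)
    exact ((d χ1).mul (d χ2)).mul (d χ3)
  · have p : ∀ {q : ℕ} [NeZero q] (χ : DirichletCharacter ℂ q), ∃ C : ℝ, 0 < C ∧ ∀ s : ℂ, 1 / 2 ≤ s.re →
        1 ≤ s.im → ‖LX.Lf χ s‖ ≤ C * (1 + s.im) := by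
      intro q _ χ
      obtain ⟨C, hC, h⟩ := LP.per_pol (N := q) (fun x => χ x)
      refine ⟨C, hC, fun s hs hs1 => ?_⟩
      have h1 : (1 : ℝ) / 4 ≤ ‖s - 1‖ := by
        have := Complex.abs_im_le_norm (s - 1)
        rw [Complex.sub_im, Complex.one_im, sub_zero, abs_of_nonneg (by linarith)] at this
        linarith
      have := h s (by linarith) h1
      rwa [abs_of_nonneg (by linarith : (0 : ℝ) ≤ s.im)] at this
    obtain ⟨C1, hC1, h1⟩ := p χ1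
    obtain ⟨C2, hC2, h2⟩ := p χ2
    obtain ⟨C3, hC3, h3⟩ := p χ3
    refine ⟨C1 * C2 * C3, by positivity, fun s hs hs1 => ?_⟩
    rw [norm_mul, norm_mul]
    have a1 := h1 s hs hs1
    have a2 := h2 s hs hs1
    have a3 := h3 s hs hs1
    have hp : 0 ≤ 1 + s.im := by linarith
    calc ‖LX.Lf χ1 s‖ * ‖LX.Lf χ2 s‖ * ‖LX.Lf χ3 s‖ ≤
        (C1 * (1 + s.im)) * (C2 * (1 + s.im)) * (C3 * (1 + s.im)) := by gcongr
      _ = _ := by ring

/-- pointwise lower bound of one factor -/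
theorem T25_one {q : ℕ} [NeZero q] {χ : DirichletCharacter ℂ q} (hχ : χ.IsPrimitive) {κ : ℕ} {c : ℝ}
    (hc : 0 < c) (h : ∀ t : ℝ, 1 ≤ t →
      c * (t ^ ((κ : ℝ) / 2 - 1 / 4) * Real.exp (-(π / 4 * t))) ≤ ‖χ.gammaFactor (1 / 2 + t * I)‖)
    (ε : ℝ) {t : ℝ} (ht : 1 ≤ t) :
    c * t ^ ((κ : ℝ) / 2 - 1 / 4) * Real.exp (-(ε * t / 2)) * ‖LX.Lf χ (1 / 2 + t * I)‖ ≤ |rR χ ε t| := by
  obtain ⟨u1, -, u3⟩ := uu_all hχ
  have e1 : |(LX.uu χ t * LX.Lf χ (1 / 2 + t * I)).re| = ‖LX.Lf χ (1 / 2 + t * I)‖ := by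
    have h1 : LX.uu χ t * LX.Lf χ (1 / 2 + t * I) =
        (((LX.uu χ t * LX.Lf χ (1 / 2 + t * I)).re : ℝ) : ℂ) := by
      apply Complex.ext
      · simp
      · rw [u3 t]
        simp
    have h2 : ‖LX.uu χ t * LX.Lf χ (1 / 2 + t * I)‖ = |(LX.uu χ t * LX.Lf χ (1 / 2 + t * I)).re| := by
      conv_lhs => rw [h1]
      rw [Complex.norm_real, Real.norm_eq_abs]
    rw [← h2, norm_mul, u1 t, one_mul]
  unfold rR
  rw [abs_mul, abs_mul, e1, abs_of_pos (Real.exp_pos _), abs_of_nonneg (norm_nonneg _)]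
  refine mul_le_mul_of_nonneg_right ?_ (norm_nonneg _)
  calc c * t ^ ((κ : ℝ) / 2 - 1 / 4) * Real.exp (-(ε * t / 2))
      = Real.exp ((π / 2 - ε) * t / 2) * (c * (t ^ ((κ : ℝ) / 2 - 1 / 4) * Real.exp (-(π / 4 * t)))) := by
        have : Real.exp (-(ε * t / 2)) = Real.exp ((π / 2 - ε) * t / 2) * Real.exp (-(π / 4 * t)) := by
          rw [← Real.exp_add]
          congr 1
          ring
        rw [this]
        ring
    _ ≤ _ := mul_le_mul_of_nonneg_left (h t ht) (Real.exp_pos _).le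

/-- mean value against a test polynomial -/
theorem T25_mean {F : ℂ → ℂ} {a : ℕ → ℂ} (hF : ∀ s : ℂ, 0 < s.im → DifferentiableAt ℂ F s) {C : ℝ}
    (hpol : ∀ s : ℂ, 1 / 2 ≤ s.re → 1 ≤ s.im → ‖F s‖ ≤ C * (1 + s.im) ^ 3)
    (ha : Summable (fun n : ℕ => ‖a (n + 1)‖ * (((n : ℝ) + 1) ^ 2)⁻¹))
    (hF2 : ∀ t : ℝ, F (2 + t * I) = ∑' n : ℕ, a (n + 1) * ((n : ℂ) + 1) ^ (-(2 + t * I)))
    {C0 : ℝ} (hC0 : 0 < C0) (s : Finset ℕ) (c : ℕ → ℂ) (lam : ℕ → ℝ) (hlam : ∀ i, 0 < lam i)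
    (hC : ∀ t : ℝ, ‖∑ i ∈ s, c i * (lam i : ℂ) ^ (t * I)‖ ≤ C0) {M : ℝ}
    (hM : M + 1 ≤ 120 * ‖∑ i ∈ s, c i * al a (lam i)‖) :
    ∃ T0 : ℝ, 0 < T0 ∧ ∀ T : ℝ, T0 ≤ T →
      M / C0 * T ^ 6 ≤ ∫ t in Ioi (1 : ℝ), t ^ 5 * Real.exp (-(t / T)) * ‖F (1 / 2 + t * I)‖ := by
  have hcF : ContinuousOn (fun t : ℝ => F (1 / 2 + t * I)) (Ici 1) := by
    intro t ht
    have him : 0 < ((1 / 2 : ℂ) + t * I).im := by
      have : (1 : ℝ) ≤ t := ht
      simp
      linarith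
    have h1 : ContinuousAt (fun t : ℝ => (1 / 2 : ℂ) + t * I) t := by fun_prop
    exact (ContinuousAt.comp (f := fun t : ℝ => (1 / 2 : ℂ) + t * I) (hF _ him).continuousAt h1).continuousWithinAt
  have hb : ∀ t : ℝ, 1 ≤ t → ‖F (1 / 2 + t * I)‖ ≤ C * (1 + t) ^ 3 := by
    intro t ht
    have := hpol (1 / 2 + t * I) (by simp) (by simpa using ht)
    simpa using this
  have hC3 : 0 ≤ C := by
    have h1 := (norm_nonneg _).trans (hb 1 le_rfl)
    exact nonneg_of_mul_nonneg_left h1 (by positivity)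
  have key := tendsto_finset_sum s (fun i _ => (freq_mean hF (fun s h1 _ h3 => hpol s h1 h3) ha hF2 5
    (hlam i)).const_mul (c i))
  have hlim : ∑ i ∈ s, c i * (((Nat.factorial 5 : ℕ) : ℂ) * al a (lam i)) = 120 * ∑ i ∈ s, c i * al a (lam i) := by
    rw [Finset.mul_sum]
    refine Finset.sum_congr rfl (fun i _ => ?_)
    have : ((Nat.factorial 5 : ℕ) : ℂ) = 120 := by norm_num [Nat.factorial]
    rw [this]
    ring
  rw [hlim] at key
  have hn := key.norm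
  rw [norm_mul] at hn
  have h120 : ‖(120 : ℂ)‖ = 120 := by norm_num
  rw [h120] at hn
  have hev := (hn.eventually (lt_mem_nhds (show M < 120 * ‖∑ i ∈ s, c i * al a (lam i)‖ by linarith)))
  obtain ⟨T1, hT1⟩ := (hev.and (eventually_gt_atTop (0 : ℝ))).exists_forall_of_atTop
  refine ⟨max T1 1, by positivity, fun T hT => ?_⟩
  obtain ⟨hT2, hT3⟩ := hT1 T ((le_max_left _ _).trans hT)
  have hbase : ∀ t : ℝ, 1 ≤ t → t ^ 5 * Real.exp (-(t / T)) * ‖F (1 / 2 + t * I)‖ ≤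
      C * (1 + t) ^ 8 * Real.exp (-(T⁻¹ * t)) := by
    intro t ht
    have h1 := hb t ht
    have h2 : t ^ 5 ≤ (1 + t) ^ 5 := pow_le_pow_left₀ (by linarith) (by linarith) 5
    have h3 : -(t / T) = -(T⁻¹ * t) := by rw [div_eq_inv_mul]
    rw [h3]
    calc t ^ 5 * Real.exp (-(T⁻¹ * t)) * ‖F (1 / 2 + t * I)‖ ≤
        (1 + t) ^ 5 * Real.exp (-(T⁻¹ * t)) * (C * (1 + t) ^ 3) := by gcongr
      _ = _ := by ring
  have hexpc : ContinuousOn (fun t : ℝ => t ^ 5 * Real.exp (-(t / T))) (Ici 1) := by fun_prop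
  have hI1 : IntegrableOn (fun t : ℝ => t ^ 5 * Real.exp (-(t / T)) * ‖F (1 / 2 + t * I)‖) (Ioi 1) := by
    refine T25_int (hexpc.mul hcF.norm) (inv_pos.2 hT3) 8 (K := C) (fun t ht => ?_)
    rw [Real.norm_of_nonneg (by have : (0:ℝ) ≤ t := by linarith
                                positivity)]
    exact hbase t ht
  have hcl : ∀ i, Continuous (fun t : ℝ => (lam i : ℂ) ^ ((t : ℂ) * I)) := by
    intro i
    refine Continuous.const_cpow (by fun_prop) (Or.inl ?_)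
    exact_mod_cast (hlam i).ne'
  have hnl : ∀ i (t : ℝ), ‖(lam i : ℂ) ^ ((t : ℂ) * I)‖ = 1 := by
    intro i t
    rw [Complex.norm_cpow_eq_rpow_re_of_pos (hlam i)]
    simp
  have hI2 : ∀ i, IntegrableOn (fun t : ℝ => ((t ^ 5 * Real.exp (-(t / T)) : ℝ) : ℂ) * F (1 / 2 + t * I) *
      (lam i : ℂ) ^ (t * I)) (Ioi 1) := by
    intro i
    refine T25_int ((Complex.continuous_ofReal.comp_continuousOn hexpc |>.mul hcF).mul (hcl i).continuousOn)
      (inv_pos.2 hT3) 8 (K := C) (fun t ht => ?_)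
    rw [norm_mul, norm_mul, hnl, mul_one, Complex.norm_real, Real.norm_of_nonneg
      (by have : (0:ℝ) ≤ t := by linarith
          positivity)]
    exact hbase t ht
  have hsum : ∑ i ∈ s, c i * ((((T ^ (5 + 1))⁻¹ : ℝ) : ℂ) * ∫ t in Ioi (1 : ℝ),
      ((t ^ 5 * Real.exp (-(t / T)) : ℝ) : ℂ) * F (1 / 2 + t * I) * (lam i : ℂ) ^ (t * I)) =
      (((T ^ 6)⁻¹ : ℝ) : ℂ) * ∫ t in Ioi (1 : ℝ), ((t ^ 5 * Real.exp (-(t / T)) : ℝ) : ℂ) * F (1 / 2 + t * I) *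
        ∑ i ∈ s, c i * (lam i : ℂ) ^ (t * I) := by
    have h1 : ∀ t : ℝ, ((t ^ 5 * Real.exp (-(t / T)) : ℝ) : ℂ) * F (1 / 2 + t * I) *
        ∑ i ∈ s, c i * (lam i : ℂ) ^ (t * I) = ∑ i ∈ s, c i * (((t ^ 5 * Real.exp (-(t / T)) : ℝ) : ℂ) *
          F (1 / 2 + t * I) * (lam i : ℂ) ^ (t * I)) := by
      intro t
      rw [Finset.mul_sum]
      exact Finset.sum_congr rfl (fun i _ => by ring)
    simp only [h1]
    rw [integral_finset_sum s (fun i _ => (hI2 i).const_mul (c i)), Finset.mul_sum]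
    refine Finset.sum_congr rfl (fun i _ => ?_)
    rw [integral_const_mul]
    norm_num
    ring
  rw [hsum, norm_mul, Complex.norm_real, Real.norm_of_nonneg (by positivity)] at hT2
  have hle : ‖∫ t in Ioi (1 : ℝ), ((t ^ 5 * Real.exp (-(t / T)) : ℝ) : ℂ) * F (1 / 2 + t * I) *
        ∑ i ∈ s, c i * (lam i : ℂ) ^ (t * I)‖ ≤
      (∫ t in Ioi (1 : ℝ), t ^ 5 * Real.exp (-(t / T)) * ‖F (1 / 2 + t * I)‖) * C0 := by
    rw [← integral_mul_const]
    refine norm_integral_le_of_norm_le (hI1.mul_const _) ?_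
    refine (ae_restrict_iff' measurableSet_Ioi).2 (Eventually.of_forall fun t ht => ?_)
    have ht1 : 1 < t := ht
    rw [norm_mul, norm_mul, Complex.norm_real, Real.norm_of_nonneg
      (by have : (0:ℝ) ≤ t := by linarith
          positivity)]
    exact mul_le_mul_of_nonneg_left (hC t) (by have : (0:ℝ) ≤ t := by linarith
                                               positivity)
  have h6 : 0 < T ^ 6 := by positivity
  rw [← div_eq_inv_mul, lt_div_iff₀ h6] at hT2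
  rw [div_mul_eq_mul_div, div_le_iff₀ hC0]
  linarith

/-- Row T25. Lower bound. -/
theorem LB {q1 q2 q3 : ℕ} [NeZero q1] [NeZero q2] [NeZero q3] {χ1 : DirichletCharacter ℂ q1}
    {χ2 : DirichletCharacter ℂ q2} {χ3 : DirichletCharacter ℂ q3} (h1 : χ1.IsPrimitive)
    (h2 : χ2.IsPrimitive) (h3 : χ3.IsPrimitive) {κ1 κ2 κ3 : ℕ} (k1 : Par χ1 κ1) (k2 : Par χ2 κ2)
    (k3 : Par χ3 κ3) (A : ℝ) : ∃ ε0 : ℝ, 0 < ε0 ∧ ε0 ≤ 1 / 2 ∧ ∀ ε : ℝ, 0 < ε → ε ≤ ε0 →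
      A * ε ^ (-(17 / 4 + ((κ1 + κ2 + κ3 : ℕ) : ℝ) / 2)) ≤
        ∫ t in Ioi (1 : ℝ), (t ^ 2 + 1 / 4) ^ 2 * |rR χ1 ε t * rR χ2 ε t * rR χ3 ε t| := by
  have l1 : ∀ {q κ : ℕ} {χ : DirichletCharacter ℂ q}, Par χ κ → κ ≤ 1 := by
    intro q κ χ h
    rcases h with h | h
    · rw [h.2]; norm_num
    · rw [h.2]
  have b1 := l1 k1
  have b2 := l1 k2
  have b3 := l1 k3
  obtain ⟨c1, hc1, g1⟩ := gamma_lower k1
  obtain ⟨c2, hc2, g2⟩ := gamma_lower k2
  obtain ⟨c3, hc3, g3⟩ := gamma_lower k3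
  obtain ⟨hF, C, hCp, hpol⟩ := T25_F χ1 χ2 χ3
  set a : ArithmeticFunction ℂ := T25_ch χ1 * T25_ch χ2 * T25_ch χ3 with ha_def
  have hmult : a.IsMultiplicative := ((T25_mult χ1).mul (T25_mult χ2)).mul (T25_mult χ3)
  have hQ : 0 < q1 * q2 * q3 := Nat.pos_of_ne_zero (mul_ne_zero (mul_ne_zero (NeZero.ne q1) (NeZero.ne q2)) (NeZero.ne q3))
  obtain ⟨C0, hC0, hpoly⟩ := test_poly hQ (a := fun n => a n) hmult.map_one
    (fun m n _ _ h => hmult.map_mul_of_coprime h) (fun p hp h => T25_val χ1 χ2 χ3 hp h)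
  have ha : Summable (fun n : ℕ => ‖a (n + 1)‖ * (((n : ℝ) + 1) ^ 2)⁻¹) :=
    T25_norm (a := fun n => a n) (T25_prod χ1 χ2 χ3 (s := 2) (by norm_num)).1
  have hF2 : ∀ t : ℝ, LX.Lf χ1 (2 + t * I) * LX.Lf χ2 (2 + t * I) * LX.Lf χ3 (2 + t * I) =
      ∑' n : ℕ, a (n + 1) * ((n : ℂ) + 1) ^ (-(2 + t * I)) := by
    intro t
    obtain ⟨p1, p2⟩ := T25_prod χ1 χ2 χ3 (s := 2 + t * I) (by simp)
    exact (T25_hasSum p1 p2).tsum_eq.symm
  set κ : ℝ := ((κ1 + κ2 + κ3 : ℕ) : ℝ) with hκ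
  have hκ0 : 0 ≤ κ := by positivity
  have hκ3 : κ ≤ 3 := by
    rw [hκ]
    exact_mod_cast (by omega : κ1 + κ2 + κ3 ≤ 3)
  set β : ℝ := 13 / 4 + κ / 2 with hβ
  set D : ℝ := c1 * c2 * c3 * (1 / 2) * (2 : ℝ) ^ (β - 5) * (3 : ℝ) ^ (-(β + 1)) / C0 with hD
  have hDp : 0 < D := by positivity
  set M : ℝ := |A| / D with hMdef
  obtain ⟨s, c, lam, hlam, hbd, hbig⟩ := hpoly (M + 1)
  obtain ⟨T0, hT0, hmean⟩ := T25_mean (M := M) hF hpol ha hF2 hC0 s c lam hlam hbd (by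
    have : 0 ≤ ‖∑ i ∈ s, c i * al (fun n => a n) (lam i)‖ := norm_nonneg _
    show M + 1 ≤ 120 * ‖∑ i ∈ s, c i * al (fun n => a n) (lam i)‖
    linarith)
  refine ⟨min (1 / 2) (1 / (3 * T0)), by positivity, min_le_left _ _, fun ε h0 hε => ?_⟩
  have hε1 : ε ≤ 1 / 2 := hε.trans (min_le_left _ _)
  have hε2 : ε ≤ 1 / (3 * T0) := hε.trans (min_le_right _ _)
  set T : ℝ := 1 / (3 * ε) with hT
  have hTp : 0 < T := by positivity
  have hTT : T0 ≤ T := by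
    rw [hT, le_div_iff₀ (by positivity)]
    rw [le_div_iff₀ (by positivity)] at hε2
    linarith
  have hm := hmean T hTT
  obtain ⟨K1, hK1, r1⟩ := rR_le h1
  obtain ⟨K2, hK2, r2⟩ := rR_le h2
  obtain ⟨K3, hK3, r3⟩ := rR_le h3
  have hIG : IntegrableOn (fun t : ℝ => (t ^ 2 + 1 / 4) ^ 2 * |rR χ1 ε t * rR χ2 ε t * rR χ3 ε t|) (Ioi 1) := by
    refine T25_int (K := K1 * K2 * K3) (b := 3 * ε / 2) ?_ (by positivity) 16 (fun t ht => ?_)
    · have q1 := rR_cont h1 ε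
      have q2 := rR_cont h2 ε
      have q3 := rR_cont h3 ε
      exact Continuous.continuousOn (by fun_prop)
    · have a1 := (r1 ε h0 hε1 t).1
      have a2 := (r2 ε h0 hε1 t).1
      have a3 := (r3 ε h0 hε1 t).1
      rw [abs_of_nonneg (by linarith : 0 ≤ t)] at a1 a2 a3
      rw [Real.norm_of_nonneg (by positivity), abs_mul, abs_mul]
      have a4 : (t ^ 2 + 1 / 4) ^ 2 ≤ (1 + t) ^ 4 := by
        have : t ^ 2 + 1 / 4 ≤ (1 + t) ^ 2 := by nlinarith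
        calc (t ^ 2 + 1 / 4) ^ 2 ≤ ((1 + t) ^ 2) ^ 2 := pow_le_pow_left₀ (by positivity) this 2
          _ = _ := by ring
      calc (t ^ 2 + 1 / 4) ^ 2 * (|rR χ1 ε t| * |rR χ2 ε t| * |rR χ3 ε t|) ≤
          (1 + t) ^ 4 * ((K1 * (1 + t) ^ 4 * Real.exp (-(ε * t / 2))) * (K2 * (1 + t) ^ 4 * Real.exp (-(ε * t / 2))) *
            (K3 * (1 + t) ^ 4 * Real.exp (-(ε * t / 2)))) := by gcongr
        _ = K1 * K2 * K3 * (1 + t) ^ 16 * (Real.exp (-(ε * t / 2)) * Real.exp (-(ε * t / 2)) *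
            Real.exp (-(ε * t / 2))) := by ring
        _ = _ := by
            rw [← Real.exp_add, ← Real.exp_add]
            congr 2
            ring
  have hpt : ∀ t ∈ Ioi (1 : ℝ), c1 * c2 * c3 * (1 / 2 * (2 * T) ^ (β - 5)) *
      (t ^ 5 * Real.exp (-(t / T)) * ‖LX.Lf χ1 (1 / 2 + t * I) * LX.Lf χ2 (1 / 2 + t * I) *
        LX.Lf χ3 (1 / 2 + t * I)‖) ≤ (t ^ 2 + 1 / 4) ^ 2 * |rR χ1 ε t * rR χ2 ε t * rR χ3 ε t| := by
    intro t ht
    have ht1 : 1 ≤ t := le_of_lt ht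
    have htp : 0 < t := by linarith
    have a1 := T25_one h1 hc1 g1 ε ht1
    have a2 := T25_one h2 hc2 g2 ε ht1
    have a3 := T25_one h3 hc3 g3 ε ht1
    have w := T25_wt (β := β) ht1 hTp (by linarith) (by linarith)
    set L1 := ‖LX.Lf χ1 (1 / 2 + t * I)‖ with hL1
    set L2 := ‖LX.Lf χ2 (1 / 2 + t * I)‖ with hL2
    set L3 := ‖LX.Lf χ3 (1 / 2 + t * I)‖ with hL3
    have hL1p : 0 ≤ L1 := norm_nonneg _
    have hL2p : 0 ≤ L2 := norm_nonneg _
    have hL3p : 0 ≤ L3 := norm_nonneg _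
    have e1 : t ^ β * Real.exp (-(t / (2 * T))) = t ^ 4 * ((t ^ ((κ1 : ℝ) / 2 - 1 / 4) * Real.exp (-(ε * t / 2))) *
        (t ^ ((κ2 : ℝ) / 2 - 1 / 4) * Real.exp (-(ε * t / 2))) * (t ^ ((κ3 : ℝ) / 2 - 1 / 4) * Real.exp (-(ε * t / 2)))) := by
      have x1 : t ^ β = t ^ 4 * (t ^ ((κ1 : ℝ) / 2 - 1 / 4) * t ^ ((κ2 : ℝ) / 2 - 1 / 4) *
          t ^ ((κ3 : ℝ) / 2 - 1 / 4)) := by
        rw [← Real.rpow_natCast t 4, ← Real.rpow_add htp, ← Real.rpow_add htp, ← Real.rpow_add htp]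
        congr 1
        rw [hβ, hκ]
        push_cast
        ring
      have x2 : Real.exp (-(t / (2 * T))) = Real.exp (-(ε * t / 2)) * Real.exp (-(ε * t / 2)) *
          Real.exp (-(ε * t / 2)) := by
        rw [← Real.exp_add, ← Real.exp_add]
        congr 1
        rw [hT]
        field_simp
        ring
      rw [x1, x2]
      ring
    rw [abs_mul, abs_mul, norm_mul, norm_mul]
    calc c1 * c2 * c3 * (1 / 2 * (2 * T) ^ (β - 5)) * (t ^ 5 * Real.exp (-(t / T)) * (L1 * L2 * L3))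
        = c1 * c2 * c3 * (L1 * L2 * L3) * (1 / 2 * (2 * T) ^ (β - 5) * (t ^ 5 * Real.exp (-(t / T)))) := by ring
      _ ≤ c1 * c2 * c3 * (L1 * L2 * L3) * (t ^ β * Real.exp (-(t / (2 * T)))) := by gcongr
      _ = t ^ 4 * ((c1 * t ^ ((κ1 : ℝ) / 2 - 1 / 4) * Real.exp (-(ε * t / 2)) * L1) *
          (c2 * t ^ ((κ2 : ℝ) / 2 - 1 / 4) * Real.exp (-(ε * t / 2)) * L2) *
          (c3 * t ^ ((κ3 : ℝ) / 2 - 1 / 4) * Real.exp (-(ε * t / 2)) * L3)) := by rw [e1]; ring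
      _ ≤ (t ^ 2 + 1 / 4) ^ 2 * (|rR χ1 ε t| * |rR χ2 ε t| * |rR χ3 ε t|) := by
          have a4 : t ^ 4 ≤ (t ^ 2 + 1 / 4) ^ 2 := by nlinarith [sq_nonneg t]
          gcongr
  have hIF : IntegrableOn (fun t : ℝ => c1 * c2 * c3 * (1 / 2 * (2 * T) ^ (β - 5)) *
      (t ^ 5 * Real.exp (-(t / T)) * ‖LX.Lf χ1 (1 / 2 + t * I) * LX.Lf χ2 (1 / 2 + t * I) *
        LX.Lf χ3 (1 / 2 + t * I)‖)) (Ioi 1) := by
    refine Integrable.const_mul ?_ _
    refine T25_int (K := C) (b := T⁻¹) ?_ (inv_pos.2 hTp) 8 (fun t ht => ?_)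
    · have hcF : ContinuousOn (fun t : ℝ => LX.Lf χ1 (1 / 2 + t * I) * LX.Lf χ2 (1 / 2 + t * I) *
          LX.Lf χ3 (1 / 2 + t * I)) (Ici 1) := by
        intro t ht
        have him : 0 < ((1 / 2 : ℂ) + t * I).im := by
          have : (1 : ℝ) ≤ t := ht
          simp
          linarith
        have h1 : ContinuousAt (fun t : ℝ => (1 / 2 : ℂ) + t * I) t := by fun_prop
        exact (ContinuousAt.comp (f := fun t : ℝ => (1 / 2 : ℂ) + t * I) (hF _ him).continuousAt h1).continuousWithinAt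
      have hexpc : ContinuousOn (fun t : ℝ => t ^ 5 * Real.exp (-(t / T))) (Ici 1) := by fun_prop
      exact hexpc.mul hcF.norm
    · have x1 := hpol (1 / 2 + t * I) (by simp) (by simpa using ht)
      have x2 : ((1 / 2 : ℂ) + t * I).im = t := by simp
      rw [x2] at x1
      have htp : 0 ≤ t := by linarith
      rw [Real.norm_of_nonneg (by positivity)]
      have x3 : t ^ 5 ≤ (1 + t) ^ 5 := pow_le_pow_left₀ (by linarith) (by linarith) 5
      have x4 : -(t / T) = -(T⁻¹ * t) := by rw [div_eq_inv_mul]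
      rw [x4]
      calc t ^ 5 * Real.exp (-(T⁻¹ * t)) * ‖LX.Lf χ1 (1 / 2 + t * I) * LX.Lf χ2 (1 / 2 + t * I) *
            LX.Lf χ3 (1 / 2 + t * I)‖ ≤
          (1 + t) ^ 5 * Real.exp (-(T⁻¹ * t)) * (C * (1 + t) ^ 3) := by gcongr
        _ = _ := by ring
  have hmono := setIntegral_mono_on hIF hIG measurableSet_Ioi hpt
  rw [integral_const_mul] at hmono
  refine le_trans ?_ hmono
  have hfin : c1 * c2 * c3 * (1 / 2 * (2 * T) ^ (β - 5)) * (M / C0 * T ^ 6) ≤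
      c1 * c2 * c3 * (1 / 2 * (2 * T) ^ (β - 5)) * ∫ t in Ioi (1 : ℝ), t ^ 5 * Real.exp (-(t / T)) *
        ‖LX.Lf χ1 (1 / 2 + t * I) * LX.Lf χ2 (1 / 2 + t * I) * LX.Lf χ3 (1 / 2 + t * I)‖ := by gcongr
  refine le_trans ?_ hfin
  have e2 : c1 * c2 * c3 * (1 / 2 * (2 * T) ^ (β - 5)) * (M / C0 * T ^ 6) =
      |A| * ε ^ (-(17 / 4 + κ / 2)) := by
    have y1 : (2 * T) ^ (β - 5) * T ^ 6 = 2 ^ (β - 5) * T ^ (β + 1) := by
      rw [Real.mul_rpow (by norm_num) hTp.le, ← Real.rpow_natCast T 6, mul_assoc, ← Real.rpow_add hTp]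
      congr 2
      push_cast
      ring
    have y2 : T ^ (β + 1) = 3 ^ (-(β + 1)) * ε ^ (-(β + 1)) := by
      rw [hT, one_div, ← Real.rpow_neg_one, ← Real.rpow_mul (by positivity), Real.mul_rpow (by norm_num) h0.le]
      ring_nf
    have y3 : -(17 / 4 + κ / 2) = -(β + 1) := by rw [hβ]; ring
    have y4 : D * M = |A| := by
      rw [hMdef]
      field_simp
    rw [y3, ← y4, hD]
    calc c1 * c2 * c3 * (1 / 2 * (2 * T) ^ (β - 5)) * (M / C0 * T ^ 6)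
        = c1 * c2 * c3 * (1 / 2) * (M / C0) * ((2 * T) ^ (β - 5) * T ^ 6) := by ring
      _ = _ := by rw [y1, y2]; ring
  rw [e2]
  exact mul_le_mul_of_nonneg_right (le_abs_self A) (by positivity)

end TT
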