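import Pool.Agent.Lib.MP_0f5a55_nt.TT.T18
import Pool.Agent.Lib.MP_0f5a55_nt.TT.T21
import Pool.Agent.Lib.MP_0f5a55_nt.TT.T25
import Pool.Agent.Lib.MP_0f5a55_nt.OM.K004

open Complex MeasureTheory Set Filter Topology
open scoped Real ComplexConjugate

namespace TT

private theorem T26_ne (t : ℝ) : (1 / 2 + t * I : ℂ) ≠ 1 := by
  intro h
  have := congrArg Complex.re h
  norm_num at this

private theorem T26_an {q : ℕ} [NeZero q] (χ : DirichletCharacter ℂ q) :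
    AnalyticOnNhd ℂ (LX.Lf χ) {1}ᶜ := by
  apply DifferentiableOn.analyticOnNhd _ isOpen_compl_singleton
  intro s hs
  exact (DirichletCharacter.differentiableAt_LFunction χ s (Or.inl hs)).differentiableWithinAt

private theorem T26_top {q : ℕ} [NeZero q] (χ : DirichletCharacter ℂ q) (t : ℝ) :
    analyticOrderAt (LX.Lf χ) (1 / 2 + t * I) ≠ ⊤ := by
  intro htop
  have hpre : IsPreconnected ({1}ᶜ : Set ℂ) :=
    (isConnected_compl_singleton_of_one_lt_rank (by simp) 1).isPreconnected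
  have h0 : LX.Lf χ =ᶠ[𝓝 (1 / 2 + t * I : ℂ)] 0 := by
    rw [analyticOrderAt_eq_top] at htop
    exact htop
  have h1 : EqOn (LX.Lf χ) 0 {1}ᶜ :=
    (T26_an χ).eqOn_zero_of_preconnected_of_eventuallyEq_zero hpre (T26_ne t) h0
  have h2 : LX.Lf χ 2 = 0 := h1 (by norm_num : (2 : ℂ) ∈ ({1}ᶜ : Set ℂ))
  have h3 : LX.Lf χ 2 ≠ 0 :=
    DirichletCharacter.LFunction_ne_zero_of_one_le_re χ (Or.inr (by norm_num)) (by norm_num)
  exact h3 h2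

private theorem T26_orders {q1 q2 q3 : ℕ} [NeZero q1] [NeZero q2] [NeZero q3] (χ1 : DirichletCharacter ℂ q1)
    (χ2 : DirichletCharacter ℂ q2) (χ3 : DirichletCharacter ℂ q3) (t : ℝ) :
    AnalyticAt ℂ (LX.Lf χ1 * LX.Lf χ2 * LX.Lf χ3) (1 / 2 + t * I) ∧
      analyticOrderAt (LX.Lf χ1 * LX.Lf χ2 * LX.Lf χ3) (1 / 2 + t * I) ≠ ⊤ ∧
      analyticOrderNatAt (LX.Lf χ1 * LX.Lf χ2 * LX.Lf χ3) (1 / 2 + t * I) =
        analyticOrderNatAt (LX.Lf χ1) (1 / 2 + t * I) + analyticOrderNatAt (LX.Lf χ2) (1 / 2 + t * I) +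
          analyticOrderNatAt (LX.Lf χ3) (1 / 2 + t * I) := by
  have a1 := T26_an χ1 _ (T26_ne t)
  have a2 := T26_an χ2 _ (T26_ne t)
  have a3 := T26_an χ3 _ (T26_ne t)
  have t1 := T26_top χ1 t
  have t2 := T26_top χ2 t
  have t3 := T26_top χ3 t
  have t12 : analyticOrderAt (LX.Lf χ1 * LX.Lf χ2) (1 / 2 + t * I) ≠ ⊤ := by
    rw [analyticOrderAt_mul a1 a2]
    intro h
    rcases ENat.add_eq_top.mp h with h | h
    · exact t1 h
    · exact t2 h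
  refine ⟨(a1.mul a2).mul a3, ?_, ?_⟩
  · rw [analyticOrderAt_mul (a1.mul a2) a3]
    intro h
    rcases ENat.add_eq_top.mp h with h | h
    · exact t12 h
    · exact t3 h
  · rw [analyticOrderNatAt_mul (a1.mul a2) a3 t12 t3, analyticOrderNatAt_mul a1 a2 t1 t2]

/-- constant sign beyond the last point of odd total multiplicity -/
private theorem T26_sign {q1 q2 q3 : ℕ} [NeZero q1] [NeZero q2] [NeZero q3] {χ1 : DirichletCharacter ℂ q1}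
    {χ2 : DirichletCharacter ℂ q2} {χ3 : DirichletCharacter ℂ q3} (h1 : χ1.IsPrimitive)
    (h2 : χ2.IsPrimitive) (h3 : χ3.IsPrimitive) (T0 : ℝ)
    (hev : ∀ t : ℝ, T0 < t → Even (analyticOrderNatAt (LX.Lf χ1) (1 / 2 + t * I) +
      analyticOrderNatAt (LX.Lf χ2) (1 / 2 + t * I) + analyticOrderNatAt (LX.Lf χ3) (1 / 2 + t * I))) :
    (∀ t : ℝ, T0 < t → 0 ≤ (LX.uu χ1 t * LX.Lf χ1 (1 / 2 + t * I)).re * (LX.uu χ2 t * LX.Lf χ2 (1 / 2 + t * I)).re *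
      (LX.uu χ3 t * LX.Lf χ3 (1 / 2 + t * I)).re) ∨
    (∀ t : ℝ, T0 < t → (LX.uu χ1 t * LX.Lf χ1 (1 / 2 + t * I)).re * (LX.uu χ2 t * LX.Lf χ2 (1 / 2 + t * I)).re *
      (LX.uu χ3 t * LX.Lf χ3 (1 / 2 + t * I)).re ≤ 0) := by
  obtain ⟨n1, c1, i1⟩ := uu_all h1
  obtain ⟨n2, c2, i2⟩ := uu_all h2
  obtain ⟨n3, c3, i3⟩ := uu_all h3
  have hre : ∀ z : ℂ, z.im = 0 → ((z.re : ℝ) : ℂ) = z := by
    intro z hz
    apply Complex.ext
    · simp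
    · simp [hz]
  have key : ∀ b : ℝ, (∀ t ∈ Ioo T0 b, 0 ≤ (LX.uu χ1 t * LX.Lf χ1 (1 / 2 + t * I)).re *
        (LX.uu χ2 t * LX.Lf χ2 (1 / 2 + t * I)).re * (LX.uu χ3 t * LX.Lf χ3 (1 / 2 + t * I)).re) ∨
      (∀ t ∈ Ioo T0 b, (LX.uu χ1 t * LX.Lf χ1 (1 / 2 + t * I)).re *
        (LX.uu χ2 t * LX.Lf χ2 (1 / 2 + t * I)).re * (LX.uu χ3 t * LX.Lf χ3 (1 / 2 + t * I)).re ≤ 0) := by
    intro b
    refine OO.F_sign (LX.Lf χ1 * LX.Lf χ2 * LX.Lf χ3) (fun t => LX.uu χ1 t * LX.uu χ2 t * LX.uu χ3 t)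
      (fun t => (LX.uu χ1 t * LX.Lf χ1 (1 / 2 + t * I)).re * (LX.uu χ2 t * LX.Lf χ2 (1 / 2 + t * I)).re *
        (LX.uu χ3 t * LX.Lf χ3 (1 / 2 + t * I)).re) ((c1.mul c2).mul c3) ?_ ?_
      (fun t => (T26_orders χ1 χ2 χ3 t).1) (fun t => (T26_orders χ1 χ2 χ3 t).2.1) T0 b ?_
    · intro t
      have e1 : LX.uu χ1 t ≠ 0 := by
        intro h; have := n1 t; rw [h] at this; simp at this
      have e2 : LX.uu χ2 t ≠ 0 := by
        intro h; have := n2 t; rw [h] at this; simp at this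
      have e3 : LX.uu χ3 t ≠ 0 := by
        intro h; have := n3 t; rw [h] at this; simp at this
      exact mul_ne_zero (mul_ne_zero e1 e2) e3
    · intro t
      rw [ofReal_mul, ofReal_mul, hre _ (i1 t), hre _ (i2 t), hre _ (i3 t)]
      show _ = LX.uu χ1 t * LX.uu χ2 t * LX.uu χ3 t *
        (LX.Lf χ1 (1 / 2 + t * I) * LX.Lf χ2 (1 / 2 + t * I) * LX.Lf χ3 (1 / 2 + t * I))
      ring
    · intro t ht
      rw [(T26_orders χ1 χ2 χ3 t).2.2]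
      exact hev t ht.1
  by_contra hcon
  push Not at hcon
  obtain ⟨⟨a, ha, ha'⟩, b, hb, hb'⟩ := hcon
  rcases key (max a b + 1) with h | h
  · exact absurd (h a ⟨ha, lt_of_le_of_lt (le_max_left a b) (lt_add_one _)⟩) (not_le.mpr ha')
  · exact absurd (h b ⟨hb, lt_of_le_of_lt (le_max_right a b) (lt_add_one _)⟩) (not_le.mpr hb')

private theorem T26_decay (n : ℕ) (a : ℝ) (ha : 0 < a) :
    ∃ K : ℝ, 0 ≤ K ∧ ∀ t : ℝ, (1 + |t|) ^ n * Real.exp (-(a * |t|)) ≤ K * (1 + t ^ 2)⁻¹ := by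
  refine ⟨((n + 2).factorial : ℝ) * Real.exp a / a ^ (n + 2), by positivity, ?_⟩
  intro t
  have ht := abs_nonneg t
  have h1 := Real.pow_div_factorial_le_exp (a * (1 + |t|)) (by positivity) (n + 2)
  have hf : (0 : ℝ) < ((n + 2).factorial : ℝ) := by positivity
  rw [div_le_iff₀ hf, mul_pow] at h1
  have h2 : Real.exp (a * (1 + |t|)) * Real.exp (-(a * |t|)) = Real.exp a := by
    rw [← Real.exp_add]; congr 1; ring
  have h3 : 1 + t ^ 2 ≤ (1 + |t|) ^ 2 := by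
    have := sq_abs t
    nlinarith
  have h4 : (0 : ℝ) < 1 + t ^ 2 := by positivity
  have h5 : (1 + |t|) ^ n * Real.exp (-(a * |t|)) * (1 + t ^ 2) ≤
      (1 + |t|) ^ (n + 2) * Real.exp (-(a * |t|)) := by
    have h6 : 0 ≤ (1 + |t|) ^ n * Real.exp (-(a * |t|)) := by positivity
    calc (1 + |t|) ^ n * Real.exp (-(a * |t|)) * (1 + t ^ 2)
        ≤ (1 + |t|) ^ n * Real.exp (-(a * |t|)) * (1 + |t|) ^ 2 := mul_le_mul_of_nonneg_left h3 h6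
      _ = (1 + |t|) ^ (n + 2) * Real.exp (-(a * |t|)) := by ring
  have h7 : (1 + |t|) ^ (n + 2) * Real.exp (-(a * |t|)) ≤
      ((n + 2).factorial : ℝ) * Real.exp a / a ^ (n + 2) := by
    rw [le_div_iff₀ (by positivity)]
    calc (1 + |t|) ^ (n + 2) * Real.exp (-(a * |t|)) * a ^ (n + 2)
        = (a ^ (n + 2) * (1 + |t|) ^ (n + 2)) * Real.exp (-(a * |t|)) := by ring
      _ ≤ (Real.exp (a * (1 + |t|)) * ((n + 2).factorial : ℝ)) * Real.exp (-(a * |t|)) :=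
          mul_le_mul_of_nonneg_right h1 (Real.exp_pos _).le
      _ = ((n + 2).factorial : ℝ) * (Real.exp (a * (1 + |t|)) * Real.exp (-(a * |t|))) := by ring
      _ = ((n + 2).factorial : ℝ) * Real.exp a := by rw [h2]
  rw [← div_eq_mul_inv, le_div_iff₀ h4]
  exact h5.trans h7

private theorem T26_decint (n : ℕ) (a : ℝ) (ha : 0 < a) :
    Integrable (fun t : ℝ => (1 + |t|) ^ n * Real.exp (-(a * |t|))) := by
  obtain ⟨K, hK, h⟩ := T26_decay n a ha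
  refine (integrable_inv_one_add_sq.const_mul K).mono' ?_ ?_
  · exact (by fun_prop : Continuous (fun t : ℝ => (1 + |t|) ^ n * Real.exp (-(a * |t|)))).aestronglyMeasurable
  · refine Eventually.of_forall (fun t => ?_)
    rw [Real.norm_of_nonneg (by positivity)]
    exact h t

private theorem T26_abs (P B : ℝ → ℝ) (T0 : ℝ) (hP : Integrable P) (hB : Integrable B) (hB0 : ∀ t, 0 ≤ B t)
    (hPB : ∀ t, t ≤ T0 → |P t| ≤ B t)
    (hs : (∀ t, T0 < t → 0 ≤ P t) ∨ (∀ t, T0 < t → P t ≤ 0)) :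
    ∫ t in Ioi (1 : ℝ), |P t| ≤ 2 * (∫ t, B t) + |∫ t, P t| := by
  have hPa : Integrable (fun t => |P t|) := hP.abs
  have h1 : ∫ t in Ioi (1 : ℝ), |P t| ≤ ∫ t, |P t| :=
    setIntegral_le_integral hPa (Eventually.of_forall (fun t => abs_nonneg _))
  have h2 : (∫ t in Iic T0, |P t|) + (∫ t in Ioi T0, |P t|) = ∫ t, |P t| :=
    intervalIntegral.integral_Iic_add_Ioi hPa.integrableOn hPa.integrableOn
  have h3 : (∫ t in Iic T0, P t) + (∫ t in Ioi T0, P t) = ∫ t, P t :=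
    intervalIntegral.integral_Iic_add_Ioi hP.integrableOn hP.integrableOn
  have h4 : ∫ t in Iic T0, |P t| ≤ ∫ t, B t := by
    calc ∫ t in Iic T0, |P t| ≤ ∫ t in Iic T0, B t :=
          setIntegral_mono_on hPa.integrableOn hB.integrableOn measurableSet_Iic (fun t ht => hPB t ht)
      _ ≤ ∫ t, B t := setIntegral_le_integral hB (Eventually.of_forall hB0)
  have h5 : |∫ t in Iic T0, P t| ≤ ∫ t in Iic T0, |P t| := abs_integral_le_integral_abs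
  have h6 : ∫ t in Ioi T0, |P t| = |∫ t in Ioi T0, P t| := by
    rcases hs with hs | hs
    · rw [abs_of_nonneg (setIntegral_nonneg measurableSet_Ioi (fun t ht => hs t ht))]
      exact setIntegral_congr_fun measurableSet_Ioi (fun t ht => abs_of_nonneg (hs t ht))
    · rw [abs_of_nonpos (setIntegral_nonpos measurableSet_Ioi (fun t ht => hs t ht)), ← integral_neg]
      exact setIntegral_congr_fun measurableSet_Ioi (fun t ht => abs_of_nonpos (hs t ht))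
  have h7 : |∫ t in Ioi T0, P t| ≤ |∫ t, P t| + |∫ t in Iic T0, P t| := by
    have e : (∫ t in Ioi T0, P t) = (∫ t, P t) - (∫ t in Iic T0, P t) := by rw [← h3]; ring
    rw [e]
    exact abs_sub _ _
  linarith

/-- Row T26. Main theorem. -/
theorem odd3_main {q1 q2 q3 : ℕ} [NeZero q1] [NeZero q2] [NeZero q3] {χ1 : DirichletCharacter ℂ q1}
    {χ2 : DirichletCharacter ℂ q2} {χ3 : DirichletCharacter ℂ q3} (h1 : χ1.IsPrimitive)
    (h2 : χ2.IsPrimitive) (h3 : χ3.IsPrimitive) (n12 : OO.Ne12 χ1 χ2) (n13 : OO.Ne12 χ1 χ3)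
    (g2 : 1 < q2) (g3 : 1 < q3) :
    {g : ℝ | 0 < g ∧ Odd (analyticOrderNatAt (LX.Lf χ1) (1 / 2 + g * I) +
      analyticOrderNatAt (LX.Lf χ2) (1 / 2 + g * I) +
      analyticOrderNatAt (LX.Lf χ3) (1 / 2 + g * I))}.Infinite := by
  intro hfin
  obtain ⟨κ1, k1⟩ : ∃ κ1 : ℕ, Par χ1 κ1 := by
    rcases χ1.even_or_odd with h | h
    · exact ⟨0, Or.inl ⟨h, rfl⟩⟩
    · exact ⟨1, Or.inr ⟨h, rfl⟩⟩
  obtain ⟨κ2, k2⟩ : ∃ κ2 : ℕ, Par χ2 κ2 := by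
    rcases χ2.even_or_odd with h | h
    · exact ⟨0, Or.inl ⟨h, rfl⟩⟩
    · exact ⟨1, Or.inr ⟨h, rfl⟩⟩
  obtain ⟨κ3, k3⟩ : ∃ κ3 : ℕ, Par χ3 κ3 := by
    rcases χ3.even_or_odd with h | h
    · exact ⟨0, Or.inl ⟨h, rfl⟩⟩
    · exact ⟨1, Or.inr ⟨h, rfl⟩⟩
  obtain ⟨T0, hT0, hT⟩ : ∃ T0 : ℝ, 0 ≤ T0 ∧ ∀ t : ℝ, T0 < t → Even (analyticOrderNatAt (LX.Lf χ1) (1 / 2 + t * I) +
      analyticOrderNatAt (LX.Lf χ2) (1 / 2 + t * I) + analyticOrderNatAt (LX.Lf χ3) (1 / 2 + t * I)) := by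
    obtain ⟨M, hM⟩ := hfin.bddAbove
    refine ⟨max M 0, le_max_right _ _, ?_⟩
    intro t ht
    by_contra hodd
    rw [Nat.not_even_iff_odd] at hodd
    have hmem := hM (show t ∈ {g : ℝ | 0 < g ∧ Odd (analyticOrderNatAt (LX.Lf χ1) (1 / 2 + g * I) +
      analyticOrderNatAt (LX.Lf χ2) (1 / 2 + g * I) +
      analyticOrderNatAt (LX.Lf χ3) (1 / 2 + g * I))} from ⟨lt_of_le_of_lt (le_max_right _ _) ht, hodd⟩)
    exact absurd (lt_of_le_of_lt (le_max_left M 0) ht) (not_lt.mpr hmem)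
  have hsign := T26_sign h1 h2 h3 T0 hT
  obtain ⟨C1, hC1, B1⟩ := rR_le h1
  obtain ⟨C2, hC2, B2⟩ := rR_le h2
  obtain ⟨C3, hC3, B3⟩ := rR_le h3
  obtain ⟨C, hC, hU⟩ := UB h1 h2 h3 n12 n13 g2 g3 k1 k2 k3
  obtain ⟨E, hE⟩ : ∃ E : ℝ, E = 17 / 4 + ((κ1 + κ2 + κ3 : ℕ) : ℝ) / 2 := ⟨_, rfl⟩
  have hE0 : 0 ≤ E := by rw [hE]; positivity
  rw [← hE] at hU
  obtain ⟨K, hK⟩ : ∃ K : ℝ, K = C1 * C2 * C3 * Real.exp (3 * T0) := ⟨_, rfl⟩
  have hK0 : 0 ≤ K := by rw [hK]; positivity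
  obtain ⟨B, hB⟩ : ∃ B : ℝ → ℝ, B = fun t => K * ((1 + |t|) ^ 16 * Real.exp (-(3 * |t|))) := ⟨_, rfl⟩
  have hBi : Integrable B := by
    rw [hB]
    exact (T26_decint 16 3 (by norm_num)).const_mul K
  have hB0 : ∀ t, 0 ≤ B t := by
    intro t
    rw [hB]
    positivity
  have hM0 : 0 ≤ ∫ t, B t := integral_nonneg hB0
  obtain ⟨ε0, he0, he1, hL⟩ := LB h1 h2 h3 k1 k2 k3 (C + 2 * (∫ t, B t) + 1)
  rw [← hE] at hL
  have hw : ∀ t : ℝ, (t ^ 2 + 1 / 4) ^ 2 ≤ (1 + |t|) ^ 4 := by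
    intro t
    have ht := abs_nonneg t
    have h4 : t ^ 2 + 1 / 4 ≤ (1 + |t|) ^ 2 := by
      have := sq_abs t
      nlinarith
    calc (t ^ 2 + 1 / 4) ^ 2 ≤ ((1 + |t|) ^ 2) ^ 2 := pow_le_pow_left₀ (by positivity) h4 2
      _ = (1 + |t|) ^ 4 := by ring
  -- the product
  obtain ⟨P, hPdef⟩ : ∃ P : ℝ → ℝ, P = fun t => (t ^ 2 + 1 / 4) ^ 2 * (rR χ1 ε0 t * rR χ2 ε0 t * rR χ3 ε0 t) :=
    ⟨_, rfl⟩
  have hprod : ∀ (t y : ℝ), 0 ≤ y → |rR χ1 ε0 t| ≤ C1 * (1 + |t|) ^ 4 * y → |rR χ2 ε0 t| ≤ C2 * (1 + |t|) ^ 4 * y →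
      |rR χ3 ε0 t| ≤ C3 * (1 + |t|) ^ 4 * y → |P t| ≤ C1 * C2 * C3 * ((1 + |t|) ^ 16 * y ^ 3) := by
    intro t y hy b1 b2 b3
    have ht := abs_nonneg t
    rw [hPdef]
    show |(t ^ 2 + 1 / 4) ^ 2 * (rR χ1 ε0 t * rR χ2 ε0 t * rR χ3 ε0 t)| ≤ _
    rw [abs_mul, abs_mul, abs_mul, abs_of_nonneg (by positivity : (0 : ℝ) ≤ (t ^ 2 + 1 / 4) ^ 2)]
    have h12 : |rR χ1 ε0 t| * |rR χ2 ε0 t| ≤ (C1 * (1 + |t|) ^ 4 * y) * (C2 * (1 + |t|) ^ 4 * y) :=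
      mul_le_mul b1 b2 (abs_nonneg _) (by positivity)
    have h123 : |rR χ1 ε0 t| * |rR χ2 ε0 t| * |rR χ3 ε0 t| ≤
        (C1 * (1 + |t|) ^ 4 * y) * (C2 * (1 + |t|) ^ 4 * y) * (C3 * (1 + |t|) ^ 4 * y) :=
      mul_le_mul h12 b3 (abs_nonneg _) (by positivity)
    calc (t ^ 2 + 1 / 4) ^ 2 * (|rR χ1 ε0 t| * |rR χ2 ε0 t| * |rR χ3 ε0 t|)
        ≤ (1 + |t|) ^ 4 * ((C1 * (1 + |t|) ^ 4 * y) * (C2 * (1 + |t|) ^ 4 * y) * (C3 * (1 + |t|) ^ 4 * y)) :=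
          mul_le_mul (hw t) h123 (by positivity) (by positivity)
      _ = C1 * C2 * C3 * ((1 + |t|) ^ 16 * y ^ 3) := by ring
  have hPc : Continuous P := by
    rw [hPdef]
    have c1 := rR_cont h1 ε0
    have c2 := rR_cont h2 ε0
    have c3 := rR_cont h3 ε0
    fun_prop
  have hPi : Integrable P := by
    refine ((T26_decint 16 (3 * (ε0 / 2)) (by positivity)).const_mul (C1 * C2 * C3)).mono'
      hPc.aestronglyMeasurable (Eventually.of_forall (fun t => ?_))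
    have h5 := hprod t (Real.exp (-(ε0 * |t| / 2))) (Real.exp_pos _).le (B1 ε0 he0 he1 t).1 (B2 ε0 he0 he1 t).1
      (B3 ε0 he0 he1 t).1
    have h6 : Real.exp (-(ε0 * |t| / 2)) ^ 3 = Real.exp (-(3 * (ε0 / 2) * |t|)) := by
      rw [← Real.exp_nat_mul]
      congr 1
      push_cast
      ring
    rw [h6] at h5
    rw [Real.norm_eq_abs]
    exact h5
  have hPB : ∀ t, t ≤ T0 → |P t| ≤ B t := by
    intro t htT
    have ht := abs_nonneg t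
    have hb : ∀ (Cj x : ℝ), 0 ≤ Cj → x ≤ Cj * (1 + |t|) ^ 4 * Real.exp (-(ε0 * |t| / 2)) →
        (t ≤ 0 → x ≤ Cj * (1 + |t|) ^ 4 * Real.exp (-|t|)) →
        x ≤ Cj * (1 + |t|) ^ 4 * Real.exp (T0 - |t|) := by
      intro Cj x hCj hx1 hx2
      have hn : 0 ≤ Cj * (1 + |t|) ^ 4 := by positivity
      rcases le_or_gt t 0 with h | h
      · exact (hx2 h).trans (mul_le_mul_of_nonneg_left (Real.exp_le_exp.mpr (by linarith)) hn)
      · refine hx1.trans (mul_le_mul_of_nonneg_left (Real.exp_le_exp.mpr ?_) hn)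
        have e1 : |t| = t := abs_of_pos h
        have e2 : 0 ≤ ε0 * |t| / 2 := by positivity
        linarith
    have h5 := hprod t (Real.exp (T0 - |t|)) (Real.exp_pos _).le
      (hb C1 _ hC1 (B1 ε0 he0 he1 t).1 (B1 ε0 he0 he1 t).2)
      (hb C2 _ hC2 (B2 ε0 he0 he1 t).1 (B2 ε0 he0 he1 t).2)
      (hb C3 _ hC3 (B3 ε0 he0 he1 t).1 (B3 ε0 he0 he1 t).2)
    refine h5.trans (le_of_eq ?_)
    rw [hB, hK]
    show C1 * C2 * C3 * ((1 + |t|) ^ 16 * Real.exp (T0 - |t|) ^ 3) =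
      C1 * C2 * C3 * Real.exp (3 * T0) * ((1 + |t|) ^ 16 * Real.exp (-(3 * |t|)))
    have h6 : Real.exp (T0 - |t|) ^ 3 = Real.exp (3 * T0) * Real.exp (-(3 * |t|)) := by
      rw [← Real.exp_nat_mul, ← Real.exp_add]
      congr 1
      push_cast
      ring
    rw [h6]
    ring
  have hPs : (∀ t, T0 < t → 0 ≤ P t) ∨ (∀ t, T0 < t → P t ≤ 0) := by
    have hfac : ∀ t : ℝ, ∃ w : ℝ, 0 ≤ w ∧ P t = w * ((LX.uu χ1 t * LX.Lf χ1 (1 / 2 + t * I)).re *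
        (LX.uu χ2 t * LX.Lf χ2 (1 / 2 + t * I)).re * (LX.uu χ3 t * LX.Lf χ3 (1 / 2 + t * I)).re) := by
      intro t
      refine ⟨(t ^ 2 + 1 / 4) ^ 2 * ((Real.exp ((π / 2 - ε0) * t / 2) * ‖χ1.gammaFactor (1 / 2 + t * I)‖) *
        (Real.exp ((π / 2 - ε0) * t / 2) * ‖χ2.gammaFactor (1 / 2 + t * I)‖) *
        (Real.exp ((π / 2 - ε0) * t / 2) * ‖χ3.gammaFactor (1 / 2 + t * I)‖)), by positivity, ?_⟩
      rw [hPdef]
      simp only [rR]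
      ring
    rcases hsign with h | h
    · left
      intro t ht
      obtain ⟨w, hw0, hw1⟩ := hfac t
      rw [hw1]
      exact mul_nonneg hw0 (h t ht)
    · right
      intro t ht
      obtain ⟨w, hw0, hw1⟩ := hfac t
      rw [hw1]
      exact mul_nonpos_of_nonneg_of_nonpos hw0 (h t ht)
  have hmain := T26_abs P B T0 hPi hBi hB0 hPB hPs
  have hU0 := hU ε0 he0 he1
  have hL0 := hL ε0 he0 le_rfl
  have hPabs : (fun t : ℝ => (t ^ 2 + 1 / 4) ^ 2 * |rR χ1 ε0 t * rR χ2 ε0 t * rR χ3 ε0 t|) = fun t => |P t| := by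
    funext t
    rw [hPdef]
    show _ = |(t ^ 2 + 1 / 4) ^ 2 * (rR χ1 ε0 t * rR χ2 ε0 t * rR χ3 ε0 t)|
    rw [abs_mul ((t ^ 2 + 1 / 4) ^ 2), abs_of_nonneg (by positivity : (0 : ℝ) ≤ (t ^ 2 + 1 / 4) ^ 2)]
  rw [hPabs] at hL0
  have hU1 : |∫ t, P t| ≤ C * ε0 ^ (-E) := by
    rw [hPdef]
    exact hU0
  have hpow : 1 ≤ ε0 ^ (-E) := by
    apply Real.one_le_rpow_of_pos_of_le_one_of_nonpos he0 (by linarith) (by linarith)
  have hMp : (∫ t, B t) ≤ (∫ t, B t) * ε0 ^ (-E) := le_mul_of_one_le_right hM0 hpow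
  nlinarith [hL0, hmain, hU1, hpow, hMp]

end TT
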