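import Pool.Agent.Lib.MP_0f5a55_nt.TT.D
import Pool.Agent.Lib.MP_0f5a55_nt.OM.K004

open Complex MeasureTheory Set Filter Topology
open scoped Real ComplexConjugate

namespace TT

/-- exp((pi/2 - ε) t/2) times the completed L-function on the critical line, real -/
noncomputable def rR {q : ℕ} [NeZero q] (χ : DirichletCharacter ℂ q) (ε t : ℝ) : ℝ :=
  Real.exp ((π / 2 - ε) * t / 2) * ‖χ.gammaFactor (1 / 2 + t * I)‖ *
    (LX.uu χ t * LX.Lf χ (1 / 2 + t * I)).re

/-- parity -/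
def Par {q : ℕ} (χ : DirichletCharacter ℂ q) (κ : ℕ) : Prop := (χ.Even ∧ κ = 0) ∨ (χ.Odd ∧ κ = 1)

end TT
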