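import Mathlib

/-!
Definitions for the theorem on three primitive Dirichlet characters (odd total multiplicity infinitely often).
-/

open Complex MeasureTheory Set Filter Topology
open scoped Real ComplexConjugate

namespace TT

/-- smooth step: 0 for u at most -1, 1 for u at least 1, tau u + tau (-u) = 1 -/
noncomputable def tau (u : ℝ) : ℝ := Real.smoothTransition ((1 + u) / 2)

/-- bump with support in [-1,2]; the sum of phi (u - k) over k = 0, 1, 2, ... is tau u -/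
noncomputable def phi (u : ℝ) : ℝ := tau u - tau (u - 1)

/-- admissible cutoff -/
def Adm (W : ℝ → ℝ) : Prop := W = (fun _ => (1 : ℝ)) ∨ W = tau

/-- trilinear form -/
noncomputable def Jf (f g h : ℝ → ℂ) (W : ℝ → ℝ) : ℂ :=
  ∫ v : ℝ, ∫ u : ℝ, f u * g v * conj (h (u + v)) * ((tau u * tau v * W (u + v) : ℝ) : ℂ)

/-- theta series with coefficients f(n), weight n^p -/
noncomputable def th (q : ℕ) (f : ℕ → ℂ) (p : ℕ) (z : ℂ) : ℂ :=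
  ∑' n : ℕ, f (n + 1) * ((n : ℂ) + 1) ^ p * exp (-(π * ((n : ℂ) + 1) ^ 2 * z / q))

/-- the point y exp(i (pi/2 - ε)) -/
noncomputable def zp (ε y : ℝ) : ℂ := (y : ℂ) * exp (((π / 2 - ε : ℝ) : ℂ) * I)

/-- theta function in logarithmic variable -/
noncomputable def rho (q : ℕ) (f : ℕ → ℂ) (p : ℕ) (ε u : ℝ) : ℂ :=
  ((Real.exp ((1 / 2 + p) * u) : ℝ) : ℂ) * th q f p (zp ε (Real.exp (2 * u)))

/-- continuous with decay exp(-u/2) for u at least -2 -/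
def Dec (f : ℝ → ℂ) : Prop :=
  Continuous f ∧ ∃ C : ℝ, ∀ u : ℝ, -2 ≤ u → ‖f u‖ ≤ C * Real.exp (-(u / 2))

/-- inner integral, cut to u in [k - 1, k + 2] -/
noncomputable def Gk (qa qc : ℕ) (fa fc : ℕ → ℂ) (pa pc : ℕ) (W : ℝ → ℝ) (ε : ℝ) (k : ℕ) (v : ℝ) : ℂ :=
  ∫ u : ℝ, rho qa fa pa ε u * conj (rho qc fc pc ε (u + v)) * ((phi (u - k) * W (u + v) : ℝ) : ℂ)

noncomputable def Psi (m : ℕ) (W : ℝ → ℝ) (c : ℝ) (z : ℂ) : ℂ :=
  ∫ v : ℝ, ((phi v * W (c + v) * Real.exp (m * v) : ℝ) : ℂ) *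
    exp (-(π * ((Real.exp (2 * v) : ℝ) : ℂ) * z))

noncomputable def HH (psi : ℕ → ℂ) (P : ℕ) (W : ℝ → ℝ) (c : ℝ) (z : ℂ) : ℂ :=
  ∑' g : ℕ, psi (g + 1) * ((g : ℂ) + 1) ^ P * Psi (P + 1) W c (((g : ℂ) + 1) ^ 2 * z)

noncomputable def zab (qa qc : ℕ) (ε y : ℝ) (a b : ℕ) : ℂ :=
  (a : ℂ) ^ 2 / qa * exp (((π / 2 - ε : ℝ) : ℂ) * I) +
    (b : ℂ) ^ 2 * y / qc * exp (-(((π / 2 - ε : ℝ) : ℂ) * I))

/-- one term of the fraction sum -/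
noncomputable def sf (cs ε Y K y : ℝ) (a b : ℕ) : ℝ :=
  ((1 + (b : ℝ) ^ 2 * K * (ε * Y)) ^ 4)⁻¹ * ((1 + |y - cs * ((a : ℝ) / b) ^ 2| / (ε * Y)) ^ 2)⁻¹

/-- sum over all coprime a, b at least 1 -/
noncomputable def Sf (cs ε Y K y : ℝ) : ℝ :=
  ∑' x : ℕ × ℕ, if Nat.Coprime (x.1 + 1) (x.2 + 1) then sf cs ε Y K y (x.1 + 1) (x.2 + 1) else 0

end TT
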