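import Pool.Agent.Lib.MP_0f5a55_nt.TT.D

open Complex MeasureTheory Set Filter Topology
open scoped Real ComplexConjugate

namespace TT

theorem tau_nonneg (u : ℝ) : 0 ≤ tau u := Real.smoothTransition.nonneg _

theorem tau_le_one (u : ℝ) : tau u ≤ 1 := Real.smoothTransition.le_one _

theorem tau_add_neg (u : ℝ) : tau u + tau (-u) = 1 := by
  unfold tau Real.smoothTransition
  have h1 : 1 - (1 + u) / 2 = (1 + -u) / 2 := by ring
  have h2 : 1 - (1 + -u) / 2 = (1 + u) / 2 := by ring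
  rw [h1, h2, add_comm (expNegInvGlue ((1 + -u) / 2)), ← add_div]
  refine div_self ?_
  have := Real.smoothTransition.pos_denom ((1 + u) / 2)
  rw [h1] at this
  exact this.ne'

theorem tau_zero {u : ℝ} (hu : u ≤ -1) : tau u = 0 :=
  Real.smoothTransition.zero_of_nonpos (by linarith)

theorem tau_one {u : ℝ} (hu : 1 ≤ u) : tau u = 1 :=
  Real.smoothTransition.one_of_one_le (by linarith)

theorem tau_contDiff {n : ℕ∞} : ContDiff ℝ n tau :=
  Real.smoothTransition.contDiff.comp ((contDiff_const.add contDiff_id).div_const 2)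

theorem tau_cont : Continuous tau := (tau_contDiff (n := 0)).continuous

theorem glue_mono : Monotone expNegInvGlue := by
  intro a b hab
  rcases le_or_gt a 0 with ha | ha
  · rw [expNegInvGlue.zero_of_nonpos ha]
    exact expNegInvGlue.nonneg b
  · have hb : 0 < b := lt_of_lt_of_le ha hab
    unfold expNegInvGlue
    rw [if_neg (not_le.2 ha), if_neg (not_le.2 hb)]
    refine Real.exp_le_exp.2 (neg_le_neg ?_)
    exact inv_anti₀ ha hab

theorem tau_mono : Monotone tau := by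
  intro a b hab
  unfold tau Real.smoothTransition
  have d1 := Real.smoothTransition.pos_denom ((1 + a) / 2)
  have d2 := Real.smoothTransition.pos_denom ((1 + b) / 2)
  rw [div_le_div_iff₀ d1 d2]
  have m1 : expNegInvGlue ((1 + a) / 2) ≤ expNegInvGlue ((1 + b) / 2) := glue_mono (by linarith)
  have m2 : expNegInvGlue (1 - (1 + b) / 2) ≤ expNegInvGlue (1 - (1 + a) / 2) := glue_mono (by linarith)
  have n1 := expNegInvGlue.nonneg ((1 + a) / 2)
  have n2 := expNegInvGlue.nonneg (1 - (1 + b) / 2)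
  nlinarith [mul_le_mul m1 m2 n2 (n1.trans m1)]

theorem phi_nonneg (u : ℝ) : 0 ≤ phi u := sub_nonneg.2 (tau_mono (by linarith))

theorem phi_le_one (u : ℝ) : phi u ≤ 1 := by
  have := tau_le_one u
  have := tau_nonneg (u - 1)
  unfold phi
  linarith

theorem phi_zero_left {u : ℝ} (hu : u ≤ -1) : phi u = 0 := by
  unfold phi
  rw [tau_zero hu, tau_zero (by linarith), sub_zero]

theorem phi_zero_right {u : ℝ} (hu : 2 ≤ u) : phi u = 0 := by
  unfold phi
  rw [tau_one (by linarith), tau_one (by linarith), sub_self]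

theorem phi_contDiff {n : ℕ∞} : ContDiff ℝ n phi :=
  tau_contDiff.sub (tau_contDiff.comp (contDiff_id.sub contDiff_const))

theorem phi_cont : Continuous phi := (phi_contDiff (n := 0)).continuous

theorem phi_compact : HasCompactSupport phi := by
  refine HasCompactSupport.intro (isCompact_Icc (a := (-1 : ℝ)) (b := 2)) (fun u hu => ?_)
  rw [Set.mem_Icc, not_and_or, not_le, not_le] at hu
  rcases hu with h | h
  · exact phi_zero_left h.le
  · exact phi_zero_right h.le

theorem phi_sum (u : ℝ) (K : ℕ) : ∑ k ∈ Finset.range K, phi (u - k) = tau u - tau (u - K) := by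
  induction K with
  | zero => simp
  | succ K ih =>
    rw [Finset.sum_range_succ, ih]
    unfold phi
    push_cast
    rw [show u - (K : ℝ) - 1 = u - (K + 1) by ring]
    ring

theorem phi_hasSum (u : ℝ) : HasSum (fun k : ℕ => phi (u - k)) (tau u) := by
  rw [hasSum_iff_tendsto_nat_of_nonneg (fun k => phi_nonneg _)]
  refine tendsto_const_nhds.congr' ?_
  obtain ⟨K, hK⟩ := exists_nat_ge (u + 1)
  filter_upwards [eventually_ge_atTop K] with n hn
  have : (K : ℝ) ≤ n := by exact_mod_cast hn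
  rw [phi_sum, tau_zero (u := u - n) (by linarith), sub_zero]

theorem Adm.nonneg {W : ℝ → ℝ} (hW : Adm W) (u : ℝ) : 0 ≤ W u := by
  rcases hW with rfl | rfl
  · exact zero_le_one
  · exact tau_nonneg u

theorem Adm.le_one {W : ℝ → ℝ} (hW : Adm W) (u : ℝ) : W u ≤ 1 := by
  rcases hW with rfl | rfl
  · exact le_refl _
  · exact tau_le_one u

theorem Adm.contDiff {W : ℝ → ℝ} (hW : Adm W) {n : ℕ∞} : ContDiff ℝ n W := by
  rcases hW with rfl | rfl
  · exact contDiff_const
  · exact tau_contDiff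

theorem Adm.cont {W : ℝ → ℝ} (hW : Adm W) : Continuous W := (hW.contDiff (n := 0)).continuous

theorem zp_eq (ε y : ℝ) : zp ε y = (y * Real.sin ε : ℝ) + (y * Real.cos ε : ℝ) * I := by
  unfold zp
  rw [exp_mul_I, ← ofReal_cos, ← ofReal_sin, Real.cos_pi_div_two_sub, Real.sin_pi_div_two_sub]
  push_cast
  ring

theorem zp_re (ε y : ℝ) : (zp ε y).re = y * Real.sin ε := by
  rw [zp_eq, add_re, ofReal_re, re_ofReal_mul, I_re, mul_zero, add_zero]

theorem zp_im (ε y : ℝ) : (zp ε y).im = y * Real.cos ε := by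
  rw [zp_eq, add_im, ofReal_im, im_ofReal_mul, I_im, mul_one, zero_add]

theorem sin_pos' {ε : ℝ} (h0 : 0 < ε) (h1 : ε ≤ 1 / 2) : 0 < Real.sin ε :=
  Real.sin_pos_of_pos_of_lt_pi h0 (by linarith [Real.pi_gt_three])

theorem sin_ge {ε : ℝ} (h0 : 0 < ε) (h1 : ε ≤ 1 / 2) : 2 / π * ε ≤ Real.sin ε :=
  Real.mul_le_sin h0.le (by linarith [Real.pi_gt_three])

theorem sin_le' {ε : ℝ} (h0 : 0 < ε) : Real.sin ε ≤ ε := Real.sin_le h0.le

theorem cos_ge {ε : ℝ} (h0 : 0 < ε) (h1 : ε ≤ 1 / 2) : 1 / 2 ≤ Real.cos ε := by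
  have := Real.one_sub_sq_div_two_le_cos (x := ε)
  nlinarith

theorem zab_eq (qa qc : ℕ) (ε y : ℝ) (a b : ℕ) :
    zab qa qc ε y a b = (Real.sin ε * ((a : ℝ) ^ 2 / qa + (b : ℝ) ^ 2 * y / qc) : ℝ) +
      (Real.cos ε * ((a : ℝ) ^ 2 / qa - (b : ℝ) ^ 2 * y / qc) : ℝ) * I := by
  unfold zab
  rw [← neg_mul, exp_mul_I, exp_mul_I, Complex.cos_neg, Complex.sin_neg, ← ofReal_cos, ← ofReal_sin,
    Real.cos_pi_div_two_sub, Real.sin_pi_div_two_sub]
  push_cast
  ring

theorem zab_re (qa qc : ℕ) (ε y : ℝ) (a b : ℕ) :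
    (zab qa qc ε y a b).re = Real.sin ε * ((a : ℝ) ^ 2 / qa + (b : ℝ) ^ 2 * y / qc) := by
  rw [zab_eq, add_re, ofReal_re, re_ofReal_mul, I_re, mul_zero, add_zero]

theorem zab_im (qa qc : ℕ) (ε y : ℝ) (a b : ℕ) :
    (zab qa qc ε y a b).im = Real.cos ε * ((a : ℝ) ^ 2 / qa - (b : ℝ) ^ 2 * y / qc) := by
  rw [zab_eq, add_im, ofReal_im, im_ofReal_mul, I_im, mul_one, zero_add]

theorem sf_nonneg {cs ε Y K y : ℝ} (h0 : 0 < ε) (hY : 0 < Y) (hK : 0 ≤ K) (a b : ℕ) :
    0 ≤ sf cs ε Y K y a b := by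
  unfold sf
  have : 0 ≤ |y - cs * ((a : ℝ) / b) ^ 2| / (ε * Y) := by positivity
  positivity

end TT
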