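import Pool.Agent.Lib.MP_0f5a55_nt.TT.T00

open Complex MeasureTheory Set Filter Topology
open scoped Real ComplexConjugate FourierTransform

namespace TT

theorem T01_norm_exp (s : ℝ) : ‖exp ((s : ℂ) * I)‖ = 1 := Complex.norm_exp_ofReal_mul_I s

theorem T01_conj_c : conj ((2 * (π : ℂ))⁻¹) = (2 * (π : ℂ))⁻¹ := by
  rw [show (2 * (π : ℂ))⁻¹ = (((2 * π)⁻¹ : ℝ) : ℂ) by push_cast; ring, Complex.conj_ofReal]

/-- Fourier inversion in our normalisation -/
theorem T01_inv {r : ℝ → ℝ} {f : ℝ → ℂ} (c : Continuous r) (i : Integrable r)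
    (h : ∀ u : ℝ, f u = (2 * (π : ℂ))⁻¹ * ∫ t : ℝ, (r t : ℂ) * exp (-(t * u * I)))
    (j : Integrable f) (t : ℝ) : (r t : ℂ) = ∫ u : ℝ, f u * exp (((t * u : ℝ) : ℂ) * I) := by
  have hpi : (2 * (π : ℂ)) ≠ 0 := by
    have := Real.pi_ne_zero
    exact mul_ne_zero two_ne_zero (by exact_mod_cast this)
  have hF : ∀ w : ℝ, 𝓕 (fun t : ℝ => (r t : ℂ)) w = 2 * (π : ℂ) * f (2 * π * w) := by
    intro w
    rw [Real.fourier_real_eq_integral_exp_smul, h, ← mul_assoc, mul_inv_cancel₀ hpi, one_mul]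
    refine integral_congr_ae (Filter.Eventually.of_forall (fun v => ?_))
    simp only [smul_eq_mul]
    rw [mul_comm]
    congr 2
    push_cast
    ring
  have hFi : Integrable (𝓕 (fun t : ℝ => (r t : ℂ))) := by
    have : 𝓕 (fun t : ℝ => (r t : ℂ)) = fun w => 2 * (π : ℂ) * f (2 * π * w) := funext hF
    rw [this]
    exact (j.comp_mul_left' (by positivity)).const_mul _
  have hinv := (i.ofReal (𝕜 := ℂ)).fourierInv_fourier_eq hFi
    (continuous_ofReal.comp c).continuousAt (v := t)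
  have h2 : (r t : ℂ) = 𝓕⁻ (𝓕 (fun t : ℝ => (r t : ℂ))) t := hinv.symm
  rw [h2, Real.fourierInv_eq']
  have h3 : (fun v : ℝ => exp (((2 * π * inner ℝ v t : ℝ) : ℂ) * I) • 𝓕 (fun t : ℝ => (r t : ℂ)) v) =
      fun v : ℝ => (fun u : ℝ => 2 * (π : ℂ) * (f u * exp (((t * u : ℝ) : ℂ) * I))) (2 * π * v) := by
    funext v
    rw [hF]
    simp only [smul_eq_mul]
    rw [show (inner ℝ v t : ℝ) = v * t by simp [mul_comm]]
    rw [show (2 * π * (v * t) : ℝ) = t * (2 * π * v) by ring]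
    ring
  rw [h3, Measure.integral_comp_mul_left (fun u : ℝ => 2 * (π : ℂ) * (f u * exp (((t * u : ℝ) : ℂ) * I)))
    (2 * π), integral_const_mul]
  rw [abs_of_pos (by positivity : 0 < (2 * π)⁻¹), Complex.real_smul]
  push_cast
  rw [← mul_assoc, inv_mul_cancel₀ hpi, one_mul]

theorem T01_cont {r : ℝ → ℝ} {f : ℝ → ℂ} (c : Continuous r) (i : Integrable r)
    (h : ∀ u : ℝ, f u = (2 * (π : ℂ))⁻¹ * ∫ t : ℝ, (r t : ℂ) * exp (-(t * u * I))) :
    Continuous f := by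
  have : f = fun u : ℝ => (2 * (π : ℂ))⁻¹ * ∫ t : ℝ, (r t : ℂ) * exp (-(t * u * I)) := funext h
  rw [this]
  refine continuous_const.mul ?_
  refine continuous_of_dominated (bound := fun t => ‖r t‖) ?_ ?_ i.norm ?_
  · intro u
    refine Continuous.aestronglyMeasurable ?_
    fun_prop
  · intro u
    refine Filter.Eventually.of_forall (fun t => ?_)
    rw [norm_mul, show (-(t * u * I) : ℂ) = ((-(t * u) : ℝ) : ℂ) * I by push_cast; ring,
      T01_norm_exp, mul_one, Complex.norm_real]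
  · refine Filter.Eventually.of_forall (fun t => ?_)
    fun_prop

theorem T01_bdd {r : ℝ → ℝ} {f : ℝ → ℂ}
    (h : ∀ u : ℝ, f u = (2 * (π : ℂ))⁻¹ * ∫ t : ℝ, (r t : ℂ) * exp (-(t * u * I))) :
    ∃ B : ℝ, ∀ u, ‖f u‖ ≤ B := by
  refine ⟨‖(2 * (π : ℂ))⁻¹‖ * ∫ t : ℝ, ‖r t‖, fun u => ?_⟩
  rw [h, norm_mul]
  refine mul_le_mul_of_nonneg_left ?_ (norm_nonneg _)
  refine (norm_integral_le_integral_norm _).trans (le_of_eq ?_)
  refine integral_congr_ae (Filter.Eventually.of_forall (fun t => ?_))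
  simp only []
  rw [norm_mul, show (-(t * u * I) : ℂ) = ((-(t * u) : ℝ) : ℂ) * I by push_cast; ring,
    T01_norm_exp, mul_one, Complex.norm_real]

theorem T01_neg {r : ℝ → ℝ} {f : ℝ → ℂ}
    (h : ∀ u : ℝ, f u = (2 * (π : ℂ))⁻¹ * ∫ t : ℝ, (r t : ℂ) * exp (-(t * u * I))) (u : ℝ) :
    f (-u) = conj (f u) := by
  rw [h, h, map_mul, ← integral_conj]
  congr 1
  · exact T01_conj_c.symm
  · refine integral_congr_ae (Filter.Eventually.of_forall (fun t => ?_))
    simp only [map_mul, ← Complex.exp_conj, map_neg, Complex.conj_ofReal, Complex.conj_I]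
    push_cast
    ring_nf

/-- weighted double integral -/
noncomputable def T01_K (f g h : ℝ → ℂ) (w : ℝ → ℝ → ℝ) : ℂ :=
  ∫ p : ℝ × ℝ, f p.1 * g p.2 * conj (h (p.1 + p.2)) * ((w p.1 p.2 : ℝ) : ℂ)

theorem T01_int {f g h : ℝ → ℂ} (jf : Integrable f) (jg : Integrable g) (ch : Continuous h)
    {B : ℝ} (hB : ∀ u, ‖h u‖ ≤ B) {w : ℝ → ℝ → ℝ} (cw : Continuous (fun p : ℝ × ℝ => w p.1 p.2))
    (hw : ∀ u v, |w u v| ≤ 1) :
    Integrable (fun p : ℝ × ℝ => f p.1 * g p.2 * conj (h (p.1 + p.2)) * ((w p.1 p.2 : ℝ) : ℂ))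
      (volume.prod volume) := by
  have h1 := jf.mul_prod (ν := volume) jg
  have hB0 : 0 ≤ B := (norm_nonneg _).trans (hB 0)
  have h2 : Continuous (fun p : ℝ × ℝ => conj (h (p.1 + p.2)) * ((w p.1 p.2 : ℝ) : ℂ)) := by
    refine Continuous.mul (Complex.continuous_conj.comp (ch.comp (continuous_fst.add continuous_snd)))
      (continuous_ofReal.comp cw)
  have h3 := h1.mul_bdd (c := B * 1) h2.aestronglyMeasurable
    (Filter.Eventually.of_forall (fun p => by
      rw [norm_mul, RCLike.norm_conj, Complex.norm_real, Real.norm_eq_abs]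
      exact mul_le_mul (hB _) (hw _ _) (abs_nonneg _) hB0))
  refine h3.congr (Filter.Eventually.of_forall (fun p => ?_))
  simp only []
  ring

theorem T01_K_symm {f g h : ℝ → ℂ} (jf : Integrable f) (jg : Integrable g) (ch : Continuous h)
    {B : ℝ} (hB : ∀ u, ‖h u‖ ≤ B) {w : ℝ → ℝ → ℝ} (cw : Continuous (fun p : ℝ × ℝ => w p.1 p.2))
    (hw : ∀ u v, |w u v| ≤ 1) :
    T01_K f g h w = ∫ v : ℝ, ∫ u : ℝ, f u * g v * conj (h (u + v)) * ((w u v : ℝ) : ℂ) := by
  unfold T01_K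
  exact integral_prod_symm _ (T01_int jf jg ch hB cw hw)

theorem T01_K_prod {f g h : ℝ → ℂ} (jf : Integrable f) (jg : Integrable g) (ch : Continuous h)
    {B : ℝ} (hB : ∀ u, ‖h u‖ ≤ B) {w : ℝ → ℝ → ℝ} (cw : Continuous (fun p : ℝ × ℝ => w p.1 p.2))
    (hw : ∀ u v, |w u v| ≤ 1) :
    T01_K f g h w = ∫ u : ℝ, ∫ v : ℝ, f u * g v * conj (h (u + v)) * ((w u v : ℝ) : ℂ) := by
  unfold T01_K
  exact integral_prod _ (T01_int jf jg ch hB cw hw)

theorem T01_K_add {f g h : ℝ → ℂ} (jf : Integrable f) (jg : Integrable g) (ch : Continuous h)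
    {B : ℝ} (hB : ∀ u, ‖h u‖ ≤ B) {w w' w'' : ℝ → ℝ → ℝ}
    (cw : Continuous (fun p : ℝ × ℝ => w p.1 p.2)) (hw : ∀ u v, |w u v| ≤ 1)
    (cw' : Continuous (fun p : ℝ × ℝ => w' p.1 p.2)) (hw' : ∀ u v, |w' u v| ≤ 1)
    (e : ∀ u v, w'' u v = w u v + w' u v) :
    T01_K f g h w'' = T01_K f g h w + T01_K f g h w' := by
  unfold T01_K
  rw [show (volume : Measure (ℝ × ℝ)) = volume.prod volume from rfl,
    ← integral_add (T01_int jf jg ch hB cw hw) (T01_int jf jg ch hB cw' hw')]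
  refine integral_congr_ae (Filter.Eventually.of_forall (fun p => ?_))
  simp only [e]
  push_cast
  ring

theorem T01_parseval {r1 r2 r3 : ℝ → ℝ} {f1 f2 f3 : ℝ → ℂ}
    (c1 : Continuous r1) (c2 : Continuous r2)
    (i1 : Integrable r1) (i2 : Integrable r2) (i3 : Integrable r3)
    (h1 : ∀ u : ℝ, f1 u = (2 * (π : ℂ))⁻¹ * ∫ t : ℝ, (r1 t : ℂ) * exp (-(t * u * I)))
    (h2 : ∀ u : ℝ, f2 u = (2 * (π : ℂ))⁻¹ * ∫ t : ℝ, (r2 t : ℂ) * exp (-(t * u * I)))
    (h3 : ∀ u : ℝ, f3 u = (2 * (π : ℂ))⁻¹ * ∫ t : ℝ, (r3 t : ℂ) * exp (-(t * u * I)))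
    (j1 : Integrable f1) (j2 : Integrable f2) :
    ((∫ t : ℝ, r1 t * r2 t * r3 t : ℝ) : ℂ) = 2 * π * T01_K f1 f2 f3 (fun _ _ => 1) := by
  have hpi : (2 * (π : ℂ)) ≠ 0 := by
    have := Real.pi_ne_zero
    exact mul_ne_zero two_ne_zero (by exact_mod_cast this)
  have hint : Integrable (Function.uncurry (fun (t : ℝ) (p : ℝ × ℝ) =>
      (r3 t : ℂ) * (f1 p.1 * f2 p.2) * exp (((t * (p.1 + p.2) : ℝ) : ℂ) * I)))
      (volume.prod (volume.prod volume)) := by
    have h1 := (i3.ofReal (𝕜 := ℂ)).mul_prod (ν := volume.prod volume) (j1.mul_prod (ν := volume) j2)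
    refine (h1.mul_bdd (c := 1) (g := fun q : ℝ × (ℝ × ℝ) =>
      exp (((q.1 * (q.2.1 + q.2.2) : ℝ) : ℂ) * I)) ?_ ?_)
    · refine Continuous.aestronglyMeasurable ?_
      fun_prop
    · exact Filter.Eventually.of_forall (fun q => (T01_norm_exp _).le)
  have hswap := integral_integral_swap hint
  have hL : (∫ t : ℝ, ∫ p : ℝ × ℝ, (r3 t : ℂ) * (f1 p.1 * f2 p.2) *
      exp (((t * (p.1 + p.2) : ℝ) : ℂ) * I) ∂(volume.prod volume)) =
      ((∫ t : ℝ, r1 t * r2 t * r3 t : ℝ) : ℂ) := by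
    rw [← integral_complex_ofReal]
    refine integral_congr_ae (Filter.Eventually.of_forall (fun t => ?_))
    simp only []
    have e1 : (∫ p : ℝ × ℝ, (r3 t : ℂ) * (f1 p.1 * f2 p.2) *
        exp (((t * (p.1 + p.2) : ℝ) : ℂ) * I) ∂(volume.prod volume)) =
        ∫ p : ℝ × ℝ, (r3 t : ℂ) * ((f1 p.1 * exp (((t * p.1 : ℝ) : ℂ) * I)) *
          (f2 p.2 * exp (((t * p.2 : ℝ) : ℂ) * I))) ∂(volume.prod volume) := by
      refine integral_congr_ae (Filter.Eventually.of_forall (fun p => ?_))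
      simp only []
      rw [show (((t * (p.1 + p.2) : ℝ) : ℂ) * I) = (((t * p.1 : ℝ) : ℂ) * I) +
        (((t * p.2 : ℝ) : ℂ) * I) by push_cast; ring, Complex.exp_add]
      ring
    rw [e1, integral_const_mul, integral_prod_mul (fun u : ℝ => f1 u * exp (((t * u : ℝ) : ℂ) * I))
      (fun u : ℝ => f2 u * exp (((t * u : ℝ) : ℂ) * I)), ← T01_inv c1 i1 h1 j1 t,
      ← T01_inv c2 i2 h2 j2 t]
    push_cast
    ring
  rw [← hL, hswap]
  unfold T01_K
  rw [← integral_const_mul]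
  refine integral_congr_ae (Filter.Eventually.of_forall (fun p => ?_))
  simp only []
  have e3 : conj (f3 (p.1 + p.2)) = (2 * (π : ℂ))⁻¹ *
      ∫ t : ℝ, (r3 t : ℂ) * exp (((t * (p.1 + p.2) : ℝ) : ℂ) * I) := by
    rw [h3, map_mul, ← integral_conj]
    congr 1
    · exact T01_conj_c
    · refine integral_congr_ae (Filter.Eventually.of_forall (fun t => ?_))
      simp only [map_mul, ← Complex.exp_conj, map_neg, Complex.conj_ofReal, Complex.conj_I]
      push_cast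
      ring_nf
  rw [e3]
  have e4 : (∫ t : ℝ, (r3 t : ℂ) * (f1 p.1 * f2 p.2) * exp (((t * (p.1 + p.2) : ℝ) : ℂ) * I)) =
      (f1 p.1 * f2 p.2) * ∫ t : ℝ, (r3 t : ℂ) * exp (((t * (p.1 + p.2) : ℝ) : ℂ) * I) := by
    rw [← integral_const_mul]
    refine integral_congr_ae (Filter.Eventually.of_forall (fun t => ?_))
    simp only []
    ring
  rw [e4, Complex.ofReal_one, mul_one]
  rw [show ∀ a b c : ℂ, 2 * (π : ℂ) * (a * b * ((2 * (π : ℂ))⁻¹ * c)) =
    (2 * (π : ℂ)) * (2 * (π : ℂ))⁻¹ * (a * b * c) from fun a b c => by ring,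
    mul_inv_cancel₀ hpi, one_mul]

theorem T01_abs_tau (u : ℝ) : |tau u| ≤ 1 := by
  rw [abs_of_nonneg (tau_nonneg u)]
  exact tau_le_one u

theorem T01_abs_mul {a b : ℝ} (ha : |a| ≤ 1) (hb : |b| ≤ 1) : |a * b| ≤ 1 := by
  rw [abs_mul]
  exact mul_le_one₀ ha (abs_nonneg _) hb

/-- Row T01. Trilinear Parseval formula and sign patterns. -/
theorem pattern {r1 r2 r3 : ℝ → ℝ} {f1 f2 f3 : ℝ → ℂ}
    (c1 : Continuous r1) (c2 : Continuous r2) (c3 : Continuous r3)
    (i1 : Integrable r1) (i2 : Integrable r2) (i3 : Integrable r3)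
    (h1 : ∀ u : ℝ, f1 u = (2 * (π : ℂ))⁻¹ * ∫ t : ℝ, (r1 t : ℂ) * exp (-(t * u * I)))
    (h2 : ∀ u : ℝ, f2 u = (2 * (π : ℂ))⁻¹ * ∫ t : ℝ, (r2 t : ℂ) * exp (-(t * u * I)))
    (h3 : ∀ u : ℝ, f3 u = (2 * (π : ℂ))⁻¹ * ∫ t : ℝ, (r3 t : ℂ) * exp (-(t * u * I)))
    (j1 : Integrable f1) (j2 : Integrable f2) (j3 : Integrable f3) :
    ∫ t : ℝ, r1 t * r2 t * r3 t =
      4 * π * (Jf f1 f2 f3 (fun _ => 1) + Jf f1 f3 f2 tau + Jf f2 f3 f1 tau).re := by
  obtain ⟨B1, hB1⟩ := T01_bdd h1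
  obtain ⟨B2, hB2⟩ := T01_bdd h2
  obtain ⟨B3, hB3⟩ := T01_bdd h3
  have k1 := T01_cont c1 i1 h1
  have k2 := T01_cont c2 i2 h2
  have k3 := T01_cont c3 i3 h3
  have n1 := T01_neg h1
  have n2 := T01_neg h2
  have n3 := T01_neg h3
  have ct := tau_cont
  have hP := T01_parseval c1 c2 i1 i2 i3 h1 h2 h3 j1 j2
  -- continuity and size of the weights
  have q1 : Continuous (fun p : ℝ × ℝ => (fun u v : ℝ => tau u) p.1 p.2) := ct.comp continuous_fst
  have q1' : Continuous (fun p : ℝ × ℝ => (fun u v : ℝ => tau (-u)) p.1 p.2) :=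
    ct.comp continuous_fst.neg
  have q2 : Continuous (fun p : ℝ × ℝ => (fun u v : ℝ => tau u * tau v) p.1 p.2) :=
    (ct.comp continuous_fst).mul (ct.comp continuous_snd)
  have q2' : Continuous (fun p : ℝ × ℝ => (fun u v : ℝ => tau u * tau (-v)) p.1 p.2) :=
    (ct.comp continuous_fst).mul (ct.comp continuous_snd.neg)
  have q3 : Continuous (fun p : ℝ × ℝ => (fun u v : ℝ => tau u * tau (-v) * tau (u + v)) p.1 p.2) :=
    q2'.mul (ct.comp (continuous_fst.add continuous_snd))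
  have q3' : Continuous (fun p : ℝ × ℝ =>
      (fun u v : ℝ => tau u * tau (-v) * tau (-(u + v))) p.1 p.2) :=
    q2'.mul (ct.comp (continuous_fst.add continuous_snd).neg)
  have q4 : Continuous (fun p : ℝ × ℝ => (fun u v : ℝ => tau u * tau v * tau (u + v)) p.1 p.2) :=
    q2.mul (ct.comp (continuous_fst.add continuous_snd))
  have a1 : ∀ u v : ℝ, |(fun u v : ℝ => tau u) u v| ≤ 1 := fun u _ => T01_abs_tau u
  have a1' : ∀ u v : ℝ, |(fun u v : ℝ => tau (-u)) u v| ≤ 1 := fun u _ => T01_abs_tau _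
  have a2 : ∀ u v : ℝ, |(fun u v : ℝ => tau u * tau v) u v| ≤ 1 :=
    fun u v => T01_abs_mul (T01_abs_tau _) (T01_abs_tau _)
  have a2' : ∀ u v : ℝ, |(fun u v : ℝ => tau u * tau (-v)) u v| ≤ 1 :=
    fun u v => T01_abs_mul (T01_abs_tau _) (T01_abs_tau _)
  have a3 : ∀ u v : ℝ, |(fun u v : ℝ => tau u * tau (-v) * tau (u + v)) u v| ≤ 1 :=
    fun u v => T01_abs_mul (a2' u v) (T01_abs_tau _)
  have a3' : ∀ u v : ℝ, |(fun u v : ℝ => tau u * tau (-v) * tau (-(u + v))) u v| ≤ 1 :=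
    fun u v => T01_abs_mul (a2' u v) (T01_abs_tau _)
  have a4 : ∀ u v : ℝ, |(fun u v : ℝ => tau u * tau v * tau (u + v)) u v| ≤ 1 :=
    fun u v => T01_abs_mul (a2 u v) (T01_abs_tau _)
  -- step 1: 1 = tau u + tau (-u)
  have s1 : T01_K f1 f2 f3 (fun _ _ => 1) = T01_K f1 f2 f3 (fun u v => tau u) +
      T01_K f1 f2 f3 (fun u v => tau (-u)) :=
    T01_K_add j1 j2 k3 hB3 q1 a1 q1' a1' (fun u v => (tau_add_neg u).symm)
  have s2 : T01_K f1 f2 f3 (fun u v => tau (-u)) = conj (T01_K f1 f2 f3 (fun u v => tau u)) := by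
    rw [T01_K_prod j1 j2 k3 hB3 q1' a1', T01_K_prod j1 j2 k3 hB3 q1 a1, ← integral_conj,
      ← integral_neg_eq_self]
    refine integral_congr_ae (Filter.Eventually.of_forall (fun u => ?_))
    simp only []
    rw [← integral_conj, ← integral_neg_eq_self]
    refine integral_congr_ae (Filter.Eventually.of_forall (fun v => ?_))
    simp only []
    rw [show -u + -v = -(u + v) by ring, n1, n2, n3, neg_neg]
    simp only [map_mul, Complex.conj_ofReal]
  -- step 2: split tau u by the sign of v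
  have s3 : T01_K f1 f2 f3 (fun u v => tau u) = T01_K f1 f2 f3 (fun u v => tau u * tau v) +
      T01_K f1 f2 f3 (fun u v => tau u * tau (-v)) :=
    T01_K_add j1 j2 k3 hB3 q2 a2 q2' a2' (fun u v => by
      have := tau_add_neg v
      linear_combination (-tau u) * this)
  have s4 : T01_K f1 f2 f3 (fun u v => tau u * tau (-v)) =
      T01_K f1 f2 f3 (fun u v => tau u * tau (-v) * tau (u + v)) +
      T01_K f1 f2 f3 (fun u v => tau u * tau (-v) * tau (-(u + v))) :=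
    T01_K_add j1 j2 k3 hB3 q3 a3 q3' a3' (fun u v => by
      have := tau_add_neg (u + v)
      linear_combination (-(tau u * tau (-v))) * this)
  have s5 : T01_K f1 f2 f3 (fun u v => tau u * tau v) = Jf f1 f2 f3 (fun _ => 1) := by
    rw [T01_K_symm j1 j2 k3 hB3 q2 a2]
    unfold Jf
    simp only [mul_one]
  have s6 : T01_K f1 f2 f3 (fun u v => tau u * tau (-v) * tau (u + v)) =
      conj (Jf f2 f3 f1 tau) := by
    have e : Jf f2 f3 f1 tau = T01_K f2 f3 f1 (fun u v => tau u * tau v * tau (u + v)) := by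
      rw [T01_K_symm j2 j3 k1 hB1 q4 a4]
      rfl
    rw [e, T01_K_prod j2 j3 k1 hB1 q4 a4, T01_K_symm j1 j2 k3 hB3 q3 a3, ← integral_conj,
      ← integral_neg_eq_self]
    refine integral_congr_ae (Filter.Eventually.of_forall (fun b => ?_))
    simp only []
    rw [← integral_conj, ← integral_add_left_eq_self _ b]
    refine integral_congr_ae (Filter.Eventually.of_forall (fun c => ?_))
    simp only []
    rw [show b + c + -b = c by ring, n2, neg_neg]
    simp only [map_mul, Complex.conj_ofReal, Complex.conj_conj]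
    push_cast
    ring
  have s7 : T01_K f1 f2 f3 (fun u v => tau u * tau (-v) * tau (-(u + v))) =
      Jf f1 f3 f2 tau := by
    have e : Jf f1 f3 f2 tau = T01_K f1 f3 f2 (fun u v => tau u * tau v * tau (u + v)) := by
      rw [T01_K_symm j1 j3 k2 hB2 q4 a4]
      rfl
    rw [e, T01_K_prod j1 j3 k2 hB2 q4 a4, T01_K_prod j1 j2 k3 hB3 q3' a3']
    refine integral_congr_ae (Filter.Eventually.of_forall (fun a => ?_))
    simp only []
    rw [← integral_neg_eq_self, ← integral_add_left_eq_self _ a]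
    refine integral_congr_ae (Filter.Eventually.of_forall (fun c => ?_))
    simp only []
    rw [show a + -(a + c) = -c by ring, n2, n3, neg_neg, neg_neg]
    simp only [Complex.conj_conj]
    push_cast
    ring
  rw [s1, s2, s3, s4, s5, s6, s7] at hP
  have hre := congrArg Complex.re hP
  rw [Complex.ofReal_re] at hre
  rw [hre]
  have e2 : (2 * (π : ℂ)) = ((2 * π : ℝ) : ℂ) := by push_cast; ring
  rw [e2, re_ofReal_mul]
  simp only [Complex.add_re, Complex.conj_re]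
  ring

end TT
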