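import Pool.Agent.Lib.MP_0f5a55_nt.TT.T00

open Complex MeasureTheory Set Filter Topology
open scoped Real ComplexConjugate ContDiff

namespace TT

noncomputable def T02_E (z : ℂ) (v : ℝ) : ℂ := exp (-(π * ((Real.exp (2 * v) : ℝ) : ℂ) * z))

theorem T02_E_deriv (z : ℂ) (v : ℝ) :
    HasDerivAt (T02_E z) (-(2 * π * z) * ((Real.exp (2 * v) : ℝ) : ℂ) * T02_E z v) v := by
  have h1 : HasDerivAt (fun v : ℝ => Real.exp (2 * v)) (Real.exp (2 * v) * (2 * 1)) v :=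
    ((hasDerivAt_id v).const_mul 2).exp
  have h2 : HasDerivAt (fun v : ℝ => ((Real.exp (2 * v) : ℝ) : ℂ))
      ((Real.exp (2 * v) * (2 * 1) : ℝ) : ℂ) v := h1.ofReal_comp
  have h3 : HasDerivAt (fun v : ℝ => -(π * ((Real.exp (2 * v) : ℝ) : ℂ) * z))
      (-(π * ((Real.exp (2 * v) * (2 * 1) : ℝ) : ℂ) * z)) v :=
    ((h2.const_mul (π : ℂ)).mul_const z).neg
  have h4 := h3.cexp
  refine h4.congr_deriv ?_
  unfold T02_E
  push_cast
  ring

theorem T02_E_cont (z : ℂ) : Continuous (T02_E z) :=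
  continuous_iff_continuousAt.2 (fun v => (T02_E_deriv z v).continuousAt)

theorem T02_E_norm (z : ℂ) (v : ℝ) : ‖T02_E z v‖ = Real.exp (-(π * Real.exp (2 * v) * z.re)) := by
  unfold T02_E
  rw [norm_exp, ← ofReal_mul, neg_re, re_ofReal_mul]

theorem T02_E_le_one {z : ℂ} (hz : 0 ≤ z.re) (v : ℝ) : ‖T02_E z v‖ ≤ 1 := by
  rw [T02_E_norm, Real.exp_le_one_iff]
  have : 0 ≤ π * Real.exp (2 * v) * z.re :=
    mul_nonneg (mul_nonneg Real.pi_pos.le (Real.exp_pos _).le) hz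
  linarith

noncomputable def T02_T (G : ℝ × ℝ → ℝ) (p : ℝ × ℝ) : ℝ :=
  fderiv ℝ (fun q : ℝ × ℝ => G q * Real.exp (-(2 * q.2))) p (0, 1)

theorem T02_aux {G : ℝ × ℝ → ℝ} (hG : ContDiff ℝ ∞ G) :
    ContDiff ℝ ∞ (fun q : ℝ × ℝ => G q * Real.exp (-(2 * q.2))) :=
  hG.mul ((contDiff_const.mul contDiff_snd).neg.exp)

theorem T02_T_contDiff {G : ℝ × ℝ → ℝ} (hG : ContDiff ℝ ∞ G) : ContDiff ℝ ∞ (T02_T G) := by
  have h := (contDiff_infty_iff_fderiv.1 (T02_aux hG)).2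
  exact h.clm_apply contDiff_const

theorem T02_T_deriv {G : ℝ × ℝ → ℝ} (hG : ContDiff ℝ ∞ G) (c v : ℝ) :
    HasDerivAt (fun v => G (c, v) * Real.exp (-(2 * v))) (T02_T G (c, v)) v := by
  have h1 : HasFDerivAt (fun q : ℝ × ℝ => G q * Real.exp (-(2 * q.2)))
      (fderiv ℝ (fun q : ℝ × ℝ => G q * Real.exp (-(2 * q.2))) (c, v)) (c, v) :=
    (((T02_aux hG).differentiable (by simp)) (c, v)).hasFDerivAt
  have h2 : HasDerivAt (fun v : ℝ => (c, v)) ((0 : ℝ), (1 : ℝ)) v :=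
    (hasDerivAt_const v c).prodMk (hasDerivAt_id v)
  exact h1.comp_hasDerivAt v h2

def T02_S (G : ℝ × ℝ → ℝ) : Prop := ∀ c v : ℝ, v ∉ Icc (-1 : ℝ) 2 → G (c, v) = 0

theorem T02_T_supp {G : ℝ × ℝ → ℝ} (hG : ContDiff ℝ ∞ G) (hS : T02_S G) : T02_S (T02_T G) := by
  intro c v hv
  have h1 := T02_T_deriv hG c v
  have h2 : (fun v => G (c, v) * Real.exp (-(2 * v))) =ᶠ[𝓝 v] fun _ => 0 := by
    have : (Icc (-1 : ℝ) 2)ᶜ ∈ 𝓝 v := isClosed_Icc.isOpen_compl.mem_nhds hv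
    filter_upwards [this] with w hw
    rw [hS c w hw, zero_mul]
  have h3 : HasDerivAt (fun v => G (c, v) * Real.exp (-(2 * v))) 0 v :=
    (hasDerivAt_const v (0 : ℝ)).congr_of_eventuallyEq h2
  exact h1.unique h3

theorem T02_cont {G : ℝ × ℝ → ℝ} (hG : ContDiff ℝ ∞ G) (c : ℝ) : Continuous (fun v => G (c, v)) :=
  hG.continuous.comp (Continuous.prodMk_right c)

theorem T02_compact {G : ℝ × ℝ → ℝ} (hS : T02_S G) (c : ℝ) (g : ℝ → ℂ) :
    HasCompactSupport (fun v => ((G (c, v) : ℝ) : ℂ) * g v) := by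
  refine HasCompactSupport.intro (isCompact_Icc (a := (-1 : ℝ)) (b := 2)) (fun v hv => ?_)
  rw [hS c v hv, ofReal_zero, zero_mul]

noncomputable def T02_I (G : ℝ × ℝ → ℝ) (c : ℝ) (z : ℂ) : ℂ :=
  ∫ v : ℝ, ((G (c, v) : ℝ) : ℂ) * T02_E z v

theorem T02_int {G : ℝ × ℝ → ℝ} (hG : ContDiff ℝ ∞ G) (hS : T02_S G) (c : ℝ) (z : ℂ) :
    Integrable (fun v => ((G (c, v) : ℝ) : ℂ) * T02_E z v) := by
  refine Continuous.integrable_of_hasCompactSupport ?_ (T02_compact hS c _)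
  exact (continuous_ofReal.comp (T02_cont hG c)).mul (T02_E_cont z)

theorem T02_parts {G : ℝ × ℝ → ℝ} (hG : ContDiff ℝ ∞ G) (hS : T02_S G) (c : ℝ) (z : ℂ) :
    T02_I (T02_T G) c z = 2 * π * z * T02_I G c z := by
  have hd : ∀ v : ℝ, HasDerivAt (fun v => ((G (c, v) * Real.exp (-(2 * v)) : ℝ) : ℂ) * T02_E z v)
      (((T02_T G (c, v) : ℝ) : ℂ) * T02_E z v - 2 * π * z * (((G (c, v) : ℝ) : ℂ) * T02_E z v)) v := by
    intro v
    have h1 := (T02_T_deriv hG c v).ofReal_comp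
    have h2 := h1.mul (T02_E_deriv z v)
    refine h2.congr_deriv ?_
    have h3 : ((Real.exp (-(2 * v)) : ℝ) : ℂ) * ((Real.exp (2 * v) : ℝ) : ℂ) = 1 := by
      rw [← ofReal_mul, ← Real.exp_add, neg_add_cancel, Real.exp_zero, ofReal_one]
    rw [ofReal_mul]
    linear_combination (-(2 * π * z) * ((G (c, v) : ℝ) : ℂ) * T02_E z v) * h3
  have i1 := T02_int (T02_T_contDiff hG) (T02_T_supp hG hS) c z
  have i2 := (T02_int hG hS c z).const_mul (2 * π * z)
  have hz : ∀ v : ℝ, v ∉ Icc (-1 : ℝ) 2 →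
      ((G (c, v) * Real.exp (-(2 * v)) : ℝ) : ℂ) * T02_E z v = 0 := by
    intro v hv
    rw [hS c v hv, zero_mul, ofReal_zero, zero_mul]
  have t1 : Tendsto (fun v => ((G (c, v) * Real.exp (-(2 * v)) : ℝ) : ℂ) * T02_E z v) atBot (𝓝 0) := by
    refine tendsto_const_nhds.congr' ?_
    filter_upwards [eventually_lt_atBot (-1 : ℝ)] with v hv
    exact (hz v (fun h => absurd h.1 (not_le.2 hv))).symm
  have t2 : Tendsto (fun v => ((G (c, v) * Real.exp (-(2 * v)) : ℝ) : ℂ) * T02_E z v) atTop (𝓝 0) := by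
    refine tendsto_const_nhds.congr' ?_
    filter_upwards [eventually_gt_atTop (2 : ℝ)] with v hv
    exact (hz v (fun h => absurd h.2 (not_le.2 hv))).symm
  have key := integral_of_hasDerivAt_of_tendsto hd (i1.sub i2) t1 t2
  rw [integral_sub i1 i2, integral_const_mul, sub_zero, sub_eq_zero] at key
  exact key

theorem T02_base {G : ℝ × ℝ → ℝ} (hG : ContDiff ℝ ∞ G) (hS : T02_S G) :
    ∃ C : ℝ, 0 ≤ C ∧ ∀ c ∈ Icc (-3 : ℝ) 2, ∀ z : ℂ, 0 ≤ z.re → ∀ B : ℝ, 0 ≤ B →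
      (∀ v ∈ Icc (-1 : ℝ) 2, ‖T02_E z v‖ ≤ B) → ‖T02_I G c z‖ ≤ C * B := by
  obtain ⟨M, hM⟩ := (isCompact_Icc (a := (-3 : ℝ)) (b := 2)).prod (isCompact_Icc (a := (-1 : ℝ)) (b := 2))
    |>.exists_bound_of_continuousOn (f := G) hG.continuous.continuousOn
  have hM0 : 0 ≤ M := le_trans (norm_nonneg _)
    (hM ((0 : ℝ), (0 : ℝ)) ⟨⟨by norm_num, by norm_num⟩, ⟨by norm_num, by norm_num⟩⟩)
  refine ⟨M * 3, by positivity, fun c hc z hz B hB hE => ?_⟩
  have h1 : T02_I G c z = ∫ v in Icc (-1 : ℝ) 2, ((G (c, v) : ℝ) : ℂ) * T02_E z v := by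
    unfold T02_I
    refine (setIntegral_eq_integral_of_forall_compl_eq_zero (fun v hv => ?_)).symm
    rw [hS c v hv, ofReal_zero, zero_mul]
  rw [h1]
  have h2 := norm_setIntegral_le_of_norm_le_const (μ := volume) (s := Icc (-1 : ℝ) 2)
    (f := fun v => ((G (c, v) : ℝ) : ℂ) * T02_E z v) (C := M * B) (by simp)
    (fun v hv => ?_)
  · refine h2.trans (le_of_eq ?_)
    rw [Measure.real, Real.volume_Icc, ENNReal.toReal_ofReal (by norm_num)]
    ring
  · rw [norm_mul, norm_real]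
    exact mul_le_mul (hM (c, v) ⟨hc, hv⟩) (hE v hv) (norm_nonneg _) hM0

theorem T02_main (A : ℕ) : ∀ G : ℝ × ℝ → ℝ, ContDiff ℝ ∞ G → T02_S G →
    ∃ C : ℝ, 0 ≤ C ∧ ∀ c ∈ Icc (-3 : ℝ) 2, ∀ z : ℂ, 0 ≤ z.re →
      ‖T02_I G c z‖ ≤ C * ((1 + ‖z‖) ^ A)⁻¹ := by
  induction A with
  | zero =>
    intro G hG hS
    obtain ⟨C, hC, h⟩ := T02_base hG hS
    refine ⟨C, hC, fun c hc z hz => ?_⟩
    rw [pow_zero, inv_one]
    exact h c hc z hz 1 zero_le_one (fun v _ => T02_E_le_one hz v)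
  | succ A ih =>
    intro G hG hS
    obtain ⟨C1, hC1, h1⟩ := ih G hG hS
    obtain ⟨C2, hC2, h2⟩ := ih (T02_T G) (T02_T_contDiff hG) (T02_T_supp hG hS)
    refine ⟨C1 + C2, by positivity, fun c hc z hz => ?_⟩
    have a1 := h1 c hc z hz
    have a2 := h2 c hc z hz
    rw [T02_parts hG hS, norm_mul, norm_mul, norm_mul, norm_real, Real.norm_of_nonneg Real.pi_pos.le,
      Complex.norm_two] at a2
    have hp : 0 < (1 + ‖z‖) := by positivity
    have hpA : 0 < (1 + ‖z‖) ^ A := by positivity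
    rw [pow_succ, mul_inv, ← mul_assoc, ← div_eq_mul_inv _ (1 + ‖z‖), le_div_iff₀ hp]
    have hn : 0 ≤ ‖T02_I G c z‖ := norm_nonneg _
    have hz0 : 0 ≤ ‖z‖ * ‖T02_I G c z‖ := by positivity
    have hpi : 1 ≤ 2 * π := by linarith [Real.pi_gt_three]
    have : ‖z‖ * ‖T02_I G c z‖ ≤ 2 * π * ‖z‖ * ‖T02_I G c z‖ := by nlinarith
    calc ‖T02_I G c z‖ * (1 + ‖z‖) = ‖T02_I G c z‖ + ‖z‖ * ‖T02_I G c z‖ := by ring
      _ ≤ C1 * ((1 + ‖z‖) ^ A)⁻¹ + C2 * ((1 + ‖z‖) ^ A)⁻¹ := by linarith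
      _ = (C1 + C2) * ((1 + ‖z‖) ^ A)⁻¹ := by ring

noncomputable def T02_G1 (m : ℕ) (p : ℝ × ℝ) : ℝ := phi p.2 * 1 * Real.exp (m * p.2)

noncomputable def T02_Gt (m : ℕ) (p : ℝ × ℝ) : ℝ := phi p.2 * tau (p.1 + p.2) * Real.exp (m * p.2)

theorem T02_G1_contDiff (m : ℕ) : ContDiff ℝ ∞ (T02_G1 m) :=
  (((phi_contDiff (n := ⊤)).comp contDiff_snd).mul contDiff_const).mul
    ((contDiff_const.mul contDiff_snd).exp)

theorem T02_Gt_contDiff (m : ℕ) : ContDiff ℝ ∞ (T02_Gt m) :=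
  (((phi_contDiff (n := ⊤)).comp contDiff_snd).mul
    ((tau_contDiff (n := ⊤)).comp (contDiff_fst.add contDiff_snd))).mul
    ((contDiff_const.mul contDiff_snd).exp)

theorem T02_phi_zero {v : ℝ} (hv : v ∉ Icc (-1 : ℝ) 2) : phi v = 0 := by
  rw [Set.mem_Icc, not_and_or, not_le, not_le] at hv
  rcases hv with h | h
  · exact phi_zero_left h.le
  · exact phi_zero_right h.le

theorem T02_G1_supp (m : ℕ) : T02_S (T02_G1 m) := by
  intro c v hv
  unfold T02_G1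
  rw [T02_phi_zero hv, zero_mul, zero_mul]

theorem T02_Gt_supp (m : ℕ) : T02_S (T02_Gt m) := by
  intro c v hv
  unfold T02_Gt
  rw [T02_phi_zero hv, zero_mul, zero_mul]

/-- reduction to the two smooth families -/
theorem T02_cases (m : ℕ) {W : ℝ → ℝ} (hW : Adm W) (c : ℝ) (z : ℂ) :
    Psi m W c z = T02_I (T02_G1 m) 0 z ∨ (c ∈ Icc (-3 : ℝ) 2 ∧ Psi m W c z = T02_I (T02_Gt m) c z) ∨
      Psi m W c z = 0 := by
  rcases hW with rfl | rfl
  · exact Or.inl rfl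
  · rcases lt_or_ge c (-3) with h | h
    · right; right
      unfold Psi
      rw [← integral_zero ℝ ℂ (μ := volume)]
      refine integral_congr_ae (Eventually.of_forall (fun v => ?_))
      by_cases hv : v ∈ Icc (-1 : ℝ) 2
      · simp only
        rw [tau_zero (u := c + v) (by linarith [hv.2]), mul_zero, zero_mul, ofReal_zero, zero_mul]
      · simp only
        rw [T02_phi_zero hv, zero_mul, zero_mul, ofReal_zero, zero_mul]
    · rcases le_or_gt c 2 with h2 | h2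
      · exact Or.inr (Or.inl ⟨⟨h, h2⟩, rfl⟩)
      · left
        unfold Psi T02_I T02_G1
        refine integral_congr_ae (Eventually.of_forall (fun v => ?_))
        by_cases hv : v ∈ Icc (-1 : ℝ) 2
        · simp only
          rw [tau_one (u := c + v) (by linarith [hv.1])]
          rfl
        · simp only
          rw [T02_phi_zero hv, zero_mul, zero_mul, zero_mul, zero_mul, ofReal_zero, zero_mul, zero_mul]

/-- Row T02. -/
theorem Psi_bound (m A : ℕ) : ∃ C : ℝ, 0 ≤ C ∧ ∀ W : ℝ → ℝ, Adm W → ∀ (c : ℝ) (z : ℂ), 0 ≤ z.re →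
    ‖Psi m W c z‖ ≤ C * ((1 + ‖z‖) ^ A)⁻¹ := by
  obtain ⟨C1, hC1, h1⟩ := T02_main A (T02_G1 m) (T02_G1_contDiff m) (T02_G1_supp m)
  obtain ⟨C2, hC2, h2⟩ := T02_main A (T02_Gt m) (T02_Gt_contDiff m) (T02_Gt_supp m)
  refine ⟨C1 + C2, by positivity, fun W hW c z hz => ?_⟩
  have hp : 0 ≤ ((1 + ‖z‖) ^ A)⁻¹ := by positivity
  rcases T02_cases m hW c z with h | ⟨hc, h⟩ | h
  · rw [h, add_mul]
    have := h1 0 ⟨by norm_num, by norm_num⟩ z hz
    have := mul_nonneg hC2 hp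
    linarith
  · rw [h, add_mul]
    have := h2 c hc z hz
    have := mul_nonneg hC1 hp
    linarith
  · rw [h, norm_zero]
    positivity

theorem T02_hint (m : ℕ) {W : ℝ → ℝ} (hW : Adm W) (c : ℝ) (z : ℂ) :
    Integrable (fun v : ℝ => ((phi v * W (c + v) * Real.exp (m * v) : ℝ) : ℂ) *
      exp (-(π * ((Real.exp (2 * v) : ℝ) : ℂ) * z))) := by
  refine Continuous.integrable_of_hasCompactSupport ?_ ?_
  · refine (continuous_ofReal.comp ((phi_cont.mul (hW.cont.comp (continuous_const.add continuous_id))).mul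
      (Real.continuous_exp.comp (continuous_const.mul continuous_id)))).mul (T02_E_cont z)
  · refine HasCompactSupport.intro (isCompact_Icc (a := (-1 : ℝ)) (b := 2)) (fun v hv => ?_)
    rw [T02_phi_zero hv, zero_mul, zero_mul, ofReal_zero, zero_mul]

theorem Psi_deriv (m : ℕ) {W : ℝ → ℝ} (hW : Adm W) (c : ℝ) (z : ℂ) :
    HasDerivAt (Psi m W c) (-(π : ℂ) * Psi (m + 2) W c z) z := by
  have key := hasDerivAt_integral_of_dominated_loc_of_deriv_le (μ := volume) (𝕜 := ℂ)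
    (F := fun (w : ℂ) (v : ℝ) => ((phi v * W (c + v) * Real.exp (m * v) : ℝ) : ℂ) *
      exp (-(π * ((Real.exp (2 * v) : ℝ) : ℂ) * w)))
    (F' := fun (w : ℂ) (v : ℝ) => -(π : ℂ) * (((phi v * W (c + v) * Real.exp ((m + 2 : ℕ) * v) : ℝ) : ℂ) *
      exp (-(π * ((Real.exp (2 * v) : ℝ) : ℂ) * w))))
    (x₀ := z) (s := Metric.ball z 1)
    (bound := fun v => π * (|phi v * W (c + v) * Real.exp ((m + 2 : ℕ) * v)| *
      Real.exp (π * Real.exp (2 * v) * (‖z‖ + 1))))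
    (Metric.ball_mem_nhds z one_pos)
    (Eventually.of_forall (fun w => (T02_hint m hW c w).aestronglyMeasurable))
    (T02_hint m hW c z) ((T02_hint (m + 2) hW c z).const_mul _).aestronglyMeasurable
    (Eventually.of_forall (fun v w hw => ?_)) ?_ (Eventually.of_forall (fun v w hw => ?_))
  · have h := key.2
    rw [integral_const_mul] at h
    exact h
  · rw [norm_mul, norm_mul, norm_neg, norm_real, norm_real, Real.norm_of_nonneg Real.pi_pos.le, norm_exp,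
      Real.norm_eq_abs]
    refine mul_le_mul_of_nonneg_left (mul_le_mul_of_nonneg_left (Real.exp_le_exp.2 ?_) (abs_nonneg _))
      Real.pi_pos.le
    rw [← ofReal_mul, neg_re, re_ofReal_mul]
    have hw' : ‖w‖ ≤ ‖z‖ + 1 := by
      have : ‖w - z‖ < 1 := by rwa [Metric.mem_ball, dist_eq_norm] at hw
      calc ‖w‖ = ‖z + (w - z)‖ := by rw [add_sub_cancel]
        _ ≤ ‖z‖ + ‖w - z‖ := norm_add_le _ _
        _ ≤ ‖z‖ + 1 := by linarith
    have h1 : -w.re ≤ ‖z‖ + 1 := (neg_le_abs _).trans ((abs_re_le_norm w).trans hw')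
    have h2 : 0 ≤ π * Real.exp (2 * v) := by positivity
    nlinarith [mul_le_mul_of_nonneg_left h1 h2]
  · have : HasCompactSupport (fun v => π * (|phi v * W (c + v) * Real.exp ((m + 2 : ℕ) * v)| *
      Real.exp (π * Real.exp (2 * v) * (‖z‖ + 1)))) := by
      refine HasCompactSupport.intro (isCompact_Icc (a := (-1 : ℝ)) (b := 2)) (fun v hv => ?_)
      rw [T02_phi_zero hv, zero_mul, zero_mul, abs_zero, zero_mul, mul_zero]
    refine Continuous.integrable_of_hasCompactSupport ?_ this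
    have c1 : Continuous (fun v => phi v * W (c + v) * Real.exp ((m + 2 : ℕ) * v)) :=
      (phi_cont.mul (hW.cont.comp (continuous_const.add continuous_id))).mul
        (Real.continuous_exp.comp (continuous_const.mul continuous_id))
    fun_prop
  · have h0 : HasDerivAt (fun w : ℂ => -(π * ((Real.exp (2 * v) : ℝ) : ℂ) * w))
        (-(π * ((Real.exp (2 * v) : ℝ) : ℂ) * 1)) w := ((hasDerivAt_id w).const_mul _).neg
    have h1 := (h0.cexp).const_mul (((phi v * W (c + v) * Real.exp (m * v) : ℝ) : ℂ))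
    refine h1.congr_deriv ?_
    have h2 : Real.exp ((m + 2 : ℕ) * v) = Real.exp (m * v) * Real.exp (2 * v) := by
      rw [← Real.exp_add]
      congr 1
      push_cast
      ring
    rw [h2]
    push_cast
    ring

/-- crude bound with exponential decay in Re z -/
theorem Psi_exp (m : ℕ) : ∃ C : ℝ, 0 ≤ C ∧ ∀ W : ℝ → ℝ, Adm W → ∀ (c : ℝ) (z : ℂ), 0 ≤ z.re →
    ‖Psi m W c z‖ ≤ C * Real.exp (-(π * Real.exp (-2) * z.re)) := by
  obtain ⟨C1, hC1, h1⟩ := T02_base (T02_G1_contDiff m) (T02_G1_supp m)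
  obtain ⟨C2, hC2, h2⟩ := T02_base (T02_Gt_contDiff m) (T02_Gt_supp m)
  refine ⟨C1 + C2, by positivity, fun W hW c z hz => ?_⟩
  have hp : 0 ≤ Real.exp (-(π * Real.exp (-2) * z.re)) := (Real.exp_pos _).le
  have hE : ∀ v ∈ Icc (-1 : ℝ) 2, ‖T02_E z v‖ ≤ Real.exp (-(π * Real.exp (-2) * z.re)) := by
    intro v hv
    rw [T02_E_norm, Real.exp_le_exp]
    have a1 : Real.exp (-2) ≤ Real.exp (2 * v) := Real.exp_le_exp.2 (by linarith [hv.1])
    have a2 : π * Real.exp (-2) * z.re ≤ π * Real.exp (2 * v) * z.re :=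
      mul_le_mul_of_nonneg_right (mul_le_mul_of_nonneg_left a1 Real.pi_pos.le) hz
    linarith
  rcases T02_cases m hW c z with h | ⟨hc, h⟩ | h
  · rw [h, add_mul]
    have := h1 0 ⟨by norm_num, by norm_num⟩ z hz _ hp hE
    have := mul_nonneg hC2 hp
    linarith
  · rw [h, add_mul]
    have := h2 c hc z hz _ hp hE
    have := mul_nonneg hC1 hp
    linarith
  · rw [h, norm_zero]
    positivity

end TT
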