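import Pool.Agent.Lib.MP_0f5a55_nt.TT.T02

open Complex MeasureTheory Set Filter Topology
open scoped Real ComplexConjugate

namespace TT

/-- the summand without the coefficient -/
noncomputable def T03_h (P : ℕ) (W : ℝ → ℝ) (c : ℝ) (z : ℂ) (x : ℝ) : ℂ :=
  (x : ℂ) ^ P * Psi (P + 1) W c ((x : ℂ) ^ 2 * z)

theorem T03_pow {u : ℝ} (hu : 0 ≤ u) {k n : ℕ} (h : k ≤ n) : u ^ k ≤ (1 + u ^ 2) ^ n := by
  have h1 : u ≤ 1 + u ^ 2 := by nlinarith [sq_nonneg (u - 1)]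
  have h2 : 1 ≤ 1 + u ^ 2 := by nlinarith [sq_nonneg u]
  exact (pow_le_pow_left₀ hu h1 k).trans (pow_le_pow_right₀ h2 h)

theorem T03_sum {s : ℝ} (hs : 0 < s) (N : ℕ) :
    ∑ g ∈ Finset.range N, s / (1 + (((g : ℝ) + 1) * s) ^ 2) ≤ 2 * (1 - 1 / (1 + N * s)) := by
  induction N with
  | zero => simp
  | succ N ih =>
    rw [Finset.sum_range_succ]
    have hN : (0 : ℝ) ≤ N := Nat.cast_nonneg N
    have h1 : 0 < 1 + (N : ℝ) * s := by positivity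
    have h2 : 0 < 1 + ((N : ℝ) + 1) * s := by positivity
    have h3 : 0 < 1 + (((N : ℝ) + 1) * s) ^ 2 := by positivity
    have key : s / (1 + (((N : ℝ) + 1) * s) ^ 2) ≤
        2 * (1 / (1 + (N : ℝ) * s) - 1 / (1 + ((N : ℝ) + 1) * s)) := by
      have e : 2 * (1 / (1 + (N : ℝ) * s) - 1 / (1 + ((N : ℝ) + 1) * s)) =
          (2 * s) / ((1 + (N : ℝ) * s) * (1 + ((N : ℝ) + 1) * s)) := by
        field_simp
        ring
      rw [e, div_le_div_iff₀ h3 (mul_pos h1 h2)]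
      have h4 : (1 + (N : ℝ) * s) * (1 + ((N : ℝ) + 1) * s) ≤
          (1 + ((N : ℝ) + 1) * s) * (1 + ((N : ℝ) + 1) * s) :=
        mul_le_mul_of_nonneg_right (by nlinarith) h2.le
      nlinarith [sq_nonneg (1 - ((N : ℝ) + 1) * s)]
    push_cast
    linarith

theorem T03_deriv (P : ℕ) {W : ℝ → ℝ} (hW : Adm W) (c : ℝ) (z : ℂ) (x : ℝ) :
    HasDerivAt (T03_h P W c z)
      (((P : ℂ) * (x : ℂ) ^ (P - 1)) * Psi (P + 1) W c ((x : ℂ) ^ 2 * z) +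
        (x : ℂ) ^ P * ((-(π : ℂ) * Psi (P + 1 + 2) W c ((x : ℂ) ^ 2 * z)) * (2 * (x : ℂ) * z))) x := by
  have h1 : HasDerivAt (fun w : ℂ => w ^ P) ((P : ℂ) * (x : ℂ) ^ (P - 1)) (x : ℂ) :=
    hasDerivAt_pow P _
  have h2 : HasDerivAt (fun w : ℂ => w ^ 2 * z) (2 * (x : ℂ) * z) (x : ℂ) := by
    have := (hasDerivAt_pow 2 (x : ℂ)).mul_const z
    simpa using this
  have h3 : HasDerivAt (fun w : ℂ => Psi (P + 1) W c (w ^ 2 * z))
      ((-(π : ℂ) * Psi (P + 1 + 2) W c ((x : ℂ) ^ 2 * z)) * (2 * (x : ℂ) * z)) (x : ℂ) :=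
    HasDerivAt.comp (h₂ := Psi (P + 1) W c) (h := fun w : ℂ => w ^ 2 * z) (x : ℂ)
      (Psi_deriv (P + 1) hW c ((x : ℂ) ^ 2 * z)) h2
  exact (h1.mul h3).comp_ofReal

/-- Row T03. Partial summation. -/
theorem HH_bound {psi : ℕ → ℂ} (hpsi : ∀ n, ‖psi n‖ ≤ 1) {M : ℝ}
    (hM : ∀ N : ℕ, ‖∑ g ∈ Finset.range N, psi (g + 1)‖ ≤ M) (P A : ℕ) :
    ∃ C : ℝ, 0 ≤ C ∧ ∀ W : ℝ → ℝ, Adm W → ∀ (c : ℝ) (z : ℂ), 0 < z.re →
      ‖HH psi P W c z‖ ≤ C * (‖z‖ ^ (-((P : ℝ) / 2)) * ((1 + ‖z‖) ^ A)⁻¹) := by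
  obtain ⟨C1, hC1, hP1⟩ := Psi_bound (P + 1) (A + 1 + (P + 1))
  obtain ⟨C3, hC3, hP3⟩ := Psi_bound (P + 1 + 2) (A + 1 + (P + 1))
  have hM0 : 0 ≤ M := by simpa using hM 0
  have hpi := Real.pi_pos
  refine ⟨M * (C1 + 2 * (C1 * P + C3 * (2 * π))), by positivity, ?_⟩
  intro W hW c z hz
  have hz0 : z ≠ 0 := fun h => by simp [h] at hz
  have hr : 0 < ‖z‖ := norm_pos_iff.2 hz0
  obtain ⟨s, hs, hsr⟩ : ∃ s : ℝ, 0 < s ∧ s ^ 2 = ‖z‖ := ⟨√‖z‖, Real.sqrt_pos.2 hr, Real.sq_sqrt hr.le⟩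
  have hpw : ‖z‖ ^ (-((P : ℝ) / 2)) = (s ^ P)⁻¹ := by
    rw [← hsr, Real.rpow_neg (by positivity), ← Real.rpow_natCast s 2, ← Real.rpow_mul hs.le,
      ← Real.rpow_natCast s P]
    congr 2
    push_cast
    ring
  rw [hpw]
  have hzx : ∀ x : ℝ, 0 ≤ x → ‖(x : ℂ) ^ 2 * z‖ = (x * s) ^ 2 := by
    intro x hx
    rw [norm_mul, norm_pow, Complex.norm_real, Real.norm_eq_abs, abs_of_nonneg hx, ← hsr]
    ring
  have hre : ∀ x : ℝ, 0 ≤ ((x : ℂ) ^ 2 * z).re := by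
    intro x
    rw [← ofReal_pow, re_ofReal_mul]
    positivity
  -- bound of h
  have hh : ∀ x : ℝ, 1 ≤ x → ‖T03_h P W c z x‖ ≤ C1 * ((s ^ P)⁻¹ * ((1 + ‖z‖) ^ A)⁻¹) := by
    intro x hx
    have hx0 : 0 ≤ x := by linarith
    have hxs : 0 ≤ x * s := by positivity
    have b1 := hP1 W hW c ((x : ℂ) ^ 2 * z) (hre x)
    rw [hzx x hx0] at b1
    unfold T03_h
    rw [norm_mul, norm_pow, Complex.norm_real, Real.norm_eq_abs, abs_of_nonneg hx0]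
    have h1 : x ^ P = (x * s) ^ P * (s ^ P)⁻¹ := by
      rw [mul_pow]
      field_simp
    have h2 : (x * s) ^ P ≤ (1 + (x * s) ^ 2) ^ (P + 1) := T03_pow hxs (Nat.le_succ P)
    have h3 : 1 + ‖z‖ ≤ 1 + (x * s) ^ 2 := by
      rw [← hsr, mul_pow]
      nlinarith [sq_nonneg s, mul_le_mul hx hx zero_le_one hx0]
    have h4 : ((1 + (x * s) ^ 2) ^ (A + 1))⁻¹ ≤ ((1 + ‖z‖) ^ A)⁻¹ := by
      refine inv_anti₀ (by positivity) ?_
      exact (pow_le_pow_left₀ (by positivity) h3 A).trans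
        (pow_le_pow_right₀ (by nlinarith [sq_nonneg (x * s)]) (Nat.le_succ A))
    have hq : 0 < 1 + (x * s) ^ 2 := by positivity
    calc x ^ P * ‖Psi (P + 1) W c ((x : ℂ) ^ 2 * z)‖
        ≤ x ^ P * (C1 * ((1 + (x * s) ^ 2) ^ (A + 1 + (P + 1)))⁻¹) :=
          mul_le_mul_of_nonneg_left b1 (by positivity)
      _ = (x * s) ^ P * (s ^ P)⁻¹ * (C1 * ((1 + (x * s) ^ 2) ^ (A + 1 + (P + 1)))⁻¹) := by
          rw [← h1]
      _ ≤ (1 + (x * s) ^ 2) ^ (P + 1) * (s ^ P)⁻¹ *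
          (C1 * ((1 + (x * s) ^ 2) ^ (A + 1 + (P + 1)))⁻¹) := by gcongr
      _ = C1 * ((s ^ P)⁻¹ * ((1 + (x * s) ^ 2) ^ (A + 1))⁻¹) := by
          rw [pow_add _ (A + 1) (P + 1)]
          field_simp
      _ ≤ C1 * ((s ^ P)⁻¹ * ((1 + ‖z‖) ^ A)⁻¹) := by gcongr
  -- bound of the derivative
  have hd : ∀ x : ℝ, 1 ≤ x → ‖((P : ℂ) * (x : ℂ) ^ (P - 1)) * Psi (P + 1) W c ((x : ℂ) ^ 2 * z) +
        (x : ℂ) ^ P * ((-(π : ℂ) * Psi (P + 1 + 2) W c ((x : ℂ) ^ 2 * z)) * (2 * (x : ℂ) * z))‖ ≤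
      (C1 * P + C3 * (2 * π)) * ((s ^ P)⁻¹ * (s * ((1 + (x * s) ^ 2) ^ (A + 1))⁻¹)) := by
    intro x hx
    have hx0 : 0 ≤ x := by linarith
    have hxs : 0 ≤ x * s := by positivity
    have hq : 0 < 1 + (x * s) ^ 2 := by positivity
    have b1 := hP1 W hW c ((x : ℂ) ^ 2 * z) (hre x)
    have b3 := hP3 W hW c ((x : ℂ) ^ 2 * z) (hre x)
    rw [hzx x hx0] at b1 b3
    have p1 : (P : ℝ) * x ^ (P - 1) ≤ P * ((s ^ P)⁻¹ * s) * (1 + (x * s) ^ 2) ^ (P + 1) := by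
      rcases Nat.eq_zero_or_pos P with h0 | h0
      · simp [h0]
      · have h1 : x ^ (P - 1) = (x * s) ^ (P - 1) * ((s ^ P)⁻¹ * s) := by
          obtain ⟨k, rfl⟩ : ∃ k, P = k + 1 := ⟨P - 1, by omega⟩
          rw [Nat.add_sub_cancel, mul_pow, pow_succ s k]
          field_simp
        have h2 : (x * s) ^ (P - 1) ≤ (1 + (x * s) ^ 2) ^ (P + 1) := T03_pow hxs (by omega)
        calc (P : ℝ) * x ^ (P - 1) = P * ((s ^ P)⁻¹ * s) * (x * s) ^ (P - 1) := by rw [h1]; ring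
          _ ≤ P * ((s ^ P)⁻¹ * s) * (1 + (x * s) ^ 2) ^ (P + 1) := by gcongr
    have p3 : x ^ P * (2 * x * s ^ 2) ≤ 2 * ((s ^ P)⁻¹ * s) * (1 + (x * s) ^ 2) ^ (P + 1) := by
      have h1 : x ^ P * (2 * x * s ^ 2) = 2 * ((s ^ P)⁻¹ * s) * (x * s) ^ (P + 1) := by
        rw [mul_pow, pow_succ s P, pow_succ x P]
        field_simp
      rw [h1]
      have h2 : (x * s) ^ (P + 1) ≤ (1 + (x * s) ^ 2) ^ (P + 1) := T03_pow hxs (le_refl _)
      gcongr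
    have n1 : ‖((P : ℂ) * (x : ℂ) ^ (P - 1)) * Psi (P + 1) W c ((x : ℂ) ^ 2 * z)‖ ≤
        C1 * P * ((s ^ P)⁻¹ * (s * ((1 + (x * s) ^ 2) ^ (A + 1))⁻¹)) := by
      rw [norm_mul, norm_mul, norm_pow, Complex.norm_natCast, Complex.norm_real, Real.norm_eq_abs,
        abs_of_nonneg hx0]
      calc (P : ℝ) * x ^ (P - 1) * ‖Psi (P + 1) W c ((x : ℂ) ^ 2 * z)‖
          ≤ (P * ((s ^ P)⁻¹ * s) * (1 + (x * s) ^ 2) ^ (P + 1)) *
            (C1 * ((1 + (x * s) ^ 2) ^ (A + 1 + (P + 1)))⁻¹) :=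
            mul_le_mul p1 b1 (norm_nonneg _) (by positivity)
        _ = C1 * P * ((s ^ P)⁻¹ * (s * ((1 + (x * s) ^ 2) ^ (A + 1))⁻¹)) := by
            rw [pow_add _ (A + 1) (P + 1)]
            field_simp
    have n3 : ‖(x : ℂ) ^ P * ((-(π : ℂ) * Psi (P + 1 + 2) W c ((x : ℂ) ^ 2 * z)) *
        (2 * (x : ℂ) * z))‖ ≤
        C3 * (2 * π) * ((s ^ P)⁻¹ * (s * ((1 + (x * s) ^ 2) ^ (A + 1))⁻¹)) := by
      have e : ‖(x : ℂ) ^ P * ((-(π : ℂ) * Psi (P + 1 + 2) W c ((x : ℂ) ^ 2 * z)) *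
          (2 * (x : ℂ) * z))‖ =
          (x ^ P * (2 * x * s ^ 2)) * (π * ‖Psi (P + 1 + 2) W c ((x : ℂ) ^ 2 * z)‖) := by
        rw [norm_mul, norm_mul, norm_mul, norm_mul, norm_mul, norm_neg, norm_pow, Complex.norm_real,
          Complex.norm_real, Real.norm_eq_abs, Real.norm_eq_abs, abs_of_nonneg hx0,
          abs_of_nonneg hpi.le, Complex.norm_ofNat, ← hsr]
        ring
      rw [e]
      calc (x ^ P * (2 * x * s ^ 2)) * (π * ‖Psi (P + 1 + 2) W c ((x : ℂ) ^ 2 * z)‖)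
          ≤ (2 * ((s ^ P)⁻¹ * s) * (1 + (x * s) ^ 2) ^ (P + 1)) *
            (π * (C3 * ((1 + (x * s) ^ 2) ^ (A + 1 + (P + 1)))⁻¹)) :=
            mul_le_mul p3 (mul_le_mul_of_nonneg_left b3 hpi.le) (by positivity) (by positivity)
        _ = C3 * (2 * π) * ((s ^ P)⁻¹ * (s * ((1 + (x * s) ^ 2) ^ (A + 1))⁻¹)) := by
            rw [pow_add _ (A + 1) (P + 1)]
            field_simp
    calc _ ≤ _ := norm_add_le _ _
      _ ≤ _ := add_le_add n1 n3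
      _ = _ := by ring
  -- differences
  have hdiff : ∀ g : ℕ, ‖T03_h P W c z ((g : ℝ) + 2) - T03_h P W c z ((g : ℝ) + 1)‖ ≤
      (C1 * P + C3 * (2 * π)) * ((s ^ P)⁻¹ * ((1 + ‖z‖) ^ A)⁻¹) *
        (s / (1 + (((g : ℝ) + 1) * s) ^ 2)) := by
    intro g
    have hg : (0 : ℝ) ≤ g := Nat.cast_nonneg g
    have hmv := Convex.norm_image_sub_le_of_norm_hasDerivWithin_le
      (f := T03_h P W c z) (s := Icc ((g : ℝ) + 1) ((g : ℝ) + 2))
      (C := (C1 * P + C3 * (2 * π)) * ((s ^ P)⁻¹ *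
        (s * ((1 + (((g : ℝ) + 1) * s) ^ 2) ^ (A + 1))⁻¹)))
      (x := (g : ℝ) + 1) (y := (g : ℝ) + 2)
      (fun x _ => (T03_deriv P hW c z x).hasDerivWithinAt)
      (fun x hx => (hd x (by linarith [hx.1])).trans (by
        have : ((g : ℝ) + 1) * s ≤ x * s := mul_le_mul_of_nonneg_right hx.1 hs.le
        have h0 : 0 ≤ ((g : ℝ) + 1) * s := by positivity
        gcongr))
      (convex_Icc _ _) ⟨le_refl _, by linarith⟩ ⟨by linarith, le_refl _⟩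
    have e1 : ‖((g : ℝ) + 2) - ((g : ℝ) + 1)‖ = 1 := by
      rw [show ((g : ℝ) + 2) - ((g : ℝ) + 1) = 1 by ring, norm_one]
    rw [e1, mul_one] at hmv
    refine hmv.trans ?_
    have h3 : 1 + ‖z‖ ≤ 1 + (((g : ℝ) + 1) * s) ^ 2 := by
      rw [← hsr, mul_pow]
      nlinarith [sq_nonneg s, mul_nonneg hg hg]
    have h4 : ((1 + (((g : ℝ) + 1) * s) ^ 2) ^ (A + 1))⁻¹ ≤
        ((1 + ‖z‖) ^ A)⁻¹ * (1 + (((g : ℝ) + 1) * s) ^ 2)⁻¹ := by
      rw [pow_succ, mul_inv]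
      have h5 : ((1 + (((g : ℝ) + 1) * s) ^ 2) ^ A)⁻¹ ≤ ((1 + ‖z‖) ^ A)⁻¹ :=
        inv_anti₀ (by positivity) (pow_le_pow_left₀ (by positivity) h3 A)
      exact mul_le_mul_of_nonneg_right h5 (by positivity)
    calc (C1 * P + C3 * (2 * π)) * ((s ^ P)⁻¹ *
        (s * ((1 + (((g : ℝ) + 1) * s) ^ 2) ^ (A + 1))⁻¹))
        ≤ (C1 * P + C3 * (2 * π)) * ((s ^ P)⁻¹ *
        (s * (((1 + ‖z‖) ^ A)⁻¹ * (1 + (((g : ℝ) + 1) * s) ^ 2)⁻¹))) := by gcongr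
      _ = _ := by
        rw [div_eq_mul_inv]
        ring
  -- partial sums
  have hpart : ∀ N : ℕ, ‖∑ g ∈ Finset.range N, psi (g + 1) * T03_h P W c z ((g : ℝ) + 1)‖ ≤
      M * (C1 + 2 * (C1 * P + C3 * (2 * π))) * ((s ^ P)⁻¹ * ((1 + ‖z‖) ^ A)⁻¹) := by
    intro N
    have abel : ∀ N : ℕ, ∑ g ∈ Finset.range (N + 1), psi (g + 1) * T03_h P W c z ((g : ℝ) + 1) =
        (∑ g ∈ Finset.range (N + 1), psi (g + 1)) * T03_h P W c z ((N : ℝ) + 1) -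
        ∑ g ∈ Finset.range N, (∑ k ∈ Finset.range (g + 1), psi (k + 1)) *
          (T03_h P W c z ((g : ℝ) + 2) - T03_h P W c z ((g : ℝ) + 1)) := by
      intro N
      induction N with
      | zero => simp
      | succ N ih =>
        rw [Finset.sum_range_succ, ih, Finset.sum_range_succ (fun g => psi (g + 1)) (N + 1),
          Finset.sum_range_succ (fun g => (∑ k ∈ Finset.range (g + 1), psi (k + 1)) *
          (T03_h P W c z ((g : ℝ) + 2) - T03_h P W c z ((g : ℝ) + 1))) N]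
        have e2 : ((N + 1 : ℕ) : ℝ) + 1 = (N : ℝ) + 2 := by push_cast; ring
        rw [e2]
        ring
    rcases Nat.eq_zero_or_pos N with h0 | h0
    · subst h0
      simp only [Finset.range_zero, Finset.sum_empty, norm_zero]
      positivity
    · obtain ⟨n, rfl⟩ : ∃ n, N = n + 1 := ⟨N - 1, by omega⟩
      rw [abel n]
      have hB : 0 ≤ (s ^ P)⁻¹ * ((1 + ‖z‖) ^ A)⁻¹ := by positivity
      have t1 : ‖(∑ g ∈ Finset.range (n + 1), psi (g + 1)) * T03_h P W c z ((n : ℝ) + 1)‖ ≤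
          M * (C1 * ((s ^ P)⁻¹ * ((1 + ‖z‖) ^ A)⁻¹)) := by
        rw [norm_mul]
        have hn : (0 : ℝ) ≤ n := Nat.cast_nonneg n
        exact mul_le_mul (hM (n + 1)) (hh _ (by linarith)) (norm_nonneg _) hM0
      have t2 : ‖∑ g ∈ Finset.range n, (∑ k ∈ Finset.range (g + 1), psi (k + 1)) *
          (T03_h P W c z ((g : ℝ) + 2) - T03_h P W c z ((g : ℝ) + 1))‖ ≤
          M * ((C1 * P + C3 * (2 * π)) * ((s ^ P)⁻¹ * ((1 + ‖z‖) ^ A)⁻¹) * 2) := by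
        calc _ ≤ ∑ g ∈ Finset.range n, ‖(∑ k ∈ Finset.range (g + 1), psi (k + 1)) *
              (T03_h P W c z ((g : ℝ) + 2) - T03_h P W c z ((g : ℝ) + 1))‖ := norm_sum_le _ _
          _ ≤ ∑ g ∈ Finset.range n, M * ((C1 * P + C3 * (2 * π)) *
              ((s ^ P)⁻¹ * ((1 + ‖z‖) ^ A)⁻¹) * (s / (1 + (((g : ℝ) + 1) * s) ^ 2))) := by
              refine Finset.sum_le_sum (fun g _ => ?_)
              rw [norm_mul]
              exact mul_le_mul (hM (g + 1)) (hdiff g) (norm_nonneg _) hM0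
          _ = M * ((C1 * P + C3 * (2 * π)) * ((s ^ P)⁻¹ * ((1 + ‖z‖) ^ A)⁻¹) *
              ∑ g ∈ Finset.range n, (s / (1 + (((g : ℝ) + 1) * s) ^ 2))) := by
              rw [← Finset.mul_sum, ← Finset.mul_sum]
          _ ≤ M * ((C1 * P + C3 * (2 * π)) * ((s ^ P)⁻¹ * ((1 + ‖z‖) ^ A)⁻¹) * 2) := by
              have hS := T03_sum hs n
              have h6 : 0 ≤ 1 / (1 + (n : ℝ) * s) := by positivity
              have h7 : ∑ g ∈ Finset.range n, (s / (1 + (((g : ℝ) + 1) * s) ^ 2)) ≤ 2 := by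
                linarith
              gcongr
      calc _ ≤ _ := norm_sub_le _ _
        _ ≤ _ := add_le_add t1 t2
        _ = _ := by ring
  -- the limit
  have hHH : HH psi P W c z = ∑' g : ℕ, psi (g + 1) * T03_h P W c z ((g : ℝ) + 1) := by
    unfold HH T03_h
    refine tsum_congr (fun g => ?_)
    push_cast
    ring
  rw [hHH]
  by_cases hsum : Summable (fun g : ℕ => psi (g + 1) * T03_h P W c z ((g : ℝ) + 1))
  · exact le_of_tendsto (hsum.hasSum.tendsto_sum_nat.norm)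
      (Filter.Eventually.of_forall hpart)
  · rw [tsum_eq_zero_of_not_summable hsum, norm_zero]
    positivity

end TT
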