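import Pool.Agent.Lib.MP_0f5a55_nt.TT.T02
import Pool.Agent.Lib.MP_0f5a55_nt.TT.T04

open Complex MeasureTheory Set Filter Topology
open scoped Real ComplexConjugate

namespace TT

theorem T05_norm_succ (n : ℕ) : ‖(n : ℂ) + 1‖ = (n : ℝ) + 1 := by
  have : ((n : ℂ) + 1) = ((n + 1 : ℕ) : ℂ) := by push_cast; ring
  rw [this, Complex.norm_natCast]
  push_cast
  ring

theorem T05_sum1 (p : ℕ) {α : ℝ} (hα : 0 < α) :
    Summable (fun n : ℕ => ((n : ℝ) + 1) ^ p * Real.exp (-(α * ((n : ℝ) + 1) ^ 2))) := by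
  have h := th_summable (q := 1) one_pos (f := fun _ => (1 : ℂ)) (by simp) p
    (z := ((α / π : ℝ) : ℂ)) (by rw [ofReal_re]; positivity)
  refine h.congr fun n => ?_
  rw [norm_mul, norm_mul, norm_pow, T05_norm_succ, norm_one, one_mul, Complex.norm_exp]
  congr 2
  have hpi : (π : ℂ) ≠ 0 := by exact_mod_cast Real.pi_ne_zero
  have : -((π : ℂ) * ((n : ℂ) + 1) ^ 2 * ((α / π : ℝ) : ℂ) / ((1 : ℕ) : ℂ)) =
      ((-(α * ((n : ℝ) + 1) ^ 2) : ℝ) : ℂ) := by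
    push_cast
    field_simp
  rw [this, ofReal_re]

/-- the point of the double series -/
noncomputable def T05Z (qa qc : ℕ) (ε : ℝ) (k : ℕ) (v : ℝ) (x : ℕ × ℕ) : ℂ :=
  ((Real.exp (2 * k) : ℝ) : ℂ) * zab qa qc ε (Real.exp (2 * v)) (x.1 + 1) (x.2 + 1)

theorem T05Z_re (qa qc : ℕ) (ε : ℝ) (k : ℕ) (v : ℝ) (x : ℕ × ℕ) :
    (T05Z qa qc ε k v x).re = Real.exp (2 * k) * (Real.sin ε *
      (((x.1 : ℝ) + 1) ^ 2 / qa + ((x.2 : ℝ) + 1) ^ 2 * Real.exp (2 * v) / qc)) := by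
  unfold T05Z
  rw [re_ofReal_mul, zab_re]
  push_cast
  ring

theorem T05Z_re_nonneg {qa qc : ℕ} {ε : ℝ} (h0 : 0 < ε) (h1 : ε ≤ 1 / 2)
    (k : ℕ) (v : ℝ) (x : ℕ × ℕ) : 0 ≤ (T05Z qa qc ε k v x).re := by
  have := sin_pos' h0 h1
  rw [T05Z_re]
  positivity

theorem T05_sum2 {qa qc : ℕ} (ha : 0 < qa) (hc : 0 < qc) (pa pc : ℕ) {ε : ℝ} (h0 : 0 < ε)
    (h1 : ε ≤ 1 / 2) (k : ℕ) (v : ℝ) :
    Summable (fun x : ℕ × ℕ => (((x.1 : ℝ) + 1) ^ pa * ((x.2 : ℝ) + 1) ^ pc) *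
      Real.exp (-(π * Real.exp (-2) * (T05Z qa qc ε k v x).re))) := by
  have hs := sin_pos' h0 h1
  have ha' : (0 : ℝ) < qa := by exact_mod_cast ha
  have hc' : (0 : ℝ) < qc := by exact_mod_cast hc
  have s1 := T05_sum1 pa (α := π * Real.exp (-2) * Real.exp (2 * k) * Real.sin ε / qa) (by positivity)
  have s2 := T05_sum1 pc (α := π * Real.exp (-2) * Real.exp (2 * k) * Real.sin ε * Real.exp (2 * v) / qc)
    (by positivity)
  have s3 := s1.mul_of_nonneg s2 (fun n => by positivity) (fun n => by positivity)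
  refine s3.congr fun x => ?_
  rw [T05Z_re, mul_mul_mul_comm, ← Real.exp_add]
  congr 2
  field_simp
  ring

/-- integrand of Psi -/
noncomputable def T05I (m : ℕ) (W : ℝ → ℝ) (c : ℝ) (z : ℂ) (v : ℝ) : ℂ :=
  ((phi v * W (c + v) * Real.exp (m * v) : ℝ) : ℂ) *
    exp (-(π * ((Real.exp (2 * v) : ℝ) : ℂ) * z))

theorem T05I_cont (m : ℕ) {W : ℝ → ℝ} (hW : Adm W) (c : ℝ) (z : ℂ) : Continuous (T05I m W c z) := by
  unfold T05I
  have h1 : Continuous fun v : ℝ => phi v * W (c + v) * Real.exp (m * v) :=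
    (phi_cont.mul (hW.cont.comp (continuous_const.add continuous_id))).mul
      (Real.continuous_exp.comp (continuous_const.mul continuous_id))
  have h2 : Continuous fun v : ℝ => exp (-(π * ((Real.exp (2 * v) : ℝ) : ℂ) * z)) := by
    fun_prop
  exact (continuous_ofReal.comp h1).mul h2

theorem T05I_int (m : ℕ) {W : ℝ → ℝ} (hW : Adm W) (c : ℝ) (z : ℂ) : Integrable (T05I m W c z) := by
  refine (T05I_cont m hW c z).integrable_of_hasCompactSupport ?_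
  refine phi_compact.mono ?_
  intro v hv
  rw [Function.mem_support] at hv ⊢
  intro h
  apply hv
  unfold T05I
  rw [h]
  simp

theorem T05I_norm (m : ℕ) {W : ℝ → ℝ} (hW : Adm W) (c : ℝ) {z : ℂ} (hz : 0 ≤ z.re) (v : ℝ) :
    ‖T05I m W c z v‖ ≤ Real.exp (-(π * Real.exp (-2) * z.re)) * (phi v * Real.exp (m * v)) := by
  unfold T05I
  rw [norm_mul, Complex.norm_real, Complex.norm_exp, Real.norm_eq_abs,
    abs_of_nonneg (mul_nonneg (mul_nonneg (phi_nonneg v) (hW.nonneg _)) (Real.exp_pos _).le)]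
  rcases le_or_gt v (-1) with hv | hv
  · rw [phi_zero_left hv]
    simp
  have h1 : (-((π : ℂ) * ((Real.exp (2 * v) : ℝ) : ℂ) * z)).re = -(π * Real.exp (2 * v) * z.re) := by
    rw [neg_re, ← ofReal_mul, re_ofReal_mul]
  rw [h1, mul_comm]
  refine mul_le_mul ?_ ?_ ?_ (Real.exp_pos _).le
  · refine Real.exp_le_exp.2 (neg_le_neg ?_)
    refine mul_le_mul_of_nonneg_right ?_ hz
    refine mul_le_mul_of_nonneg_left ?_ Real.pi_pos.le
    exact Real.exp_le_exp.2 (by linarith)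
  · refine mul_le_mul_of_nonneg_right ?_ (Real.exp_pos _).le
    exact mul_le_of_le_one_right (phi_nonneg v) (hW.le_one _)
  · exact mul_nonneg (mul_nonneg (phi_nonneg v) (hW.nonneg _)) (Real.exp_pos _).le

theorem T05_phi_int (m : ℕ) : Integrable (fun v : ℝ => phi v * Real.exp (m * v)) := by
  refine (phi_cont.mul (Real.continuous_exp.comp
    (continuous_const.mul continuous_id))).integrable_of_hasCompactSupport ?_
  exact phi_compact.mul_right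

/-- coefficients of the double series -/
noncomputable def T05c (fa fc : ℕ → ℂ) (pa pc : ℕ) (x : ℕ × ℕ) : ℂ :=
  fa (x.1 + 1) * conj (fc (x.2 + 1)) * (((x.1 : ℂ) + 1) ^ pa * ((x.2 : ℂ) + 1) ^ pc)

theorem T05c_norm {fa fc : ℕ → ℂ} (ba : ∀ n, ‖fa n‖ ≤ 1) (bc : ∀ n, ‖fc n‖ ≤ 1) (pa pc : ℕ)
    (x : ℕ × ℕ) : ‖T05c fa fc pa pc x‖ ≤ ((x.1 : ℝ) + 1) ^ pa * ((x.2 : ℝ) + 1) ^ pc := by
  unfold T05c
  rw [norm_mul, norm_mul, norm_mul, norm_pow, norm_pow, T05_norm_succ, T05_norm_succ,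
    RCLike.norm_conj]
  refine mul_le_of_le_one_left (by positivity) ?_
  exact mul_le_one₀ (ba _) (norm_nonneg _) (bc _)

theorem T05_point {qa qc : ℕ} (ha : 0 < qa) (hc : 0 < qc) {fa fc : ℕ → ℂ}
    (ba : ∀ n, ‖fa n‖ ≤ 1) (bc : ∀ n, ‖fc n‖ ≤ 1) (pa pc : ℕ) (W : ℝ → ℝ)
    {ε : ℝ} (h0 : 0 < ε) (h1 : ε ≤ 1 / 2) (k : ℕ) (v t : ℝ) :
    rho qa fa pa ε (t + k) * conj (rho qc fc pc ε (t + k + v)) *
        ((phi (t + k - k) * W (t + k + v) : ℝ) : ℂ) =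
      ((Real.exp ((1 / 2 + pc) * v) * Real.exp ((1 + (pa + pc)) * k) : ℝ) : ℂ) *
        ∑' x : ℕ × ℕ, T05c fa fc pa pc x * T05I (pa + pc + 1) W (k + v) (T05Z qa qc ε k v x) t := by
  have hs := sin_pos' h0 h1
  have z1 : 0 < (zp ε (Real.exp (2 * (t + k)))).re := by
    rw [zp_re]
    positivity
  have z2 : 0 < (zp ε (Real.exp (2 * (t + k + v)))).re := by
    rw [zp_re]
    positivity
  have s1 := th_summable ha ba pa z1
  have s2 := th_summable hc bc pc z2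
  unfold rho th
  rw [map_mul, conj_ofReal, Complex.conj_tsum]
  have s2' : Summable (fun n : ℕ => ‖conj (fc (n + 1) * ((n : ℂ) + 1) ^ pc *
      exp (-(π * ((n : ℂ) + 1) ^ 2 * (zp ε (Real.exp (2 * (t + k + v)))) / qc)))‖) := by
    simpa only [RCLike.norm_conj] using s2
  have hprod := tsum_mul_tsum_of_summable_norm s1 s2'
  rw [mul_mul_mul_comm, hprod, mul_right_comm, ← tsum_mul_left, ← tsum_mul_left]
  refine tsum_congr fun x => ?_
  unfold T05c T05I T05Z zab zp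
  rw [map_mul, map_mul, map_pow, map_add, map_one, Complex.conj_natCast, ← exp_conj]
  have e1 : conj (-((π : ℂ) * ((x.2 : ℂ) + 1) ^ 2 *
      (((Real.exp (2 * (t + k + v)) : ℝ) : ℂ) * exp (((π / 2 - ε : ℝ) : ℂ) * I)) / qc)) =
      -((π : ℂ) * ((x.2 : ℂ) + 1) ^ 2 *
      (((Real.exp (2 * (t + k + v)) : ℝ) : ℂ) * exp (-(((π / 2 - ε : ℝ) : ℂ) * I))) / qc) := by
    simp only [map_neg, map_mul, map_div₀, map_pow, map_add, map_one, Complex.conj_natCast, conj_ofReal,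
      ← exp_conj, conj_I, mul_neg]
  rw [e1]
  have e2 : exp (-((π : ℂ) * ((x.1 : ℂ) + 1) ^ 2 *
      (((Real.exp (2 * (t + k)) : ℝ) : ℂ) * exp (((π / 2 - ε : ℝ) : ℂ) * I)) / qa)) *
      exp (-((π : ℂ) * ((x.2 : ℂ) + 1) ^ 2 *
      (((Real.exp (2 * (t + k + v)) : ℝ) : ℂ) * exp (-(((π / 2 - ε : ℝ) : ℂ) * I))) / qc)) =
      exp (-((π : ℂ) * ((Real.exp (2 * t) : ℝ) : ℂ) * (((Real.exp (2 * k) : ℝ) : ℂ) *
        (((x.1 + 1 : ℕ) : ℂ) ^ 2 / qa * exp (((π / 2 - ε : ℝ) : ℂ) * I) +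
          ((x.2 + 1 : ℕ) : ℂ) ^ 2 * ((Real.exp (2 * v) : ℝ) : ℂ) / qc *
            exp (-(((π / 2 - ε : ℝ) : ℂ) * I)))))) := by
    rw [← exp_add]
    congr 1
    have r1 : Real.exp (2 * (t + k)) = Real.exp (2 * t) * Real.exp (2 * k) := by
      rw [← Real.exp_add]
      ring_nf
    have r2 : Real.exp (2 * (t + k + v)) = Real.exp (2 * t) * Real.exp (2 * k) * Real.exp (2 * v) := by
      rw [← Real.exp_add, ← Real.exp_add]
      ring_nf
    rw [r1, r2]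
    push_cast
    ring
  have e3 : (Real.exp ((1 / 2 + pa) * (t + k)) * Real.exp ((1 / 2 + pc) * (t + k + v)) : ℝ) =
      Real.exp ((1 / 2 + pc) * v) * Real.exp ((1 + (pa + pc)) * k) *
        Real.exp (((pa + pc + 1 : ℕ) : ℝ) * t) := by
    rw [← Real.exp_add, ← Real.exp_add, ← Real.exp_add]
    congr 1
    push_cast
    ring
  have e4 : phi (t + k - k) = phi t := by rw [add_sub_cancel_right]
  have e5 : W (t + k + v) = W (k + v + t) := by
    congr 1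
    ring
  rw [e4, e5]
  have e3' : ((Real.exp ((1 / 2 + pa) * (t + k)) : ℝ) : ℂ) * ((Real.exp ((1 / 2 + pc) * (t + k + v)) : ℝ) : ℂ)
      = ((Real.exp ((1 / 2 + pc) * v) * Real.exp ((1 + (pa + pc)) * k) : ℝ) : ℂ) *
        ((Real.exp (((pa + pc + 1 : ℕ) : ℝ) * t) : ℝ) : ℂ) := by
    rw [← ofReal_mul, ← ofReal_mul, e3]
  rw [← e2]
  rw [e3']
  push_cast
  ring

theorem T05_Psi (m : ℕ) (W : ℝ → ℝ) (c : ℝ) (z : ℂ) : Psi m W c z = ∫ v : ℝ, T05I m W c z v := rfl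

theorem T05_Psi_norm (m : ℕ) {W : ℝ → ℝ} (hW : Adm W) (c : ℝ) {z : ℂ} (hz : 0 ≤ z.re) :
    ‖Psi m W c z‖ ≤ Real.exp (-(π * Real.exp (-2) * z.re)) * ∫ v : ℝ, phi v * Real.exp (m * v) := by
  rw [T05_Psi, ← integral_const_mul]
  refine (norm_integral_le_integral_norm _).trans ?_
  refine integral_mono_of_nonneg (Eventually.of_forall fun v => norm_nonneg _)
    ((T05_phi_int m).const_mul _) (Eventually.of_forall fun v => ?_)
  exact T05I_norm m hW c hz v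

/-- the absolutely convergent double series of the norms -/
theorem T05_sumH {qa qc : ℕ} (ha : 0 < qa) (hc : 0 < qc) (pa pc : ℕ) {W : ℝ → ℝ} (hW : Adm W)
    {ε : ℝ} (h0 : 0 < ε) (h1 : ε ≤ 1 / 2) (k : ℕ) (v : ℝ) :
    Summable (fun x : ℕ × ℕ => (((x.1 : ℝ) + 1) ^ pa * ((x.2 : ℝ) + 1) ^ pc) *
      ‖Psi (pa + pc + 1) W (k + v) (T05Z qa qc ε k v x)‖) := by
  refine Summable.of_nonneg_of_le (fun x => mul_nonneg (mul_nonneg (pow_nonneg (by positivity) _)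
    (pow_nonneg (by positivity) _)) (norm_nonneg _)) (fun x => ?_)
    ((T05_sum2 ha hc pa pc h0 h1 k v).mul_right (∫ v : ℝ, phi v * Real.exp ((pa + pc + 1 : ℕ) * v)))
  refine (mul_le_mul_of_nonneg_left (T05_Psi_norm (pa + pc + 1) hW _ (T05Z_re_nonneg h0 h1 k v x))
    (mul_nonneg (pow_nonneg (by positivity) _) (pow_nonneg (by positivity) _))).trans (le_of_eq ?_)
  ring

theorem T05_Gk {qa qc : ℕ} (ha : 0 < qa) (hc : 0 < qc) {fa fc : ℕ → ℂ}
    (ba : ∀ n, ‖fa n‖ ≤ 1) (bc : ∀ n, ‖fc n‖ ≤ 1) (pa pc : ℕ) {W : ℝ → ℝ} (hW : Adm W)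
    {ε : ℝ} (h0 : 0 < ε) (h1 : ε ≤ 1 / 2) (k : ℕ) (v : ℝ) :
    Gk qa qc fa fc pa pc W ε k v =
      ((Real.exp ((1 / 2 + pc) * v) * Real.exp ((1 + (pa + pc)) * k) : ℝ) : ℂ) *
        ∑' x : ℕ × ℕ, T05c fa fc pa pc x * Psi (pa + pc + 1) W (k + v) (T05Z qa qc ε k v x) := by
  unfold Gk
  rw [← integral_add_right_eq_self _ (k : ℝ)]
  simp_rw [T05_point ha hc ba bc pa pc W h0 h1 k v]
  rw [integral_const_mul]
  congr 1
  have hF : ∀ x : ℕ × ℕ, Integrable (fun t : ℝ =>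
      T05c fa fc pa pc x * T05I (pa + pc + 1) W (k + v) (T05Z qa qc ε k v x) t) := fun x =>
    (T05I_int _ hW _ _).const_mul _
  have hS : Summable (fun x : ℕ × ℕ => ∫ t : ℝ,
      ‖T05c fa fc pa pc x * T05I (pa + pc + 1) W (k + v) (T05Z qa qc ε k v x) t‖) := by
    refine Summable.of_nonneg_of_le (fun x => integral_nonneg fun t => norm_nonneg _) (fun x => ?_)
      ((T05_sum2 ha hc pa pc h0 h1 k v).mul_right (∫ v : ℝ, phi v * Real.exp ((pa + pc + 1 : ℕ) * v)))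
    rw [← integral_const_mul]
    refine integral_mono_of_nonneg (Eventually.of_forall fun v => norm_nonneg _)
      ((T05_phi_int _).const_mul _) (Eventually.of_forall fun t => ?_)
    show ‖T05c fa fc pa pc x * T05I (pa + pc + 1) W (k + v) (T05Z qa qc ε k v x) t‖ ≤ _
    rw [norm_mul]
    refine (mul_le_mul (T05c_norm ba bc pa pc x) (T05I_norm _ hW _ (T05Z_re_nonneg h0 h1 k v x) t)
      (norm_nonneg _) (by positivity)).trans (le_of_eq ?_)
    ring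
  have h := (hasSum_integral_of_summable_integral_norm hF hS).tsum_eq
  rw [← h]
  refine tsum_congr fun x => ?_
  rw [integral_const_mul, T05_Psi]

/-- pairs with coprime entries -/
def T05C : Set (ℕ × ℕ) := {x | Nat.Coprime (x.1 + 1) (x.2 + 1)}

def T05m (y : T05C × ℕ) : ℕ × ℕ :=
  ((y.2 + 1) * (y.1.1.1 + 1) - 1, (y.2 + 1) * (y.1.1.2 + 1) - 1)

theorem T05m_fst (y : T05C × ℕ) : (T05m y).1 + 1 = (y.2 + 1) * (y.1.1.1 + 1) := by
  have : 0 < (y.2 + 1) * (y.1.1.1 + 1) := by positivity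
  unfold T05m
  show (y.2 + 1) * (y.1.1.1 + 1) - 1 + 1 = _
  omega

theorem T05m_snd (y : T05C × ℕ) : (T05m y).2 + 1 = (y.2 + 1) * (y.1.1.2 + 1) := by
  have : 0 < (y.2 + 1) * (y.1.1.2 + 1) := by positivity
  unfold T05m
  show (y.2 + 1) * (y.1.1.2 + 1) - 1 + 1 = _
  omega

theorem T05m_gcd (y : T05C × ℕ) : Nat.gcd ((T05m y).1 + 1) ((T05m y).2 + 1) = y.2 + 1 := by
  rw [T05m_fst, T05m_snd, Nat.gcd_mul_left]
  have : Nat.gcd (y.1.1.1 + 1) (y.1.1.2 + 1) = 1 := y.1.2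
  rw [this, mul_one]

theorem T05m_bij : Function.Bijective T05m := by
  constructor
  · intro y z h
    have hg : y.2 = z.2 := by
      have h1 := T05m_gcd y
      rw [h, T05m_gcd z] at h1
      omega
    have ha : y.1.1.1 = z.1.1.1 := by
      have h1 := T05m_fst y
      rw [h, T05m_fst z, hg] at h1
      have := Nat.eq_of_mul_eq_mul_left (by positivity) h1
      omega
    have hb : y.1.1.2 = z.1.1.2 := by
      have h1 := T05m_snd y
      rw [h, T05m_snd z, hg] at h1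
      have := Nat.eq_of_mul_eq_mul_left (by positivity) h1
      omega
    exact Prod.ext (Subtype.ext (Prod.ext ha hb)) hg
  · intro x
    have hg : 0 < Nat.gcd (x.1 + 1) (x.2 + 1) := Nat.gcd_pos_of_pos_left _ (Nat.succ_pos _)
    obtain ⟨a, ha⟩ := Nat.gcd_dvd_left (x.1 + 1) (x.2 + 1)
    obtain ⟨b, hb⟩ := Nat.gcd_dvd_right (x.1 + 1) (x.2 + 1)
    have hcop : Nat.Coprime a b := by
      have h1 : Nat.gcd (x.1 + 1) (x.2 + 1) * Nat.gcd a b = Nat.gcd (x.1 + 1) (x.2 + 1) := by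
        rw [← Nat.gcd_mul_left, ← ha, ← hb]
      exact Nat.eq_of_mul_eq_mul_left hg (by rw [h1, mul_one])
    have ha0 : 0 < a := by
      rcases Nat.eq_zero_or_pos a with h | h
      · rw [h, mul_zero] at ha
        omega
      · exact h
    have hb0 : 0 < b := by
      rcases Nat.eq_zero_or_pos b with h | h
      · rw [h, mul_zero] at hb
        omega
      · exact h
    generalize Nat.gcd (x.1 + 1) (x.2 + 1) = g at *
    have ea : a - 1 + 1 = a := by omega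
    have eb : b - 1 + 1 = b := by omega
    have eg : g - 1 + 1 = g := by omega
    refine ⟨(⟨(a - 1, b - 1), ?_⟩, g - 1), ?_⟩
    · show Nat.Coprime (a - 1 + 1) (b - 1 + 1)
      rw [ea, eb]
      exact hcop
    · refine Prod.ext ?_ ?_
      · show (g - 1 + 1) * (a - 1 + 1) - 1 = x.1
        rw [ea, eg, ← ha]
        omega
      · show (g - 1 + 1) * (b - 1 + 1) - 1 = x.2
        rw [eb, eg, ← hb]
        omega

theorem T05_sort {E : Type*} [NormedAddCommGroup E] [CompleteSpace E] {F : ℕ × ℕ → E} (hF : Summable F) :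
    ∑' x, F x = ∑' x : T05C, ∑' g : ℕ, F (T05m (x, g)) := by
  rw [← (Equiv.ofBijective _ T05m_bij).tsum_eq F]
  have : Summable (fun y : T05C × ℕ => F (T05m y)) := hF.comp_injective T05m_bij.1
  exact this.tsum_prod

theorem T05Z_m (qa qc : ℕ) (ε : ℝ) (k : ℕ) (v : ℝ) (x : T05C) (g : ℕ) :
    T05Z qa qc ε k v (T05m (x, g)) = ((g : ℂ) + 1) ^ 2 * (((Real.exp (2 * k) : ℝ) : ℂ) *
      zab qa qc ε (Real.exp (2 * v)) (x.1.1 + 1) (x.1.2 + 1)) := by
  unfold T05Z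
  rw [T05m_fst, T05m_snd]
  unfold zab
  push_cast
  ring

theorem T05c_m {fa fc : ℕ → ℂ} (ma : ∀ m n : ℕ, fa (m * n) = fa m * fa n)
    (mc : ∀ m n : ℕ, fc (m * n) = fc m * fc n) (pa pc : ℕ) (x : T05C) (g : ℕ) :
    T05c fa fc pa pc (T05m (x, g)) = T05c fa fc pa pc x.1 *
      (fa (g + 1) * conj (fc (g + 1)) * ((g : ℂ) + 1) ^ (pa + pc)) := by
  unfold T05c
  have h1 : (((T05m (x, g)).1 : ℂ) + 1) = ((g : ℂ) + 1) * ((x.1.1 : ℂ) + 1) := by
    exact_mod_cast congrArg (fun n : ℕ => (n : ℂ)) (T05m_fst (x, g))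
  have h2 : (((T05m (x, g)).2 : ℂ) + 1) = ((g : ℂ) + 1) * ((x.1.2 : ℂ) + 1) := by
    exact_mod_cast congrArg (fun n : ℕ => (n : ℂ)) (T05m_snd (x, g))
  rw [h1, h2, T05m_fst, T05m_snd]
  show fa ((g + 1) * (x.1.1 + 1)) * conj (fc ((g + 1) * (x.1.2 + 1))) * _ = _
  rw [ma, mc, map_mul, mul_pow, mul_pow, pow_add]
  ring

theorem T05_HH {fa fc : ℕ → ℂ} (ma : ∀ m n : ℕ, fa (m * n) = fa m * fa n)
    (mc : ∀ m n : ℕ, fc (m * n) = fc m * fc n) (qa qc pa pc : ℕ) (W : ℝ → ℝ)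
    (ε : ℝ) (k : ℕ) (v : ℝ) (x : T05C) :
    ∑' g : ℕ, T05c fa fc pa pc (T05m (x, g)) *
        Psi (pa + pc + 1) W (k + v) (T05Z qa qc ε k v (T05m (x, g))) =
      T05c fa fc pa pc x.1 * HH (fun n => fa n * conj (fc n)) (pa + pc) W (k + v)
        (((Real.exp (2 * k) : ℝ) : ℂ) * zab qa qc ε (Real.exp (2 * v)) (x.1.1 + 1) (x.1.2 + 1)) := by
  unfold HH
  rw [← tsum_mul_left]
  refine tsum_congr fun g => ?_
  rw [T05c_m ma mc, T05Z_m]
  ring

theorem T05_Hm (pa pc : ℕ) (x : T05C) (g : ℕ) :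
    (((T05m (x, g)).1 : ℝ) + 1) ^ pa * (((T05m (x, g)).2 : ℝ) + 1) ^ pc =
      (((x.1.1 : ℝ) + 1) ^ pa * ((x.1.2 : ℝ) + 1) ^ pc) * ((g : ℝ) + 1) ^ (pa + pc) := by
  have h1 : (((T05m (x, g)).1 : ℝ) + 1) = ((g : ℝ) + 1) * ((x.1.1 : ℝ) + 1) := by
    exact_mod_cast congrArg (fun n : ℕ => (n : ℝ)) (T05m_fst (x, g))
  have h2 : (((T05m (x, g)).2 : ℝ) + 1) = ((g : ℝ) + 1) * ((x.1.2 : ℝ) + 1) := by
    exact_mod_cast congrArg (fun n : ℕ => (n : ℝ)) (T05m_snd (x, g))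
  rw [h1, h2, mul_pow, mul_pow, pow_add]
  ring

/-- Row T05. The double series of the inner integral, sorted by the greatest common divisor. -/
theorem Gk_le {qa qc : ℕ} (ha : 0 < qa) (hc : 0 < qc) {fa fc : ℕ → ℂ}
    (ma : ∀ m n : ℕ, fa (m * n) = fa m * fa n) (mc : ∀ m n : ℕ, fc (m * n) = fc m * fc n)
    (ba : ∀ n, ‖fa n‖ ≤ 1) (bc : ∀ n, ‖fc n‖ ≤ 1) (pa pc : ℕ) {W : ℝ → ℝ} (hW : Adm W)
    {ε : ℝ} (h0 : 0 < ε) (h1 : ε ≤ 1 / 2) (k : ℕ) (v : ℝ) :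
    ‖Gk qa qc fa fc pa pc W ε k v‖ ≤
      Real.exp ((1 / 2 + pc) * v) * Real.exp ((1 + (pa + pc)) * k) *
        ∑' x : ℕ × ℕ, if Nat.Coprime (x.1 + 1) (x.2 + 1) then
          (((x.1 + 1 : ℕ) : ℝ) ^ pa * ((x.2 + 1 : ℕ) : ℝ) ^ pc) *
            ‖HH (fun n => fa n * conj (fc n)) (pa + pc) W (k + v)
              (((Real.exp (2 * k) : ℝ) : ℂ) * zab qa qc ε (Real.exp (2 * v)) (x.1 + 1) (x.2 + 1))‖
          else 0 := by
  have hH := T05_sumH ha hc pa pc hW h0 h1 k v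
  have hF : Summable (fun x : ℕ × ℕ =>
      T05c fa fc pa pc x * Psi (pa + pc + 1) W (k + v) (T05Z qa qc ε k v x)) := by
    refine Summable.of_norm_bounded hH fun x => ?_
    rw [norm_mul]
    exact mul_le_mul_of_nonneg_right (T05c_norm ba bc pa pc x) (norm_nonneg _)
  have hH' : Summable (fun y : T05C × ℕ => ((((T05m y).1 : ℝ) + 1) ^ pa * (((T05m y).2 : ℝ) + 1) ^ pc) *
      ‖Psi (pa + pc + 1) W (k + v) (T05Z qa qc ε k v (T05m y))‖) := hH.comp_injective T05m_bij.1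
  have hH1 := hH'.prod
  rw [T05_Gk ha hc ba bc pa pc hW h0 h1 k v, norm_mul, Complex.norm_real, Real.norm_eq_abs,
    abs_of_nonneg (by positivity)]
  refine mul_le_mul_of_nonneg_left ?_ (by positivity)
  rw [T05_sort hF]
  simp_rw [T05_HH ma mc qa qc pa pc W ε k v]
  have key : ∀ x : T05C, (((x.1.1 + 1 : ℕ) : ℝ) ^ pa * ((x.1.2 + 1 : ℕ) : ℝ) ^ pc) *
      ‖HH (fun n => fa n * conj (fc n)) (pa + pc) W (k + v)
        (((Real.exp (2 * k) : ℝ) : ℂ) * zab qa qc ε (Real.exp (2 * v)) (x.1.1 + 1) (x.1.2 + 1))‖ ≤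
      ∑' g : ℕ, ((((T05m (x, g)).1 : ℝ) + 1) ^ pa * (((T05m (x, g)).2 : ℝ) + 1) ^ pc) *
        ‖Psi (pa + pc + 1) W (k + v) (T05Z qa qc ε k v (T05m (x, g)))‖ := by
    intro x
    have hx := hH'.prod_factor x
    have hx2 : Summable (fun g : ℕ => ((g : ℝ) + 1) ^ (pa + pc) *
        ‖Psi (pa + pc + 1) W (k + v) (T05Z qa qc ε k v (T05m (x, g)))‖) := by
      refine Summable.of_nonneg_of_le (fun g => by positivity) (fun g => ?_) hx
      show _ ≤ ((((T05m (x, g)).1 : ℝ) + 1) ^ pa * (((T05m (x, g)).2 : ℝ) + 1) ^ pc) *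
        ‖Psi (pa + pc + 1) W (k + v) (T05Z qa qc ε k v (T05m (x, g)))‖
      rw [T05_Hm, mul_assoc]
      refine le_mul_of_one_le_left (by positivity) ?_
      exact one_le_mul_of_one_le_of_one_le (one_le_pow₀ (by linarith [Nat.cast_nonneg (α := ℝ) x.1.1]))
        (one_le_pow₀ (by linarith [Nat.cast_nonneg (α := ℝ) x.1.2]))
    have hle : ‖HH (fun n => fa n * conj (fc n)) (pa + pc) W (k + v)
        (((Real.exp (2 * k) : ℝ) : ℂ) * zab qa qc ε (Real.exp (2 * v)) (x.1.1 + 1) (x.1.2 + 1))‖ ≤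
        ∑' g : ℕ, ((g : ℝ) + 1) ^ (pa + pc) *
          ‖Psi (pa + pc + 1) W (k + v) (T05Z qa qc ε k v (T05m (x, g)))‖ := by
      unfold HH
      refine tsum_of_norm_bounded hx2.hasSum fun g => ?_
      rw [T05Z_m, norm_mul, norm_mul, norm_mul, norm_pow, T05_norm_succ, RCLike.norm_conj, mul_assoc]
      refine mul_le_of_le_one_left (by positivity) ?_
      exact mul_le_one₀ (ba _) (norm_nonneg _) (bc _)
    refine (mul_le_mul_of_nonneg_left hle (by positivity)).trans (le_of_eq ?_)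
    rw [← tsum_mul_left]
    refine tsum_congr fun g => ?_
    rw [T05_Hm]
    push_cast
    ring
  have hsum : Summable (fun x : T05C => (((x.1.1 + 1 : ℕ) : ℝ) ^ pa * ((x.1.2 + 1 : ℕ) : ℝ) ^ pc) *
      ‖HH (fun n => fa n * conj (fc n)) (pa + pc) W (k + v)
        (((Real.exp (2 * k) : ℝ) : ℂ) * zab qa qc ε (Real.exp (2 * v)) (x.1.1 + 1) (x.1.2 + 1))‖) :=
    Summable.of_nonneg_of_le (fun x => by positivity) key hH1
  have hfin : ∑' x : ℕ × ℕ, (if Nat.Coprime (x.1 + 1) (x.2 + 1) then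
          (((x.1 + 1 : ℕ) : ℝ) ^ pa * ((x.2 + 1 : ℕ) : ℝ) ^ pc) *
            ‖HH (fun n => fa n * conj (fc n)) (pa + pc) W (k + v)
              (((Real.exp (2 * k) : ℝ) : ℂ) * zab qa qc ε (Real.exp (2 * v)) (x.1 + 1) (x.2 + 1))‖
          else 0) = ∑' x : T05C, (((x.1.1 + 1 : ℕ) : ℝ) ^ pa * ((x.1.2 + 1 : ℕ) : ℝ) ^ pc) *
      ‖HH (fun n => fa n * conj (fc n)) (pa + pc) W (k + v)
        (((Real.exp (2 * k) : ℝ) : ℂ) * zab qa qc ε (Real.exp (2 * v)) (x.1.1 + 1) (x.1.2 + 1))‖ := by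
    classical
    rw [tsum_subtype T05C (fun x : ℕ × ℕ => (((x.1 + 1 : ℕ) : ℝ) ^ pa * ((x.2 + 1 : ℕ) : ℝ) ^ pc) *
      ‖HH (fun n => fa n * conj (fc n)) (pa + pc) W (k + v)
        (((Real.exp (2 * k) : ℝ) : ℂ) * zab qa qc ε (Real.exp (2 * v)) (x.1 + 1) (x.2 + 1))‖)]
    refine tsum_congr fun x => ?_
    rw [Set.indicator_apply]
    by_cases h : Nat.Coprime (x.1 + 1) (x.2 + 1)
    · rw [if_pos h, if_pos (show x ∈ T05C from h)]
    · rw [if_neg h, if_neg (show x ∉ T05C from h)]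
  rw [hfin]
  refine tsum_of_norm_bounded hsum.hasSum fun x => ?_
  rw [norm_mul]
  refine mul_le_mul_of_nonneg_right ((T05c_norm ba bc pa pc x.1).trans (le_of_eq ?_)) (norm_nonneg _)
  push_cast
  ring

end TT
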