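import Pool.Agent.Lib.MP_0f5a55_nt.TT.T00

open Complex MeasureTheory Set Filter Topology
open scoped Real ComplexConjugate

namespace TT

private lemma T06_last {ε X q : ℝ} (h0 : 0 < ε) (h1 : ε ≤ 1) (hX : 0 ≤ X) (hq : 0 ≤ q) :
    ε ^ (-q) * (1 + X) ^ (-q) * ((1 + ε * X) ^ 2)⁻¹ ≤ ε ^ (-(max q 2)) * ((1 + X) ^ 2)⁻¹ := by
  have hu : 0 < 1 + X := by linarith
  have ht : 1 ≤ 1 + ε * X := by nlinarith
  set L := max q 2 - q with hL
  have L0 : 0 ≤ L := by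
    rw [hL]
    linarith [le_max_left q 2]
  have L2 : L ≤ 2 := by
    rw [hL]
    rcases le_total q 2 with h | h
    · rw [max_eq_right h]
      linarith
    · rw [max_eq_left h]
      linarith
  have e1 : (ε * (1 + X)) ^ L ≤ (1 + ε * X) ^ 2 := by
    calc (ε * (1 + X)) ^ L ≤ (1 + ε * X) ^ L :=
          Real.rpow_le_rpow (by positivity) (by nlinarith) L0
      _ ≤ (1 + ε * X) ^ (2 : ℝ) := Real.rpow_le_rpow_of_exponent_le ht L2
      _ = (1 + ε * X) ^ 2 := by norm_cast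
  have e2 : ((1 + ε * X) ^ 2)⁻¹ ≤ ε ^ (-L) * (1 + X) ^ (-L) := by
    rw [← Real.mul_rpow h0.le hu.le, Real.rpow_neg (by positivity)]
    exact inv_anti₀ (by positivity) e1
  have e3 : (1 + X) ^ (-(max q 2)) ≤ ((1 + X) ^ 2)⁻¹ := by
    have : ((1 + X) ^ 2)⁻¹ = (1 + X) ^ (-2 : ℝ) := by
      rw [Real.rpow_neg hu.le]
      norm_cast
    rw [this]
    exact Real.rpow_le_rpow_of_exponent_le (by linarith) (by linarith [le_max_right q 2])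
  calc ε ^ (-q) * (1 + X) ^ (-q) * ((1 + ε * X) ^ 2)⁻¹
      ≤ ε ^ (-q) * (1 + X) ^ (-q) * (ε ^ (-L) * (1 + X) ^ (-L)) :=
        mul_le_mul_of_nonneg_left e2 (by positivity)
    _ = (ε ^ (-q) * ε ^ (-L)) * ((1 + X) ^ (-q) * (1 + X) ^ (-L)) := by ring
    _ = ε ^ (-(max q 2)) * (1 + X) ^ (-(max q 2)) := by
        rw [← Real.rpow_add h0, ← Real.rpow_add hu]
        congr 2 <;> rw [hL] <;> ring
    _ ≤ _ := mul_le_mul_of_nonneg_left e3 (by positivity)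

/-- the pure inequality; a2 = a^2, b2 = b^2, n = K |zab| -/
private lemma T06_core {κ C1 k2 ε Y K X a2 b2 n : ℝ} {pa pc : ℕ} (hκ : 0 < κ) (hκ1 : κ ≤ 1)
    (hC1 : 0 < C1) (hk2 : 0 < k2) (hε : 0 < ε) (hε1 : ε ≤ 1) (hY : 0 < Y) (hK : 1 ≤ K) (hX : 0 ≤ X)
    (ha : 0 < a2) (hb : 1 ≤ b2)
    (h1 : a2 ≤ C1 * (Y * (1 + ε * X) * b2))
    (h2 : κ * (b2 * K * (ε * Y) * (1 + X)) ≤ n)
    (h3 : k2 * (1 + ε * X) ≤ 1 + n) :
    (a2 ^ ((pa : ℝ) / 2) * b2 ^ ((pc : ℝ) / 2)) *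
      (n ^ (-(((pa + pc : ℕ) : ℝ) / 2)) * ((1 + n) ^ (pa + 6))⁻¹) ≤
    (C1 ^ ((pa : ℝ) / 2) * κ ^ (-(((pa + pc : ℕ) : ℝ) / 2)) * (k2 ^ pa * κ ^ 4 * k2 ^ 2)⁻¹) *
      (K ^ (-(((pa + pc : ℕ) : ℝ) / 2)) * Y ^ (-((pc : ℝ) / 2)) *
        ε ^ (-(max (((pa + pc : ℕ) : ℝ) / 2) 2))) *
      (((1 + b2 * K * (ε * Y)) ^ 4)⁻¹ * ((1 + X) ^ 2)⁻¹) := by
  set h : ℝ := (pa : ℝ) / 2 with hh
  set g : ℝ := (pc : ℝ) / 2 with hg
  have hq : (((pa + pc : ℕ) : ℝ) / 2) = h + g := by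
    rw [hh, hg]
    push_cast
    ring
  rw [hq]
  have h_0 : 0 ≤ h := by positivity
  have g_0 : 0 ≤ g := by positivity
  have hK0 : 0 < K := by linarith
  have hb0 : 0 < b2 := by linarith
  have hu : 0 < 1 + X := by linarith
  have ht1 : 1 ≤ 1 + ε * X := by nlinarith
  have ht0 : 0 < 1 + ε * X := by linarith
  set t := 1 + ε * X with ht
  set u := 1 + X with hu'
  set M := b2 * K * (ε * Y) with hM
  have hM0 : 0 < M := by positivity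
  have hn0 : 0 < n := lt_of_lt_of_le (by positivity) h2
  -- powers
  have p1 : a2 ^ h ≤ C1 ^ h * (Y ^ h * t ^ h * b2 ^ h) := by
    calc a2 ^ h ≤ (C1 * (Y * t * b2)) ^ h := Real.rpow_le_rpow ha.le h1 h_0
      _ = _ := by
        rw [Real.mul_rpow hC1.le (by positivity), Real.mul_rpow (by positivity) hb0.le,
          Real.mul_rpow hY.le ht0.le]
  have p2 : n ^ (-(h + g)) ≤ κ ^ (-(h + g)) *
      (b2 ^ (-(h + g)) * K ^ (-(h + g)) * (ε ^ (-(h + g)) * Y ^ (-(h + g))) * u ^ (-(h + g))) := by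
    calc n ^ (-(h + g)) ≤ (κ * (M * u)) ^ (-(h + g)) :=
          Real.rpow_le_rpow_of_nonpos (by positivity) h2 (by linarith)
      _ = _ := by
        rw [Real.mul_rpow hκ.le (by positivity), Real.mul_rpow hM0.le hu.le, hM,
          Real.mul_rpow (by positivity) (by positivity), Real.mul_rpow hb0.le hK0.le,
          Real.mul_rpow hε.le hY.le]
  have q1 : k2 ^ pa * t ^ h ≤ (1 + n) ^ pa := by
    have : t ^ h ≤ t ^ pa := by
      rw [← Real.rpow_natCast t pa]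
      refine Real.rpow_le_rpow_of_exponent_le ht1 ?_
      rw [hh]
      have : (0 : ℝ) ≤ pa := by positivity
      linarith
    calc k2 ^ pa * t ^ h ≤ k2 ^ pa * t ^ pa := mul_le_mul_of_nonneg_left this (by positivity)
      _ = (k2 * t) ^ pa := by rw [mul_pow]
      _ ≤ _ := pow_le_pow_left₀ (by positivity) h3 _
  have q2 : κ ^ 4 * (1 + M) ^ 4 ≤ (1 + n) ^ 4 := by
    rw [← mul_pow]
    refine pow_le_pow_left₀ (by positivity) ?_ _
    have : κ * M ≤ κ * (M * u) := by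
      refine mul_le_mul_of_nonneg_left ?_ hκ.le
      nlinarith
    nlinarith
  have q3 : k2 ^ 2 * t ^ 2 ≤ (1 + n) ^ 2 := by
    rw [← mul_pow]
    exact pow_le_pow_left₀ (by positivity) h3 _
  have q4 : ((1 + n) ^ (pa + 6))⁻¹ ≤
      (k2 ^ pa * κ ^ 4 * k2 ^ 2)⁻¹ * ((t ^ h)⁻¹ * ((1 + M) ^ 4)⁻¹ * (t ^ 2)⁻¹) := by
    have e : (1 + n) ^ (pa + 6) = (1 + n) ^ pa * (1 + n) ^ 4 * (1 + n) ^ 2 := by ring
    have e' : (k2 ^ pa * κ ^ 4 * k2 ^ 2)⁻¹ * ((t ^ h)⁻¹ * ((1 + M) ^ 4)⁻¹ * (t ^ 2)⁻¹) =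
        ((k2 ^ pa * t ^ h) * (κ ^ 4 * (1 + M) ^ 4) * (k2 ^ 2 * t ^ 2))⁻¹ := by
      rw [← mul_inv, ← mul_inv, ← mul_inv]
      congr 1
      ring
    rw [e, e']
    have tp : 0 < t ^ h := Real.rpow_pos_of_pos ht0 _
    refine inv_anti₀ (by positivity) ?_
    refine mul_le_mul (mul_le_mul q1 q2 (by positivity) (by positivity)) q3 (by positivity) (by positivity)
  have last := T06_last hε hε1 hX (q := h + g) (by positivity)
  have tp : 0 < t ^ h := Real.rpow_pos_of_pos ht0 _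
  have bb : b2 ^ h * b2 ^ g * b2 ^ (-(h + g)) = 1 := by
    rw [← Real.rpow_add hb0, ← Real.rpow_add hb0]
    simp
  have YY : Y ^ h * Y ^ (-(h + g)) = Y ^ (-g) := by
    rw [← Real.rpow_add hY]
    congr 1
    ring
  calc (a2 ^ h * b2 ^ g) * (n ^ (-(h + g)) * ((1 + n) ^ (pa + 6))⁻¹)
      ≤ (C1 ^ h * (Y ^ h * t ^ h * b2 ^ h) * b2 ^ g) *
        ((κ ^ (-(h + g)) *
      (b2 ^ (-(h + g)) * K ^ (-(h + g)) * (ε ^ (-(h + g)) * Y ^ (-(h + g))) * u ^ (-(h + g)))) *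
        ((k2 ^ pa * κ ^ 4 * k2 ^ 2)⁻¹ * ((t ^ h)⁻¹ * ((1 + M) ^ 4)⁻¹ * (t ^ 2)⁻¹))) := by
        refine mul_le_mul (mul_le_mul_of_nonneg_right p1 (by positivity))
          (mul_le_mul p2 q4 (by positivity) (by positivity)) (by positivity) (by positivity)
    _ = (C1 ^ h * κ ^ (-(h + g)) * (k2 ^ pa * κ ^ 4 * k2 ^ 2)⁻¹) *
        (K ^ (-(h + g)) * (Y ^ h * Y ^ (-(h + g)))) * (b2 ^ h * b2 ^ g * b2 ^ (-(h + g))) *
        (t ^ h * (t ^ h)⁻¹) * ((1 + M) ^ 4)⁻¹ *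
        (ε ^ (-(h + g)) * u ^ (-(h + g)) * (t ^ 2)⁻¹) := by ring
    _ = (C1 ^ h * κ ^ (-(h + g)) * (k2 ^ pa * κ ^ 4 * k2 ^ 2)⁻¹) *
        (K ^ (-(h + g)) * Y ^ (-g)) * ((1 + M) ^ 4)⁻¹ *
        (ε ^ (-(h + g)) * u ^ (-(h + g)) * (t ^ 2)⁻¹) := by
        rw [bb, YY, mul_inv_cancel₀ tp.ne', mul_one, mul_one]
    _ ≤ (C1 ^ h * κ ^ (-(h + g)) * (k2 ^ pa * κ ^ 4 * k2 ^ 2)⁻¹) *
        (K ^ (-(h + g)) * Y ^ (-g)) * ((1 + M) ^ 4)⁻¹ *
        (ε ^ (-(max (h + g) 2)) * (u ^ 2)⁻¹) :=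
        mul_le_mul_of_nonneg_left last (by positivity)
    _ = _ := by ring

/-- Row T06. One term of the double series. -/
theorem term_le {qa qc : ℕ} (ha : 0 < qa) (hc : 0 < qc) (pa pc : ℕ) : ∃ (A : ℕ) (C : ℝ), 0 ≤ C ∧
    ∀ (ε Y K y : ℝ) (a b : ℕ), 0 < ε → ε ≤ 1 / 2 → Real.exp (-2) ≤ Y → 1 ≤ K → Y ≤ y →
      y ≤ Real.exp 2 * Y → 1 ≤ a → 1 ≤ b →
      ((a : ℝ) ^ pa * (b : ℝ) ^ pc) *
        (‖(K : ℂ) * zab qa qc ε y a b‖ ^ (-(((pa + pc : ℕ) : ℝ) / 2)) *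
          ((1 + ‖(K : ℂ) * zab qa qc ε y a b‖) ^ A)⁻¹) ≤
      C * (K ^ (-(((pa + pc : ℕ) : ℝ) / 2)) * Y ^ (-((pc : ℝ) / 2)) *
        ε ^ (-(max (((pa + pc : ℕ) : ℝ) / 2) 2))) * sf ((qc : ℝ) / qa) ε Y K y a b := by
  have qa0 : (0 : ℝ) < qa := by exact_mod_cast ha
  have qc0 : (0 : ℝ) < qc := by exact_mod_cast hc
  have qc1 : (1 : ℝ) ≤ qc := by exact_mod_cast hc
  have E0 : 0 < Real.exp (-2) := Real.exp_pos _
  have E1 : Real.exp (-2) ≤ 1 := by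
    rw [← Real.exp_zero]
    exact Real.exp_le_exp.2 (by norm_num)
  have F1 : 1 ≤ Real.exp 2 := Real.one_le_exp (by norm_num)
  refine ⟨pa + 6, ((Real.exp 2 * (qa / qc)) ^ ((pa : ℝ) / 2) *
    (1 / (4 * (qc : ℝ))) ^ (-(((pa + pc : ℕ) : ℝ) / 2)) *
      ((1 / (4 * (qc : ℝ)) * Real.exp (-2)) ^ pa * (1 / (4 * (qc : ℝ))) ^ 4 *
        (1 / (4 * (qc : ℝ)) * Real.exp (-2)) ^ 2)⁻¹), by positivity, ?_⟩
  intro ε Y K y a b h0 h1 hY hK hYy hyY ha1 hb1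
  have a1 : (1 : ℝ) ≤ a := by exact_mod_cast ha1
  have b1 : (1 : ℝ) ≤ b := by exact_mod_cast hb1
  have a0 : (0 : ℝ) < a := by linarith
  have b0 : (0 : ℝ) < b := by linarith
  have Y0 : 0 < Y := lt_of_lt_of_le E0 hY
  have y0 : 0 < y := by linarith
  have K0 : 0 < K := by linarith
  have d0 : 0 < ε * Y := by positivity
  have b21 : (1 : ℝ) ≤ (b : ℝ) ^ 2 := by nlinarith
  set α : ℝ := (qc : ℝ) / qa * ((a : ℝ) / b) ^ 2 with hα
  set X : ℝ := |y - α| / (ε * Y) with hX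
  have X0 : 0 ≤ X := by positivity
  have hXm : ε * Y * X = |y - α| := by
    rw [hX]
    field_simp
  have κ0 : 0 < 1 / (4 * (qc : ℝ)) := by positivity
  have κ1 : 1 / (4 * (qc : ℝ)) ≤ 1 := by
    rw [div_le_one (by positivity)]
    linarith
  set κ : ℝ := 1 / (4 * (qc : ℝ)) with hκ
  have aα : (a : ℝ) ^ 2 = qa / qc * (α * (b : ℝ) ^ 2) := by
    rw [hα]
    field_simp
  have α0 : 0 ≤ α := by positivity
  have αle : α ≤ Real.exp 2 * (Y * (1 + ε * X)) := by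
    have e1 : α - y ≤ |y - α| := by
      rw [abs_sub_comm]
      exact le_abs_self _
    have e2 : ε * Y * X ≤ Real.exp 2 * (ε * Y * X) := by
      have : 0 ≤ ε * Y * X := by positivity
      nlinarith
    nlinarith
  have H1 : (a : ℝ) ^ 2 ≤ Real.exp 2 * (qa / qc) * (Y * (1 + ε * X) * (b : ℝ) ^ 2) := by
    rw [aα]
    have : α * (b : ℝ) ^ 2 ≤ Real.exp 2 * (Y * (1 + ε * X)) * (b : ℝ) ^ 2 :=
      mul_le_mul_of_nonneg_right αle (by positivity)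
    calc (qa : ℝ) / qc * (α * (b : ℝ) ^ 2)
        ≤ qa / qc * (Real.exp 2 * (Y * (1 + ε * X)) * (b : ℝ) ^ 2) :=
          mul_le_mul_of_nonneg_left this (by positivity)
      _ = _ := by ring
  have nrm : ‖(K : ℂ) * zab qa qc ε y a b‖ = K * ‖zab qa qc ε y a b‖ := by
    rw [norm_mul, Complex.norm_real, Real.norm_eq_abs, abs_of_pos K0]
  have Z1 : κ * ((b : ℝ) ^ 2 * (ε * Y) * (1 + X)) ≤ ‖zab qa qc ε y a b‖ := by
    have r1 := (le_abs_self _).trans (Complex.abs_re_le_norm (zab qa qc ε y a b))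
    have r2 := Complex.abs_im_le_norm (zab qa qc ε y a b)
    rw [zab_re] at r1
    rw [zab_im] at r2
    have s1 : ε / 2 ≤ Real.sin ε := by
      have := sin_ge h0 h1
      have hp : 1 / 2 ≤ 2 / π := by
        rw [div_le_div_iff₀ (by norm_num) Real.pi_pos]
        linarith [Real.pi_le_four]
      nlinarith
    have c1 := cos_ge h0 h1
    have t1 : (b : ℝ) ^ 2 * Y / qc ≤ (a : ℝ) ^ 2 / qa + (b : ℝ) ^ 2 * y / qc := by
      have : (b : ℝ) ^ 2 * Y / qc ≤ (b : ℝ) ^ 2 * y / qc := by gcongr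
      have : 0 ≤ (a : ℝ) ^ 2 / qa := by positivity
      linarith
    have u1 : ε / 2 * ((b : ℝ) ^ 2 * Y / qc) ≤ ‖zab qa qc ε y a b‖ := by
      refine le_trans ?_ r1
      exact mul_le_mul s1 t1 (by positivity) (by linarith)
    have t2 : (a : ℝ) ^ 2 / qa - (b : ℝ) ^ 2 * y / qc = (b : ℝ) ^ 2 / qc * (α - y) := by
      rw [aα]
      field_simp
    have u2 : 1 / 2 * ((b : ℝ) ^ 2 / qc * |y - α|) ≤ ‖zab qa qc ε y a b‖ := by
      refine le_trans ?_ r2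
      rw [abs_mul, t2, abs_mul, abs_of_nonneg (by positivity : 0 ≤ (b : ℝ) ^ 2 / qc),
        abs_sub_comm α y, abs_of_nonneg (by linarith : 0 ≤ Real.cos ε)]
      exact mul_le_mul_of_nonneg_right c1 (by positivity)
    have e : κ * ((b : ℝ) ^ 2 * (ε * Y) * (1 + X)) =
        (ε / 2 * ((b : ℝ) ^ 2 * Y / qc) + 1 / 2 * ((b : ℝ) ^ 2 / qc * |y - α|)) / 2 := by
      rw [← hXm, hκ]
      field_simp
      ring
    rw [e]
    linarith
  have H2 : κ * ((b : ℝ) ^ 2 * K * (ε * Y) * (1 + X)) ≤ K * ‖zab qa qc ε y a b‖ := by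
    calc κ * ((b : ℝ) ^ 2 * K * (ε * Y) * (1 + X))
        = K * (κ * ((b : ℝ) ^ 2 * (ε * Y) * (1 + X))) := by ring
      _ ≤ _ := mul_le_mul_of_nonneg_left Z1 K0.le
  have H3 : κ * Real.exp (-2) * (1 + ε * X) ≤ 1 + K * ‖zab qa qc ε y a b‖ := by
    have f1 : κ * Real.exp (-2) ≤ 1 := by nlinarith
    have f2 : κ * Real.exp (-2) * (ε * X) ≤ κ * ((b : ℝ) ^ 2 * K * (ε * Y) * (1 + X)) := by
      rw [mul_assoc]
      refine mul_le_mul_of_nonneg_left ?_ κ0.le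
      have g1 : Real.exp (-2) * (ε * X) ≤ Y * (ε * X) :=
        mul_le_mul_of_nonneg_right hY (by positivity)
      have g2 : 1 ≤ (b : ℝ) ^ 2 * K := by nlinarith
      have g3 : Y * (ε * X) ≤ (ε * Y) * (1 + X) := by nlinarith
      have g4 : (ε * Y) * (1 + X) ≤ (b : ℝ) ^ 2 * K * ((ε * Y) * (1 + X)) := by
        have : 0 ≤ (ε * Y) * (1 + X) := by positivity
        nlinarith
      calc Real.exp (-2) * (ε * X) ≤ (b : ℝ) ^ 2 * K * ((ε * Y) * (1 + X)) := by linarith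
        _ = _ := by ring
    nlinarith
  have e2 : ∀ (z : ℝ), 0 < z → ∀ p : ℕ, z ^ p = (z ^ 2) ^ ((p : ℝ) / 2) := by
    intro z hz p
    rw [← Real.rpow_natCast z 2, ← Real.rpow_mul hz.le, ← Real.rpow_natCast z p]
    congr 1
    push_cast
    ring
  rw [nrm, e2 a a0 pa, e2 b b0 pc]
  have core := T06_core (pa := pa) (pc := pc) (κ := κ) (C1 := Real.exp 2 * (qa / qc))
    (k2 := κ * Real.exp (-2)) κ0 κ1 (by positivity) (by positivity) h0 (by linarith) Y0 hK X0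
    (by positivity : (0 : ℝ) < (a : ℝ) ^ 2) b21 H1 H2 H3
  unfold sf
  exact core

end TT
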