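import Pool.Agent.Lib.MP_0f5a55_nt.TT.T00

open Complex MeasureTheory Set Filter Topology
open scoped Real ComplexConjugate

namespace TT

/-- reduced fractions with denominator at most B in an interval of radius r -/
theorem T07_frac_count {x r B : ℝ} (S : Finset (ℕ × ℕ))
    (hS : ∀ s ∈ S, Nat.Coprime (s.1 + 1) (s.2 + 1) ∧ ((s.2 : ℝ) + 1) ≤ B ∧
      |x - ((s.1 : ℝ) + 1) / ((s.2 : ℝ) + 1)| ≤ r) (hr : 0 ≤ r) :
    (S.card : ℝ) ≤ 1 + 2 * r * B ^ 2 := by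
  classical
  set g : ℕ × ℕ → ℤ := fun s => ⌊(((s.1 : ℝ) + 1) / ((s.2 : ℝ) + 1) - (x - r)) * B ^ 2⌋ with hg
  have hmaps : ∀ s ∈ S, g s ∈ Finset.Icc (0 : ℤ) ⌊2 * r * B ^ 2⌋ := by
    intro s hs
    obtain ⟨-, h2, h3⟩ := hS s hs
    rw [abs_le] at h3
    have hB2 : 0 ≤ B ^ 2 := sq_nonneg B
    rw [Finset.mem_Icc]
    refine ⟨?_, ?_⟩
    · rw [hg]
      refine Int.floor_nonneg.2 (mul_nonneg ?_ hB2)
      linarith
    · rw [hg]
      refine Int.floor_le_floor (mul_le_mul_of_nonneg_right ?_ hB2)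
      linarith
  have hinj : Set.InjOn g S := by
    intro s hs t ht hst
    obtain ⟨c1, b1, -⟩ := hS s hs
    obtain ⟨c2, b2, -⟩ := hS t ht
    have hlt := Int.abs_sub_lt_one_of_floor_eq_floor hst
    have p1 : (0 : ℝ) < (s.2 : ℝ) + 1 := by positivity
    have p2 : (0 : ℝ) < (t.2 : ℝ) + 1 := by positivity
    have hB : 0 < B := lt_of_lt_of_le p1 b1
    have hnum : (((s.1 + 1) * (t.2 + 1) : ℕ) : ℤ) = (((t.1 + 1) * (s.2 + 1) : ℕ) : ℤ) := by
      by_contra hne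
      have h1 : (1 : ℤ) ≤ |(((s.1 + 1) * (t.2 + 1) : ℕ) : ℤ) - (((t.1 + 1) * (s.2 + 1) : ℕ) : ℤ)| :=
        Int.one_le_abs (sub_ne_zero.2 hne)
      have h2 : (1 : ℝ) ≤ |((s.1 : ℝ) + 1) * ((t.2 : ℝ) + 1) - ((t.1 : ℝ) + 1) * ((s.2 : ℝ) + 1)| := by
        have : ((1 : ℤ) : ℝ) ≤ ((|(((s.1 + 1) * (t.2 + 1) : ℕ) : ℤ) -
          (((t.1 + 1) * (s.2 + 1) : ℕ) : ℤ)| : ℤ) : ℝ) := by exact_mod_cast h1
        push_cast at this
        exact this
      have h3 : ((s.1 : ℝ) + 1) * ((t.2 : ℝ) + 1) - ((t.1 : ℝ) + 1) * ((s.2 : ℝ) + 1) =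
          (((s.1 : ℝ) + 1) / ((s.2 : ℝ) + 1) - ((t.1 : ℝ) + 1) / ((t.2 : ℝ) + 1)) *
            (((s.2 : ℝ) + 1) * ((t.2 : ℝ) + 1)) := by
        field_simp
      rw [h3, abs_mul, abs_of_pos (mul_pos p1 p2)] at h2
      have h4 : ((s.2 : ℝ) + 1) * ((t.2 : ℝ) + 1) ≤ B ^ 2 := by nlinarith
      have h5 : |(((s.1 : ℝ) + 1) / ((s.2 : ℝ) + 1) - (x - r)) * B ^ 2 -
          (((t.1 : ℝ) + 1) / ((t.2 : ℝ) + 1) - (x - r)) * B ^ 2| =
          |((s.1 : ℝ) + 1) / ((s.2 : ℝ) + 1) - ((t.1 : ℝ) + 1) / ((t.2 : ℝ) + 1)| * B ^ 2 := by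
        rw [← sub_mul, abs_mul, abs_of_nonneg (sq_nonneg B)]
        congr 2
        ring
      rw [h5] at hlt
      have := mul_le_mul_of_nonneg_left h4
        (abs_nonneg (((s.1 : ℝ) + 1) / ((s.2 : ℝ) + 1) - ((t.1 : ℝ) + 1) / ((t.2 : ℝ) + 1)))
      linarith
    have hn : (s.1 + 1) * (t.2 + 1) = (t.1 + 1) * (s.2 + 1) := by exact_mod_cast hnum
    have d1 : s.1 + 1 ∣ t.1 + 1 := c1.dvd_of_dvd_mul_right (Dvd.intro _ hn)
    have d2 : t.1 + 1 ∣ s.1 + 1 := c2.dvd_of_dvd_mul_right (Dvd.intro _ hn.symm)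
    have e1 : s.1 + 1 = t.1 + 1 := Nat.dvd_antisymm d1 d2
    rw [e1] at hn
    have e2 : t.2 + 1 = s.2 + 1 := Nat.eq_of_mul_eq_mul_left (Nat.succ_pos _) hn
    exact Prod.ext (by omega) (by omega)
  have hc := Finset.card_le_card_of_injOn g hmaps hinj
  rw [Int.card_Icc] at hc
  rcases S.eq_empty_or_nonempty with rfl | ⟨s, hs⟩
  · have : 0 ≤ 2 * r * B ^ 2 := by positivity
    simp
    linarith
  · have h0 : 0 ≤ ⌊2 * r * B ^ 2⌋ := Int.floor_nonneg.2 (by positivity)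
    have h1 : (S.card : ℤ) ≤ ⌊2 * r * B ^ 2⌋ + 1 := by
      have : (S.card : ℤ) ≤ ((⌊2 * r * B ^ 2⌋ + 1 - 0).toNat : ℤ) := by exact_mod_cast hc
      rw [Int.toNat_of_nonneg (by omega)] at this
      linarith
    have h2 : ((S.card : ℤ) : ℝ) ≤ ((⌊2 * r * B ^ 2⌋ + 1 : ℤ) : ℝ) := by exact_mod_cast h1
    push_cast at h2
    have h3 := Int.floor_le (2 * r * B ^ 2)
    linarith

theorem T07_lev {q : ℝ} (hq : 1 < q) (t : ℝ) : ∃ i : ℕ, t ≤ q ^ i ∧ ∀ k, k < i → q ^ k < t := by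
  classical
  have h : ∃ i : ℕ, t ≤ q ^ i := by
    obtain ⟨n, hn⟩ := pow_unbounded_of_one_lt t hq
    exact ⟨n, hn.le⟩
  exact ⟨Nat.find h, Nat.find_spec h, fun k hk => not_le.1 (Nat.find_min h hk)⟩

theorem T07_w1 {c t : ℝ} (hc : 0 < c) (ht : 0 ≤ t) {i : ℕ} (h : ∀ k, k < i → (4 : ℝ) ^ k < t) :
    ((1 + c * t) ^ 4)⁻¹ ≤ 256 * (1 + (c ^ 4)⁻¹) * (1 / 256) ^ i := by
  have hc4 : 0 < (c ^ 4)⁻¹ := by positivity
  have hct : 0 ≤ c * t := by positivity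
  rcases i with _ | k
  · rw [pow_zero, mul_one]
    have h1 : ((1 + c * t) ^ 4)⁻¹ ≤ 1 := inv_le_one_of_one_le₀ (one_le_pow₀ (by linarith))
    linarith
  · have h1 := h k (Nat.lt_succ_self k)
    have h2 : (c * 4 ^ k) ^ 4 ≤ (1 + c * t) ^ 4 := by
      refine pow_le_pow_left₀ (by positivity) ?_ 4
      have := mul_le_mul_of_nonneg_left h1.le hc.le
      linarith
    have h3 : ((1 + c * t) ^ 4)⁻¹ ≤ ((c * 4 ^ k) ^ 4)⁻¹ := inv_anti₀ (by positivity) h2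
    have h4 : ((c * 4 ^ k) ^ 4)⁻¹ = 256 * (c ^ 4)⁻¹ * (1 / 256) ^ (k + 1) := by
      rw [mul_pow, mul_inv, ← pow_mul, mul_comm k 4, pow_mul, pow_succ (1 / 256 : ℝ) k, one_div,
        inv_pow]
      norm_num
      ring
    rw [h4] at h3
    refine h3.trans ?_
    have h5 : 0 ≤ (1 / 256 : ℝ) ^ (k + 1) := by positivity
    refine mul_le_mul_of_nonneg_right ?_ h5
    linarith

theorem T07_w2 {u : ℝ} (hu : 0 ≤ u) {j : ℕ} (h : ∀ k, k < j → (2 : ℝ) ^ k < u) :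
    ((1 + u) ^ 2)⁻¹ ≤ 4 * (1 / 4) ^ j := by
  rcases j with _ | k
  · rw [pow_zero, mul_one]
    have h1 : ((1 + u) ^ 2)⁻¹ ≤ 1 := inv_le_one_of_one_le₀ (one_le_pow₀ (by linarith))
    linarith
  · have h1 := h k (Nat.lt_succ_self k)
    have h2 : ((2 : ℝ) ^ k) ^ 2 ≤ (1 + u) ^ 2 := pow_le_pow_left₀ (by positivity) (by linarith) 2
    have h3 : ((1 + u) ^ 2)⁻¹ ≤ (((2 : ℝ) ^ k) ^ 2)⁻¹ := inv_anti₀ (by positivity) h2
    refine h3.trans (le_of_eq ?_)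
    rw [← pow_mul, mul_comm k 2, pow_mul, pow_succ (1 / 4 : ℝ) k, one_div, inv_pow]
    norm_num
    ring

theorem T07_geom (T : Finset (ℕ × ℕ)) :
    ∑ l ∈ T, (1 / 64 : ℝ) ^ l.1 * (1 / 2) ^ l.2 ≤ 4 := by
  classical
  have h1 : T ⊆ (T.image Prod.fst) ×ˢ (T.image Prod.snd) := by
    intro l hl
    rw [Finset.mem_product]
    exact ⟨Finset.mem_image_of_mem _ hl, Finset.mem_image_of_mem _ hl⟩
  have h2 : ∑ l ∈ T, (1 / 64 : ℝ) ^ l.1 * (1 / 2) ^ l.2 ≤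
      ∑ l ∈ (T.image Prod.fst) ×ˢ (T.image Prod.snd), (1 / 64 : ℝ) ^ l.1 * (1 / 2) ^ l.2 :=
    Finset.sum_le_sum_of_subset_of_nonneg h1 fun _ _ _ => by positivity
  rw [Finset.sum_product, ] at h2
  have h3 : ∑ i ∈ T.image Prod.fst, ∑ j ∈ T.image Prod.snd, (1 / 64 : ℝ) ^ i * (1 / 2) ^ j =
      (∑ i ∈ T.image Prod.fst, (1 / 64 : ℝ) ^ i) * ∑ j ∈ T.image Prod.snd, (1 / 2 : ℝ) ^ j := by
    rw [Finset.sum_mul_sum]
  rw [h3] at h2
  have h4 : ∑ i ∈ T.image Prod.fst, (1 / 64 : ℝ) ^ i ≤ 2 := by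
    have := (summable_geometric_of_lt_one (r := (1 / 64 : ℝ)) (by norm_num) (by norm_num)).sum_le_tsum
      (T.image Prod.fst) (fun _ _ => by positivity)
    rw [tsum_geometric_of_lt_one (by norm_num) (by norm_num)] at this
    norm_num at this ⊢
    linarith
  have h5 : ∑ j ∈ T.image Prod.snd, (1 / 2 : ℝ) ^ j ≤ 2 := by
    have := (summable_geometric_of_lt_one (r := (1 / 2 : ℝ)) (by norm_num) (by norm_num)).sum_le_tsum
      (T.image Prod.snd) (fun _ _ => by positivity)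
    rw [tsum_geometric_of_lt_one (by norm_num) (by norm_num)] at this
    norm_num at this ⊢
    linarith
  have h6 : 0 ≤ ∑ j ∈ T.image Prod.snd, (1 / 2 : ℝ) ^ j := Finset.sum_nonneg fun _ _ => by positivity
  nlinarith [mul_le_mul h4 h5 h6 (by norm_num : (0 : ℝ) ≤ 2)]

/-- the core: x real, eta > 0 -/
theorem T07_core {c x η : ℝ} (hc : 0 < c) (hη : 0 < η) (S : Finset (ℕ × ℕ))
    (hS : ∀ s ∈ S, Nat.Coprime (s.1 + 1) (s.2 + 1)) :
    ∑ s ∈ S, ((1 + c * (((s.2 : ℝ) + 1) ^ 2 * η)) ^ 4)⁻¹ *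
      ((1 + |x - ((s.1 : ℝ) + 1) / ((s.2 : ℝ) + 1)| / η) ^ 2)⁻¹ ≤
      12 * (256 * (1 + (c ^ 4)⁻¹)) * 4 := by
  classical
  set W : ℝ := 256 * (1 + (c ^ 4)⁻¹) with hW
  have hW0 : 0 ≤ W := by rw [hW]; positivity
  choose li hli hli' using fun s : ℕ × ℕ => T07_lev (q := 4) (by norm_num) (((s.2 : ℝ) + 1) ^ 2 * η)
  choose lj hlj hlj' using fun s : ℕ × ℕ => T07_lev (q := 2) (by norm_num)
    (|x - ((s.1 : ℝ) + 1) / ((s.2 : ℝ) + 1)| / η)
  have h1 : ∀ s ∈ S, ((1 + c * (((s.2 : ℝ) + 1) ^ 2 * η)) ^ 4)⁻¹ *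
      ((1 + |x - ((s.1 : ℝ) + 1) / ((s.2 : ℝ) + 1)| / η) ^ 2)⁻¹ ≤
      (fun l : ℕ × ℕ => W * (1 / 256) ^ l.1 * (4 * (1 / 4) ^ l.2)) (li s, lj s) := by
    intro s _
    refine mul_le_mul (T07_w1 hc (by positivity) (hli' s)) (T07_w2 (by positivity) (hlj' s))
      (by positivity) (by positivity)
  refine (Finset.sum_le_sum h1).trans ?_
  rw [Finset.sum_comp (fun l : ℕ × ℕ => W * (1 / 256) ^ l.1 * (4 * (1 / 4) ^ l.2))
    (fun s => (li s, lj s))]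
  have h2 : ∀ l ∈ S.image (fun s => (li s, lj s)),
      (S.filter (fun s => (li s, lj s) = l)).card • (W * (1 / 256 : ℝ) ^ l.1 * (4 * (1 / 4) ^ l.2)) ≤
      12 * W * ((1 / 64) ^ l.1 * (1 / 2) ^ l.2) := by
    intro l _
    have hcount : ((S.filter (fun s => (li s, lj s) = l)).card : ℝ) ≤ 3 * (2 ^ l.2 * 4 ^ l.1) := by
      have h3 := T07_frac_count (x := x) (r := 2 ^ l.2 * η) (B := Real.sqrt (4 ^ l.1 / η))
        (S.filter (fun s => (li s, lj s) = l)) (by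
          intro s hs
          rw [Finset.mem_filter] at hs
          obtain ⟨hs1, hs2⟩ := hs
          have e1 : li s = l.1 := congrArg Prod.fst hs2
          have e2 : lj s = l.2 := congrArg Prod.snd hs2
          refine ⟨hS s hs1, ?_, ?_⟩
          · refine Real.le_sqrt_of_sq_le ?_
            rw [le_div_iff₀ hη, ← e1]
            exact hli s
          · have := hlj s
            rw [e2, div_le_iff₀ hη] at this
            exact this) (by positivity)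
      rw [Real.sq_sqrt (by positivity)] at h3
      have h4 : 2 * (2 ^ l.2 * η) * (4 ^ l.1 / η) = 2 * ((2 : ℝ) ^ l.2 * 4 ^ l.1) := by
        field_simp
      rw [h4] at h3
      have h5 : (1 : ℝ) ≤ 2 ^ l.2 * 4 ^ l.1 :=
        one_le_mul_of_one_le_of_one_le (one_le_pow₀ (by norm_num)) (one_le_pow₀ (by norm_num))
      linarith
    rw [nsmul_eq_mul]
    have h6 : 0 ≤ W * (1 / 256 : ℝ) ^ l.1 * (4 * (1 / 4) ^ l.2) := by positivity
    refine (mul_le_mul_of_nonneg_right hcount h6).trans (le_of_eq ?_)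
    have e1 : (4 : ℝ) ^ l.1 * (1 / 256) ^ l.1 = (1 / 64) ^ l.1 := by
      rw [← mul_pow]
      norm_num
    have e2 : (2 : ℝ) ^ l.2 * (1 / 4) ^ l.2 = (1 / 2) ^ l.2 := by
      rw [← mul_pow]
      norm_num
    rw [← e1, ← e2]
    ring
  refine (Finset.sum_le_sum h2).trans ?_
  rw [← Finset.mul_sum]
  exact mul_le_mul_of_nonneg_left (T07_geom _) (by positivity)

/-- Row T07. The fraction sum is bounded (spacing of reduced fractions). -/
theorem Sf_bdd {cs : ℝ} (hcs : 0 < cs) : ∃ C : ℝ, 0 ≤ C ∧ ∀ ε Y K y : ℝ, 0 < ε → ε ≤ 1 / 2 →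
    Real.exp (-2) ≤ Y → 1 ≤ K → Y ≤ y → y ≤ Real.exp 2 * Y →
    Summable (fun x : ℕ × ℕ => if Nat.Coprime (x.1 + 1) (x.2 + 1) then
      sf cs ε Y K y (x.1 + 1) (x.2 + 1) else 0) ∧ Sf cs ε Y K y ≤ C := by
  classical
  set c : ℝ := Real.sqrt (cs * Real.exp (-2)) with hc
  have hc0 : 0 < c := Real.sqrt_pos.2 (by positivity)
  refine ⟨12 * (256 * (1 + (c ^ 4)⁻¹)) * 4, by positivity, ?_⟩
  intro ε Y K y hε _ hY hK hYy _
  have hY0 : 0 < Y := lt_of_lt_of_le (Real.exp_pos _) hY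
  have hy0 : 0 < y := lt_of_lt_of_le hY0 hYy
  set x : ℝ := Real.sqrt (y / cs) with hx
  have hx0 : 0 < x := Real.sqrt_pos.2 (by positivity)
  have hxx : cs * x ^ 2 = y := by
    rw [hx, Real.sq_sqrt (by positivity)]
    field_simp
  set η : ℝ := ε * Y / (cs * x) with hη
  have hη0 : 0 < η := by positivity
  have hηe : cs * x * η = ε * Y := by
    rw [hη]
    field_simp
  have hcx : c ≤ cs * x := by
    rw [hc]
    refine Real.sqrt_le_iff.2 ⟨by positivity, ?_⟩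
    have : (cs * x) ^ 2 = cs * y := by
      rw [← hxx]
      ring
    rw [this]
    exact mul_le_mul_of_nonneg_left (hY.trans hYy) hcs.le
  have hterm : ∀ s : ℕ × ℕ, sf cs ε Y K y (s.1 + 1) (s.2 + 1) ≤
      ((1 + c * (((s.2 : ℝ) + 1) ^ 2 * η)) ^ 4)⁻¹ *
      ((1 + |x - ((s.1 : ℝ) + 1) / ((s.2 : ℝ) + 1)| / η) ^ 2)⁻¹ := by
    intro s
    unfold sf
    push_cast
    set b : ℝ := (s.2 : ℝ) + 1 with hb
    have hb0 : 0 < b := by rw [hb]; positivity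
    set z : ℝ := ((s.1 : ℝ) + 1) / b with hz
    have hz0 : 0 < z := by rw [hz]; positivity
    refine mul_le_mul ?_ ?_ (by positivity) (by positivity)
    · refine inv_anti₀ (by positivity) (pow_le_pow_left₀ (by positivity) ?_ 4)
      have h1 : c * (b ^ 2 * η) ≤ cs * x * (b ^ 2 * η) :=
        mul_le_mul_of_nonneg_right hcx (by positivity)
      have h2 : cs * x * (b ^ 2 * η) = b ^ 2 * (ε * Y) := by
        rw [← hηe]
        ring
      have h3 : b ^ 2 * (ε * Y) ≤ b ^ 2 * K * (ε * Y) := by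
        have : 0 ≤ b ^ 2 * (ε * Y) := by positivity
        nlinarith
      linarith
    · refine inv_anti₀ (by positivity) (pow_le_pow_left₀ (by positivity) ?_ 2)
      have h1 : y - cs * z ^ 2 = cs * (x - z) * (x + z) := by
        rw [← hxx]
        ring
      have h2 : cs * x * |x - z| ≤ |y - cs * z ^ 2| := by
        rw [h1, abs_mul, abs_mul, abs_of_pos hcs, abs_of_pos (by positivity : 0 < x + z)]
        have : 0 ≤ cs * |x - z| := by positivity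
        nlinarith
      have h3 : |x - z| / η ≤ |y - cs * z ^ 2| / (ε * Y) := by
        rw [div_le_div_iff₀ hη0 (by positivity), ← hηe]
        nlinarith
      linarith
  have hnn : ∀ s : ℕ × ℕ, 0 ≤ (if Nat.Coprime (s.1 + 1) (s.2 + 1) then
      sf cs ε Y K y (s.1 + 1) (s.2 + 1) else 0) := by
    intro s
    split_ifs
    · unfold sf
      have : 0 < K := by linarith
      positivity
    · exact le_rfl
  have hfin : ∀ S : Finset (ℕ × ℕ), ∑ s ∈ S, (if Nat.Coprime (s.1 + 1) (s.2 + 1) then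
      sf cs ε Y K y (s.1 + 1) (s.2 + 1) else 0) ≤ 12 * (256 * (1 + (c ^ 4)⁻¹)) * 4 := by
    intro S
    rw [← Finset.sum_filter]
    refine (Finset.sum_le_sum fun s _ => hterm s).trans ?_
    exact T07_core hc0 hη0 _ fun s hs => (Finset.mem_filter.1 hs).2
  refine ⟨summable_of_sum_le hnn hfin, ?_⟩
  unfold Sf
  exact Real.tsum_le_of_sum_le hnn hfin

end TT
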