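import Pool.Agent.Lib.MP_0f5a55_nt.TT.T07

open Complex MeasureTheory Set Filter Topology
open scoped Real ComplexConjugate

namespace TT

private noncomputable def T08_k (δ α y : ℝ) : ℝ := ((1 + |y - α| / δ) ^ 2)⁻¹

private theorem T08_k_nonneg {δ : ℝ} (hδ : 0 < δ) (α y : ℝ) : 0 ≤ T08_k δ α y := by
  unfold T08_k
  positivity

private theorem T08_k_cont {δ : ℝ} (hδ : 0 < δ) (α : ℝ) : Continuous (T08_k δ α) := by
  unfold T08_k
  refine Continuous.inv₀ (by fun_prop) (fun y => ?_)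
  have : 0 < 1 + |y - α| / δ := by positivity
  positivity

private theorem T08_ker {δ : ℝ} (hδ : 0 < δ) (α a b : ℝ) :
    ∫ y in Icc a b, T08_k δ α y ≤ π * δ := by
  have hI : Integrable (fun y : ℝ => (1 + ((y - α) / δ) ^ 2)⁻¹) :=
    (integrable_inv_one_add_sq.comp_div hδ.ne').comp_sub_right α
  have hval : ∫ y : ℝ, (1 + ((y - α) / δ) ^ 2)⁻¹ = π * δ := by
    rw [integral_sub_right_eq_self (fun y : ℝ => (1 + (y / δ) ^ 2)⁻¹) α,
      Measure.integral_comp_div (fun y : ℝ => (1 + y ^ 2)⁻¹) δ, integral_univ_inv_one_add_sq,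
      abs_of_pos hδ, smul_eq_mul, mul_comm]
  rw [← hval]
  have hle : ∀ y : ℝ, T08_k δ α y ≤ (1 + ((y - α) / δ) ^ 2)⁻¹ := by
    intro y
    unfold T08_k
    apply inv_anti₀ (by positivity)
    have h1 : ((y - α) / δ) ^ 2 = (|y - α| / δ) ^ 2 := by
      rw [div_pow, div_pow, sq_abs]
    rw [h1]
    have h2 : 0 ≤ |y - α| / δ := by positivity
    nlinarith
  calc ∫ y in Icc a b, T08_k δ α y ≤ ∫ y in Icc a b, (1 + ((y - α) / δ) ^ 2)⁻¹ :=
        setIntegral_mono_on (T08_k_cont hδ α).continuousOn.integrableOn_Icc hI.integrableOn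
          measurableSet_Icc (fun y _ => hle y)
    _ ≤ ∫ y : ℝ, (1 + ((y - α) / δ) ^ 2)⁻¹ :=
        setIntegral_le_integral hI (Eventually.of_forall fun y => by
          show (0:ℝ) ≤ (1 + ((y - α) / δ) ^ 2)⁻¹
          positivity)

private theorem T08_far {δ α Y : ℝ} (hδ : 0 < δ) (hY : 0 < Y)
    (hα : 2 * (Real.exp 2 * Y) < α) :
    ∫ y in Icc Y (Real.exp 2 * Y), T08_k δ α y ≤ (2 * δ / α) ^ 2 * (Real.exp 2 * Y) := by
  have he : 1 ≤ Real.exp 2 := Real.one_le_exp (by norm_num)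
  have hYe : Y ≤ Real.exp 2 * Y := by nlinarith
  have hα0 : 0 < α := by nlinarith
  have hb : ∀ y ∈ Icc Y (Real.exp 2 * Y), ‖T08_k δ α y‖ ≤ (2 * δ / α) ^ 2 := by
    intro y hy
    rw [Real.norm_of_nonneg (T08_k_nonneg hδ α y)]
    unfold T08_k
    have h1 : α / 2 ≤ |y - α| := by
      rw [abs_sub_comm]
      exact le_trans (by linarith [hy.2]) (le_abs_self _)
    have h2 : α / (2 * δ) ≤ 1 + |y - α| / δ := by
      have : α / (2 * δ) = (α / 2) / δ := by field_simp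
      rw [this]
      have := div_le_div_of_nonneg_right h1 hδ.le
      linarith
    have h3 : 0 < α / (2 * δ) := by positivity
    calc ((1 + |y - α| / δ) ^ 2)⁻¹ ≤ ((α / (2 * δ)) ^ 2)⁻¹ :=
          inv_anti₀ (by positivity) (pow_le_pow_left₀ h3.le h2 2)
      _ = (2 * δ / α) ^ 2 := by rw [← inv_pow, inv_div]
  have h := norm_setIntegral_le_of_norm_le_const (μ := volume) (s := Icc Y (Real.exp 2 * Y))
    (by rw [Real.volume_Icc]; exact ENNReal.ofReal_lt_top) hb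
  rw [Real.volume_real_Icc_of_le hYe] at h
  refine le_trans (le_abs_self _) (le_trans h ?_)
  apply mul_le_mul_of_nonneg_left _ (by positivity)
  linarith

private noncomputable def T08_C (cs : ℝ) : ℝ := 4 * (1 + 2 * Real.exp 2 / cs) + (1 + 1 / cs)

private theorem T08_C_pos {cs : ℝ} (hcs : 0 < cs) : 0 < T08_C cs := by
  unfold T08_C
  positivity

private theorem T08_one {cs ε Y : ℝ} (hcs : 0 < cs) (hε : 0 < ε) (hε1 : ε ≤ 1 / 2) (hY : 0 < Y)
    (a b : ℝ) (ha : 0 < a) (hb : 0 < b) :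
    ∫ y in Icc Y (Real.exp 2 * Y), T08_k (ε * Y) (cs * (a / b) ^ 2) y ≤
      T08_C cs * (ε * Y) * (1 + a ^ 2 / (b ^ 2 * Y))⁻¹ := by
  have hδ : 0 < ε * Y := by positivity
  set r : ℝ := a ^ 2 / (b ^ 2 * Y) with hr
  have hr0 : 0 < r := by positivity
  have hα : cs * (a / b) ^ 2 = cs * r * Y := by
    rw [hr]
    field_simp
  have hr1 : (0 : ℝ) < 1 + r := by linarith
  have he0 : 0 < Real.exp 2 := Real.exp_pos 2
  have he1 : 1 ≤ Real.exp 2 := Real.one_le_exp (by norm_num)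
  rw [← div_eq_mul_inv, le_div_iff₀ hr1, hα]
  by_cases hc : 2 * (Real.exp 2 * Y) < cs * r * Y
  · have h1 := T08_far hδ hY hc
    have h2 : 2 * Real.exp 2 < cs * r := by
      have : (2 * Real.exp 2) * Y < (cs * r) * Y := by linarith
      exact lt_of_mul_lt_mul_right this hY.le
    have h3 : (2 * (ε * Y) / (cs * r * Y)) ^ 2 * (Real.exp 2 * Y) =
        4 * ε * (ε * Y) * Real.exp 2 / (cs * r) ^ 2 := by
      field_simp
      ring
    rw [h3] at h1
    have hcr : 0 < cs * r := by positivity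
    have h4 : 4 * ε * (ε * Y) * Real.exp 2 / (cs * r) ^ 2 * (1 + r) ≤
        (ε * Y) * (1 + 1 / cs) := by
      have h5 : 4 * ε * Real.exp 2 * (1 + r) ≤ (1 + 1 / cs) * (cs * r) ^ 2 := by
        have h6 : 4 * ε * Real.exp 2 ≤ cs * r := by nlinarith
        have h7 : 1 + r ≤ (1 + 1 / cs) * (cs * r) := by
          have : (1 + 1 / cs) * (cs * r) = cs * r + r := by field_simp
          rw [this]
          linarith
        calc 4 * ε * Real.exp 2 * (1 + r) ≤ (cs * r) * ((1 + 1 / cs) * (cs * r)) :=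
              mul_le_mul h6 h7 hr1.le hcr.le
          _ = (1 + 1 / cs) * (cs * r) ^ 2 := by ring
      have h8 : 4 * ε * (ε * Y) * Real.exp 2 / (cs * r) ^ 2 * (1 + r) =
          (ε * Y) * ((4 * ε * Real.exp 2 * (1 + r)) / (cs * r) ^ 2) := by ring
      rw [h8]
      apply mul_le_mul_of_nonneg_left _ hδ.le
      rw [div_le_iff₀ (by positivity)]
      exact h5
    calc (∫ y in Icc Y (Real.exp 2 * Y), T08_k (ε * Y) (cs * r * Y) y) * (1 + r)
        ≤ 4 * ε * (ε * Y) * Real.exp 2 / (cs * r) ^ 2 * (1 + r) :=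
          mul_le_mul_of_nonneg_right h1 hr1.le
      _ ≤ (ε * Y) * (1 + 1 / cs) := h4
      _ ≤ T08_C cs * (ε * Y) := by
          unfold T08_C
          have : 0 ≤ (ε * Y) * (4 * (1 + 2 * Real.exp 2 / cs)) := by positivity
          linarith
  · rw [not_lt] at hc
    have h2 : cs * r ≤ 2 * Real.exp 2 := by
      have : (cs * r) * Y ≤ (2 * Real.exp 2) * Y := by linarith
      exact le_of_mul_le_mul_right this hY
    have h3 : r ≤ 2 * Real.exp 2 / cs := by
      rw [le_div_iff₀ hcs]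
      linarith
    have h1 := T08_ker hδ (cs * r * Y) Y (Real.exp 2 * Y)
    have h4 : π * (ε * Y) ≤ 4 * (ε * Y) :=
      mul_le_mul_of_nonneg_right (by linarith [Real.pi_lt_d2]) hδ.le
    calc (∫ y in Icc Y (Real.exp 2 * Y), T08_k (ε * Y) (cs * r * Y) y) * (1 + r)
        ≤ (4 * (ε * Y)) * (1 + 2 * Real.exp 2 / cs) :=
          mul_le_mul (h1.trans h4) (by linarith) hr1.le (by positivity)
      _ ≤ T08_C cs * (ε * Y) := by
          unfold T08_C
          have : 0 ≤ (ε * Y) * (1 + 1 / cs) := by positivity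
          linarith

private theorem T08_tel {N : ℝ} (hN : 0 < N) (a : ℕ) :
    (1 + ((a : ℝ) + 1) ^ 2 / N ^ 2)⁻¹ ≤ 2 * N ^ 2 * (1 / (N + a) - 1 / (N + a + 1)) := by
  have ha : (0 : ℝ) ≤ a := Nat.cast_nonneg a
  have h1 : 1 / (N + a) - 1 / (N + a + 1) = 1 / ((N + a) * (N + a + 1)) := by
    have : N + a ≠ 0 := by positivity
    have : N + a + 1 ≠ 0 := by positivity
    field_simp
    ring
  have h2 : (1 + ((a : ℝ) + 1) ^ 2 / N ^ 2)⁻¹ = N ^ 2 / (N ^ 2 + ((a : ℝ) + 1) ^ 2) := by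
    field_simp
  rw [h1, h2, mul_one_div, div_le_div_iff₀ (by positivity) (by positivity)]
  have h3 : (N + a) * (N + a + 1) ≤ 2 * (N ^ 2 + ((a : ℝ) + 1) ^ 2) := by
    nlinarith [sq_nonneg (N - ((a : ℝ) + 1))]
  calc N ^ 2 * ((N + a) * (N + a + 1)) ≤ N ^ 2 * (2 * (N ^ 2 + ((a : ℝ) + 1) ^ 2)) :=
        mul_le_mul_of_nonneg_left h3 (by positivity)
    _ = 2 * N ^ 2 * (N ^ 2 + ((a : ℝ) + 1) ^ 2) := by ring

private theorem T08_sumA {N : ℝ} (hN : 0 < N) (n : ℕ) :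
    ∑ a ∈ Finset.range n, (1 + ((a : ℝ) + 1) ^ 2 / N ^ 2)⁻¹ ≤ 2 * N := by
  have h1 : ∀ m : ℕ, ∑ a ∈ Finset.range m, (1 / (N + a) - 1 / (N + a + 1)) = 1 / N - 1 / (N + m) := by
    intro m
    induction m with
    | zero => simp
    | succ m ih =>
      rw [Finset.sum_range_succ, ih]
      push_cast
      rw [← add_assoc]
      ring
  calc ∑ a ∈ Finset.range n, (1 + ((a : ℝ) + 1) ^ 2 / N ^ 2)⁻¹
      ≤ ∑ a ∈ Finset.range n, 2 * N ^ 2 * (1 / (N + a) - 1 / (N + a + 1)) :=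
        Finset.sum_le_sum fun a _ => T08_tel hN a
    _ = 2 * N ^ 2 * (1 / N - 1 / (N + n)) := by rw [← Finset.mul_sum, h1]
    _ ≤ 2 * N ^ 2 * (1 / N) := by
        apply mul_le_mul_of_nonneg_left _ (by positivity)
        have : (0 : ℝ) ≤ 1 / (N + n) := by positivity
        linarith
    _ = 2 * N := by field_simp

private theorem T08_sumB {x : ℝ} (hx : 0 < x) (n : ℕ) :
    ∑ b ∈ Finset.range n, ((b : ℝ) + 1) * x * ((1 + ((b : ℝ) + 1) ^ 2 * x) ^ 4)⁻¹ ≤ 1 := by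
  have h1 : ∀ m : ℕ, ∑ b ∈ Finset.range m,
      (1 / (1 + (b : ℝ) ^ 2 * x) - 1 / (1 + ((b : ℝ) + 1) ^ 2 * x)) = 1 - 1 / (1 + (m : ℝ) ^ 2 * x) := by
    intro m
    induction m with
    | zero => simp
    | succ m ih =>
      rw [Finset.sum_range_succ, ih]
      push_cast
      ring
  have h2 : ∀ b : ℕ, ((b : ℝ) + 1) * x * ((1 + ((b : ℝ) + 1) ^ 2 * x) ^ 4)⁻¹ ≤
      1 / (1 + (b : ℝ) ^ 2 * x) - 1 / (1 + ((b : ℝ) + 1) ^ 2 * x) := by
    intro b
    have hb : (0 : ℝ) ≤ b := Nat.cast_nonneg b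
    set P : ℝ := 1 + (b : ℝ) ^ 2 * x with hP
    set Q : ℝ := 1 + ((b : ℝ) + 1) ^ 2 * x with hQ
    have hP1 : 1 ≤ P := by
      rw [hP]
      have : 0 ≤ (b : ℝ) ^ 2 * x := by positivity
      linarith
    have hPQ : P ≤ Q := by
      rw [hP, hQ]
      nlinarith [mul_nonneg hb hx.le]
    have hP0 : 0 < P := by linarith
    have hQ0 : 0 < Q := by linarith
    have h3 : 1 / P - 1 / Q = (2 * b + 1) * x / (P * Q) := by
      rw [div_sub_div _ _ hP0.ne' hQ0.ne']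
      congr 1
      rw [hP, hQ]
      ring
    rw [h3, ← div_eq_mul_inv, div_le_div_iff₀ (by positivity) (by positivity)]
    have h4 : P * Q ≤ Q ^ 4 := by
      have hQ1 : 1 ≤ Q := hP1.trans hPQ
      calc P * Q ≤ Q * Q := mul_le_mul_of_nonneg_right hPQ hQ0.le
        _ = Q ^ 2 := by ring
        _ ≤ Q ^ 4 := pow_le_pow_right₀ hQ1 (by norm_num)
    have h5 : ((b : ℝ) + 1) * x ≤ (2 * b + 1) * x := mul_le_mul_of_nonneg_right (by linarith) hx.le
    exact mul_le_mul h5 h4 (by positivity) (by positivity)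
  calc _ ≤ ∑ b ∈ Finset.range n, (1 / (1 + (b : ℝ) ^ 2 * x) - 1 / (1 + ((b : ℝ) + 1) ^ 2 * x)) :=
        Finset.sum_le_sum fun b _ => h2 b
    _ = 1 - 1 / (1 + (n : ℝ) ^ 2 * x) := h1 n
    _ ≤ 1 := by
        have : (0 : ℝ) ≤ 1 / (1 + (n : ℝ) ^ 2 * x) := by positivity
        linarith

private theorem T08_sf_eq (cs ε Y K y : ℝ) (a b : ℕ) :
    sf cs ε Y K y a b = ((1 + (b : ℝ) ^ 2 * K * (ε * Y)) ^ 4)⁻¹ * T08_k (ε * Y) (cs * ((a : ℝ) / b) ^ 2) y :=
  rfl

private theorem T08_sf_cont {cs ε Y K : ℝ} (hδ : 0 < ε * Y) (a b : ℕ) :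
    Continuous (fun y => sf cs ε Y K y a b) := by
  simp_rw [T08_sf_eq]
  exact continuous_const.mul (T08_k_cont hδ _)

private theorem T08_total {cs ε Y K : ℝ} (hcs : 0 < cs) (hε : 0 < ε) (hε1 : ε ≤ 1 / 2) (hY : 0 < Y)
    (hK : 0 < K) :
    ∑' x : ℕ × ℕ, ∫⁻ y in Icc Y (Real.exp 2 * Y),
      ENNReal.ofReal (sf cs ε Y K y (x.1 + 1) (x.2 + 1)) ≤
      ENNReal.ofReal (2 * T08_C cs * (√Y / K)) := by
  have hδ : 0 < ε * Y := by positivity
  have hC := T08_C_pos hcs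
  have hsY : 0 < √Y := Real.sqrt_pos.2 hY
  have hsq : √Y ^ 2 = Y := Real.sq_sqrt hY.le
  have hone : ∀ a b : ℕ, ∫⁻ y in Icc Y (Real.exp 2 * Y),
      ENNReal.ofReal (sf cs ε Y K y (a + 1) (b + 1)) ≤
      ENNReal.ofReal (((1 + ((b : ℝ) + 1) ^ 2 * (K * (ε * Y))) ^ 4)⁻¹ * (T08_C cs * (ε * Y)) *
        (1 + ((a : ℝ) + 1) ^ 2 / (((b : ℝ) + 1) * √Y) ^ 2)⁻¹) := by
    intro a b
    have hcont := T08_sf_cont (cs := cs) (K := K) hδ (a + 1) (b + 1)
    rw [← ofReal_integral_eq_lintegral_ofReal hcont.continuousOn.integrableOn_Icc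
      (Eventually.of_forall fun y => sf_nonneg hε hY hK.le (a + 1) (b + 1))]
    apply ENNReal.ofReal_le_ofReal
    simp_rw [T08_sf_eq]
    rw [integral_const_mul]
    have h1 := T08_one hcs hε hε1 hY ((a : ℝ) + 1) ((b : ℝ) + 1) (by positivity) (by positivity)
    have h2 : (((b : ℝ) + 1) * √Y) ^ 2 = ((b : ℝ) + 1) ^ 2 * Y := by rw [mul_pow, hsq]
    rw [h2]
    push_cast
    have h3 : (1 + ((b : ℝ) + 1) ^ 2 * K * (ε * Y)) = (1 + ((b : ℝ) + 1) ^ 2 * (K * (ε * Y))) := by ring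
    rw [h3, mul_assoc]
    apply mul_le_mul_of_nonneg_left h1 (by positivity)
  have hb : ∀ b : ℕ, ∑' a : ℕ, ∫⁻ y in Icc Y (Real.exp 2 * Y),
      ENNReal.ofReal (sf cs ε Y K y (a + 1) (b + 1)) ≤
      ENNReal.ofReal (2 * T08_C cs * (√Y / K) * (((b : ℝ) + 1) * (K * (ε * Y)) *
        ((1 + ((b : ℝ) + 1) ^ 2 * (K * (ε * Y))) ^ 4)⁻¹)) := by
    intro b
    refine (ENNReal.tsum_le_tsum fun a => hone a b).trans ?_
    refine ENNReal.tsum_le_of_sum_range_le fun n => ?_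
    rw [← ENNReal.ofReal_sum_of_nonneg (fun a _ => by positivity)]
    apply ENNReal.ofReal_le_ofReal
    rw [← Finset.mul_sum]
    have h1 := T08_sumA (N := ((b : ℝ) + 1) * √Y) (by positivity) n
    calc _ ≤ ((1 + ((b : ℝ) + 1) ^ 2 * (K * (ε * Y))) ^ 4)⁻¹ * (T08_C cs * (ε * Y)) *
          (2 * (((b : ℝ) + 1) * √Y)) := mul_le_mul_of_nonneg_left h1 (by positivity)
      _ = _ := by field_simp
  rw [ENNReal.tsum_prod (f := fun a b : ℕ => ∫⁻ y in Icc Y (Real.exp 2 * Y),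
      ENNReal.ofReal (sf cs ε Y K y (a + 1) (b + 1))), ENNReal.tsum_comm]
  refine (ENNReal.tsum_le_tsum hb).trans ?_
  refine ENNReal.tsum_le_of_sum_range_le fun n => ?_
  rw [← ENNReal.ofReal_sum_of_nonneg (fun b _ => by positivity)]
  apply ENNReal.ofReal_le_ofReal
  rw [← Finset.mul_sum]
  have h1 := T08_sumB (x := K * (ε * Y)) (by positivity) n
  calc _ ≤ 2 * T08_C cs * (√Y / K) * 1 := mul_le_mul_of_nonneg_left h1 (by positivity)
    _ = _ := by ring

/-- Row T08. Mean value of the fraction sum. -/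
theorem Sf_int {cs : ℝ} (hcs : 0 < cs) : ∃ C : ℝ, 0 ≤ C ∧ ∀ ε Y K : ℝ, 0 < ε → ε ≤ 1 / 2 →
    Real.exp (-2) ≤ Y → 1 ≤ K →
    IntegrableOn (Sf cs ε Y K) (Icc Y (Real.exp 2 * Y)) ∧
      ∫ y in Icc Y (Real.exp 2 * Y), Sf cs ε Y K y ≤ C * (√Y / K) := by
  refine ⟨2 * T08_C cs, by have := T08_C_pos hcs; positivity, ?_⟩
  intro ε Y K hε hε1 hY1 hK1
  have hY : 0 < Y := lt_of_lt_of_le (Real.exp_pos _) hY1
  have hK : 0 < K := by linarith
  have hδ : 0 < ε * Y := by positivity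
  have hC := T08_C_pos hcs
  set f : ℕ × ℕ → ℝ → ℝ := fun x y => if Nat.Coprime (x.1 + 1) (x.2 + 1) then
      sf cs ε Y K y (x.1 + 1) (x.2 + 1) else 0 with hf
  have hf0 : ∀ x y, 0 ≤ f x y := by
    intro x y
    rw [hf]
    simp only
    split_ifs
    · exact sf_nonneg hε hY hK.le _ _
    · exact le_refl _
  have hfle : ∀ x y, f x y ≤ sf cs ε Y K y (x.1 + 1) (x.2 + 1) := by
    intro x y
    rw [hf]
    simp only
    split_ifs
    · exact le_refl _
    · exact sf_nonneg hε hY hK.le _ _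
  have hfc : ∀ x, Continuous (f x) := by
    intro x
    by_cases h : Nat.Coprime (x.1 + 1) (x.2 + 1)
    · have h1 : f x = fun y => sf cs ε Y K y (x.1 + 1) (x.2 + 1) := by
        funext y
        exact if_pos h
      rw [h1]
      exact T08_sf_cont hδ _ _
    · have h1 : f x = fun _ => 0 := by
        funext y
        exact if_neg h
      rw [h1]
      exact continuous_const
  set G : ℝ → ENNReal := fun y => ∑' x : ℕ × ℕ, ENNReal.ofReal (f x y) with hG
  have hGm : Measurable G := by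
    rw [hG]
    exact Measurable.tsum fun x => ENNReal.measurable_ofReal.comp (hfc x).measurable
  have hSf : ∀ y, Sf cs ε Y K y = (G y).toReal := by
    intro y
    rw [hG]
    simp only
    rw [ENNReal.tsum_toReal_eq (fun x => ENNReal.ofReal_ne_top)]
    unfold Sf
    refine tsum_congr fun x => ?_
    rw [ENNReal.toReal_ofReal (hf0 x y)]
  have hint : ∫⁻ y in Icc Y (Real.exp 2 * Y), G y ≤ ENNReal.ofReal (2 * T08_C cs * (√Y / K)) := by
    have h0 : ∫⁻ y in Icc Y (Real.exp 2 * Y), G y =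
        ∑' x : ℕ × ℕ, ∫⁻ y in Icc Y (Real.exp 2 * Y), ENNReal.ofReal (f x y) :=
      lintegral_tsum (fun x => (ENNReal.measurable_ofReal.comp (hfc x).measurable).aemeasurable)
    rw [h0]
    refine le_trans (ENNReal.tsum_le_tsum fun x => ?_) (T08_total hcs hε hε1 hY hK)
    exact lintegral_mono fun y => ENNReal.ofReal_le_ofReal (hfle x y)
  have hne : ∫⁻ y in Icc Y (Real.exp 2 * Y), G y ≠ ⊤ := ne_top_of_le_ne_top ENNReal.ofReal_ne_top hint
  have hSf' : Sf cs ε Y K = fun y => (G y).toReal := funext hSf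
  constructor
  · rw [hSf']
    exact integrable_toReal_of_lintegral_ne_top hGm.aemeasurable hne
  · rw [hSf', integral_toReal hGm.aemeasurable (ae_lt_top hGm hne)]
    calc (∫⁻ y in Icc Y (Real.exp 2 * Y), G y).toReal
        ≤ (ENNReal.ofReal (2 * T08_C cs * (√Y / K))).toReal := ENNReal.toReal_mono ENNReal.ofReal_ne_top hint
      _ = 2 * T08_C cs * (√Y / K) := ENNReal.toReal_ofReal (by positivity)

end TT
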