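import Pool.Agent.Lib.MP_0f5a55_nt.TT.T07
import Pool.Agent.Lib.MP_0f5a55_nt.TT.T08

open Complex MeasureTheory Set Filter Topology
open scoped Real ComplexConjugate

namespace TT

private theorem T09_nonneg (cs ε Y K y : ℝ) : 0 ≤ Sf cs ε Y K y := by
  refine tsum_nonneg fun x => ?_
  split_ifs
  · unfold sf
    positivity
  · exact le_rfl

private theorem T09_log {x : ℝ} (hx : 0 ≤ x) : Real.log (1 + x) ≤ 2 * √x := by
  have h1 : 0 < √(1 + x) := Real.sqrt_pos.2 (by linarith)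
  have h2 : Real.log (1 + x) = 2 * Real.log (√(1 + x)) := by
    rw [Real.log_sqrt (by linarith)]
    ring
  have h3 := Real.log_le_sub_one_of_pos h1
  have h4 : √(1 + x) ≤ 1 + √x := by
    rw [Real.sqrt_le_left (by positivity)]
    nlinarith [Real.sq_sqrt hx, Real.sqrt_nonneg x]
  linarith

private theorem T09_half {δ R : ℝ} (hδ : 0 < δ) (hR : 0 ≤ R) :
    ∫ t in (0 : ℝ)..R, 1 / (δ + |t|) ≤ 2 * √(R / δ) := by
  have h1 : ∫ t in (0 : ℝ)..R, 1 / (δ + |t|) = ∫ t in (0 : ℝ)..R, 1 / (δ + t) := by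
    refine intervalIntegral.integral_congr fun t ht => ?_
    rw [uIcc_of_le hR] at ht
    show 1 / (δ + |t|) = 1 / (δ + t)
    rw [abs_of_nonneg ht.1]
  have h2 : ∫ t in (0 : ℝ)..R, 1 / (δ + t) = Real.log ((δ + R) / δ) := by
    have := intervalIntegral.integral_comp_add_left (f := fun t : ℝ => 1 / t) (a := 0) (b := R) δ
    rw [this, add_zero, integral_one_div_of_pos hδ (by linarith)]
  rw [h1, h2]
  have h3 : (δ + R) / δ = 1 + R / δ := by
    field_simp
  rw [h3]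
  exact T09_log (by positivity)

private theorem T09_cont {δ : ℝ} (hδ : 0 < δ) (x0 : ℝ) : Continuous (fun y : ℝ => 1 / (δ + |y - x0|)) := by
  refine Continuous.div continuous_const (by fun_prop) fun y => ?_
  positivity

private theorem T09_ker {δ R : ℝ} (hδ : 0 < δ) (hR : 0 ≤ R) (x0 : ℝ) :
    Integrable (fun y => (Icc (x0 - R) (x0 + R)).indicator (fun y => 1 / (δ + |y - x0|)) y) ∧
    ∫ y, (Icc (x0 - R) (x0 + R)).indicator (fun y => 1 / (δ + |y - x0|)) y ≤ 4 * √(R / δ) := by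
  have hc := T09_cont hδ x0
  constructor
  · exact (hc.continuousOn.integrableOn_compact isCompact_Icc).integrable_indicator measurableSet_Icc
  · rw [integral_indicator measurableSet_Icc, integral_Icc_eq_integral_Ioc,
      ← intervalIntegral.integral_of_le (by linarith)]
    have h0 := intervalIntegral.integral_comp_sub_right (f := fun t : ℝ => 1 / (δ + |t|)) (a := x0 - R)
      (b := x0 + R) x0
    rw [h0]
    have hc2 : Continuous (fun t : ℝ => 1 / (δ + |t|)) := by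
      refine Continuous.div continuous_const (by fun_prop) fun y => ?_
      positivity
    have e1 : x0 - R - x0 = -R := by ring
    have e2 : x0 + R - x0 = R := by ring
    rw [e1, e2, ← intervalIntegral.integral_add_adjacent_intervals (b := 0)
      (hc2.intervalIntegrable _ _) (hc2.intervalIntegrable _ _)]
    have h1 : ∫ t in (-R)..(0 : ℝ), 1 / (δ + |t|) = ∫ t in (0 : ℝ)..R, 1 / (δ + |t|) := by
      have := intervalIntegral.integral_comp_neg (f := fun t : ℝ => 1 / (δ + |t|)) (a := 0) (b := R)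
      simp only [abs_neg, neg_zero] at this
      exact this.symm
    rw [h1]
    have := T09_half hδ hR
    linarith

private theorem T09_sum (n : ℕ) : ∑ c ∈ Finset.Icc 1 n, 1 / √(c : ℝ) ≤ 2 * √(n : ℝ) := by
  induction n with
  | zero => simp
  | succ n ih =>
    rw [Finset.sum_Icc_succ_top (by omega)]
    have h1 : 0 ≤ √(n : ℝ) := Real.sqrt_nonneg _
    have h2 : 0 < √((n : ℝ) + 1) := Real.sqrt_pos.2 (by positivity)
    have h3 : √(n : ℝ) ≤ √((n : ℝ) + 1) := Real.sqrt_le_sqrt (by linarith)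
    have h4 := Real.sq_sqrt (show (0 : ℝ) ≤ n by positivity)
    have h5 := Real.sq_sqrt (show (0 : ℝ) ≤ (n : ℝ) + 1 by positivity)
    have h6 : 1 / √((n : ℝ) + 1) ≤ 2 * √((n : ℝ) + 1) - 2 * √(n : ℝ) := by
      rw [div_le_iff₀ h2]
      nlinarith
    push_cast
    linarith

/-- the mean value with V -/
private theorem T09_main {cs b0 b1 : ℝ} (hcs : 0 < cs) (hb0 : 0 < b0) : ∃ C : ℝ, 0 ≤ C ∧
    ∀ ε Y K β B V : ℝ, 0 < ε → ε ≤ 1 / 2 → Real.exp (-2) ≤ Y → 1 ≤ K → b0 ≤ β → β ≤ b1 → 0 ≤ B →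
    0 < V → V ^ 2 * (K * √Y * (ε * Y)) = 1 →
    ∀ Th : ℝ → ℝ, Measurable Th → (∀ y, 0 ≤ Th y) →
    (∀ y ∈ Icc Y (Real.exp 2 * Y), ∃ (c : ℕ) (a : ℤ), 1 ≤ c ∧
      Th y ≤ B / (c * (ε * Y + |y - β * a / c|))) →
    IntegrableOn (fun y => Th y * Sf cs ε Y K y) (Icc Y (Real.exp 2 * Y)) ∧
      ∫ y in Icc Y (Real.exp 2 * Y), Th y * Sf cs ε Y K y ≤ C * B * (Y * V) := by
  obtain ⟨C7, hC7, h7⟩ := Sf_bdd hcs
  obtain ⟨C8, hC8, h8⟩ := Sf_int hcs
  refine ⟨C8 + C7 * ((16 / b0 + 8) * 8), by positivity, ?_⟩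
  intro ε Y K β B V hε hε2 hY hK hβ0 hβ1 hB hV hVe Th hTm hT0 hT
  have hY0 : 0 < Y := (Real.exp_pos _).trans_le hY
  have hY8 : 1 ≤ 8 * Y := by
    have h1 : Real.exp (-2) * Real.exp 2 = 1 := by rw [← Real.exp_add]; norm_num
    have h2 : Real.exp 2 ≤ 8 := by
      have h3 : Real.exp 2 = Real.exp 1 ^ 2 := by rw [← Real.exp_nat_mul]; norm_num
      rw [h3]
      nlinarith [Real.exp_one_lt_d9, Real.exp_pos 1]
    nlinarith [Real.exp_pos 2, Real.exp_pos (-2)]
  have he8 : Real.exp 2 ≤ 8 := by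
    have h3 : Real.exp 2 = Real.exp 1 ^ 2 := by rw [← Real.exp_nat_mul]; norm_num
    rw [h3]
    nlinarith [Real.exp_one_lt_d9, Real.exp_pos 1]
  have hK0 : 0 < K := by linarith
  have hβ : 0 < β := by linarith
  have hsY : 0 < √Y := Real.sqrt_pos.2 hY0
  have hsY2 : √Y ^ 2 = Y := Real.sq_sqrt hY0.le
  set δ : ℝ := ε * Y with hδd
  have hδ : 0 < δ := by positivity
  -- V δ ≤ 4 Y
  have hVδ : V * δ ≤ 4 * Y := by
    have h1 : (V * δ) ^ 2 * (K * √Y) = δ := by
      have : (V * δ) ^ 2 * (K * √Y) = V ^ 2 * (K * √Y * δ) * δ := by ring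
      rw [this, hVe, one_mul]
    have h2 : (V * δ) ^ 2 * √Y ≤ δ := by
      have h2a : 0 ≤ (V * δ) ^ 2 * √Y := by positivity
      have h2b : (V * δ) ^ 2 * √Y ≤ (V * δ) ^ 2 * (K * √Y) := by nlinarith
      linarith
    have h3 : δ ≤ √Y ^ 2 / 2 := by
      rw [hsY2, hδd]
      nlinarith
    have h4 : (V * δ) ^ 2 ≤ √Y / 2 := by
      have : (V * δ) ^ 2 * √Y ≤ (√Y / 2) * √Y := by nlinarith
      exact le_of_mul_le_mul_right this hsY
    have h5 : 1 / 3 ≤ √Y := by
      by_contra h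
      push Not at h
      nlinarith
    have h6 : √Y / 2 ≤ (4 * Y) ^ 2 := by
      have h7 : (1 : ℝ) ≤ 32 * √Y ^ 3 := by
        have : (1 / 3 : ℝ) ^ 3 ≤ √Y ^ 3 := pow_le_pow_left₀ (by norm_num) h5 3
        nlinarith
      have h8 : (4 * Y) ^ 2 = (32 * √Y ^ 3) * (√Y / 2) := by
        calc (4 * Y) ^ 2 = 16 * Y ^ 2 := by ring
          _ = 16 * (√Y ^ 2) ^ 2 := by rw [hsY2]
          _ = _ := by ring
      rw [h8]
      nlinarith
    exact le_of_sq_le_sq (h4.trans h6) (by positivity)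
  have hfi := (h8 ε Y K hε hε2 hY hK).1
  have hfI := (h8 ε Y K hε hε2 hY hK).2
  have hfn := T09_nonneg cs ε Y K
  have hf7 : ∀ y ∈ Icc Y (Real.exp 2 * Y), Sf cs ε Y K y ≤ C7 := fun y hy =>
    (h7 ε Y K y hε hε2 hY hK hy.1 hy.2).2
  have hTb : ∀ y ∈ Icc Y (Real.exp 2 * Y), Th y ≤ B / δ := by
    intro y hy
    obtain ⟨c, a, hc, h⟩ := hT y hy
    refine h.trans (div_le_div_of_nonneg_left hB hδ ?_)
    have hc1 : (1 : ℝ) ≤ c := by exact_mod_cast hc
    have := abs_nonneg (y - β * a / c)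
    nlinarith
  have hint : IntegrableOn (fun y => Th y * Sf cs ε Y K y) (Icc Y (Real.exp 2 * Y)) := by
    refine Integrable.bdd_mul (c := B / δ) hfi hTm.aestronglyMeasurable ?_
    refine (ae_restrict_iff' measurableSet_Icc).2 (Eventually.of_forall fun y hy => ?_)
    rw [Real.norm_eq_abs, abs_of_nonneg (hT0 y)]
    exact hTb y hy
  refine ⟨hint, ?_⟩
  -- the index set
  set n : ℕ := ⌊V⌋₊ with hn
  set A : ℕ → Finset ℤ := fun c => Finset.Icc ⌈(Y - V * δ / c) * c / β⌉ ⌊(Real.exp 2 * Y + V * δ / c) * c / β⌋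
    with hA
  set g : ℕ → ℤ → ℝ → ℝ := fun c a y =>
    (Icc (β * a / c - V * δ / c) (β * a / c + V * δ / c)).indicator
      (fun y => 1 / (δ + |y - β * a / c|)) y with hg
  have hgn : ∀ c a y, 0 ≤ g c a y := by
    intro c a y
    refine indicator_nonneg (fun y _ => ?_) y
    positivity
  have hgi : ∀ c : ℕ, ∀ a : ℤ, Integrable (g c a) := by
    intro c a
    exact (T09_ker hδ (by positivity) _).1
  have hgI : ∀ c : ℕ, ∀ a : ℤ, ∫ y, g c a y ≤ 4 * √(V * δ / c / δ) := by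
    intro c a
    exact (T09_ker hδ (by positivity) _).2
  have hpt : ∀ y ∈ Icc Y (Real.exp 2 * Y), Th y * Sf cs ε Y K y ≤
      B / (V * δ) * Sf cs ε Y K y +
        ∑ c ∈ Finset.Icc 1 n, ∑ a ∈ A c, C7 * B * (1 / (c : ℝ)) * g c a y := by
    intro y hy
    have hSn : 0 ≤ ∑ c ∈ Finset.Icc 1 n, ∑ a ∈ A c, C7 * B * (1 / (c : ℝ)) * g c a y := by
      refine Finset.sum_nonneg fun c _ => Finset.sum_nonneg fun a _ => ?_
      have := hgn c a y
      positivity
    obtain ⟨c, a, hc, h⟩ := hT y hy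
    have hc1 : (1 : ℝ) ≤ c := by exact_mod_cast hc
    have hc0 : (0 : ℝ) < c := by linarith
    have hab := abs_nonneg (y - β * a / c)
    by_cases hcV : V < c
    · have h1 : Th y ≤ B / (V * δ) := by
        refine h.trans (div_le_div_of_nonneg_left hB (by positivity) ?_)
        nlinarith [mul_nonneg hc0.le hab]
      have := mul_le_mul_of_nonneg_right h1 (hfn y)
      linarith
    · push Not at hcV
      by_cases hR : V * δ / c < |y - β * a / c|
      · have h1 : Th y ≤ B / (V * δ) := by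
          refine h.trans (div_le_div_of_nonneg_left hB (by positivity) ?_)
          have h2 : V * δ < c * |y - β * a / c| := by
            rw [div_lt_iff₀ hc0] at hR
            linarith
          nlinarith
        have := mul_le_mul_of_nonneg_right h1 (hfn y)
        linarith
      · push Not at hR
        have hcn : c ∈ Finset.Icc 1 n := Finset.mem_Icc.2 ⟨hc, Nat.le_floor hcV⟩
        have hab2 := abs_le.1 hR
        have hmem : y ∈ Icc (β * a / c - V * δ / c) (β * a / c + V * δ / c) :=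
          ⟨by linarith [hab2.1], by linarith [hab2.2]⟩
        have haA : a ∈ A c := by
          rw [hA]
          simp only [Finset.mem_Icc]
          have e1 : (a : ℝ) = (β * a / c) * c / β := by
            field_simp
          constructor
          · rw [Int.ceil_le, e1]
            have : Y - V * δ / c ≤ β * a / c := by linarith [hy.1, hmem.2]
            gcongr
          · rw [Int.le_floor, e1]
            have : β * a / c ≤ Real.exp 2 * Y + V * δ / c := by linarith [hy.2, hmem.1]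
            gcongr
        have h1 : g c a y = 1 / (δ + |y - β * a / c|) := by
          rw [hg]
          exact indicator_of_mem hmem _
        have h2 : Th y * Sf cs ε Y K y ≤ C7 * B * (1 / (c : ℝ)) * g c a y := by
          rw [h1]
          calc Th y * Sf cs ε Y K y ≤ B / (c * (δ + |y - β * a / c|)) * C7 :=
                mul_le_mul h (hf7 y hy) (hfn y) (by positivity)
            _ = _ := by
                field_simp
        have h3 : C7 * B * (1 / (c : ℝ)) * g c a y ≤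
            ∑ c ∈ Finset.Icc 1 n, ∑ a ∈ A c, C7 * B * (1 / (c : ℝ)) * g c a y := by
          refine le_trans ?_ (Finset.single_le_sum (f := fun c : ℕ => ∑ a ∈ A c, C7 * B * (1 / (c : ℝ)) * g c a y)
            (fun c _ => Finset.sum_nonneg fun a _ => ?_) hcn)
          · refine Finset.single_le_sum (f := fun a : ℤ => C7 * B * (1 / (c : ℝ)) * g c a y) (fun a _ => ?_) haA
            have := hgn c a y
            positivity
          · have := hgn c a y
            positivity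
        have h4 : 0 ≤ B / (V * δ) * Sf cs ε Y K y := mul_nonneg (by positivity) (hfn y)
        linarith
  -- integrate
  have hint2 : Integrable (fun y => ∑ c ∈ Finset.Icc 1 n, ∑ a ∈ A c, C7 * B * (1 / (c : ℝ)) * g c a y) :=
    integrable_finset_sum _ fun c _ => integrable_finset_sum _ fun a _ => (hgi c a).const_mul _
  have h1 : ∫ y in Icc Y (Real.exp 2 * Y), Th y * Sf cs ε Y K y ≤
      ∫ y in Icc Y (Real.exp 2 * Y), (B / (V * δ) * Sf cs ε Y K y +
        ∑ c ∈ Finset.Icc 1 n, ∑ a ∈ A c, C7 * B * (1 / (c : ℝ)) * g c a y) :=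
    setIntegral_mono_on hint ((hfi.const_mul _).add hint2.integrableOn) measurableSet_Icc hpt
  rw [integral_add (hfi.const_mul _) hint2.integrableOn, integral_const_mul] at h1
  have h2 : ∫ y in Icc Y (Real.exp 2 * Y), ∑ c ∈ Finset.Icc 1 n, ∑ a ∈ A c, C7 * B * (1 / (c : ℝ)) * g c a y ≤
      ∫ y, ∑ c ∈ Finset.Icc 1 n, ∑ a ∈ A c, C7 * B * (1 / (c : ℝ)) * g c a y := by
    refine setIntegral_le_integral hint2 (Eventually.of_forall fun y => ?_)
    refine Finset.sum_nonneg fun c _ => Finset.sum_nonneg fun a _ => ?_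
    have := hgn c a y
    positivity
  have h3 : ∫ y, ∑ c ∈ Finset.Icc 1 n, ∑ a ∈ A c, C7 * B * (1 / (c : ℝ)) * g c a y =
      ∑ c ∈ Finset.Icc 1 n, ∑ a ∈ A c, C7 * B * (1 / (c : ℝ)) * ∫ y, g c a y := by
    rw [integral_finset_sum _ fun c _ => integrable_finset_sum _ fun a _ => (hgi c a).const_mul _]
    refine Finset.sum_congr rfl fun c _ => ?_
    rw [integral_finset_sum _ fun a _ => (hgi c a).const_mul _]
    refine Finset.sum_congr rfl fun a _ => ?_
    rw [integral_const_mul]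
  have hcard : ∀ c ∈ Finset.Icc 1 n, ((A c).card : ℝ) ≤ Y * c * (16 / b0 + 8) := by
    intro c hc
    have hc1 : (1 : ℝ) ≤ c := by exact_mod_cast (Finset.mem_Icc.1 hc).1
    have hc0 : (0 : ℝ) < c := by linarith
    have h4 : ((A c).card : ℝ) ≤ (Real.exp 2 * Y + V * δ / c) * c / β - (Y - V * δ / c) * c / β + 1 := by
      rw [hA]
      simp only [Int.card_Icc]
      have h5 : ((⌊(Real.exp 2 * Y + V * δ / c) * c / β⌋ + 1 - ⌈(Y - V * δ / c) * c / β⌉).toNat : ℝ) =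
          max ((⌊(Real.exp 2 * Y + V * δ / c) * c / β⌋ + 1 - ⌈(Y - V * δ / c) * c / β⌉ : ℤ) : ℝ) 0 := by
        rw [← Int.cast_natCast, Int.toNat_eq_max]
        push_cast
        rfl
      rw [h5]
      refine max_le ?_ ?_
      · push_cast
        have h6 := Int.floor_le ((Real.exp 2 * Y + V * δ / c) * c / β)
        have h7 := Int.le_ceil ((Y - V * δ / c) * c / β)
        linarith
      · have h6 : (Y - V * δ / c) * c / β ≤ (Real.exp 2 * Y + V * δ / c) * c / β := by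
          have h7 : Y - V * δ / c ≤ Real.exp 2 * Y + V * δ / c := by
            have h8 : Y ≤ Real.exp 2 * Y := by
              nlinarith [Real.add_one_le_exp (2 : ℝ)]
            have h9 : 0 ≤ V * δ / c := by positivity
            linarith
          gcongr
        linarith
    have h5 : (Real.exp 2 * Y + V * δ / c) * c / β - (Y - V * δ / c) * c / β =
        ((Real.exp 2 * Y - Y) * c + 2 * (V * δ)) / β := by
      field_simp
      ring
    rw [h5] at h4
    have h6 : (Real.exp 2 * Y - Y) * c + 2 * (V * δ) ≤ 16 * (Y * c) := by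
      have h7 : Y ≤ Y * c := by nlinarith
      have h8 : Real.exp 2 * Y * c ≤ 8 * Y * c := by gcongr
      nlinarith
    have h7 : ((Real.exp 2 * Y - Y) * c + 2 * (V * δ)) / β ≤ 16 * (Y * c) / b0 := by
      have h8 : 0 ≤ (Real.exp 2 * Y - Y) * c + 2 * (V * δ) := by
        have h9 : 0 ≤ Real.exp 2 * Y - Y := by nlinarith [Real.add_one_le_exp (2 : ℝ)]
        positivity
      exact div_le_div₀ (by positivity) h6 hb0 hβ0
    have h8 : (1 : ℝ) ≤ 8 * (Y * c) := by nlinarith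
    have h9 : Y * c * (16 / b0 + 8) = 16 * (Y * c) / b0 + 8 * (Y * c) := by ring
    rw [h9]
    linarith
  have h4 : ∑ c ∈ Finset.Icc 1 n, ∑ a ∈ A c, C7 * B * (1 / (c : ℝ)) * ∫ y, g c a y ≤
      C7 * B * (Y * (16 / b0 + 8) * 4 * (√V * (2 * √(n : ℝ)))) := by
    calc ∑ c ∈ Finset.Icc 1 n, ∑ a ∈ A c, C7 * B * (1 / (c : ℝ)) * ∫ y, g c a y
        ≤ ∑ c ∈ Finset.Icc 1 n, C7 * B * (Y * (16 / b0 + 8) * 4 * (√V * (1 / √(c : ℝ)))) := by
          refine Finset.sum_le_sum fun c hc => ?_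
          have hc1 : (1 : ℝ) ≤ c := by exact_mod_cast (Finset.mem_Icc.1 hc).1
          have hc0 : (0 : ℝ) < c := by linarith
          have h5 : ∑ a ∈ A c, C7 * B * (1 / (c : ℝ)) * ∫ y, g c a y ≤
              ∑ a ∈ A c, C7 * B * (1 / (c : ℝ)) * (4 * (√V * (1 / √(c : ℝ)))) := by
            refine Finset.sum_le_sum fun a _ => ?_
            refine mul_le_mul_of_nonneg_left ?_ (by positivity)
            refine (hgI c a).trans (le_of_eq ?_)
            have h6 : V * δ / c / δ = V / c := by field_simp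
            rw [h6, Real.sqrt_div hV.le]
            ring
          refine h5.trans ?_
          rw [Finset.sum_const, nsmul_eq_mul]
          calc ((A c).card : ℝ) * (C7 * B * (1 / (c : ℝ)) * (4 * (√V * (1 / √(c : ℝ)))))
              ≤ (Y * c * (16 / b0 + 8)) * (C7 * B * (1 / (c : ℝ)) * (4 * (√V * (1 / √(c : ℝ))))) :=
                mul_le_mul_of_nonneg_right (hcard c hc) (by positivity)
            _ = _ := by
                field_simp
      _ = C7 * B * (Y * (16 / b0 + 8) * 4 * (√V * ∑ c ∈ Finset.Icc 1 n, 1 / √(c : ℝ))) := by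
          simp only [Finset.mul_sum]
      _ ≤ _ := by
          have := T09_sum n
          gcongr
  have h5 : √V * (2 * √(n : ℝ)) ≤ 2 * V := by
    have h6 : √(n : ℝ) ≤ √V := Real.sqrt_le_sqrt (Nat.floor_le hV.le)
    nlinarith [Real.sq_sqrt hV.le, Real.sqrt_nonneg V]
  have h6 : C7 * B * (Y * (16 / b0 + 8) * 4 * (√V * (2 * √(n : ℝ)))) ≤
      C7 * B * (Y * (16 / b0 + 8) * 4 * (2 * V)) := by
    gcongr
  have h7 : B / (V * δ) * ∫ y in Icc Y (Real.exp 2 * Y), Sf cs ε Y K y ≤ C8 * B * (Y * V) := by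
    calc B / (V * δ) * ∫ y in Icc Y (Real.exp 2 * Y), Sf cs ε Y K y ≤ B / (V * δ) * (C8 * (√Y / K)) :=
          mul_le_mul_of_nonneg_left hfI (by positivity)
      _ = C8 * B * (√Y / (V * δ * K)) := by
          field_simp
      _ = C8 * B * (Y * V) := by
          congr 1
          rw [div_eq_iff (by positivity)]
          have : Y * V * (V * δ * K) = √Y * (V ^ 2 * (K * √Y * δ)) := by
            nth_rewrite 1 [← hsY2]
            ring
          rw [this, hVe, mul_one]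
  calc ∫ y in Icc Y (Real.exp 2 * Y), Th y * Sf cs ε Y K y
      ≤ C8 * B * (Y * V) + C7 * B * (Y * (16 / b0 + 8) * 4 * (2 * V)) := by
        linarith
    _ = _ := by ring

private theorem T09_V {ε Y K : ℝ} (hε : 0 < ε) (hY : 0 < Y) (hK : 0 < K) :
    0 < (K * √Y * (ε * Y)) ^ (-(1 / 2 : ℝ)) ∧
    ((K * √Y * (ε * Y)) ^ (-(1 / 2 : ℝ))) ^ 2 * (K * √Y * (ε * Y)) = 1 ∧
    Y * (K * √Y * (ε * Y)) ^ (-(1 / 2 : ℝ)) = (ε * Y) ^ (-(1 / 2 : ℝ)) * Y ^ (3 / 4 : ℝ) * K ^ (-(1 / 2 : ℝ)) := by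
  have h0 : 0 < √Y := Real.sqrt_pos.2 hY
  have h1 : 0 < K * √Y * (ε * Y) := by positivity
  refine ⟨Real.rpow_pos_of_pos h1 _, ?_, ?_⟩
  · rw [← Real.rpow_natCast, ← Real.rpow_mul h1.le]
    have : (-(1 / 2 : ℝ)) * ((2 : ℕ) : ℝ) = -1 := by norm_num
    rw [this, Real.rpow_neg_one, inv_mul_cancel₀ h1.ne']
  · rw [Real.mul_rpow (by positivity) (by positivity), Real.mul_rpow hK.le h0.le, Real.sqrt_eq_rpow,
      ← Real.rpow_mul hY.le]
    have h2 : Y * Y ^ ((1 / 2 : ℝ) * (-(1 / 2))) = Y ^ (3 / 4 : ℝ) := by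
      nth_rewrite 1 [← Real.rpow_one Y]
      rw [← Real.rpow_add hY]
      norm_num
    rw [← h2]
    ring

/-- Row T09. Weighted mean value of the fraction sum. -/
theorem theta_int {cs b0 b1 : ℝ} (hcs : 0 < cs) (hb0 : 0 < b0) : ∃ C : ℝ, 0 ≤ C ∧
    ∀ ε Y K β B : ℝ, 0 < ε → ε ≤ 1 / 2 → Real.exp (-2) ≤ Y → 1 ≤ K → b0 ≤ β → β ≤ b1 → 0 ≤ B →
    ∀ Th : ℝ → ℝ, Measurable Th → (∀ y, 0 ≤ Th y) →
    (∀ y ∈ Icc Y (Real.exp 2 * Y), ∃ (c : ℕ) (a : ℤ), 1 ≤ c ∧
      Th y ≤ B / (c * (ε * Y + |y - β * a / c|))) →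
    IntegrableOn (fun y => Th y * Sf cs ε Y K y) (Icc Y (Real.exp 2 * Y)) ∧
      ∫ y in Icc Y (Real.exp 2 * Y), Th y * Sf cs ε Y K y ≤
        C * B * ((ε * Y) ^ (-(1 / 2 : ℝ)) * Y ^ (3 / 4 : ℝ) * K ^ (-(1 / 2 : ℝ))) := by
  obtain ⟨C, hC, h⟩ := T09_main (b1 := b1) hcs hb0
  refine ⟨C, hC, ?_⟩
  intro ε Y K β B hε hε2 hY hK hβ0 hβ1 hB Th hTm hT0 hT
  have hY0 : 0 < Y := (Real.exp_pos _).trans_le hY
  obtain ⟨v1, v2, v3⟩ := T09_V hε hY0 (show 0 < K by linarith)
  rw [← v3]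
  exact h ε Y K β B _ hε hε2 hY hK hβ0 hβ1 hB v1 v2 Th hTm hT0 hT

/-- the same for the square root (Cauchy-Schwarz with Sf_int) -/
theorem sqrt_theta_int {cs b0 b1 : ℝ} (hcs : 0 < cs) (hb0 : 0 < b0) : ∃ C : ℝ, 0 ≤ C ∧
    ∀ ε Y K β B : ℝ, 0 < ε → ε ≤ 1 / 2 → Real.exp (-2) ≤ Y → 1 ≤ K → b0 ≤ β → β ≤ b1 → 0 ≤ B →
    ∀ Th : ℝ → ℝ, Measurable Th → (∀ y, 0 ≤ Th y) →
    (∀ y ∈ Icc Y (Real.exp 2 * Y), ∃ (c : ℕ) (a : ℤ), 1 ≤ c ∧
      Th y ≤ B / (c * (ε * Y + |y - β * a / c|))) →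
    IntegrableOn (fun y => √(Th y) * Sf cs ε Y K y) (Icc Y (Real.exp 2 * Y)) ∧
      ∫ y in Icc Y (Real.exp 2 * Y), √(Th y) * Sf cs ε Y K y ≤
        C * √B * ((ε * Y) ^ (-(1 / 4 : ℝ)) * Y ^ (5 / 8 : ℝ) * K ^ (-(3 / 4 : ℝ))) := by
  obtain ⟨C1, hC1, h1⟩ := theta_int (b1 := b1) hcs hb0
  obtain ⟨C8, hC8, h8⟩ := Sf_int hcs
  refine ⟨√((C1 + 1) * (C8 + 1)), by positivity, ?_⟩
  intro ε Y K β B hε hε2 hY hK hβ0 hβ1 hB Th hTm hT0 hT
  have hY0 : 0 < Y := (Real.exp_pos _).trans_le hY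
  have hK0 : 0 < K := by linarith
  have hδ : 0 < ε * Y := by positivity
  have hsY : 0 < √Y := Real.sqrt_pos.2 hY0
  obtain ⟨i1, j1⟩ := h1 ε Y K β B hε hε2 hY hK hβ0 hβ1 hB Th hTm hT0 hT
  obtain ⟨i2, j2⟩ := h8 ε Y K hε hε2 hY hK
  have hfn := T09_nonneg cs ε Y K
  have hTb : ∀ y ∈ Icc Y (Real.exp 2 * Y), Th y ≤ B / (ε * Y) := by
    intro y hy
    obtain ⟨c, a, hc, h⟩ := hT y hy
    refine h.trans (div_le_div_of_nonneg_left hB hδ ?_)
    have hc1 : (1 : ℝ) ≤ c := by exact_mod_cast hc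
    have := abs_nonneg (y - β * a / c)
    nlinarith
  have hint : IntegrableOn (fun y => √(Th y) * Sf cs ε Y K y) (Icc Y (Real.exp 2 * Y)) := by
    refine Integrable.bdd_mul (c := √(B / (ε * Y))) i2 hTm.sqrt.aestronglyMeasurable ?_
    refine (ae_restrict_iff' measurableSet_Icc).2 (Eventually.of_forall fun y hy => ?_)
    rw [Real.norm_eq_abs, abs_of_nonneg (Real.sqrt_nonneg _)]
    exact Real.sqrt_le_sqrt (hTb y hy)
  refine ⟨hint, ?_⟩
  set W : ℝ := (ε * Y) ^ (-(1 / 2 : ℝ)) * Y ^ (3 / 4 : ℝ) * K ^ (-(1 / 2 : ℝ)) with hW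
  have hW0 : 0 < W := by positivity
  -- AM-GM with a free parameter
  have key : ∀ l : ℝ, 0 < l → ∫ y in Icc Y (Real.exp 2 * Y), √(Th y) * Sf cs ε Y K y ≤
      (l * (C1 * B * W) + (C8 * (√Y / K)) / l) / 2 := by
    intro l hl
    have hp : ∀ y, √(Th y) * Sf cs ε Y K y ≤ l / 2 * (Th y * Sf cs ε Y K y) + 1 / (2 * l) * Sf cs ε Y K y := by
      intro y
      have h2 : √(Th y) ≤ l / 2 * Th y + 1 / (2 * l) := by
        have h3 : 0 ≤ (l * √(Th y) - 1) ^ 2 := sq_nonneg _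
        have h4 := Real.sq_sqrt (hT0 y)
        have h5 : l / 2 * Th y + 1 / (2 * l) - √(Th y) = (l * √(Th y) - 1) ^ 2 / (2 * l) := by
          nth_rewrite 1 [← h4]
          field_simp
          ring
        have h6 : 0 ≤ (l * √(Th y) - 1) ^ 2 / (2 * l) := by positivity
        linarith
      have := mul_le_mul_of_nonneg_right h2 (hfn y)
      linarith
    have h2 : ∫ y in Icc Y (Real.exp 2 * Y), √(Th y) * Sf cs ε Y K y ≤
        ∫ y in Icc Y (Real.exp 2 * Y), (l / 2 * (Th y * Sf cs ε Y K y) + 1 / (2 * l) * Sf cs ε Y K y) :=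
      setIntegral_mono_on hint ((i1.const_mul (l / 2)).add (i2.const_mul (1 / (2 * l))))
        measurableSet_Icc fun y _ => hp y
    rw [integral_add (i1.const_mul (l / 2)) (i2.const_mul (1 / (2 * l))), integral_const_mul,
      integral_const_mul] at h2
    have h3 : l / 2 * ∫ y in Icc Y (Real.exp 2 * Y), Th y * Sf cs ε Y K y ≤ l / 2 * (C1 * B * W) :=
      mul_le_mul_of_nonneg_left j1 (by positivity)
    have h4 : 1 / (2 * l) * ∫ y in Icc Y (Real.exp 2 * Y), Sf cs ε Y K y ≤ 1 / (2 * l) * (C8 * (√Y / K)) :=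
      mul_le_mul_of_nonneg_left j2 (by positivity)
    have h5 : (l * (C1 * B * W) + (C8 * (√Y / K)) / l) / 2 =
        l / 2 * (C1 * B * W) + 1 / (2 * l) * (C8 * (√Y / K)) := by
      field_simp
    rw [h5]
    linarith
  have hexp : √(W * (√Y / K)) = (ε * Y) ^ (-(1 / 4 : ℝ)) * Y ^ (5 / 8 : ℝ) * K ^ (-(3 / 4 : ℝ)) := by
    rw [Real.sqrt_eq_iff_mul_self_eq (by positivity) (by positivity), hW, Real.sqrt_eq_rpow]
    have e1 : (ε * Y) ^ (-(1 / 2 : ℝ)) = (ε * Y) ^ (-(1 / 4 : ℝ)) * (ε * Y) ^ (-(1 / 4 : ℝ)) := by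
      rw [← Real.rpow_add hδ]; norm_num
    have e2 : Y ^ (3 / 4 : ℝ) * Y ^ (1 / 2 : ℝ) = Y ^ (5 / 8 : ℝ) * Y ^ (5 / 8 : ℝ) := by
      rw [← Real.rpow_add hY0, ← Real.rpow_add hY0]; norm_num
    have e3 : K ^ (-(1 / 2 : ℝ)) / K = K ^ (-(3 / 4 : ℝ)) * K ^ (-(3 / 4 : ℝ)) := by
      rw [← Real.rpow_add hK0, ← Real.rpow_sub_one hK0.ne']; norm_num
    calc (ε * Y) ^ (-(1 / 2 : ℝ)) * Y ^ (3 / 4 : ℝ) * K ^ (-(1 / 2 : ℝ)) * (Y ^ (1 / 2 : ℝ) / K)
        = (ε * Y) ^ (-(1 / 2 : ℝ)) * (Y ^ (3 / 4 : ℝ) * Y ^ (1 / 2 : ℝ)) * (K ^ (-(1 / 2 : ℝ)) / K) := by ring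
      _ = _ := by
          rw [e1, e2, e3]; ring
  rcases eq_or_lt_of_le hB with hB0 | hB0
  · -- B = 0
    have h2 : ∀ y ∈ Icc Y (Real.exp 2 * Y), √(Th y) * Sf cs ε Y K y = 0 := by
      intro y hy
      have h3 := hTb y hy
      rw [← hB0, zero_div] at h3
      have h4 : Th y = 0 := le_antisymm h3 (hT0 y)
      rw [h4, Real.sqrt_zero, zero_mul]
    rw [setIntegral_congr_fun measurableSet_Icc h2]
    simp only [integral_zero]
    positivity
  · have hP : 0 < (C1 + 1) * B * W := by positivity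
    have hQ : 0 < (C8 + 1) * (√Y / K) := by positivity
    set P := (C1 + 1) * B * W with hPd
    set Q := (C8 + 1) * (√Y / K) with hQd
    have hl : 0 < √Q / √P := div_pos (Real.sqrt_pos.2 hQ) (Real.sqrt_pos.2 hP)
    have h2 := key _ hl
    have h3 : C1 * B * W ≤ P := by
      rw [hPd]; nlinarith [mul_pos hB0 hW0]
    have h4 : C8 * (√Y / K) ≤ Q := by
      rw [hQd]
      have : 0 < √Y / K := by positivity
      nlinarith
    have h5 : (√Q / √P * (C1 * B * W) + (C8 * (√Y / K)) / (√Q / √P)) / 2 ≤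
        (√Q / √P * P + Q / (√Q / √P)) / 2 := by
      gcongr
    have h6 : (√Q / √P * P + Q / (√Q / √P)) / 2 = √P * √Q := by
      have s1 : 0 < √P := Real.sqrt_pos.2 hP
      have s2 : 0 < √Q := Real.sqrt_pos.2 hQ
      have s3 := Real.mul_self_sqrt hP.le
      have s4 := Real.mul_self_sqrt hQ.le
      have s5 : √Q / √P * P = √P * √Q := by
        nth_rewrite 2 [← s3]
        field_simp
      have s6 : Q / (√Q / √P) = √P * √Q := by
        nth_rewrite 1 [← s4]
        field_simp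
      rw [s5, s6]
      ring
    have h7 : √P * √Q = √((C1 + 1) * (C8 + 1)) * √B * √(W * (√Y / K)) := by
      rw [← Real.sqrt_mul hP.le, ← Real.sqrt_mul (by positivity), ← Real.sqrt_mul (by positivity), hPd, hQd]
      congr 1
      ring
    rw [← hexp, ← h7, ← h6]
    exact h2.trans h5

end TT
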