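import Mathlib

open Complex MeasureTheory Set Filter Topology
open scoped Real ComplexConjugate

namespace TT

/-- bound for the number of solutions of b h = 0 -/
private theorem T10_card {q c : ℕ} (hq : 0 < q) (hc : 1 ≤ c) (a : ℤ) (hac : Int.gcd a c = 1)
    [NeZero (2 * c * q)] :
    (Finset.univ.filter (fun h : ZMod (2 * c * q) => (2 * a * q ^ 2 : ZMod (2 * c * q)) * h = 0)).card
      ≤ 2 * q ^ 2 := by
  have hdiv : ∀ h : ZMod (2 * c * q), (2 * a * q ^ 2 : ZMod (2 * c * q)) * h = 0 → c ∣ q * h.val := by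
    intro h hh
    have h1 : (((2 * a * q ^ 2 * h.val : ℤ)) : ZMod (2 * c * q)) = 0 := by
      push_cast
      rw [ZMod.natCast_zmod_val]
      exact hh
    rw [ZMod.intCast_zmod_eq_zero_iff_dvd] at h1
    obtain ⟨k, hk⟩ := h1
    have h2 : a * ((q : ℤ) * h.val) = (c : ℤ) * k := by
      have hq' : (2 * (q : ℤ)) ≠ 0 := by positivity
      apply mul_left_cancel₀ hq'
      push_cast at hk
      linear_combination hk
    have h3 : (c : ℤ) ∣ a * ((q : ℤ) * h.val) := ⟨k, h2⟩
    have h4 : IsCoprime (c : ℤ) a := by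
      rw [Int.isCoprime_iff_gcd_eq_one, Int.gcd_comm]
      exact hac
    have h5 := h4.dvd_of_dvd_mul_left h3
    exact_mod_cast h5
  have h6 : (Finset.univ.filter (fun h : ZMod (2 * c * q) =>
      (2 * a * q ^ 2 : ZMod (2 * c * q)) * h = 0)).card ≤ (Finset.range (2 * q ^ 2)).card := by
    apply Finset.card_le_card_of_injOn (fun h => q * h.val / c)
    · intro h hh
      simp only [Finset.coe_filter, Finset.mem_univ, true_and, Set.mem_ofPred_eq] at hh
      have h1 := ZMod.val_lt h
      simp only [Finset.coe_range, Set.mem_Iio]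
      rw [Nat.div_lt_iff_lt_mul (by omega)]
      calc q * h.val < q * (2 * c * q) := Nat.mul_lt_mul_of_pos_left h1 hq
        _ = 2 * q ^ 2 * c := by ring
    · intro h hh h' hh' he
      simp only [Finset.coe_filter, Finset.mem_univ, true_and, Set.mem_ofPred_eq] at hh hh'
      have h1 := Nat.div_mul_cancel (hdiv h hh)
      have h2 := Nat.div_mul_cancel (hdiv h' hh')
      have he' : q * h.val / c = q * h'.val / c := he
      have h3 : q * h.val = q * h'.val := by rw [← h1, ← h2, he']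
      exact ZMod.val_injective _ (Nat.eq_of_mul_eq_mul_left hq h3)
  rwa [Finset.card_range] at h6

/-- Row T10. Quadratic Gauss sums with a character. -/
theorem gauss_quad {q : ℕ} [NeZero q] (χ : DirichletCharacter ℂ q) (c : ℕ) (hc : 1 ≤ c) (a : ℤ)
    (hac : Int.gcd a c = 1) (m : ℤ) :
    ‖∑ j ∈ Finset.range (2 * c * q), χ ((j : ℤ) : ZMod q) * exp (-(π * I * a * (((j : ℤ) : ℂ)) ^ 2 / c)) *
      exp (2 * π * I * m * j / ((2 * c * q : ℕ) : ℂ))‖ ^ 2 ≤ 4 * (q : ℝ) ^ 3 * c := by
  have hq : 0 < q := Nat.pos_of_ne_zero (NeZero.ne q)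
  have hNpos : 0 < 2 * c * q := by positivity
  have : NeZero (2 * c * q) := ⟨hNpos.ne'⟩
  have hdvd : q ∣ 2 * c * q := Dvd.intro_left _ rfl
  have hcard := T10_card hq hc a hac
  set N : ℕ := 2 * c * q with hN
  set ψ : AddChar (ZMod N) ℂ := ZMod.stdAddChar with hψ
  set χ' : ZMod N → ℂ := fun x => χ (ZMod.castHom hdvd (ZMod q) x) with hχ'
  set A : ZMod N → ZMod N := fun x => -(a * q) * x ^ 2 + m * x with hA
  set F : ZMod N → ℂ := fun x => χ' x * ψ (A x) with hF
  -- the sum over the residues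
  have hsum : ∑ j ∈ Finset.range N, χ ((j : ℤ) : ZMod q) *
      exp (-(π * I * a * (((j : ℤ) : ℂ)) ^ 2 / c)) * exp (2 * π * I * m * j / ((N : ℕ) : ℂ)) =
      ∑ x : ZMod N, F x := by
    refine Finset.sum_nbij' (fun j => (j : ZMod N)) (fun x => x.val) (fun _ _ => Finset.mem_univ _)
      (fun x _ => Finset.mem_range.2 (ZMod.val_lt x)) ?_ ?_ ?_
    · intro j hj
      exact ZMod.val_cast_of_lt (Finset.mem_range.1 hj)
    · intro x _
      exact ZMod.natCast_zmod_val x
    · intro j _
      have h1 : A (j : ZMod N) = ((-(a * q) * j ^ 2 + m * j : ℤ) : ZMod N) := by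
        simp only [hA]; push_cast; ring
      have h2 : ψ (A (j : ZMod N)) = exp (-(π * I * a * (((j : ℤ) : ℂ)) ^ 2 / c)) *
          exp (2 * π * I * m * j / ((N : ℕ) : ℂ)) := by
        rw [h1, hψ, ZMod.stdAddChar_coe, ← exp_add]
        congr 1
        have hc0 : (c : ℂ) ≠ 0 := by exact_mod_cast (by omega : c ≠ 0)
        have hq0 : (q : ℂ) ≠ 0 := by exact_mod_cast hq.ne'
        rw [hN]
        push_cast
        field_simp
      simp only [hF, hχ']
      rw [h2, mul_assoc]
      congr 2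
      simp [map_natCast]
  rw [hsum]
  have hψn : ∀ x, ‖ψ x‖ = 1 := fun x => AddChar.norm_apply ψ x
  have hFn : ∀ x, ‖F x‖ ≤ 1 := by
    intro x
    simp only [hF, hχ']
    rw [norm_mul, hψn, mul_one]
    exact DirichletCharacter.norm_le_one χ _
  -- the shift
  have hT : ∀ h : ZMod N, (2 * a * q ^ 2 : ZMod N) * h ≠ 0 → ∑ y : ZMod N, F (y + h) * conj (F y) = 0 := by
    intro h hh
    have hG : ∀ y, F (y + h) * conj (F y) = χ' (y + h) * conj (χ' y) * ψ (A (y + h) - A y) := by
      intro y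
      simp only [hF]
      rw [map_mul, sub_eq_add_neg, AddChar.map_add_eq_mul ψ (A (y + h)) (-A y),
        AddChar.map_neg_eq_conj]
      ring
    have hq0 : ∀ y, χ' (y + (q : ZMod N)) = χ' y := by
      intro y
      simp only [hχ']
      rw [map_add, map_natCast, ZMod.natCast_self, add_zero]
    have hsh : ∀ y, F (y + q + h) * conj (F (y + q)) =
        ψ (-((2 * a * q ^ 2 : ZMod N) * h)) * (F (y + h) * conj (F y)) := by
      intro y
      rw [hG, hG, hq0]
      have e1 : y + (q : ZMod N) + h = (y + h) + q := by ring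
      rw [e1, hq0]
      have e2 : A (y + h + q) - A (y + q) = -((2 * a * q ^ 2 : ZMod N) * h) + (A (y + h) - A y) := by
        simp only [hA]; ring
      rw [e2, AddChar.map_add_eq_mul]
      ring
    have hs1 : ∑ y : ZMod N, F (y + q + h) * conj (F (y + q)) = ∑ y : ZMod N, F (y + h) * conj (F y) :=
      Fintype.sum_equiv (Equiv.addRight (q : ZMod N)) _ _ (fun y => rfl)
    simp only [hsh] at hs1
    rw [← Finset.mul_sum] at hs1
    have hne : ψ (-((2 * a * q ^ 2 : ZMod N) * h)) ≠ 1 := by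
      intro h1
      rw [← AddChar.map_zero_eq_one ψ] at h1
      have h2 := ZMod.injective_stdAddChar h1
      exact hh (neg_eq_zero.1 h2)
    by_contra hcon
    exact hne (mul_right_cancel₀ hcon (by rw [hs1, one_mul]))
  have hSS : (∑ x : ZMod N, F x) * conj (∑ x : ZMod N, F x) =
      ∑ h : ZMod N, ∑ y : ZMod N, F (y + h) * conj (F y) := by
    rw [Finset.sum_comm, map_sum, Finset.sum_mul_sum, Finset.sum_comm]
    refine Finset.sum_congr rfl fun y _ => ?_
    exact (Fintype.sum_equiv (Equiv.addLeft y) (fun h => F (y + h) * conj (F y))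
      (fun x => F x * conj (F y)) (fun h => rfl)).symm
  have hb : ∀ h : ZMod N, ‖∑ y : ZMod N, F (y + h) * conj (F y)‖ ≤
      if (2 * a * q ^ 2 : ZMod N) * h = 0 then (N : ℝ) else 0 := by
    intro h
    split_ifs with hh
    · refine (norm_sum_le _ _).trans ?_
      refine (Finset.sum_le_card_nsmul _ _ 1 fun y _ => ?_).trans ?_
      · rw [norm_mul, RCLike.norm_conj]
        exact mul_le_one₀ (hFn _) (norm_nonneg _) (hFn _)
      · rw [Finset.card_univ, ZMod.card, nsmul_eq_mul, mul_one]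
    · rw [hT h hh, norm_zero]
  calc ‖∑ x : ZMod N, F x‖ ^ 2 = ‖(∑ x : ZMod N, F x) * conj (∑ x : ZMod N, F x)‖ := by
        rw [norm_mul, RCLike.norm_conj, sq]
    _ ≤ ∑ h : ZMod N, ‖∑ y : ZMod N, F (y + h) * conj (F y)‖ := by
        rw [hSS]; exact norm_sum_le _ _
    _ ≤ ∑ h : ZMod N, if (2 * a * q ^ 2 : ZMod N) * h = 0 then (N : ℝ) else 0 :=
        Finset.sum_le_sum fun h _ => hb h
    _ = ((Finset.univ.filter (fun h : ZMod N => (2 * a * q ^ 2 : ZMod N) * h = 0)).card : ℝ) * N := by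
        rw [← Finset.sum_filter, Finset.sum_const, nsmul_eq_mul]
    _ ≤ ((2 * q ^ 2 : ℕ) : ℝ) * N := by gcongr
    _ = 4 * (q : ℝ) ^ 3 * c := by rw [hN]; push_cast; ring

end TT
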