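import Mathlib

open Complex MeasureTheory Set Filter Topology
open scoped Real ComplexConjugate

namespace TT

theorem T11_summable {a : ℂ} (ha : 0 < a.re) (b : ℂ) :
    Summable (fun n : ℤ => exp (-(π * (n : ℂ) ^ 2 * a) + 2 * π * b * n)) := by
  have h := (summable_jacobiTheta₂_term_iff (-I * b) (I * a)).mpr (by simpa using ha)
  refine h.congr (fun n => ?_)
  simp only [jacobiTheta₂_term]
  congr 1
  linear_combination (2 * π * b * n - π * n ^ 2 * a) * (-1 : ℂ) * I_sq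

theorem T11_inner {N : ℕ} (hN : 0 < N) {w : ℂ} (hw : 0 < w.re) (b : ℂ) (j : ℕ) :
    HasSum (fun q : ℤ => exp (-(π * ((j + N * q : ℤ) : ℂ) ^ 2 * w)
      + 2 * π * b * ((j + N * q : ℤ) : ℂ)))
      (1 / ((N : ℂ) ^ 2 * w) ^ (1 / 2 : ℂ) * exp (π * b ^ 2 / w) *
        ∑' m : ℤ, exp (2 * π * I * m * j / N) *
          exp (-(π * (m : ℂ) ^ 2 / ((N : ℂ) ^ 2 * w)) - 2 * π * I * m * b / (N * w))) := by
  have hNC : (N : ℂ) ≠ 0 := by exact_mod_cast hN.ne'
  have hw0 : w ≠ 0 := by rintro rfl; simp at hw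
  have ha : 0 < ((N : ℂ) ^ 2 * w).re := by
    have h1 : ((N : ℂ) ^ 2 * w).re = (N : ℝ) ^ 2 * w.re := by
      have h2 : (N : ℂ) ^ 2 = (((N : ℝ) ^ 2 : ℝ) : ℂ) := by push_cast; ring
      rw [h2, Complex.re_ofReal_mul]
    have h3 : (0 : ℝ) < (N : ℝ) := by exact_mod_cast hN
    rw [h1]; positivity
  have hs := T11_summable ha ((N : ℂ) * (b - j * w))
  have hp := Complex.tsum_exp_neg_quadratic ha ((N : ℂ) * (b - j * w))
  have hs2 := hs.hasSum.mul_left (exp (-(π * (j : ℂ) ^ 2 * w) + 2 * π * b * j))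
  have e1 : (fun q : ℤ => exp (-(π * ((j + N * q : ℤ) : ℂ) ^ 2 * w)
      + 2 * π * b * ((j + N * q : ℤ) : ℂ))) = (fun n : ℤ =>
        exp (-(π * (j : ℂ) ^ 2 * w) + 2 * π * b * j) *
        exp (-(π * (n : ℂ) ^ 2 * ((N : ℂ) ^ 2 * w)) + 2 * π * ((N : ℂ) * (b - j * w)) * n)) := by
    funext q
    rw [← exp_add]
    congr 1
    push_cast
    ring
  have e0 : (∑' n : ℤ, exp (-(π * (n : ℂ) ^ 2 * ((N : ℂ) ^ 2 * w))
      + 2 * π * ((N : ℂ) * (b - j * w)) * n)) =
      1 / ((N : ℂ) ^ 2 * w) ^ (1 / 2 : ℂ) *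
        ∑' n : ℤ, cexp (-π / ((N : ℂ) ^ 2 * w) * (n + I * ((N : ℂ) * (b - j * w))) ^ 2) := by
    rw [← hp]
    refine tsum_congr (fun n => ?_)
    congr 1
    ring
  have e2 : 1 / ((N : ℂ) ^ 2 * w) ^ (1 / 2 : ℂ) * exp (π * b ^ 2 / w) *
        ∑' m : ℤ, exp (2 * π * I * m * j / N) *
          exp (-(π * (m : ℂ) ^ 2 / ((N : ℂ) ^ 2 * w)) - 2 * π * I * m * b / (N * w)) =
      exp (-(π * (j : ℂ) ^ 2 * w) + 2 * π * b * j) *
        ∑' n : ℤ, exp (-(π * (n : ℂ) ^ 2 * ((N : ℂ) ^ 2 * w))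
          + 2 * π * ((N : ℂ) * (b - j * w)) * n) := by
    rw [e0, mul_assoc, mul_left_comm (exp (-(π * (j : ℂ) ^ 2 * w) + 2 * π * b * j))]
    refine congrArg (fun z : ℂ => 1 / ((N : ℂ) ^ 2 * w) ^ (1 / 2 : ℂ) * z) ?_
    rw [← tsum_mul_left, ← tsum_mul_left]
    refine tsum_congr (fun m : ℤ => ?_)
    rw [← exp_add, ← exp_add, ← exp_add]
    congr 1
    field_simp
    linear_combination ((N : ℂ) ^ 2 * (b - j * w) ^ 2) * I_sq
  rw [e1, e2]
  exact hs2

/-- Row T11. Poisson summation for periodic coefficients with an elliptic variable. -/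
theorem theta_poisson {N : ℕ} (hN : 0 < N) {f : ℤ → ℂ} (hf : ∀ n, f (n + N) = f n) {w : ℂ}
    (hw : 0 < w.re) (b : ℂ) :
    ∑' n : ℤ, f n * exp (-(π * (n : ℂ) ^ 2 * w) + 2 * π * b * n) =
      1 / ((N : ℂ) ^ 2 * w) ^ (1 / 2 : ℂ) * exp (π * b ^ 2 / w) *
        ∑' m : ℤ, (∑ j ∈ Finset.range N, f j * exp (2 * π * I * m * j / N)) *
          exp (-(π * (m : ℂ) ^ 2 / ((N : ℂ) ^ 2 * w)) - 2 * π * I * m * b / (N * w)) := by
  have hNR : (0 : ℝ) < (N : ℝ) := by exact_mod_cast hN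
  have hNC : (N : ℂ) ≠ 0 := by exact_mod_cast hN.ne'
  have hw0 : w ≠ 0 := by rintro rfl; simp at hw
  have hNZ : (N : ℤ) ≠ 0 := by exact_mod_cast hN.ne'
  -- periodicity
  have hper : ∀ (q : ℤ) (j : ℤ), f (j + N * q) = f j := by
    intro q j
    induction q using Int.induction_on with
    | zero => simp
    | succ i ih => rw [← ih, show j + (N : ℤ) * ((i : ℤ) + 1) = (j + N * i) + N by ring, hf]
    | pred i ih =>
      rw [← ih, show j + (N : ℤ) * (-(i : ℤ)) = (j + N * (-(i : ℤ) - 1)) + N by ring, hf]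
  -- the class j
  have hclass : ∀ j ∈ Finset.range N, HasSum (fun n : ℤ => if n % N = j then
      f j * exp (-(π * (n : ℂ) ^ 2 * w) + 2 * π * b * n) else 0)
      (f j * (1 / ((N : ℂ) ^ 2 * w) ^ (1 / 2 : ℂ) * exp (π * b ^ 2 / w) *
        ∑' m : ℤ, exp (2 * π * I * m * j / N) *
          exp (-(π * (m : ℂ) ^ 2 / ((N : ℂ) ^ 2 * w)) - 2 * π * I * m * b / (N * w)))) := by
    intro j hj
    have hj' : j < N := Finset.mem_range.mp hj
    have hinj : Function.Injective (fun q : ℤ => (j : ℤ) + N * q) := by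
      intro x y hxy
      have : (N : ℤ) * x = N * y := by simpa using hxy
      exact mul_left_cancel₀ hNZ this
    rw [← hinj.hasSum_iff]
    · have h := (T11_inner hN hw b j).mul_left (f j)
      have e5 : ((fun n : ℤ => if n % N = j then
          f j * exp (-(π * (n : ℂ) ^ 2 * w) + 2 * π * b * n) else 0) ∘
          (fun q : ℤ => (j : ℤ) + N * q)) = fun q : ℤ => f j * exp (-(π *
            ((j + N * q : ℤ) : ℂ) ^ 2 * w) + 2 * π * b * ((j + N * q : ℤ) : ℂ)) := by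
        funext q
        have hm : ((j : ℤ) + N * q) % N = j := by
          rw [Int.add_mul_emod_self_left]
          exact Int.emod_eq_of_lt (by positivity) (by exact_mod_cast hj')
        simp only [Function.comp, hm, if_true]
      rw [e5]
      exact h
    · intro x hx
      rw [if_neg]
      intro hxj
      apply hx
      refine ⟨x / N, ?_⟩
      have := Int.emod_add_mul_ediv x N
      simp only
      rw [← hxj]; exact this
  have hsum := hasSum_sum hclass
  have e1 : (fun n : ℤ => f n * exp (-(π * (n : ℂ) ^ 2 * w) + 2 * π * b * n)) =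
      fun n : ℤ => ∑ j ∈ Finset.range N, (if n % N = j then
      f j * exp (-(π * (n : ℂ) ^ 2 * w) + 2 * π * b * n) else 0) := by
    funext n
    have h0 : 0 ≤ n % N := Int.emod_nonneg _ hNZ
    have h1 : n % N < N := Int.emod_lt_of_pos _ (by exact_mod_cast hN)
    obtain ⟨r, hr⟩ := Int.eq_ofNat_of_zero_le h0
    have hrN : r < N := by rw [hr] at h1; exact_mod_cast h1
    rw [Finset.sum_eq_single_of_mem r (Finset.mem_range.mpr hrN)]
    · rw [if_pos hr]
      congr 1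
      have := Int.emod_add_mul_ediv n N
      rw [hr] at this
      calc f n = f ((r : ℤ) + N * (n / N)) := by rw [this]
        _ = f r := hper _ _
    · intro k _ hkr
      rw [if_neg]
      intro h
      apply hkr
      rw [hr] at h
      exact_mod_cast h.symm
  rw [e1, hsum.tsum_eq]
  -- now the right side
  have ha' : 0 < (1 / ((N : ℂ) ^ 2 * w)).re := by
    have h1 : (1 / ((N : ℂ) ^ 2 * w)) = (((1 / (N : ℝ) ^ 2 : ℝ)) : ℂ) * w⁻¹ := by
      push_cast; field_simp
    rw [h1, Complex.re_ofReal_mul, Complex.inv_re]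
    have : 0 < Complex.normSq w := Complex.normSq_pos.mpr hw0
    positivity
  have hsm : ∀ j ∈ Finset.range N, Summable (fun m : ℤ => f j * (exp (2 * π * I * m * j / N) *
          exp (-(π * (m : ℂ) ^ 2 / ((N : ℂ) ^ 2 * w)) - 2 * π * I * m * b / (N * w)))) := by
    intro j _
    refine Summable.mul_left _ ?_
    refine (T11_summable ha' (I * j / N - I * b / (N * w))).congr (fun m => ?_)
    rw [← exp_add]
    congr 1
    field_simp
    ring
  have e3 : (∑' m : ℤ, (∑ j ∈ Finset.range N, f j * exp (2 * π * I * m * j / N)) *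
          exp (-(π * (m : ℂ) ^ 2 / ((N : ℂ) ^ 2 * w)) - 2 * π * I * m * b / (N * w))) =
      ∑ j ∈ Finset.range N, ∑' m : ℤ, f j * (exp (2 * π * I * m * j / N) *
          exp (-(π * (m : ℂ) ^ 2 / ((N : ℂ) ^ 2 * w)) - 2 * π * I * m * b / (N * w))) := by
    rw [← Summable.tsum_finsetSum hsm]
    refine tsum_congr (fun m => ?_)
    rw [Finset.sum_mul]
    refine Finset.sum_congr rfl (fun j _ => ?_)
    ring
  rw [e3, Finset.mul_sum]
  refine Finset.sum_congr rfl (fun j _ => ?_)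
  rw [tsum_mul_left]
  ring

end TT
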