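import Pool.Agent.Lib.MP_0f5a55_nt.TT.T10
import Pool.Agent.Lib.MP_0f5a55_nt.TT.T11

open Complex MeasureTheory Set Filter Topology
open scoped Real ComplexConjugate

namespace TT

theorem T12_per {q : ℕ} [NeZero q] (χ : DirichletCharacter ℂ q) (c : ℕ) (hc : 1 ≤ c) (a : ℤ) (n : ℤ) :
    χ ((n + (2 * c * q : ℕ) : ℤ) : ZMod q) * exp (-(π * I * a * (((n + (2 * c * q : ℕ) : ℤ)) : ℂ) ^ 2 / c)) =
      χ (n : ZMod q) * exp (-(π * I * a * (n : ℂ) ^ 2 / c)) := by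
  have h1 : ((n + (2 * c * q : ℕ) : ℤ) : ZMod q) = (n : ZMod q) := by
    push_cast
    simp
  rw [h1]
  congr 1
  have hc0 : (c : ℂ) ≠ 0 := by exact_mod_cast (show c ≠ 0 by omega)
  have e : -(π * I * a * (((n + (2 * c * q : ℕ) : ℤ)) : ℂ) ^ 2 / c) =
      -(π * I * a * (n : ℂ) ^ 2 / c) + ((-(a * (2 * n * q + 2 * c * q ^ 2)) : ℤ) : ℂ) * (2 * π * I) := by
    push_cast
    field_simp
    ring
  rw [e, Complex.exp_add, Complex.exp_int_mul_two_pi_mul_I, mul_one]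

theorem T12_sum (h : ℝ) (hh : 0 < h) : Summable (fun m : ℤ => Real.exp (-(h * (m : ℝ) ^ 2))) := by
  have h1 : Summable (fun n : ℕ => Real.exp (-(h * (n : ℝ) ^ 2))) := by
    refine Summable.of_nonneg_of_le (fun n => (Real.exp_pos _).le) (fun n => ?_)
      (Real.summable_exp_nat_mul_iff.2 (neg_lt_zero.2 hh))
    refine Real.exp_le_exp.2 ?_
    have : (n : ℝ) ≤ (n : ℝ) ^ 2 := by
      rcases Nat.eq_zero_or_pos n with h0 | h0
      · subst h0; simp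
      · have : (1 : ℝ) ≤ n := by exact_mod_cast h0
        nlinarith
    nlinarith
  refine Summable.of_nat_of_neg ?_ ?_
  · exact_mod_cast h1
  · refine h1.congr (fun n => ?_)
    push_cast
    congr 2
    ring

/-- Row T12. The theta function near a/c, with elliptic variable. -/
theorem th_ell {q : ℕ} [NeZero q] (χ : DirichletCharacter ℂ q) : ∃ C : ℝ, 0 ≤ C ∧
    ∀ (c : ℕ) (a : ℤ) (σ η : ℝ) (b : ℂ), 1 ≤ c → Int.gcd a c = 1 → 0 < σ → σ ≤ 1 →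
      (c : ℝ) ^ 2 * (σ ^ 2 + η ^ 2) ≤ 4 * σ → ‖b‖ ≤ √σ →
      ‖∑' n : ℤ, χ (n : ZMod q) * exp (-(π * I * a * (n : ℂ) ^ 2 / c)) *
        exp (-(π * (n : ℂ) ^ 2 * (σ + η * I)) + 2 * π * b * n)‖ ≤
        C * (c * (σ + |η|)) ^ (-(1 / 2 : ℝ)) := by
  have hq : (0 : ℝ) < q := by exact_mod_cast Nat.pos_of_ne_zero (NeZero.ne q)
  have hq1 : (1 : ℝ) ≤ q := by exact_mod_cast Nat.one_le_iff_ne_zero.2 (NeZero.ne q)
  set h0 : ℝ := π / (32 * q ^ 2) with hh0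
  have hh0p : 0 < h0 := by positivity
  have hS := T12_sum h0 hh0p
  set S : ℝ := ∑' m : ℤ, Real.exp (-(h0 * (m : ℝ) ^ 2)) with hSdef
  have hSn : 0 ≤ S := tsum_nonneg (fun m => (Real.exp_pos _).le)
  refine ⟨2 * q ^ 2 * Real.exp π * Real.exp (2 * π) * S, by positivity, ?_⟩
  intro c a σ η b hc hac hσ hσ1 hcw hb
  have hcp : (0 : ℝ) < c := by exact_mod_cast hc
  set N : ℕ := 2 * c * q with hN
  have hN0 : 0 < N := by
    have : 0 < q := Nat.pos_of_ne_zero (NeZero.ne q)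
    positivity
  have hNr : (N : ℝ) = 2 * c * q := by rw [hN]; push_cast; ring
  set w : ℂ := σ + η * I with hw
  have hwre : w.re = σ := by rw [hw]; simp
  have hwim : w.im = η := by rw [hw]; simp
  have hw0 : 0 < w.re := by rw [hwre]; exact hσ
  have hwn : 0 < ‖w‖ := by
    rw [norm_pos_iff]
    intro h
    rw [h] at hw0
    simp at hw0
  have hwsq : ‖w‖ ^ 2 = σ ^ 2 + η ^ 2 := by
    rw [← Complex.normSq_eq_norm_sq, Complex.normSq_apply, hwre, hwim]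
    ring
  have hσw : σ ≤ ‖w‖ := by
    have := Complex.abs_re_le_norm w
    rw [hwre, abs_of_pos hσ] at this
    exact this
  have hηw : |η| ≤ ‖w‖ := by
    have := Complex.abs_im_le_norm w
    rwa [hwim] at this
  -- rewrite by Poisson
  have key : ∑' n : ℤ, χ (n : ZMod q) * exp (-(π * I * a * (n : ℂ) ^ 2 / c)) *
        exp (-(π * (n : ℂ) ^ 2 * (σ + η * I)) + 2 * π * b * n) =
      1 / ((N : ℂ) ^ 2 * w) ^ (1 / 2 : ℂ) * exp (π * b ^ 2 / w) *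
        ∑' m : ℤ, (∑ j ∈ Finset.range N, (χ ((j : ℤ) : ZMod q) * exp (-(π * I * a * (((j : ℤ) : ℂ)) ^ 2 / c))) *
          exp (2 * π * I * m * j / N)) *
          exp (-(π * (m : ℂ) ^ 2 / ((N : ℂ) ^ 2 * w)) - 2 * π * I * m * b / (N * w)) := by
    have := theta_poisson hN0 (f := fun n : ℤ => χ (n : ZMod q) * exp (-(π * I * a * (n : ℂ) ^ 2 / c)))
      (fun n => T12_per χ c hc a n) hw0 b
    exact this
  rw [key]
  -- Gauss sums
  have hg : ∀ m : ℤ, ‖∑ j ∈ Finset.range N, (χ ((j : ℤ) : ZMod q) *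
      exp (-(π * I * a * (((j : ℤ) : ℂ)) ^ 2 / c))) * exp (2 * π * I * m * j / N)‖ ≤ 2 * q ^ 2 * √c := by
    intro m
    have h1 := gauss_quad χ c hc a hac m
    refine (sq_le_sq₀ (norm_nonneg _) (by positivity)).1 ?_
    refine h1.trans ?_
    rw [mul_pow, Real.sq_sqrt hcp.le]
    have : (q : ℝ) ^ 3 ≤ (q : ℝ) ^ 4 := pow_le_pow_right₀ hq1 (by norm_num)
    nlinarith
  -- exponentials
  have hX : ∀ m : ℤ, ‖exp (-(π * (m : ℂ) ^ 2 / ((N : ℂ) ^ 2 * w)) - 2 * π * I * m * b / (N * w))‖ ≤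
      Real.exp (2 * π) * Real.exp (-(h0 * (m : ℝ) ^ 2)) := by
    intro m
    rw [Complex.norm_exp, ← Real.exp_add]
    refine Real.exp_le_exp.2 ?_
    have e1 : (π * (m : ℂ) ^ 2 / ((N : ℂ) ^ 2 * w)).re = π * (m : ℝ) ^ 2 * σ / ((N : ℝ) ^ 2 * ‖w‖ ^ 2) := by
      have : (π * (m : ℂ) ^ 2 / ((N : ℂ) ^ 2 * w)) = ((π * (m : ℝ) ^ 2 / (N : ℝ) ^ 2 : ℝ) : ℂ) * w⁻¹ := by
        push_cast
        rw [div_eq_mul_inv, mul_inv, div_eq_mul_inv]
        ring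
      rw [this, re_ofReal_mul, Complex.inv_re, hwre, Complex.normSq_eq_norm_sq]
      field_simp
    have e2 : |(2 * π * I * m * b / (N * w)).re| ≤ 2 * π * |(m : ℝ)| * √σ / (N * ‖w‖) := by
      refine (Complex.abs_re_le_norm _).trans ?_
      rw [norm_div, norm_mul, norm_mul, norm_mul, norm_mul, norm_mul]
      simp only [Complex.norm_ofNat, Complex.norm_real, Complex.norm_I, Complex.norm_natCast, mul_one]
      rw [Real.norm_of_nonneg Real.pi_pos.le]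
      have hm : ‖(m : ℂ)‖ = |(m : ℝ)| := by
        rw [← Complex.ofReal_intCast, Complex.norm_real, Real.norm_eq_abs]
      rw [hm]
      gcongr
    set X : ℝ := |(m : ℝ)| * √σ / (N * ‖w‖) with hXd
    have hXsq : X ^ 2 = (m : ℝ) ^ 2 * σ / ((N : ℝ) ^ 2 * ‖w‖ ^ 2) := by
      rw [hXd, div_pow, mul_pow, sq_abs, Real.sq_sqrt hσ.le, mul_pow]
    have hlow : (m : ℝ) ^ 2 / (16 * q ^ 2) ≤ X ^ 2 := by
      rw [hXsq, div_le_div_iff₀ (by positivity) (by positivity), hwsq, hNr]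
      have h3 : (2 * (c : ℝ) * q) ^ 2 * (σ ^ 2 + η ^ 2) ≤ 16 * q ^ 2 * σ := by
        have : (2 * (c : ℝ) * q) ^ 2 * (σ ^ 2 + η ^ 2) = 4 * q ^ 2 * ((c : ℝ) ^ 2 * (σ ^ 2 + η ^ 2)) := by ring
        rw [this]
        nlinarith [sq_nonneg (q : ℝ)]
      calc (m : ℝ) ^ 2 * ((2 * (c : ℝ) * q) ^ 2 * (σ ^ 2 + η ^ 2)) ≤ (m : ℝ) ^ 2 * (16 * q ^ 2 * σ) := by gcongr
        _ = (m : ℝ) ^ 2 * σ * (16 * q ^ 2) := by ring
    have e3 : -(π * (m : ℂ) ^ 2 / ((N : ℂ) ^ 2 * w)).re - (2 * π * I * m * b / (N * w)).re ≤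
        -(π * X ^ 2) + 2 * π * X := by
      rw [e1, hXsq]
      have h4 := neg_abs_le (2 * π * I * m * b / (N * w)).re
      have h5 : 2 * π * |(m : ℝ)| * √σ / (N * ‖w‖) = 2 * π * X := by rw [hXd]; ring
      rw [h5] at e2
      have h6 : π * (m : ℝ) ^ 2 * σ / ((N : ℝ) ^ 2 * ‖w‖ ^ 2) = π * ((m : ℝ) ^ 2 * σ / ((N : ℝ) ^ 2 * ‖w‖ ^ 2)) := by ring
      rw [h6]
      linarith
    have e4 : (-(π * (m : ℂ) ^ 2 / ((N : ℂ) ^ 2 * w)) - 2 * π * I * m * b / (N * w)).re =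
        -(π * (m : ℂ) ^ 2 / ((N : ℂ) ^ 2 * w)).re - (2 * π * I * m * b / (N * w)).re := by
      rw [sub_re, neg_re]
    rw [e4]
    refine e3.trans ?_
    have h7 : h0 * (m : ℝ) ^ 2 ≤ π / 2 * X ^ 2 := by
      rw [hh0]
      have : π / (32 * q ^ 2) * (m : ℝ) ^ 2 = π / 2 * ((m : ℝ) ^ 2 / (16 * q ^ 2)) := by
        field_simp
        ring
      rw [this]
      exact mul_le_mul_of_nonneg_left hlow (by positivity)
    nlinarith [Real.pi_pos, sq_nonneg (X - 2), mul_nonneg Real.pi_pos.le (sq_nonneg (X - 2))]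
  -- the sum
  have hsum : ‖∑' m : ℤ, (∑ j ∈ Finset.range N, (χ ((j : ℤ) : ZMod q) *
      exp (-(π * I * a * (((j : ℤ) : ℂ)) ^ 2 / c))) * exp (2 * π * I * m * j / N)) *
      exp (-(π * (m : ℂ) ^ 2 / ((N : ℂ) ^ 2 * w)) - 2 * π * I * m * b / (N * w))‖ ≤
      2 * q ^ 2 * √c * Real.exp (2 * π) * S := by
    refine tsum_of_norm_bounded (hS.hasSum.mul_left (2 * q ^ 2 * √c * Real.exp (2 * π))) (fun m => ?_)
    rw [norm_mul]
    calc _ ≤ (2 * q ^ 2 * √c) * (Real.exp (2 * π) * Real.exp (-(h0 * (m : ℝ) ^ 2))) :=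
          mul_le_mul (hg m) (hX m) (norm_nonneg _) (by positivity)
      _ = _ := by ring
  -- prefactors
  have hp1 : ‖1 / ((N : ℂ) ^ 2 * w) ^ (1 / 2 : ℂ)‖ = (N : ℝ)⁻¹ * ‖w‖ ^ (-(1 / 2 : ℝ)) := by
    have hne : ((N : ℂ) ^ 2 * w) ≠ 0 := by
      refine mul_ne_zero (pow_ne_zero _ (by exact_mod_cast hN0.ne')) (norm_pos_iff.1 hwn)
    have hcp' : ‖((N : ℂ) ^ 2 * w) ^ (1 / 2 : ℂ)‖ = ‖(N : ℂ) ^ 2 * w‖ ^ (1 / 2 : ℝ) := by
      rw [show (1 / 2 : ℂ) = ((1 / 2 : ℝ) : ℂ) by push_cast; ring]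
      rw [Complex.norm_cpow_of_ne_zero hne]
      simp
    rw [norm_div, norm_one, hcp', norm_mul, norm_pow, Complex.norm_natCast, one_div,
      Real.mul_rpow (by positivity) hwn.le, ← Real.sqrt_eq_rpow, Real.sqrt_sq (by positivity), mul_inv,
      Real.rpow_neg hwn.le]
  have hp2 : ‖exp (π * b ^ 2 / w)‖ ≤ Real.exp π := by
    rw [Complex.norm_exp]
    refine Real.exp_le_exp.2 ((Complex.re_le_norm _).trans ?_)
    rw [norm_div, norm_mul, norm_pow, Complex.norm_real, Real.norm_of_nonneg Real.pi_pos.le,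
      div_le_iff₀ hwn]
    have : ‖b‖ ^ 2 ≤ σ := by
      calc ‖b‖ ^ 2 ≤ (√σ) ^ 2 := by gcongr
        _ = σ := Real.sq_sqrt hσ.le
    exact mul_le_mul_of_nonneg_left (this.trans hσw) Real.pi_pos.le
  rw [norm_mul, norm_mul, hp1]
  have hfin : (N : ℝ)⁻¹ * ‖w‖ ^ (-(1 / 2 : ℝ)) * Real.exp π * (2 * q ^ 2 * √c * Real.exp (2 * π) * S) ≤
      2 * q ^ 2 * Real.exp π * Real.exp (2 * π) * S * (c * (σ + |η|)) ^ (-(1 / 2 : ℝ)) := by
    have hsη : 0 < σ + |η| := by positivity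
    have h8 : (c * (σ + |η|)) ^ (-(1 / 2 : ℝ)) = (√c)⁻¹ * (σ + |η|) ^ (-(1 / 2 : ℝ)) := by
      rw [Real.mul_rpow hcp.le hsη.le, Real.rpow_neg hcp.le, ← Real.sqrt_eq_rpow]
    have h9 : ‖w‖ ^ (-(1 / 2 : ℝ)) ≤ 2 * (σ + |η|) ^ (-(1 / 2 : ℝ)) := by
      have h10 : (σ + |η|) / 2 ≤ ‖w‖ := by linarith
      have h11 : ‖w‖ ^ (-(1 / 2 : ℝ)) ≤ ((σ + |η|) / 2) ^ (-(1 / 2 : ℝ)) :=
        Real.rpow_le_rpow_of_nonpos (by positivity) h10 (by norm_num)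
      have h12 : ((σ + |η|) / 2) ^ (-(1 / 2 : ℝ)) = (σ + |η|) ^ (-(1 / 2 : ℝ)) * 2 ^ (1 / 2 : ℝ) := by
        rw [Real.div_rpow hsη.le (by norm_num), Real.rpow_neg (by norm_num : (0:ℝ) ≤ 2), div_inv_eq_mul]
      have h13 : (2 : ℝ) ^ (1 / 2 : ℝ) ≤ 2 := by
        calc (2 : ℝ) ^ (1 / 2 : ℝ) ≤ 2 ^ (1 : ℝ) := Real.rpow_le_rpow_of_exponent_le (by norm_num) (by norm_num)
          _ = 2 := Real.rpow_one 2
      rw [h12] at h11
      have h14 : 0 ≤ (σ + |η|) ^ (-(1 / 2 : ℝ)) := by positivity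
      nlinarith
    have h15 : (N : ℝ)⁻¹ * √c ≤ 1 / 2 * (√c)⁻¹ := by
      have hsc : 0 < √(c : ℝ) := Real.sqrt_pos.2 hcp
      rw [hNr, inv_mul_eq_div, div_le_iff₀ (by positivity)]
      have : 1 / 2 * (√(c : ℝ))⁻¹ * (2 * c * q) = (√(c : ℝ))⁻¹ * (√(c : ℝ) * √(c : ℝ)) * q := by
        rw [Real.mul_self_sqrt hcp.le]; ring
      rw [this, ← mul_assoc, inv_mul_cancel₀ hsc.ne', one_mul]
      nlinarith
    rw [h8]
    have hA : 0 ≤ 2 * q ^ 2 * Real.exp π * Real.exp (2 * π) * S := by positivity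
    calc (N : ℝ)⁻¹ * ‖w‖ ^ (-(1 / 2 : ℝ)) * Real.exp π * (2 * q ^ 2 * √c * Real.exp (2 * π) * S)
        = (2 * q ^ 2 * Real.exp π * Real.exp (2 * π) * S) * (((N : ℝ)⁻¹ * √c) * ‖w‖ ^ (-(1 / 2 : ℝ))) := by ring
      _ ≤ (2 * q ^ 2 * Real.exp π * Real.exp (2 * π) * S) *
          ((1 / 2 * (√c)⁻¹) * (2 * (σ + |η|) ^ (-(1 / 2 : ℝ)))) := by
          refine mul_le_mul_of_nonneg_left ?_ hA
          exact mul_le_mul h15 h9 (by positivity) (by positivity)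
      _ = _ := by ring
  refine le_trans ?_ hfin
  refine mul_le_mul ?_ hsum (norm_nonneg _) (by positivity)
  exact mul_le_mul_of_nonneg_left hp2 (by positivity)

end TT
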