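import Pool.Agent.Lib.MP_0f5a55_nt.TT.T00
import Pool.Agent.Lib.MP_0f5a55_nt.TT.T04
import Pool.Agent.Lib.MP_0f5a55_nt.TT.T12

open Complex MeasureTheory Set Filter Topology
open scoped Real ComplexConjugate

namespace TT

theorem T13_iter (s : Finset ℤ) (a : ℤ → ℂ) (p : ℕ) :
    iteratedDeriv p (fun b : ℂ => ∑ n ∈ s, a n * exp (2 * π * b * n)) =
      fun b : ℂ => ∑ n ∈ s, a n * (2 * π * n) ^ p * exp (2 * π * b * n) := by
  induction p with
  | zero => simp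
  | succ p ih =>
    rw [iteratedDeriv_succ, ih]
    funext b
    have h3 : HasDerivAt (fun b : ℂ => ∑ n ∈ s, a n * (2 * π * n) ^ p * exp (2 * π * b * n))
        (∑ n ∈ s, a n * (2 * π * n) ^ p * (exp (2 * π * b * n) * (2 * π * n))) b := by
      refine HasDerivAt.fun_sum fun n _ => ?_
      have h1 : HasDerivAt (fun b : ℂ => 2 * π * b * n) (2 * π * n) b := by
        have := ((hasDerivAt_id b).const_mul (2 * (π : ℂ))).mul_const (n : ℂ)
        simpa using this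
      exact (h1.cexp).const_mul (a n * (2 * π * n) ^ p)
    rw [h3.deriv]
    refine Finset.sum_congr rfl fun n _ => ?_
    rw [pow_succ]
    ring

theorem T13_norm_exp {R : ℝ} (n : ℤ) {b : ℂ} (hb : ‖b‖ ≤ R) :
    ‖exp (2 * π * b * n)‖ ≤ Real.exp (2 * π * R * |(n : ℝ)|) := by
  rw [Complex.norm_exp]
  refine Real.exp_le_exp.2 ?_
  have h1 : (2 * π * b * n : ℂ).re = 2 * π * (n : ℝ) * b.re := by
    have : (2 * π * b * n : ℂ) = ((2 * π * (n : ℝ) : ℝ) : ℂ) * b := by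
      push_cast
      ring
    rw [this, re_ofReal_mul]
  rw [h1]
  calc 2 * π * (n : ℝ) * b.re ≤ |2 * π * (n : ℝ) * b.re| := le_abs_self _
    _ = 2 * π * |(n : ℝ)| * |b.re| := by
        rw [abs_mul, abs_mul, abs_of_pos (by positivity : (0 : ℝ) < 2 * π)]
    _ ≤ 2 * π * |(n : ℝ)| * R := by
        refine mul_le_mul_of_nonneg_left ((abs_re_le_norm b).trans hb) (by positivity)
    _ = 2 * π * R * |(n : ℝ)| := by ring

theorem T13_coeff (p : ℕ) {R σ M : ℝ} (hR : 0 < R) (hσ : 0 < σ) {a : ℤ → ℂ}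
    (ha : ∀ n : ℤ, ‖a n‖ ≤ Real.exp (-(π * σ * (n : ℝ) ^ 2)))
    (hM : ∀ b : ℂ, ‖b‖ ≤ R → ‖∑' n : ℤ, a n * exp (2 * π * b * n)‖ ≤ M) :
    ‖∑' n : ℤ, a n * (2 * π * n) ^ p‖ ≤ p.factorial * M / R ^ p := by
  set u : ℤ → ℝ := fun n => Real.exp (-π * (σ * (n : ℝ) ^ 2 - 2 * R * |(n : ℝ)|)) with hu
  have hus : Summable u := by
    have := summable_pow_mul_jacobiTheta₂_term_bound R hσ 0
    refine this.congr fun n => ?_
    simp only [pow_zero, one_mul, hu]
    push_cast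
    rfl
  have hbd : ∀ b : ℂ, ‖b‖ ≤ R → ∀ n : ℤ, ‖a n * exp (2 * π * b * n)‖ ≤ u n := by
    intro b hb n
    rw [norm_mul]
    calc ‖a n‖ * ‖exp (2 * π * b * n)‖
        ≤ Real.exp (-(π * σ * (n : ℝ) ^ 2)) * Real.exp (2 * π * R * |(n : ℝ)|) :=
          mul_le_mul (ha n) (T13_norm_exp n hb) (norm_nonneg _) (Real.exp_pos _).le
      _ = u n := by
          rw [← Real.exp_add, hu]
          congr 1
          ring
  have hps : Summable (fun n : ℤ => a n * (2 * π * n) ^ p) := by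
    have h0 := summable_pow_mul_jacobiTheta₂_term_bound 0 hσ p
    refine Summable.of_norm_bounded (h0.mul_left ((2 * π) ^ p)) fun n => ?_
    rw [norm_mul, norm_pow, norm_mul, norm_mul, Complex.norm_intCast, mul_pow]
    have e1 : ‖(2 : ℂ)‖ * ‖(π : ℂ)‖ = 2 * π := by
      rw [Complex.norm_real, Real.norm_eq_abs, abs_of_pos Real.pi_pos]
      norm_num
    rw [e1]
    have h2 := ha n
    have h3 : Real.exp (-(π * σ * (n : ℝ) ^ 2)) =
        Real.exp (-π * (σ * (n : ℝ) ^ 2 - 2 * 0 * |(n : ℝ)|)) := by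
      congr 1
      ring
    rw [h3] at h2
    have h4 : (0 : ℝ) ≤ (2 * π) ^ p * |(n : ℝ)| ^ p := by positivity
    push_cast
    calc ‖a n‖ * ((2 * π) ^ p * |(n : ℝ)| ^ p)
        ≤ Real.exp (-π * (σ * (n : ℝ) ^ 2 - 2 * 0 * |(n : ℝ)|)) * ((2 * π) ^ p * |(n : ℝ)| ^ p) :=
          mul_le_mul_of_nonneg_right h2 h4
      _ = _ := by ring
  have key : ∀ s : Finset ℤ, ‖∑ n ∈ s, a n * (2 * π * n) ^ p‖ ≤
      p.factorial * (M + ∑' n : {n // n ∉ s}, u n) / R ^ p := by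
    intro s
    have hd : DiffContOnCl ℂ (fun b : ℂ => ∑ n ∈ s, a n * exp (2 * π * b * n)) (Metric.ball 0 R) := by
      refine Differentiable.diffContOnCl ?_
      fun_prop
    have hC : ∀ b ∈ Metric.sphere (0 : ℂ) R,
        ‖(fun b : ℂ => ∑ n ∈ s, a n * exp (2 * π * b * n)) b‖ ≤ M + ∑' n : {n // n ∉ s}, u n := by
      intro b hb
      have hb' : ‖b‖ ≤ R := by
        rw [mem_sphere_zero_iff_norm] at hb
        exact hb.le
      have hsb : Summable (fun n : ℤ => a n * exp (2 * π * b * n)) :=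
        Summable.of_norm_bounded hus (hbd b hb')
      have h1 := hsb.sum_add_tsum_compl (s := s)
      have h2 : ∑ n ∈ s, a n * exp (2 * π * b * n) = (∑' n : ℤ, a n * exp (2 * π * b * n)) -
          ∑' n : {n // n ∉ s}, a n * exp (2 * π * b * n) := by
        rw [eq_sub_iff_add_eq, ← h1]
        rfl
      change ‖∑ n ∈ s, a n * exp (2 * π * b * n)‖ ≤ _
      rw [h2]
      refine (norm_sub_le _ _).trans (add_le_add (hM b hb') ?_)
      refine tsum_of_norm_bounded (hus.subtype _).hasSum fun n => ?_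
      exact hbd b hb' n
    have h3 := Complex.norm_iteratedDeriv_le_of_forall_mem_sphere_norm_le p hR hd hC
    rw [T13_iter] at h3
    simpa using h3
  have t1 : Tendsto (fun s : Finset ℤ => ‖∑ n ∈ s, a n * (2 * π * n) ^ p‖) atTop
      (𝓝 ‖∑' n : ℤ, a n * (2 * π * n) ^ p‖) := hps.hasSum.norm
  have t2 : Tendsto (fun s : Finset ℤ => p.factorial * (M + ∑' n : {n // n ∉ s}, u n) / R ^ p) atTop
      (𝓝 (p.factorial * (M + 0) / R ^ p)) := by
    have t3 := tendsto_tsum_compl_atTop_zero u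
    exact ((t3.const_add M).const_mul _).div_const _
  rw [add_zero] at t2
  exact le_of_tendsto_of_tendsto' t1 t2 key

theorem T13_par {q : ℕ} [NeZero q] (χ : DirichletCharacter ℂ q) (p : ℕ) (hpar : χ (-1) = (-1) ^ p)
    (hq : 1 < q ∨ 0 < p) {z : ℂ} (hz : 0 < z.re) :
    ∑' n : ℤ, χ (n : ZMod q) * exp (-(π * (n : ℂ) ^ 2 * (z / q))) * (2 * π * n) ^ p =
      2 * (2 * π) ^ p * th q (fun n => χ n) p z := by
  set f : ℤ → ℂ := fun n => χ (n : ZMod q) * exp (-(π * (n : ℂ) ^ 2 * (z / q))) * (2 * π * n) ^ p with hf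
  have hq0 : 0 < q := Nat.pos_of_ne_zero (NeZero.ne q)
  have hs := th_summable hq0 (f := fun n => χ n) (fun n => χ.norm_le_one _) p hz
  have hs' : Summable (fun n : ℕ => (fun n : ℕ => χ n) (n + 1) * ((n : ℂ) + 1) ^ p *
      exp (-(π * ((n : ℂ) + 1) ^ 2 * z / q))) := hs.of_norm
  have e1 : ∀ n : ℕ, f (n + 1) = (2 * π) ^ p * ((fun n : ℕ => χ n) (n + 1) * ((n : ℂ) + 1) ^ p *
      exp (-(π * ((n : ℂ) + 1) ^ 2 * z / q))) := by
    intro n
    have h1 : -(π * ((n : ℂ) + 1) ^ 2 * z / q) = -(π * (((n : ℂ) + 1) ^ 2) * (z / q)) := by ring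
    simp only [hf]
    push_cast
    rw [h1]
    rw [mul_pow]
    ring
  have e2 : ∀ n : ℕ, f (-(n + 1)) = f (n + 1) := by
    intro n
    simp only [hf]
    have h1 : χ ((-(n + 1 : ℤ) : ℤ) : ZMod q) = (-1) ^ p * χ (((n : ℤ) + 1 : ℤ) : ZMod q) := by
      rw [← hpar, ← map_mul]
      congr 1
      push_cast
      ring
    have h2 : (2 * π * ((-(n + 1 : ℤ) : ℤ) : ℂ)) ^ p = (-1) ^ p * (2 * π * (((n : ℤ) + 1 : ℤ) : ℂ)) ^ p := by
      rw [← mul_pow]
      congr 1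
      push_cast
      ring
    have h3 : (((-(n + 1 : ℤ) : ℤ) : ℂ)) ^ 2 = ((((n : ℤ) + 1 : ℤ) : ℂ)) ^ 2 := by
      push_cast
      ring
    rw [h1, h2, h3]
    have h4 : ((-1 : ℂ) ^ p) * (-1) ^ p = 1 := by
      rw [← mul_pow]
      norm_num
    linear_combination (χ (((n : ℤ) + 1 : ℤ) : ZMod q) *
      exp (-(π * ((((n : ℤ) + 1 : ℤ) : ℂ)) ^ 2 * (z / q))) * (2 * π * (((n : ℤ) + 1 : ℤ) : ℂ)) ^ p) * h4
  have e0 : f 0 = 0 := by
    simp only [hf]
    rcases hq with h | h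
    · have : χ ((0 : ℤ) : ZMod q) = 0 := by
        have : Nontrivial (ZMod q) := by
          have : Fact (1 < q) := ⟨h⟩
          infer_instance
        rw [Int.cast_zero]
        exact χ.map_nonunit (by simp)
      rw [this]
      ring
    · simp [h.ne']
  have s1 : Summable (fun n : ℕ => f (n + 1)) := by
    refine (hs'.mul_left ((2 * π : ℂ) ^ p)).congr fun n => ?_
    rw [e1]
  have s2 : Summable (fun n : ℕ => f (-(n + 1))) := by
    refine s1.congr fun n => ?_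
    rw [e2]
  rw [tsum_of_add_one_of_neg_add_one s1 s2, e0, tsum_congr e2, tsum_congr e1, tsum_mul_left]
  unfold th
  ring

theorem T13_geom {q : ℕ} [NeZero q] {ε y : ℝ} (h0 : 0 < ε) (h1 : ε ≤ 1 / 2) (hy : 0 < y) :
    ε * y ≤ 2 * q * (y * Real.sin ε / q) ∧
      ∀ x : ℝ, |y - q / Real.cos ε * x| ≤ 2 * q * |y * Real.cos ε / q - x| := by
  have hq : (0 : ℝ) < q := Nat.cast_pos.2 (Nat.pos_of_ne_zero (NeZero.ne q))
  have hc := cos_ge h0 h1
  constructor
  · have h2 := sin_ge h0 h1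
    have h3 : 2 * q * (y * Real.sin ε / q) = 2 * y * Real.sin ε := by
      field_simp
    rw [h3]
    have h4 : (1 : ℝ) / 2 ≤ 2 / π := by
      rw [div_le_div_iff₀ (by norm_num) Real.pi_pos]
      linarith [Real.pi_le_four]
    have h5 : 1 / 2 * ε ≤ Real.sin ε := (mul_le_mul_of_nonneg_right h4 h0.le).trans h2
    nlinarith
  · intro x
    have h2 : y - q / Real.cos ε * x = q / Real.cos ε * (y * Real.cos ε / q - x) := by
      have : Real.cos ε ≠ 0 := by linarith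
      field_simp
    rw [h2, abs_mul, abs_of_pos (by positivity : 0 < (q : ℝ) / Real.cos ε)]
    refine mul_le_mul_of_nonneg_right ?_ (abs_nonneg _)
    rw [div_le_iff₀ (by linarith)]
    nlinarith

theorem T13_zq {q : ℕ} [NeZero q] (ε y : ℝ) :
    zp ε y / q = ((y * Real.sin ε / q : ℝ) : ℂ) + ((y * Real.cos ε / q : ℝ) : ℂ) * I := by
  rw [zp_eq]
  push_cast
  ring

theorem T13_caseA {q : ℕ} [NeZero q] (χ : DirichletCharacter ℂ q) (p : ℕ) (hpar : χ (-1) = (-1) ^ p)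
    (hq : 1 < q ∨ 0 < p) : ∃ B : ℝ, 0 ≤ B ∧ ∀ ε y : ℝ, 0 < ε → ε ≤ 1 / 2 → 0 < y →
      y * Real.sin ε / q ≤ 1 → ∃ (c : ℕ) (a : ℤ), 1 ≤ c ∧ ‖th q (fun n => χ n) p (zp ε y)‖ ^ 2 ≤
        B * (ε * y) ^ (-(p : ℝ)) / (c * (ε * y + |y - q / Real.cos ε * a / c|)) := by
  obtain ⟨C, hC0, hC⟩ := th_ell χ
  refine ⟨(p.factorial * C) ^ 2 * (2 * q) ^ (p + 1), by positivity, ?_⟩
  intro ε y h0 h1 hy hσ1
  have hq0 : (0 : ℝ) < q := Nat.cast_pos.2 (Nat.pos_of_ne_zero (NeZero.ne q))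
  obtain ⟨g1, g2⟩ := T13_geom (q := q) h0 h1 hy
  have hzq := T13_zq (q := q) ε y
  set σ : ℝ := y * Real.sin ε / q with hσ
  set t : ℝ := y * Real.cos ε / q with ht
  have hσ0 : 0 < σ := by
    have := sin_pos' h0 h1
    positivity
  have hs0 : 0 < √σ := Real.sqrt_pos.2 hσ0
  have hs1 : √σ ≤ 1 := Real.sqrt_le_one.2 hσ1
  have hss : √σ * √σ = σ := Real.mul_self_sqrt hσ0.le
  have hn1 : 0 < ⌊1 / √σ⌋₊ := by
    rw [Nat.floor_pos, le_div_iff₀ hs0]
    linarith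
  obtain ⟨r, hr1, hr2⟩ := Real.exists_rat_abs_sub_le_and_den_le t hn1
  have hc1 : 1 ≤ r.den := r.pos
  have hcR : (1 : ℝ) ≤ r.den := by exact_mod_cast hc1
  have hcs : (r.den : ℝ) * √σ ≤ 1 := by
    have h2 : (r.den : ℝ) ≤ 1 / √σ := by
      refine le_trans ?_ (Nat.floor_le (by positivity))
      exact_mod_cast hr2
    rwa [le_div_iff₀ hs0] at h2
  set η : ℝ := t - r.num / r.den with hη
  have hη1 : |η| ≤ √σ / r.den := by
    rw [Rat.cast_def] at hr1
    refine hr1.trans ?_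
    rw [← div_div]
    refine div_le_div_of_nonneg_right ?_ (by positivity)
    have h2 : 1 / √σ < (⌊1 / √σ⌋₊ : ℝ) + 1 := Nat.lt_floor_add_one _
    rw [div_le_iff₀ (by positivity)]
    rw [div_lt_iff₀ hs0] at h2
    linarith
  have hcη : (r.den : ℝ) * |η| ≤ √σ := by
    rw [le_div_iff₀ (by positivity)] at hη1
    linarith
  have hgcd : Int.gcd r.num (r.den : ℤ) = 1 := by
    have := r.reduced
    rw [Int.gcd]
    simpa using this
  have hquad : (r.den : ℝ) ^ 2 * (σ ^ 2 + η ^ 2) ≤ 4 * σ := by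
    have e1 : ((r.den : ℝ) * √σ) * ((r.den : ℝ) * √σ) ≤ 1 * 1 :=
      mul_le_mul hcs hcs (by positivity) (by norm_num)
    have e2 : ((r.den : ℝ) * |η|) * ((r.den : ℝ) * |η|) ≤ √σ * √σ :=
      mul_le_mul hcη hcη (by positivity) hs0.le
    have e3 : ((r.den : ℝ) * |η|) * ((r.den : ℝ) * |η|) = (r.den : ℝ) ^ 2 * η ^ 2 := by
      rw [← sq_abs η]
      ring
    have e4 : ((r.den : ℝ) * √σ) * ((r.den : ℝ) * √σ) = (r.den : ℝ) ^ 2 * σ := by
      calc _ = (r.den : ℝ) ^ 2 * (√σ * √σ) := by ring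
        _ = _ := by rw [hss]
    rw [e3, hss] at e2
    rw [e4, one_mul] at e1
    nlinarith
  have hz : 0 < (zp ε y).re := by
    rw [zp_re]
    have := sin_pos' h0 h1
    positivity
  have hco := T13_coeff p hs0 hσ0
    (a := fun n : ℤ => χ (n : ZMod q) * exp (-(π * (n : ℂ) ^ 2 * (zp ε y / q))))
    (M := C * (r.den * (σ + |η|)) ^ (-(1 / 2 : ℝ))) ?_ ?_
  · rw [T13_par χ p hpar hq hz] at hco
    have hD : 0 < (r.den : ℝ) * (σ + |η|) := by positivity
    have h3 : ‖th q (fun n => χ n) p (zp ε y)‖ ≤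
        p.factorial * (C * (r.den * (σ + |η|)) ^ (-(1 / 2 : ℝ))) / √σ ^ p := by
      refine le_trans ?_ hco
      rw [norm_mul]
      refine le_mul_of_one_le_left (norm_nonneg _) ?_
      have : ‖(2 * (2 * π) ^ p : ℂ)‖ = 2 * (2 * π) ^ p := by
        rw [norm_mul, norm_pow, norm_mul, Complex.norm_real, Real.norm_eq_abs,
          abs_of_pos Real.pi_pos]
        norm_num
      rw [this]
      have : (1 : ℝ) ≤ (2 * π) ^ p := one_le_pow₀ (by linarith [Real.pi_gt_three])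
      linarith
    refine ⟨r.den, r.num, hc1, ?_⟩
    have h4 : ‖th q (fun n => χ n) p (zp ε y)‖ ^ 2 ≤
        (p.factorial * C) ^ 2 * ((r.den * (σ + |η|))⁻¹ * (σ ^ p)⁻¹) := by
      refine (pow_le_pow_left₀ (norm_nonneg _) h3 2).trans (le_of_eq ?_)
      have e1 : ((r.den * (σ + |η|)) ^ (-(1 / 2 : ℝ))) ^ 2 = (r.den * (σ + |η|))⁻¹ := by
        rw [← Real.rpow_natCast, ← Real.rpow_mul hD.le, ← Real.rpow_neg_one]
        norm_num
      have e2 : (√σ ^ p) ^ 2 = σ ^ p := by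
        rw [← pow_mul, mul_comm, pow_mul, Real.sq_sqrt hσ0.le]
      rw [div_pow, mul_pow, mul_pow, e1, e2, mul_pow, div_eq_mul_inv]
      ring
    refine h4.trans ?_
    rw [mul_assoc, mul_div_assoc]
    refine mul_le_mul_of_nonneg_left ?_ (by positivity)
    have hey : 0 < ε * y := by positivity
    have g3 : |y - q / Real.cos ε * r.num / r.den| ≤ 2 * q * |η| := by
      have := g2 (r.num / r.den)
      rwa [← mul_div_assoc] at this
    rw [Real.rpow_neg hey.le, Real.rpow_natCast]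
    have e5 : (ε * y) ^ p ≤ (2 * q) ^ p * σ ^ p := by
      rw [← mul_pow]
      exact pow_le_pow_left₀ hey.le g1 p
    have e6 : ε * y + |y - q / Real.cos ε * r.num / r.den| ≤ 2 * q * (σ + |η|) := by
      rw [mul_add]
      exact add_le_add g1 g3
    have e7 : 0 < ε * y + |y - q / Real.cos ε * r.num / r.den| := by positivity
    rw [← mul_inv, inv_eq_one_div, mul_comm ((2 * (q : ℝ)) ^ (p + 1)), ← div_eq_inv_mul,
      div_div, div_le_div_iff₀ (by positivity) (by positivity), one_mul]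
    calc (ε * y) ^ p * (r.den * (ε * y + |y - q / Real.cos ε * r.num / r.den|))
        ≤ ((2 * q) ^ p * σ ^ p) * (r.den * (2 * q * (σ + |η|))) := by
          refine mul_le_mul e5 ?_ (by positivity) (by positivity)
          exact mul_le_mul_of_nonneg_left e6 (by positivity)
      _ = (2 * q) ^ (p + 1) * (r.den * (σ + |η|) * σ ^ p) := by ring
  · intro n
    rw [norm_mul]
    refine (mul_le_of_le_one_left (norm_nonneg _) (χ.norm_le_one _)).trans ?_
    rw [Complex.norm_exp]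
    refine Real.exp_le_exp.2 (le_of_eq ?_)
    rw [hzq]
    have : (-(π * (n : ℂ) ^ 2 * ((σ : ℂ) + (t : ℂ) * I))) =
        ((-(π * σ * (n : ℝ) ^ 2) : ℝ) : ℂ) + ((-(π * (n : ℝ) ^ 2 * t) : ℝ) : ℂ) * I := by
      push_cast
      ring
    rw [this, add_re, ofReal_re, re_ofReal_mul, I_re, mul_zero, add_zero]
  · intro b hb
    have h5 := hC r.den r.num σ η b hc1 hgcd hσ0 hσ1 hquad hb
    refine le_trans (le_of_eq ?_) h5
    congr 1
    refine tsum_congr fun n => ?_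
    have e8 : (t : ℂ) = (r.num : ℂ) / (r.den : ℂ) + (η : ℂ) := by
      rw [hη]
      push_cast
      ring
    have e9 : exp (-(π * (n : ℂ) ^ 2 * (zp ε y / q))) * exp (2 * π * b * n) =
        exp (-(π * I * r.num * (n : ℂ) ^ 2 / r.den)) *
          exp (-(π * (n : ℂ) ^ 2 * (σ + η * I)) + 2 * π * b * n) := by
      rw [← Complex.exp_add, ← Complex.exp_add, hzq, e8]
      congr 1
      ring
    rw [mul_assoc, e9, ← mul_assoc]

theorem T13_caseB {q : ℕ} [NeZero q] (χ : DirichletCharacter ℂ q) (p : ℕ) :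
    ∃ B : ℝ, 0 ≤ B ∧ ∀ ε y : ℝ, 0 < ε → ε ≤ 1 / 2 → 0 < y →
      1 ≤ y * Real.sin ε / q → ∃ (c : ℕ) (a : ℤ), 1 ≤ c ∧ ‖th q (fun n => χ n) p (zp ε y)‖ ^ 2 ≤
        B * (ε * y) ^ (-(p : ℝ)) / (c * (ε * y + |y - q / Real.cos ε * a / c|)) := by
  set S : ℝ := ∑' n : ℕ, ((n : ℝ) + 1) ^ p * Real.exp (-(π * ((n : ℝ) + 1) ^ 2)) with hS
  have hsum : Summable (fun n : ℕ => ((n : ℝ) + 1) ^ p * Real.exp (-(π * ((n : ℝ) + 1) ^ 2))) := by
    have h := th_summable (q := 1) one_pos (f := fun _ => 1) (by simp) p (z := 1) (by simp)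
    refine h.congr fun n => ?_
    rw [norm_mul, norm_mul, norm_one, one_mul, norm_pow, Complex.norm_exp]
    congr 1
    · congr 1
      have : ((n : ℂ) + 1) = (((n : ℝ) + 1 : ℝ) : ℂ) := by push_cast; ring
      rw [this, Complex.norm_real, Real.norm_eq_abs, abs_of_pos (by positivity)]
    · congr 1
      have : (-(π * ((n : ℂ) + 1) ^ 2 * 1 / ((1 : ℕ) : ℂ))) = ((-(π * ((n : ℝ) + 1) ^ 2) : ℝ) : ℂ) := by
        push_cast
        ring
      rw [this, ofReal_re]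
  have hS0 : 0 ≤ S := tsum_nonneg fun n => by positivity
  refine ⟨S ^ 2 * (2 * (2 * q) ^ (p + 1) * ((p + 1).factorial * Real.exp (2 * π))), by positivity, ?_⟩
  intro ε y h0 h1 hy hσ1
  have hq0 : (0 : ℝ) < q := Nat.cast_pos.2 (Nat.pos_of_ne_zero (NeZero.ne q))
  have hq1 : (1 : ℝ) ≤ q := by exact_mod_cast (Nat.pos_of_ne_zero (NeZero.ne q))
  obtain ⟨g1, g2⟩ := T13_geom (q := q) h0 h1 hy
  have hzq := T13_zq (q := q) ε y
  set σ : ℝ := y * Real.sin ε / q with hσ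
  set t : ℝ := y * Real.cos ε / q with ht
  have hσ0 : 0 < σ := by linarith
  have h2 : ‖th q (fun n => χ n) p (zp ε y)‖ ≤ S * Real.exp (-(π * (σ - 1))) := by
    unfold th
    refine tsum_of_norm_bounded (hsum.hasSum.mul_right (Real.exp (-(π * (σ - 1))))) fun n => ?_
    rw [norm_mul, norm_mul]
    have e1 : ‖((n : ℂ) + 1) ^ p‖ = ((n : ℝ) + 1) ^ p := by
      rw [norm_pow]
      congr 1
      have : ((n : ℂ) + 1) = (((n : ℝ) + 1 : ℝ) : ℂ) := by push_cast; ring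
      rw [this, Complex.norm_real, Real.norm_eq_abs, abs_of_pos (by positivity)]
    have e2 : ‖exp (-(π * ((n : ℂ) + 1) ^ 2 * zp ε y / q))‖ = Real.exp (-(π * ((n : ℝ) + 1) ^ 2 * σ)) := by
      rw [Complex.norm_exp, mul_div_assoc, hzq]
      congr 1
      have : (-(π * ((n : ℂ) + 1) ^ 2 * ((σ : ℂ) + (t : ℂ) * I))) =
          ((-(π * ((n : ℝ) + 1) ^ 2 * σ) : ℝ) : ℂ) + ((-(π * ((n : ℝ) + 1) ^ 2 * t) : ℝ) : ℂ) * I := by
        push_cast
        ring
      rw [this, add_re, ofReal_re, re_ofReal_mul, I_re, mul_zero, add_zero]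
    rw [e1, e2]
    have e3 : ‖(fun n : ℕ => χ n) (n + 1)‖ ≤ 1 := χ.norm_le_one _
    have e4 : Real.exp (-(π * ((n : ℝ) + 1) ^ 2 * σ)) ≤
        Real.exp (-(π * ((n : ℝ) + 1) ^ 2)) * Real.exp (-(π * (σ - 1))) := by
      rw [← Real.exp_add]
      refine Real.exp_le_exp.2 ?_
      have e5 : (1 : ℝ) ≤ ((n : ℝ) + 1) ^ 2 := one_le_pow₀ (by linarith [Nat.cast_nonneg (α := ℝ) n])
      have e6 : 0 ≤ π * ((((n : ℝ) + 1) ^ 2 - 1) * (σ - 1)) :=
        mul_nonneg Real.pi_pos.le (mul_nonneg (by linarith) (by linarith))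
      linarith
    calc ‖(fun n : ℕ => χ n) (n + 1)‖ * ((n : ℝ) + 1) ^ p * Real.exp (-(π * ((n : ℝ) + 1) ^ 2 * σ))
        ≤ 1 * ((n : ℝ) + 1) ^ p * (Real.exp (-(π * ((n : ℝ) + 1) ^ 2)) * Real.exp (-(π * (σ - 1)))) := by
          refine mul_le_mul ?_ e4 (Real.exp_pos _).le (by positivity)
          exact mul_le_mul_of_nonneg_right e3 (by positivity)
      _ = ((n : ℝ) + 1) ^ p * Real.exp (-(π * ((n : ℝ) + 1) ^ 2)) * Real.exp (-(π * (σ - 1))) := by ring
  refine ⟨1, round t, le_refl _, ?_⟩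
  have h3 : |t - round t| ≤ 1 / 2 := abs_sub_round t
  have g3 : |y - q / Real.cos ε * (round t : ℝ) / ((1 : ℕ) : ℝ)| ≤ q := by
    rw [Nat.cast_one, div_one]
    refine (g2 (round t)).trans ?_
    nlinarith
  have hey : 0 < ε * y := by positivity
  have h4 : ‖th q (fun n => χ n) p (zp ε y)‖ ^ 2 ≤ S ^ 2 * Real.exp (-(2 * π * (σ - 1))) := by
    refine (pow_le_pow_left₀ (norm_nonneg _) h2 2).trans (le_of_eq ?_)
    rw [mul_pow, ← Real.exp_nat_mul]
    congr 2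
    push_cast
    ring
  refine h4.trans ?_
  rw [show ∀ A B C D : ℝ, A * B * C / D = A * (B * C / D) from fun A B C D => by ring]
  refine mul_le_mul_of_nonneg_left ?_ (by positivity)
  rw [Real.rpow_neg hey.le, Real.rpow_natCast, Nat.cast_one, one_mul]
  rw [Nat.cast_one] at g3
  have e7 : 0 < ε * y + |y - q / Real.cos ε * (round t : ℝ) / 1| := by positivity
  rw [mul_comm _ (((ε * y) ^ p)⁻¹), ← div_eq_inv_mul, div_div, le_div_iff₀ (by positivity)]
  have e5 : (ε * y) ^ p ≤ (2 * q) ^ p * σ ^ p := by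
    rw [← mul_pow]
    exact pow_le_pow_left₀ hey.le g1 p
  have e6 : ε * y + |y - q / Real.cos ε * (round t : ℝ) / 1| ≤ 2 * (2 * q * σ) := by
    nlinarith
  have e8 : σ ^ (p + 1) ≤ (p + 1).factorial * Real.exp σ := by
    have := Real.pow_div_factorial_le_exp σ hσ0.le (p + 1)
    rw [div_le_iff₀ (by positivity)] at this
    linarith
  have e9 : Real.exp (-(2 * π * (σ - 1))) * Real.exp σ ≤ Real.exp (2 * π) := by
    rw [← Real.exp_add]
    refine Real.exp_le_exp.2 ?_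
    nlinarith [Real.pi_gt_three]
  calc Real.exp (-(2 * π * (σ - 1))) * ((ε * y) ^ p * (ε * y + |y - q / Real.cos ε * (round t : ℝ) / 1|))
      ≤ Real.exp (-(2 * π * (σ - 1))) * (((2 * q) ^ p * σ ^ p) * (2 * (2 * q * σ))) := by
        refine mul_le_mul_of_nonneg_left ?_ (Real.exp_pos _).le
        exact mul_le_mul e5 e6 e7.le (by positivity)
    _ = 2 * (2 * q) ^ (p + 1) * (Real.exp (-(2 * π * (σ - 1))) * σ ^ (p + 1)) := by ring
    _ ≤ 2 * (2 * q) ^ (p + 1) * (Real.exp (-(2 * π * (σ - 1))) * ((p + 1).factorial * Real.exp σ)) := by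
        refine mul_le_mul_of_nonneg_left ?_ (by positivity)
        exact mul_le_mul_of_nonneg_left e8 (Real.exp_pos _).le
    _ = 2 * (2 * q) ^ (p + 1) * ((p + 1).factorial * (Real.exp (-(2 * π * (σ - 1))) * Real.exp σ)) := by ring
    _ ≤ 2 * (2 * q) ^ (p + 1) * ((p + 1).factorial * Real.exp (2 * π)) := by
        refine mul_le_mul_of_nonneg_left ?_ (by positivity)
        exact mul_le_mul_of_nonneg_left e9 (by positivity)

/-- Row T13. Pointwise bound of the theta function at the edge of the half plane. -/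
theorem th_bound {q : ℕ} [NeZero q] (χ : DirichletCharacter ℂ q) (p : ℕ) (hpar : χ (-1) = (-1) ^ p)
    (hq : 1 < q ∨ 0 < p) : ∃ B : ℝ, 0 ≤ B ∧ ∀ ε y : ℝ, 0 < ε → ε ≤ 1 / 2 → 0 < y →
      ∃ (c : ℕ) (a : ℤ), 1 ≤ c ∧ ‖th q (fun n => χ n) p (zp ε y)‖ ^ 2 ≤
        B * (ε * y) ^ (-(p : ℝ)) / (c * (ε * y + |y - q / Real.cos ε * a / c|)) := by
  obtain ⟨B1, hB1, h1⟩ := T13_caseA χ p hpar hq
  obtain ⟨B2, hB2, h2⟩ := T13_caseB χ p
  refine ⟨B1 + B2, by positivity, ?_⟩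
  intro ε y k0 k1 hy
  have hey : 0 < ε * y := by positivity
  rcases le_total (y * Real.sin ε / q) 1 with hs | hs
  · obtain ⟨c, a, hc, h⟩ := h1 ε y k0 k1 hy hs
    refine ⟨c, a, hc, h.trans ?_⟩
    refine div_le_div_of_nonneg_right ?_ (by positivity)
    exact mul_le_mul_of_nonneg_right (by linarith) (Real.rpow_nonneg hey.le _)
  · obtain ⟨c, a, hc, h⟩ := h2 ε y k0 k1 hy hs
    refine ⟨c, a, hc, h.trans ?_⟩
    refine div_le_div_of_nonneg_right ?_ (by positivity)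
    exact mul_le_mul_of_nonneg_right (by linarith) (Real.rpow_nonneg hey.le _)

end TT
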