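import Pool.Agent.Lib.MP_0f5a55_nt.TT.T03
import Pool.Agent.Lib.MP_0f5a55_nt.TT.T05
import Pool.Agent.Lib.MP_0f5a55_nt.TT.T06
import Pool.Agent.Lib.MP_0f5a55_nt.TT.T07

open Complex MeasureTheory Set Filter Topology
open scoped Real ComplexConjugate

namespace TT

theorem T14_exp {pa pc : ℕ} (k : ℕ) {Y v : ℝ} (hY : 0 < Y)
    (hv : Real.exp (2 * v) ≤ Real.exp 2 * Y) :
    Real.exp ((1 / 2 + pc) * v) * Real.exp ((1 + (pa + pc)) * k) *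
      (Real.exp (2 * k) ^ (-(((pa + pc : ℕ) : ℝ) / 2)) * Y ^ (-((pc : ℝ) / 2))) ≤
      Real.exp (1 / 2 + pc) * (Y ^ (1 / 4 : ℝ) * Real.exp k) := by
  have h1 : Real.exp (2 * k) ^ (-(((pa + pc : ℕ) : ℝ) / 2)) = Real.exp (-((pa + pc) * k)) := by
    rw [← Real.exp_mul]
    congr 1
    push_cast
    ring
  have h2 : Real.exp ((1 / 2 + pc) * v) ≤ Real.exp (1 / 2 + pc) * Y ^ (1 / 4 + (pc : ℝ) / 2) := by
    have e1 : Real.exp ((1 / 2 + pc) * v) = Real.exp (2 * v) ^ (1 / 4 + (pc : ℝ) / 2) := by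
      rw [← Real.exp_mul]
      congr 1
      ring
    have e2 : Real.exp (1 / 2 + pc) = Real.exp 2 ^ (1 / 4 + (pc : ℝ) / 2) := by
      rw [← Real.exp_mul]
      congr 1
      ring
    rw [e1, e2, ← Real.mul_rpow (Real.exp_pos _).le hY.le]
    exact Real.rpow_le_rpow (Real.exp_pos _).le hv (by positivity)
  have h3 : Real.exp ((1 + (pa + pc)) * k) * Real.exp (-((pa + pc) * k)) = Real.exp (k : ℝ) := by
    rw [← Real.exp_add]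
    congr 1
    ring
  have h4 : Y ^ (1 / 4 + (pc : ℝ) / 2) * Y ^ (-((pc : ℝ) / 2)) = Y ^ (1 / 4 : ℝ) := by
    rw [← Real.rpow_add hY]
    congr 1
    ring
  rw [h1]
  calc Real.exp ((1 / 2 + pc) * v) * Real.exp ((1 + (pa + pc)) * k) *
        (Real.exp (-((pa + pc) * k)) * Y ^ (-((pc : ℝ) / 2)))
      = Real.exp ((1 / 2 + pc) * v) * Y ^ (-((pc : ℝ) / 2)) *
        (Real.exp ((1 + (pa + pc)) * k) * Real.exp (-((pa + pc) * k))) := by ring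
    _ = Real.exp ((1 / 2 + pc) * v) * Y ^ (-((pc : ℝ) / 2)) * Real.exp (k : ℝ) := by rw [h3]
    _ ≤ Real.exp (1 / 2 + pc) * Y ^ (1 / 4 + (pc : ℝ) / 2) * Y ^ (-((pc : ℝ) / 2)) *
        Real.exp (k : ℝ) := by
        have := Real.rpow_nonneg hY.le (-((pc : ℝ) / 2))
        gcongr
    _ = Real.exp (1 / 2 + pc) * (Y ^ (1 / 4 + (pc : ℝ) / 2) * Y ^ (-((pc : ℝ) / 2))) *
        Real.exp (k : ℝ) := by ring
    _ = Real.exp (1 / 2 + pc) * (Y ^ (1 / 4 : ℝ) * Real.exp k) := by rw [h4]; ring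

/-- Row T14. -/
theorem Gk_bound {qa qc : ℕ} (ha : 0 < qa) (hc : 0 < qc) {fa fc : ℕ → ℂ}
    (ma : ∀ m n : ℕ, fa (m * n) = fa m * fa n) (mc : ∀ m n : ℕ, fc (m * n) = fc m * fc n)
    (ba : ∀ n, ‖fa n‖ ≤ 1) (bc : ∀ n, ‖fc n‖ ≤ 1) {M : ℝ}
    (hM : ∀ N : ℕ, ‖∑ g ∈ Finset.range N, fa (g + 1) * conj (fc (g + 1))‖ ≤ M) (pa pc : ℕ) :
    ∃ C : ℝ, 0 ≤ C ∧ ∀ W : ℝ → ℝ, Adm W → ∀ ε : ℝ, 0 < ε → ε ≤ 1 / 2 → ∀ (k : ℕ) (Y v : ℝ),
      Real.exp (-2) ≤ Y → Y ≤ Real.exp (2 * v) → Real.exp (2 * v) ≤ Real.exp 2 * Y →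
      ‖Gk qa qc fa fc pa pc W ε k v‖ ≤ C * (Y ^ (1 / 4 : ℝ) * Real.exp k *
        ε ^ (-(max (((pa + pc : ℕ) : ℝ) / 2) 2))) *
          Sf ((qc : ℝ) / qa) ε Y (Real.exp (2 * k)) (Real.exp (2 * v)) := by
  have hpsi : ∀ n, ‖(fun n => fa n * conj (fc n)) n‖ ≤ 1 := by
    intro n
    show ‖fa n * conj (fc n)‖ ≤ 1
    rw [norm_mul, Complex.norm_conj]
    exact mul_le_one₀ (ba n) (norm_nonneg _) (bc n)
  obtain ⟨A, C2, hC2, hT⟩ := term_le ha hc pa pc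
  obtain ⟨C1, hC1, hH⟩ := HH_bound hpsi hM (pa + pc) A
  have hcs : (0 : ℝ) < (qc : ℝ) / qa := by
    have h1 : (0 : ℝ) < qa := by exact_mod_cast ha
    have h2 : (0 : ℝ) < qc := by exact_mod_cast hc
    positivity
  obtain ⟨C3, hC3, hS⟩ := Sf_bdd hcs
  refine ⟨C1 * C2 * Real.exp (1 / 2 + pc), by positivity, ?_⟩
  intro W hW ε h0 h1 k Y v hY1 hY2 hY3
  have hY0 : 0 < Y := lt_of_lt_of_le (Real.exp_pos _) hY1
  have hK : (1 : ℝ) ≤ Real.exp (2 * k) := Real.one_le_exp (by positivity)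
  have hK0 : (0 : ℝ) < Real.exp (2 * k) := Real.exp_pos _
  obtain ⟨hsum, -⟩ := hS ε Y (Real.exp (2 * k)) (Real.exp (2 * v)) h0 h1 hY1 hK hY2 hY3
  have hb : ∀ x : ℕ × ℕ,
      (if Nat.Coprime (x.1 + 1) (x.2 + 1) then
          (((x.1 + 1 : ℕ) : ℝ) ^ pa * ((x.2 + 1 : ℕ) : ℝ) ^ pc) *
            ‖HH (fun n => fa n * conj (fc n)) (pa + pc) W (k + v)
              (((Real.exp (2 * k) : ℝ) : ℂ) * zab qa qc ε (Real.exp (2 * v)) (x.1 + 1) (x.2 + 1))‖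
          else 0) ≤
      (C1 * (C2 * (Real.exp (2 * k) ^ (-(((pa + pc : ℕ) : ℝ) / 2)) * Y ^ (-((pc : ℝ) / 2)) *
        ε ^ (-(max (((pa + pc : ℕ) : ℝ) / 2) 2))))) *
        (if Nat.Coprime (x.1 + 1) (x.2 + 1) then
          sf ((qc : ℝ) / qa) ε Y (Real.exp (2 * k)) (Real.exp (2 * v)) (x.1 + 1) (x.2 + 1) else 0) := by
    intro x
    split_ifs with hx
    · have hre : 0 < (((Real.exp (2 * k) : ℝ) : ℂ) *
          zab qa qc ε (Real.exp (2 * v)) (x.1 + 1) (x.2 + 1)).re := by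
        rw [re_ofReal_mul, zab_re]
        have s := sin_pos' h0 h1
        have q1 : (0 : ℝ) < qa := by exact_mod_cast ha
        have q2 : (0 : ℝ) < qc := by exact_mod_cast hc
        have a1 : (0 : ℝ) < ((x.1 + 1 : ℕ) : ℝ) := by positivity
        have := Real.exp_pos (2 * v)
        positivity
      have h2 := hH W hW (k + v) _ hre
      have h3 := hT ε Y (Real.exp (2 * k)) (Real.exp (2 * v)) (x.1 + 1) (x.2 + 1) h0 h1 hY1 hK hY2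
        hY3 (Nat.le_add_left _ _) (Nat.le_add_left _ _)
      have h4 : (0 : ℝ) ≤ ((x.1 + 1 : ℕ) : ℝ) ^ pa * ((x.2 + 1 : ℕ) : ℝ) ^ pc := by positivity
      calc _ ≤ (((x.1 + 1 : ℕ) : ℝ) ^ pa * ((x.2 + 1 : ℕ) : ℝ) ^ pc) * (C1 *
            (‖((Real.exp (2 * k) : ℝ) : ℂ) * zab qa qc ε (Real.exp (2 * v)) (x.1 + 1) (x.2 + 1)‖ ^
              (-(((pa + pc : ℕ) : ℝ) / 2)) *
              ((1 + ‖((Real.exp (2 * k) : ℝ) : ℂ) *
                zab qa qc ε (Real.exp (2 * v)) (x.1 + 1) (x.2 + 1)‖) ^ A)⁻¹)) :=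
            mul_le_mul_of_nonneg_left h2 h4
        _ = C1 * ((((x.1 + 1 : ℕ) : ℝ) ^ pa * ((x.2 + 1 : ℕ) : ℝ) ^ pc) *
            (‖((Real.exp (2 * k) : ℝ) : ℂ) * zab qa qc ε (Real.exp (2 * v)) (x.1 + 1) (x.2 + 1)‖ ^
              (-(((pa + pc : ℕ) : ℝ) / 2)) *
              ((1 + ‖((Real.exp (2 * k) : ℝ) : ℂ) *
                zab qa qc ε (Real.exp (2 * v)) (x.1 + 1) (x.2 + 1)‖) ^ A)⁻¹)) := by ring
        _ ≤ C1 * (C2 * (Real.exp (2 * k) ^ (-(((pa + pc : ℕ) : ℝ) / 2)) * Y ^ (-((pc : ℝ) / 2)) *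
            ε ^ (-(max (((pa + pc : ℕ) : ℝ) / 2) 2))) *
              sf ((qc : ℝ) / qa) ε Y (Real.exp (2 * k)) (Real.exp (2 * v)) (x.1 + 1) (x.2 + 1)) :=
            mul_le_mul_of_nonneg_left h3 hC1
        _ = _ := by ring
    · rw [mul_zero]
  have hnn : ∀ x : ℕ × ℕ, (0 : ℝ) ≤
      (if Nat.Coprime (x.1 + 1) (x.2 + 1) then
          (((x.1 + 1 : ℕ) : ℝ) ^ pa * ((x.2 + 1 : ℕ) : ℝ) ^ pc) *
            ‖HH (fun n => fa n * conj (fc n)) (pa + pc) W (k + v)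
              (((Real.exp (2 * k) : ℝ) : ℂ) * zab qa qc ε (Real.exp (2 * v)) (x.1 + 1) (x.2 + 1))‖
          else 0) := by
    intro x
    split_ifs
    · positivity
    · exact le_refl _
  have hsum2 := hsum.mul_left (C1 * (C2 * (Real.exp (2 * k) ^ (-(((pa + pc : ℕ) : ℝ) / 2)) *
    Y ^ (-((pc : ℝ) / 2)) * ε ^ (-(max (((pa + pc : ℕ) : ℝ) / 2) 2)))))
  have hle := Summable.tsum_le_tsum hb (Summable.of_nonneg_of_le hnn hb hsum2) hsum2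
  rw [tsum_mul_left] at hle
  have hSf : 0 ≤ Sf ((qc : ℝ) / qa) ε Y (Real.exp (2 * k)) (Real.exp (2 * v)) := by
    unfold Sf
    refine tsum_nonneg (fun x => ?_)
    split_ifs
    · exact sf_nonneg h0 hY0 hK0.le _ _
    · exact le_refl _
  have hE := T14_exp (pa := pa) (pc := pc) k hY0 hY3
  have hG := Gk_le ha hc ma mc ba bc pa pc hW h0 h1 k v
  have hε : 0 ≤ ε ^ (-(max (((pa + pc : ℕ) : ℝ) / 2) 2)) := Real.rpow_nonneg h0.le _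
  calc ‖Gk qa qc fa fc pa pc W ε k v‖ ≤ _ := hG
    _ ≤ Real.exp ((1 / 2 + pc) * v) * Real.exp ((1 + (pa + pc)) * k) *
        (C1 * (C2 * (Real.exp (2 * k) ^ (-(((pa + pc : ℕ) : ℝ) / 2)) * Y ^ (-((pc : ℝ) / 2)) *
        ε ^ (-(max (((pa + pc : ℕ) : ℝ) / 2) 2)))) *
          Sf ((qc : ℝ) / qa) ε Y (Real.exp (2 * k)) (Real.exp (2 * v))) :=
        mul_le_mul_of_nonneg_left hle (by positivity)
    _ = C1 * C2 * (Real.exp ((1 / 2 + pc) * v) * Real.exp ((1 + (pa + pc)) * k) *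
        (Real.exp (2 * k) ^ (-(((pa + pc : ℕ) : ℝ) / 2)) * Y ^ (-((pc : ℝ) / 2)))) *
        (ε ^ (-(max (((pa + pc : ℕ) : ℝ) / 2) 2)) *
          Sf ((qc : ℝ) / qa) ε Y (Real.exp (2 * k)) (Real.exp (2 * v))) := by ring
    _ ≤ C1 * C2 * (Real.exp (1 / 2 + pc) * (Y ^ (1 / 4 : ℝ) * Real.exp k)) *
        (ε ^ (-(max (((pa + pc : ℕ) : ℝ) / 2) 2)) *
          Sf ((qc : ℝ) / qa) ε Y (Real.exp (2 * k)) (Real.exp (2 * v))) := by
        refine mul_le_mul_of_nonneg_right ?_ (mul_nonneg hε hSf)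
        exact mul_le_mul_of_nonneg_left hE (by positivity)
    _ = _ := by ring

end TT
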