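import Pool.Agent.Lib.MP_0f5a55_nt.TT.T04
import Pool.Agent.Lib.MP_0f5a55_nt.TT.T09
import Pool.Agent.Lib.MP_0f5a55_nt.TT.T13
import Pool.Agent.Lib.MP_0f5a55_nt.TT.T14

open Complex MeasureTheory Set Filter Topology
open scoped Real ComplexConjugate

namespace TT

/-- measurability of the inner integral -/
theorem Gk_meas {qa qc : ℕ} (ha : 0 < qa) (hc : 0 < qc) {fa fc : ℕ → ℂ}
    (ba : ∀ n, ‖fa n‖ ≤ 1) (bc : ∀ n, ‖fc n‖ ≤ 1) (pa pc : ℕ) {W : ℝ → ℝ} (hW : Adm W)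
    {ε : ℝ} (h0 : 0 < ε) (h1 : ε ≤ 1 / 2) (k : ℕ) : StronglyMeasurable (Gk qa qc fa fc pa pc W ε k) := by
  have ca := rho_cont ha ba pa h0 h1
  have cc := rho_cont hc bc pc h0 h1
  have hcont : Continuous (Function.uncurry fun v u : ℝ =>
      rho qa fa pa ε u * conj (rho qc fc pc ε (u + v)) *
        ((phi (u - k) * W (u + v) : ℝ) : ℂ)) := by
    have h2 : Continuous fun x : ℝ × ℝ => rho qa fa pa ε x.2 := ca.comp continuous_snd
    have h3 : Continuous fun x : ℝ × ℝ => rho qc fc pc ε (x.2 + x.1) :=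
      cc.comp (continuous_snd.add continuous_fst)
    have h4 : Continuous fun x : ℝ × ℝ => phi (x.2 - k) :=
      phi_cont.comp (continuous_snd.sub continuous_const)
    have h5 : Continuous fun x : ℝ × ℝ => W (x.2 + x.1) :=
      hW.cont.comp (continuous_snd.add continuous_fst)
    exact (h2.mul (continuous_conj.comp h3)).mul (continuous_ofReal.comp (h4.mul h5))
  exact hcont.stronglyMeasurable.integral_prod_right

/-- the weighted square of the theta function -/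
noncomputable def T15_Th (q : ℕ) (f : ℕ → ℂ) (p : ℕ) (ε y : ℝ) : ℝ :=
  ‖rho q f p ε (Real.log y / 2)‖ ^ 2 * (ε ^ p * |y| ^ (-(1 / 2) : ℝ))

theorem T15_Th_nonneg (q : ℕ) (f : ℕ → ℂ) (p : ℕ) {ε : ℝ} (h0 : 0 < ε) (y : ℝ) :
    0 ≤ T15_Th q f p ε y := by
  unfold T15_Th
  positivity

theorem T15_Th_meas {q : ℕ} (hq : 0 < q) {f : ℕ → ℂ} (hf : ∀ n, ‖f n‖ ≤ 1) (p : ℕ) {ε : ℝ}
    (h0 : 0 < ε) (h1 : ε ≤ 1 / 2) : Measurable (T15_Th q f p ε) := by
  unfold T15_Th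
  have h2 : Measurable fun y : ℝ => rho q f p ε (Real.log y / 2) :=
    (rho_cont hq hf p h0 h1).measurable.comp (Real.measurable_log.div_const 2)
  have h3 : Measurable fun y : ℝ => |y| ^ (-(1 / 2) : ℝ) :=
    (continuous_abs.measurable).pow_const _
  exact (h2.norm.pow_const 2).mul (h3.const_mul _)

theorem T15_Th_eq (q : ℕ) (f : ℕ → ℂ) (p : ℕ) (ε : ℝ) {y : ℝ} (hy : 0 < y) :
    T15_Th q f p ε y = ‖th q f p (zp ε y)‖ ^ 2 * (ε * y) ^ p := by
  unfold T15_Th rho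
  rw [norm_mul, norm_real, Real.norm_of_nonneg (Real.exp_pos _).le,
    show 2 * (Real.log y / 2) = Real.log y by ring, Real.exp_log hy, abs_of_pos hy, mul_pow, mul_pow,
    ← Real.exp_nat_mul]
  have h1 : y ^ (-(1 / 2) : ℝ) = Real.exp (Real.log y * (-(1 / 2))) := Real.rpow_def_of_pos hy _
  have h2 : y ^ p = Real.exp (Real.log y * p) := by
    rw [← Real.rpow_natCast, Real.rpow_def_of_pos hy]
  rw [h1, h2]
  have h3 : Real.exp (Real.log y * p) =
      Real.exp (((2 : ℕ) : ℝ) * ((1 / 2 + p) * (Real.log y / 2))) *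
        Real.exp (Real.log y * (-(1 / 2))) := by
    rw [← Real.exp_add]
    congr 1
    push_cast
    ring
  rw [h3]
  ring

theorem T15_rho {q : ℕ} (f : ℕ → ℂ) (p : ℕ) {ε : ℝ} (h0 : 0 < ε) (v : ℝ) :
    ‖rho q f p ε v‖ = √(T15_Th q f p ε (Real.exp (2 * v))) *
      (ε ^ (-((p : ℝ) / 2)) * Real.exp (v / 2)) := by
  unfold T15_Th
  rw [Real.log_exp, show 2 * v / 2 = v by ring, abs_of_pos (Real.exp_pos _)]
  have h1 : (ε ^ p * Real.exp (2 * v) ^ (-(1 / 2) : ℝ)) =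
      (ε ^ ((p : ℝ) / 2) * Real.exp (-(v / 2))) ^ 2 := by
    rw [mul_pow, ← Real.rpow_natCast ε p, ← Real.exp_mul, ← Real.rpow_natCast (ε ^ ((p : ℝ) / 2)),
      ← Real.rpow_mul h0.le, ← Real.exp_nat_mul]
    congr 2
    · push_cast
      ring
    · push_cast
      ring
  rw [h1, ← mul_pow, Real.sqrt_sq (by positivity), Real.rpow_neg h0.le, Real.exp_neg]
  have h2 : 0 < ε ^ ((p : ℝ) / 2) := Real.rpow_pos_of_pos h0 _
  have h3 : 0 < Real.exp (v / 2) := Real.exp_pos _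
  field_simp

theorem T15_image (l : ℕ) :
    (fun v : ℝ => Real.exp (2 * v)) '' Icc ((l : ℝ) - 1) l =
      Icc (Real.exp (2 * ((l : ℝ) - 1))) (Real.exp 2 * Real.exp (2 * ((l : ℝ) - 1))) := by
  ext y
  constructor
  · rintro ⟨v, ⟨h1, h2⟩, rfl⟩
    refine ⟨Real.exp_le_exp.2 (by linarith), ?_⟩
    rw [← Real.exp_add]
    exact Real.exp_le_exp.2 (by linarith)
  · rintro ⟨h1, h2⟩
    have hy : 0 < y := lt_of_lt_of_le (Real.exp_pos _) h1
    rw [← Real.exp_add] at h2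
    refine ⟨Real.log y / 2, ⟨?_, ?_⟩, ?_⟩
    · have := (Real.le_log_iff_exp_le hy).2 h1
      linarith
    · have := (Real.log_le_iff_le_exp hy).2 h2
      linarith
    · change Real.exp (2 * (Real.log y / 2)) = y
      rw [show 2 * (Real.log y / 2) = Real.log y by ring, Real.exp_log hy]

/-- Row T15. One box. -/
theorem box {qa qc : ℕ} (ha : 0 < qa) (hc : 0 < qc) {fa fc : ℕ → ℂ}
    (ma : ∀ m n : ℕ, fa (m * n) = fa m * fa n) (mc : ∀ m n : ℕ, fc (m * n) = fc m * fc n)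
    (ba : ∀ n, ‖fa n‖ ≤ 1) (bc : ∀ n, ‖fc n‖ ≤ 1) {M : ℝ}
    (hM : ∀ N : ℕ, ‖∑ g ∈ Finset.range N, fa (g + 1) * conj (fc (g + 1))‖ ≤ M) (pa pc : ℕ)
    {qb : ℕ} [NeZero qb] (χ : DirichletCharacter ℂ qb) (pb : ℕ) (hpar : χ (-1) = (-1) ^ pb)
    (hq : 1 < qb ∨ 0 < pb) :
    ∃ C : ℝ, 0 ≤ C ∧ ∀ W : ℝ → ℝ, Adm W → ∀ ε : ℝ, 0 < ε → ε ≤ 1 / 2 → ∀ k l : ℕ,
      IntegrableOn (fun v => ‖rho qb (fun n => χ n) pb ε v‖ * ‖Gk qa qc fa fc pa pc W ε k v‖)
        (Icc ((l : ℝ) - 1) l) ∧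
      ∫ v in Icc ((l : ℝ) - 1) l, ‖rho qb (fun n => χ n) pb ε v‖ * ‖Gk qa qc fa fc pa pc W ε k v‖ ≤
        C * ε ^ (-(1 / 4 + (pb : ℝ) / 2 + max (((pa + pc : ℕ) : ℝ) / 2) 2)) *
          (Real.exp (-(k / 2 : ℝ)) * Real.exp (-(l / 4 : ℝ))) := by
  have hqb : 0 < qb := Nat.pos_of_ne_zero (NeZero.ne qb)
  have hqbR : (0 : ℝ) < qb := by exact_mod_cast hqb
  have hcs : (0 : ℝ) < (qc : ℝ) / qa := by
    have h1 : (0 : ℝ) < qc := by exact_mod_cast hc
    have h2 : (0 : ℝ) < qa := by exact_mod_cast ha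
    positivity
  have hχ : ∀ n : ℕ, ‖(fun n : ℕ => χ n) n‖ ≤ 1 := fun n => χ.norm_le_one _
  obtain ⟨B, hB0, hB⟩ := th_bound χ pb hpar hq
  obtain ⟨C₁, hC₁, hG⟩ := Gk_bound ha hc ma mc ba bc hM pa pc
  obtain ⟨C₂, hC₂, hI⟩ := sqrt_theta_int (cs := (qc : ℝ) / qa) (b0 := (qb : ℝ)) (b1 := 2 * qb)
    hcs hqbR
  set mx : ℝ := max (((pa + pc : ℕ) : ℝ) / 2) 2 with hmx
  refine ⟨Real.exp (1 / 4) / 2 * C₁ * C₂ * √B, by positivity, ?_⟩
  intro W hW ε h0 h1 k l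
  -- notation
  set Y : ℝ := Real.exp (2 * ((l : ℝ) - 1)) with hY
  have hYpos : 0 < Y := Real.exp_pos _
  have hl0 : (0 : ℝ) ≤ l := Nat.cast_nonneg l
  have hk0 : (0 : ℝ) ≤ k := Nat.cast_nonneg k
  have hY2 : Real.exp (-2) ≤ Y := Real.exp_le_exp.2 (by linarith)
  have hcos := cos_ge h0 h1
  have hcos1 := Real.cos_le_one ε
  have hcpos : 0 < Real.cos ε := by linarith
  set Th := T15_Th qb (fun n => χ n) pb ε with hTh
  -- the hypothesis of the mean value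
  have hTB : ∀ y ∈ Icc Y (Real.exp 2 * Y), ∃ (c : ℕ) (a : ℤ), 1 ≤ c ∧
      Th y ≤ B / (c * (ε * Y + |y - (qb : ℝ) / Real.cos ε * a / c|)) := by
    intro y hy
    have hy0 : 0 < y := lt_of_lt_of_le hYpos hy.1
    obtain ⟨c, a, hc1, hth⟩ := hB ε y h0 h1 hy0
    refine ⟨c, a, hc1, ?_⟩
    have hcR : (1 : ℝ) ≤ c := by exact_mod_cast hc1
    rw [hTh, T15_Th_eq qb (fun n => χ n) pb ε hy0]
    have hεy : 0 < ε * y := mul_pos h0 hy0
    have hεY : 0 < ε * Y := mul_pos h0 hYpos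
    have hab : 0 ≤ |y - (qb : ℝ) / Real.cos ε * a / c| := abs_nonneg _
    have hp : (ε * y) ^ (-(pb : ℝ)) * (ε * y) ^ pb = 1 := by
      rw [Real.rpow_neg hεy.le, Real.rpow_natCast]
      exact inv_mul_cancel₀ (pow_ne_zero _ hεy.ne')
    calc ‖th qb (fun n => χ n) pb (zp ε y)‖ ^ 2 * (ε * y) ^ pb
        ≤ (B * (ε * y) ^ (-(pb : ℝ)) / (c * (ε * y + |y - (qb : ℝ) / Real.cos ε * a / c|))) *
            (ε * y) ^ pb := mul_le_mul_of_nonneg_right hth (pow_nonneg hεy.le _)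
      _ = B * ((ε * y) ^ (-(pb : ℝ)) * (ε * y) ^ pb) /
            (c * (ε * y + |y - (qb : ℝ) / Real.cos ε * a / c|)) := by ring
      _ = B / (c * (ε * y + |y - (qb : ℝ) / Real.cos ε * a / c|)) := by rw [hp, mul_one]
      _ ≤ B / (c * (ε * Y + |y - (qb : ℝ) / Real.cos ε * a / c|)) := by
          refine div_le_div_of_nonneg_left hB0 (by positivity) ?_
          refine mul_le_mul_of_nonneg_left ?_ (by linarith)
          have := mul_le_mul_of_nonneg_left hy.1 h0.le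
          linarith
  have hβ0 : (qb : ℝ) ≤ (qb : ℝ) / Real.cos ε := by
    rw [le_div_iff₀ hcpos]
    nlinarith
  have hβ1 : (qb : ℝ) / Real.cos ε ≤ 2 * qb := by
    rw [div_le_iff₀ hcpos]
    nlinarith
  have hK1 : (1 : ℝ) ≤ Real.exp (2 * k) := Real.one_le_exp (by linarith)
  obtain ⟨hint, hle⟩ := hI ε Y (Real.exp (2 * k)) ((qb : ℝ) / Real.cos ε) B h0 h1 hY2 hK1 hβ0 hβ1 hB0
    Th (T15_Th_meas hqb hχ pb h0 h1) (T15_Th_nonneg qb _ pb h0) hTB
  set g : ℝ → ℝ := fun y => √(Th y) * Sf ((qc : ℝ) / qa) ε Y (Real.exp (2 * k)) y with hg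
  -- substitution
  have hder : ∀ v ∈ Icc ((l : ℝ) - 1) l,
      HasDerivWithinAt (fun v : ℝ => Real.exp (2 * v)) (2 * Real.exp (2 * v))
        (Icc ((l : ℝ) - 1) l) v := by
    intro v _
    have h := ((hasDerivAt_id v).const_mul 2).exp
    simp only [id, mul_one] at h
    rw [mul_comm]
    exact h.hasDerivWithinAt
  have hinj : InjOn (fun v : ℝ => Real.exp (2 * v)) (Icc ((l : ℝ) - 1) l) := by
    intro a _ b _ hab
    have := Real.exp_injective hab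
    linarith
  have himg := T15_image l
  rw [← hY] at himg
  have hint' : IntegrableOn (fun v : ℝ => |2 * Real.exp (2 * v)| • g (Real.exp (2 * v)))
      (Icc ((l : ℝ) - 1) l) := by
    have := (integrableOn_image_iff_integrableOn_abs_deriv_smul measurableSet_Icc hder hinj g).1
    rw [himg] at this
    exact this hint
  have hsub : ∫ y in Icc Y (Real.exp 2 * Y), g y =
      ∫ v in Icc ((l : ℝ) - 1) l, |2 * Real.exp (2 * v)| • g (Real.exp (2 * v)) := by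
    rw [← himg]
    exact integral_image_eq_integral_abs_deriv_smul measurableSet_Icc hder hinj g
  -- pointwise bound
  set c₀ : ℝ := C₁ * (Y ^ (1 / 4 : ℝ) * Real.exp k * ε ^ (-mx)) *
    (ε ^ (-((pb : ℝ) / 2)) * Y ^ (-(3 / 4) : ℝ)) / 2 with hc₀
  have hc₀0 : 0 ≤ c₀ := by positivity
  have hpt : ∀ v ∈ Icc ((l : ℝ) - 1) l,
      ‖rho qb (fun n => χ n) pb ε v‖ * ‖Gk qa qc fa fc pa pc W ε k v‖ ≤
        c₀ * (|2 * Real.exp (2 * v)| • g (Real.exp (2 * v))) := by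
    intro v hv
    have hyY : Y ≤ Real.exp (2 * v) := Real.exp_le_exp.2 (by linarith [hv.1])
    have hy2 : Real.exp (2 * v) ≤ Real.exp 2 * Y := by
      rw [hY, ← Real.exp_add]
      exact Real.exp_le_exp.2 (by linarith [hv.2])
    have hGv := hG W hW ε h0 h1 k Y v hY2 hyY hy2
    have hGn : 0 ≤ ‖Gk qa qc fa fc pa pc W ε k v‖ := norm_nonneg _
    have hSf : 0 ≤ Sf ((qc : ℝ) / qa) ε Y (Real.exp (2 * k)) (Real.exp (2 * v)) := by
      unfold Sf
      refine tsum_nonneg fun x => ?_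
      split_ifs
      · exact sf_nonneg h0 hYpos (Real.exp_pos _).le _ _
      · exact le_refl _
    have he : Real.exp (v / 2) ≤ Real.exp (2 * v) * Y ^ (-(3 / 4) : ℝ) := by
      have h2 : (Real.exp (2 * v)) ^ (-(3 / 4) : ℝ) ≤ Y ^ (-(3 / 4) : ℝ) :=
        Real.rpow_le_rpow_of_nonpos hYpos hyY (by norm_num)
      have h3 : Real.exp (v / 2) = Real.exp (2 * v) * (Real.exp (2 * v)) ^ (-(3 / 4) : ℝ) := by
        rw [← Real.exp_mul, ← Real.exp_add]
        congr 1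
        ring
      rw [h3]
      exact mul_le_mul_of_nonneg_left h2 (Real.exp_pos _).le
    rw [T15_rho (fun n => χ n) pb h0 v, ← hTh, abs_of_pos (by positivity), smul_eq_mul]
    have hs : 0 ≤ √(Th (Real.exp (2 * v))) := Real.sqrt_nonneg _
    have hε2 : 0 ≤ ε ^ (-((pb : ℝ) / 2)) := (Real.rpow_pos_of_pos h0 _).le
    calc √(Th (Real.exp (2 * v))) * (ε ^ (-((pb : ℝ) / 2)) * Real.exp (v / 2)) *
          ‖Gk qa qc fa fc pa pc W ε k v‖
        ≤ √(Th (Real.exp (2 * v))) * (ε ^ (-((pb : ℝ) / 2)) *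
            (Real.exp (2 * v) * Y ^ (-(3 / 4) : ℝ))) *
          (C₁ * (Y ^ (1 / 4 : ℝ) * Real.exp k * ε ^ (-mx)) *
            Sf ((qc : ℝ) / qa) ε Y (Real.exp (2 * k)) (Real.exp (2 * v))) := by
          refine mul_le_mul ?_ hGv hGn ?_
          · exact mul_le_mul_of_nonneg_left (mul_le_mul_of_nonneg_left he hε2) hs
          · have := (Real.rpow_pos_of_pos hYpos (-(3 / 4) : ℝ)).le
            positivity
      _ = c₀ * (2 * Real.exp (2 * v) * g (Real.exp (2 * v))) := by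
          rw [hc₀, hg]
          ring
  have hmeas : AEStronglyMeasurable (fun v => ‖rho qb (fun n => χ n) pb ε v‖ *
      ‖Gk qa qc fa fc pa pc W ε k v‖) (volume.restrict (Icc ((l : ℝ) - 1) l)) := by
    have h2 : Continuous (rho qb (fun n => χ n) pb ε) := rho_cont hqb hχ pb h0 h1
    exact (h2.norm.aestronglyMeasurable).mul
      (Gk_meas ha hc ba bc pa pc hW h0 h1 k).norm.aestronglyMeasurable
  have hdom : IntegrableOn (fun v => c₀ * (|2 * Real.exp (2 * v)| • g (Real.exp (2 * v))))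
      (Icc ((l : ℝ) - 1) l) := hint'.const_mul c₀
  have hfin : IntegrableOn (fun v => ‖rho qb (fun n => χ n) pb ε v‖ *
      ‖Gk qa qc fa fc pa pc W ε k v‖) (Icc ((l : ℝ) - 1) l) := by
    refine Integrable.mono' hdom hmeas ?_
    rw [ae_restrict_iff' measurableSet_Icc]
    refine Filter.Eventually.of_forall fun v hv => ?_
    rw [Real.norm_of_nonneg (by positivity)]
    exact hpt v hv
  refine ⟨hfin, ?_⟩
  calc ∫ v in Icc ((l : ℝ) - 1) l, ‖rho qb (fun n => χ n) pb ε v‖ *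
        ‖Gk qa qc fa fc pa pc W ε k v‖
      ≤ ∫ v in Icc ((l : ℝ) - 1) l, c₀ * (|2 * Real.exp (2 * v)| • g (Real.exp (2 * v))) :=
        setIntegral_mono_on hfin hdom measurableSet_Icc hpt
    _ = c₀ * ∫ y in Icc Y (Real.exp 2 * Y), g y := by
        rw [integral_const_mul, hsub]
    _ ≤ c₀ * (C₂ * √B * ((ε * Y) ^ (-(1 / 4 : ℝ)) * Y ^ (5 / 8 : ℝ) *
          Real.exp (2 * k) ^ (-(3 / 4 : ℝ)))) := mul_le_mul_of_nonneg_left hle hc₀0
    _ = Real.exp (1 / 4) / 2 * C₁ * C₂ * √B * ε ^ (-(1 / 4 + (pb : ℝ) / 2 + mx)) *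
          (Real.exp (-(k / 2 : ℝ)) * Real.exp (-(l / 4 : ℝ))) := by
        rw [hc₀, Real.mul_rpow h0.le hYpos.le]
        have e1 : ε ^ (-(1 / 4 + (pb : ℝ) / 2 + mx)) =
            ε ^ (-(1 / 4 : ℝ)) * ε ^ (-((pb : ℝ) / 2)) * ε ^ (-mx) := by
          rw [← Real.rpow_add h0, ← Real.rpow_add h0]
          congr 1
          ring
        have e2 : Real.exp (1 / 4) * (Real.exp (-(k / 2 : ℝ)) * Real.exp (-(l / 4 : ℝ))) =
            Y ^ (1 / 4 : ℝ) * Y ^ (-(3 / 4) : ℝ) * Y ^ (-(1 / 4 : ℝ)) * Y ^ (5 / 8 : ℝ) *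
              (Real.exp k * Real.exp (2 * k) ^ (-(3 / 4 : ℝ))) := by
          rw [hY, ← Real.exp_mul, ← Real.exp_mul, ← Real.exp_mul, ← Real.exp_mul, ← Real.exp_mul,
            ← Real.exp_add, ← Real.exp_add, ← Real.exp_add, ← Real.exp_add, ← Real.exp_add,
            ← Real.exp_add, ← Real.exp_add]
          congr 1
          ring
        rw [e1]
        linear_combination (-(C₁ * C₂ * √B * (ε ^ (-(1 / 4 : ℝ)) * ε ^ (-((pb : ℝ) / 2)) *
          ε ^ (-mx)) / 2)) * e2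

end TT
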